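import Pool.Agent.H385R6.HgDefs
import Pool.Agent.H385R2.Dual
import Pool.Agent.H304R3.HK.ThetaH

/-!
TEAM Q3, project HG (helper385), task HG1: Poisson summation for the kernel `KV`, size of the
weights `WV`.
-/

open Complex Filter Topology Set MeasureTheory

namespace H385

open Pool.Agent.H304R3.HK (tc HC CS bb LamK psi bH aH LH Rep)
open Pool.Agent.H304R3.HK.T1 (eqv tc_re tc_im tc_norm)

/-! ### sums over `ℤ` and over `ℤ[i]` -/

theorem HG1_s1 {c : ℝ} (hc : 0 < c) (x : ℝ) :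
    Summable (fun m : ℤ => 1 / (1 + c * (x + m) ^ 2)) := by
  have h := (PK_summable (Real.sqrt c) x (Real.sqrt_pos.2 hc)).mul_left
    (Real.pi / Real.sqrt c)
  refine h.congr fun m => ?_
  have h1 := Real.pi_pos
  have h2 := Real.sqrt_pos.2 hc
  have h3 := Real.sq_sqrt hc.le
  have h4 : 0 < 1 + c * (x + (m : ℝ)) ^ 2 := by positivity
  unfold PK
  rw [h3]
  field_simp

theorem HG1_s2 {c : ℝ} (hc : 0 < c) (x y : ℝ) :
    Summable (fun m : ZI => 1 / (1 + c * (x + m.re) ^ 2) * (1 / (1 + c * (y + m.im) ^ 2))) := by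
  have h := (HG1_s1 hc x).mul_of_nonneg (HG1_s1 hc y) (fun m => by positivity)
    (fun m => by positivity)
  exact (eqv.summable_iff (f := fun m : ZI => 1 / (1 + c * (x + m.re) ^ 2) *
    (1 / (1 + c * (y + m.im) ^ 2)))).1 h

theorem HG1_exp_le {y : ℝ} (hy : 0 ≤ y) : Real.exp (-y) ≤ 1 / (1 + y) := by
  rw [Real.exp_neg, inv_eq_one_div]
  have h := Real.add_one_le_exp y
  exact one_div_le_one_div_of_le (by linarith) (by linarith)

theorem HG1_g1 {c : ℝ} (hc : 0 < c) (x : ℝ) :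
    Summable (fun m : ℤ => Real.exp (-(c * (x + m) ^ 2))) :=
  Summable.of_nonneg_of_le (fun m => (Real.exp_pos _).le)
    (fun m => HG1_exp_le (by positivity)) (HG1_s1 hc x)

/-- one-dimensional Gaussian Poisson summation -/
theorem HG1_pois {a : ℝ} (ha : 0 < a) (x : ℝ) :
    ∑' k : ℤ, cexp (-Real.pi * a * k ^ 2 + 2 * Real.pi * (I * x) * k) =
      1 / (a : ℂ) ^ (1 / 2 : ℂ) * ∑' k : ℤ, ((Real.exp (-(Real.pi / a * (x + k) ^ 2)) : ℝ) : ℂ) := by
  have h := Complex.tsum_exp_neg_quadratic (a := (a : ℂ)) (by rw [ofReal_re]; exact ha) (I * x)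
  rw [h]
  congr 1
  rw [← (Equiv.neg ℤ).tsum_eq]
  refine tsum_congr fun k => ?_
  rw [Complex.ofReal_exp]
  congr 1
  simp only [Equiv.neg_apply]
  push_cast
  have h1 : (-(k : ℂ) + I * (I * x)) ^ 2 = (x + k) ^ 2 := by
    have h2 : I * (I * (x : ℂ)) = -x := by
      rw [← mul_assoc, I_mul_I]
      ring
    rw [h2]
    ring
  rw [h1]
  ring

theorem HG1_pois' {a : ℝ} (ha : 0 < a) (y : ℝ) :
    ∑' k : ℤ, cexp (-Real.pi * a * k ^ 2 + 2 * Real.pi * (I * ((-y : ℝ) : ℂ)) * k) =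
      1 / (a : ℂ) ^ (1 / 2 : ℂ) * ∑' k : ℤ, ((Real.exp (-(Real.pi / a * (y + k) ^ 2)) : ℝ) : ℂ) := by
  rw [HG1_pois ha]
  congr 1
  rw [← (Equiv.neg ℤ).tsum_eq]
  refine tsum_congr fun k => ?_
  simp only [Equiv.neg_apply]
  congr 3
  push_cast
  ring

theorem HG1_norm_summable {a : ℝ} (ha : 0 < a) (x : ℝ) :
    Summable (fun k : ℤ => ‖cexp (-Real.pi * a * k ^ 2 + 2 * Real.pi * (I * x) * k)‖) := by
  have h := HG1_g1 (c := Real.pi * a) (by have := Real.pi_pos; positivity) 0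
  refine h.congr fun k => ?_
  rw [Complex.norm_exp]
  congr 1
  have h1 : (-Real.pi * a * (k : ℂ) ^ 2 + 2 * Real.pi * (I * x) * k) =
      ((-(Real.pi * a * (0 + (k : ℝ)) ^ 2) : ℝ) : ℂ) + ((2 * Real.pi * x * k : ℝ) : ℂ) * I := by
    push_cast
    ring
  rw [h1, add_re, ofReal_re, re_ofReal_mul, I_re, mul_zero, add_zero]

/-- two-dimensional Gaussian Poisson summation -/
theorem HG1_pois2 {a : ℝ} (ha : 0 < a) (θ : ℂ) :
    ∑' n : ZI, ((Real.exp (-(Real.pi * a * ‖tc n‖ ^ 2)) : ℝ) : ℂ) * e2 n θ =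
      ((1 / a * ∑' m : ZI, Real.exp (-(Real.pi / a * ‖θ + tc m‖ ^ 2)) : ℝ) : ℂ) := by
  have hac : (a : ℂ) ≠ 0 := ofReal_ne_zero.2 ha.ne'
  have h1 := tsum_mul_tsum_of_summable_norm (HG1_norm_summable ha θ.re)
    (HG1_norm_summable ha (-θ.im))
  have hpos : 0 < Real.pi / a := div_pos Real.pi_pos ha
  have h2 := tsum_mul_tsum_of_summable_norm (R := ℂ)
    (f := fun k : ℤ => ((Real.exp (-(Real.pi / a * (θ.re + k) ^ 2)) : ℝ) : ℂ))
    (g := fun k : ℤ => ((Real.exp (-(Real.pi / a * (θ.im + k) ^ 2)) : ℝ) : ℂ))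
    (by
      refine (HG1_g1 hpos θ.re).congr fun k => ?_
      rw [Complex.norm_real, Real.norm_of_nonneg (Real.exp_pos _).le])
    (by
      refine (HG1_g1 hpos θ.im).congr fun k => ?_
      rw [Complex.norm_real, Real.norm_of_nonneg (Real.exp_pos _).le])
  rw [HG1_pois ha, HG1_pois' ha] at h1
  have h3 : (a : ℂ) ^ (1 / 2 : ℂ) * (a : ℂ) ^ (1 / 2 : ℂ) = a := by
    rw [← Complex.cpow_add _ _ hac]
    norm_num
  have h4 : ∀ A B : ℂ, 1 / (a : ℂ) ^ (1 / 2 : ℂ) * A * (1 / (a : ℂ) ^ (1 / 2 : ℂ) * B) =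
      1 / a * (A * B) := by
    intro A B
    have h5 : 1 / (a : ℂ) ^ (1 / 2 : ℂ) * A * (1 / (a : ℂ) ^ (1 / 2 : ℂ) * B) =
        1 / ((a : ℂ) ^ (1 / 2 : ℂ) * (a : ℂ) ^ (1 / 2 : ℂ)) * (A * B) := by
      field_simp
    rw [h5, h3]
  rw [h4, h2] at h1
  rw [← eqv.tsum_eq (fun n : ZI => ((Real.exp (-(Real.pi * a * ‖tc n‖ ^ 2)) : ℝ) : ℂ) * e2 n θ)]
  rw [ofReal_mul, ofReal_tsum, ← eqv.tsum_eq (fun m : ZI =>
    ((Real.exp (-(Real.pi / a * ‖θ + tc m‖ ^ 2)) : ℝ) : ℂ))]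
  have e1 : ∀ z : ℤ × ℤ, ((Real.exp (-(Real.pi * a * ‖tc (eqv z)‖ ^ 2)) : ℝ) : ℂ) *
      e2 (eqv z) θ = cexp (-Real.pi * a * z.1 ^ 2 + 2 * Real.pi * (I * θ.re) * z.1) *
      cexp (-Real.pi * a * z.2 ^ 2 + 2 * Real.pi * (I * ((-θ.im : ℝ) : ℂ)) * z.2) := by
    intro z
    unfold e2
    rw [tc_norm, mul_re, tc_re, tc_im, Complex.ofReal_exp, ← Complex.exp_add, ← Complex.exp_add]
    change cexp (((-(Real.pi * a * ((z.1 : ℝ) ^ 2 + (z.2 : ℝ) ^ 2)) : ℝ) : ℂ) +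
      2 * Real.pi * I * (((z.1 : ℝ) * θ.re - (z.2 : ℝ) * θ.im : ℝ) : ℂ)) = _
    congr 1
    push_cast
    ring
  have e2' : ∀ z : ℤ × ℤ, ((Real.exp (-(Real.pi / a * ‖θ + tc (eqv z)‖ ^ 2)) : ℝ) : ℂ) =
      ((Real.exp (-(Real.pi / a * (θ.re + z.1) ^ 2)) : ℝ) : ℂ) *
      ((Real.exp (-(Real.pi / a * (θ.im + z.2) ^ 2)) : ℝ) : ℂ) := by
    intro z
    rw [← ofReal_mul, ← Real.exp_add]
    congr 2
    rw [Complex.sq_norm, Complex.normSq_apply, add_re, add_im, tc_re, tc_im]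
    change -(Real.pi / a * ((θ.re + (z.1 : ℝ)) * (θ.re + (z.1 : ℝ)) +
      (θ.im + (z.2 : ℝ)) * (θ.im + (z.2 : ℝ)))) = _
    ring
  rw [tsum_congr e1, tsum_congr e2', ← h1]
  push_cast
  rfl

/-! ### bounds -/

theorem HG1_b1 {A t : ℝ} (hA : 0 < A) (ht : 0 < t) (k : ℝ) :
    Real.exp (-(A * k ^ 2 / t)) ≤ (1 + 1 / A) * (1 + t) * (1 / (1 + 1 * (0 + k) ^ 2)) := by
  refine (HG1_exp_le (by positivity)).trans ?_
  have h1 : 1 / (1 + A * k ^ 2 / t) = t / (t + A * k ^ 2) := by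
    field_simp
  rw [h1, mul_one_div, div_le_div_iff₀ (by positivity) (by positivity)]
  have h2 : (1 + 1 / A) * (1 + t) * (t + A * k ^ 2) - t * (1 + 1 * (0 + k) ^ 2) =
      t / A + t * t + t * t / A + k ^ 2 + A * k ^ 2 + t * A * k ^ 2 := by
    field_simp
    ring
  have h3 : 0 ≤ t / A + t * t + t * t / A + k ^ 2 + A * k ^ 2 + t * A * k ^ 2 := by positivity
  linarith

theorem HG1_b2 {t : ℝ} (ht : 0 < t) : Real.exp (-t) * (1 + t) ^ 2 ≤ 16 * Real.exp (-(1 / 2) * t) := by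
  have h1 : 1 + t ≤ 4 * Real.exp (t / 4) := by
    have := Real.add_one_le_exp (t / 4)
    linarith
  have h2 : (1 + t) ^ 2 ≤ 16 * Real.exp (t / 2) := by
    have h3 : (1 + t) ^ 2 ≤ (4 * Real.exp (t / 4)) ^ 2 := pow_le_pow_left₀ (by linarith) h1 2
    have h4 : (4 * Real.exp (t / 4)) ^ 2 = 16 * Real.exp (t / 2) := by
      rw [mul_pow, ← Real.exp_nat_mul]
      norm_num
      ring_nf
    linarith
  calc Real.exp (-t) * (1 + t) ^ 2 ≤ Real.exp (-t) * (16 * Real.exp (t / 2)) :=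
        mul_le_mul_of_nonneg_left h2 (Real.exp_pos _).le
    _ = 16 * (Real.exp (-t) * Real.exp (t / 2)) := by ring
    _ = 16 * Real.exp (-(1 / 2) * t) := by
        rw [← Real.exp_add]
        congr 2
        ring

/-- the integrand of `WV` -/
noncomputable def HG1_F (V : ℝ) (n : ZI) (t : ℝ) : ℝ :=
  Real.exp (-t - Real.pi ^ 2 * ‖tc n‖ ^ 2 / (t * V))

theorem HG1_F_le {V : ℝ} (hV : 0 < V) (n : ZI) {t : ℝ} (ht : 0 < t) :
    HG1_F V n t ≤ 16 * (1 + 1 / (Real.pi ^ 2 / V)) ^ 2 * (1 / (1 + 1 * (0 + (n.re : ℝ)) ^ 2) *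
      (1 / (1 + 1 * (0 + (n.im : ℝ)) ^ 2))) * Real.exp (-(1 / 2) * t) := by
  have hA : 0 < Real.pi ^ 2 / V := by
    have := Real.pi_pos
    positivity
  have e1 : HG1_F V n t = Real.exp (-t) * (Real.exp (-(Real.pi ^ 2 / V * (n.re : ℝ) ^ 2 / t)) *
      Real.exp (-(Real.pi ^ 2 / V * (n.im : ℝ) ^ 2 / t))) := by
    unfold HG1_F
    rw [← Real.exp_add, ← Real.exp_add, tc_norm]
    congr 1
    field_simp
    ring
  rw [e1]
  have h1 := HG1_b1 hA ht (n.re : ℝ)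
  have h2 := HG1_b1 hA ht (n.im : ℝ)
  have h3 := HG1_b2 ht
  set C : ℝ := 1 + 1 / (Real.pi ^ 2 / V) with hC
  have hC0 : 0 < C := by positivity
  set p : ℝ := 1 / (1 + 1 * (0 + (n.re : ℝ)) ^ 2) with hp
  set q : ℝ := 1 / (1 + 1 * (0 + (n.im : ℝ)) ^ 2) with hq
  have hp0 : 0 < p := by positivity
  have hq0 : 0 < q := by positivity
  calc Real.exp (-t) * (Real.exp (-(Real.pi ^ 2 / V * (n.re : ℝ) ^ 2 / t)) *
      Real.exp (-(Real.pi ^ 2 / V * (n.im : ℝ) ^ 2 / t))) ≤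
      Real.exp (-t) * ((C * (1 + t) * p) * (C * (1 + t) * q)) :=
        mul_le_mul_of_nonneg_left (mul_le_mul h1 h2 (Real.exp_pos _).le (by positivity))
          (Real.exp_pos _).le
    _ = C ^ 2 * (p * q) * (Real.exp (-t) * (1 + t) ^ 2) := by ring
    _ ≤ C ^ 2 * (p * q) * (16 * Real.exp (-(1 / 2) * t)) :=
        mul_le_mul_of_nonneg_left h3 (by positivity)
    _ = 16 * C ^ 2 * (p * q) * Real.exp (-(1 / 2) * t) := by ring

theorem HG1_F_cont (V : ℝ) (hV : 0 < V) (n : ZI) : ContinuousOn (HG1_F V n) (Ioi 0) := by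
  unfold HG1_F
  refine ContinuousOn.rexp (ContinuousOn.sub continuousOn_neg (ContinuousOn.div continuousOn_const
    (by fun_prop) fun t ht => ?_))
  exact (mul_pos ht hV).ne'

theorem HG1_F_int {V : ℝ} (hV : 0 < V) (n : ZI) : IntegrableOn (HG1_F V n) (Ioi 0) := by
  refine Integrable.mono' (integrableOn_exp_neg_Ioi 0)
    ((HG1_F_cont V hV n).aestronglyMeasurable measurableSet_Ioi) ?_
  refine (ae_restrict_iff' measurableSet_Ioi).2 (Eventually.of_forall fun t ht => ?_)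
  have ht' : 0 < t := ht
  unfold HG1_F
  rw [Real.norm_of_nonneg (Real.exp_pos _).le]
  refine Real.exp_le_exp.2 ?_
  have h : 0 ≤ Real.pi ^ 2 * ‖tc n‖ ^ 2 / (t * V) := by positivity
  linarith

theorem HG1_W_le {V : ℝ} (hV : 0 < V) (n : ZI) :
    WV V n ≤ 16 * (1 + 1 / (Real.pi ^ 2 / V)) ^ 2 * (1 / (1 + 1 * (0 + (n.re : ℝ)) ^ 2) *
      (1 / (1 + 1 * (0 + (n.im : ℝ)) ^ 2))) * ∫ t in Ioi (0 : ℝ), Real.exp (-(1 / 2) * t) := by
  have h : WV V n = ∫ t in Ioi (0 : ℝ), HG1_F V n t := rfl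
  rw [h, ← integral_const_mul]
  refine setIntegral_mono_on (HG1_F_int hV n)
    ((exp_neg_integrableOn_Ioi 0 (by norm_num : (0 : ℝ) < 1 / 2)).const_mul _) measurableSet_Ioi
    fun t ht => HG1_F_le hV n ht

theorem HG1_W_nonneg (V : ℝ) (n : ZI) : 0 ≤ WV V n :=
  setIntegral_nonneg measurableSet_Ioi fun t _ => (Real.exp_pos _).le

theorem HG1_W_summable {V : ℝ} (hV : 0 < V) : Summable (fun n : ZI => WV V n) := by
  have h := ((HG1_s2 one_pos 0 0).mul_left (16 * (1 + 1 / (Real.pi ^ 2 / V)) ^ 2)).mul_right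
    (∫ t in Ioi (0 : ℝ), Real.exp (-(1 / 2) * t))
  exact Summable.of_nonneg_of_le (fun n => HG1_W_nonneg V n) (fun n => HG1_W_le hV n) h

theorem HG1_K_summable {V : ℝ} (hV : 0 < V) (θ : ℂ) :
    Summable (fun m : ZI => KV V (θ + tc m)) := by
  have h := (HG1_s2 hV θ.re θ.im).mul_left (V / Real.pi)
  have hpi := Real.pi_pos
  refine Summable.of_nonneg_of_le (fun m => ?_) (fun m => ?_) h
  · unfold KV
    positivity
  · unfold KV
    have e : ‖θ + tc m‖ ^ 2 = (θ.re + m.re) ^ 2 + (θ.im + m.im) ^ 2 := by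
      rw [Complex.sq_norm, Complex.normSq_apply, add_re, add_im, tc_re, tc_im]
      ring
    rw [e, div_mul_div_comm, one_mul, mul_one_div]
    have h0 : 0 < V / Real.pi := by positivity
    refine div_le_div_of_nonneg_left h0.le (by positivity) ?_
    have h1 : 0 ≤ V * (θ.re + m.re) ^ 2 := by positivity
    have h2 : 0 ≤ V * (θ.im + m.im) ^ 2 := by positivity
    nlinarith [mul_nonneg h1 h2, mul_nonneg h1 h1, mul_nonneg h2 h2]

/-- the integrand of `KV` -/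
noncomputable def HG1_G (V : ℝ) (z : ℂ) (t : ℝ) : ℝ :=
  V / Real.pi * (t * Real.exp (-((1 + V * ‖z‖ ^ 2) * t)))

theorem HG1_G_eq {V : ℝ} (hV : 0 < V) (z : ℂ) : ∫ t in Ioi (0 : ℝ), HG1_G V z t = KV V z := by
  have hc : 0 < 1 + V * ‖z‖ ^ 2 := by positivity
  have h := Real.integral_rpow_mul_exp_neg_mul_Ioi (a := 2) two_pos hc
  have h2 : Real.Gamma 2 = 1 := Real.Gamma_two
  rw [h2, mul_one] at h
  unfold HG1_G
  rw [integral_const_mul]
  have h3 : ∫ t in Ioi (0 : ℝ), t * Real.exp (-((1 + V * ‖z‖ ^ 2) * t)) =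
      (1 / (1 + V * ‖z‖ ^ 2)) ^ (2 : ℝ) := by
    rw [← h]
    refine setIntegral_congr_fun measurableSet_Ioi fun t ht => ?_
    have h4 : t ^ ((2 : ℝ) - 1) = t := by
      have h5 : (2 : ℝ) - 1 = 1 := by norm_num
      rw [h5, Real.rpow_one]
    simp only [h4]
  rw [h3]
  unfold KV
  have h6 : (1 / (1 + V * ‖z‖ ^ 2)) ^ (2 : ℝ) = 1 / (1 + V * ‖z‖ ^ 2) ^ 2 := by
    rw [Real.rpow_two, div_pow, one_pow]
  rw [h6, mul_one_div]

theorem HG1_G_int {V : ℝ} (hV : 0 < V) (z : ℂ) : IntegrableOn (HG1_G V z) (Ioi 0) := by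
  refine Integrable.of_integral_ne_zero ?_
  rw [HG1_G_eq hV]
  unfold KV
  have := Real.pi_pos
  positivity

theorem HG1_e2_norm (n : ZI) (θ : ℂ) : ‖e2 n θ‖ = 1 := by
  unfold e2
  have h : 2 * Real.pi * I * ((tc n * θ).re : ℂ) = ((2 * Real.pi * (tc n * θ).re : ℝ) : ℂ) * I := by
    push_cast
    ring
  rw [h, Complex.norm_exp_ofReal_mul_I]

/-- pointwise identity -/
theorem HG1_point {V : ℝ} (hV : 0 < V) (θ : ℂ) {t : ℝ} (ht : 0 < t) :
    ∑' n : ZI, (HG1_F V n t : ℂ) * e2 n θ = ((∑' m : ZI, HG1_G V (θ + tc m) t : ℝ) : ℂ) := by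
  have hpi := Real.pi_pos
  have ha : 0 < Real.pi / (t * V) := by positivity
  have h := HG1_pois2 ha θ
  have e1 : ∀ n : ZI, (HG1_F V n t : ℂ) * e2 n θ = ((Real.exp (-t) : ℝ) : ℂ) *
      (((Real.exp (-(Real.pi * (Real.pi / (t * V)) * ‖tc n‖ ^ 2)) : ℝ) : ℂ) * e2 n θ) := by
    intro n
    rw [← mul_assoc, ← ofReal_mul, ← Real.exp_add]
    unfold HG1_F
    congr 3
    field_simp
    ring
  rw [tsum_congr e1, tsum_mul_left, h, ← ofReal_mul]
  congr 1
  rw [← tsum_mul_left, ← tsum_mul_left]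
  refine tsum_congr fun m => ?_
  unfold HG1_G
  have e3 : Real.exp (-((1 + V * ‖θ + tc m‖ ^ 2) * t)) =
      Real.exp (-t) * Real.exp (-(Real.pi / (Real.pi / (t * V)) * ‖θ + tc m‖ ^ 2)) := by
    rw [← Real.exp_add]
    congr 1
    field_simp
    ring
  rw [e3]
  field_simp

/-- HG1: Poisson summation for the kernel -/
theorem kv_poisson (V : ℝ) (hV : 0 < V) (θ : ℂ) :
    Summable (fun n : ZI => WV V n) ∧ Summable (fun m : ZI => KV V (θ + tc m)) ∧
    ∑' n : ZI, (WV V n : ℂ) * e2 n θ = ((∑' m : ZI, KV V (θ + tc m) : ℝ) : ℂ) := by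
  refine ⟨HG1_W_summable hV, HG1_K_summable hV θ, ?_⟩
  have hcnt : Countable ZI := eqv.symm.injective.countable
  have h1 := hasSum_integral_of_summable_integral_norm (μ := volume.restrict (Ioi (0 : ℝ)))
    (F := fun (n : ZI) (t : ℝ) => (HG1_F V n t : ℂ) * e2 n θ)
    (fun n => ((HG1_F_int hV n).ofReal).mul_const _) (by
      refine (HG1_W_summable hV).congr fun n => ?_
      refine setIntegral_congr_fun measurableSet_Ioi fun t _ => ?_
      change HG1_F V n t = ‖(HG1_F V n t : ℂ) * e2 n θ‖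
      rw [norm_mul, HG1_e2_norm, mul_one, Complex.norm_real]
      exact (Real.norm_of_nonneg (Real.exp_pos _).le).symm)
  have h2 := hasSum_integral_of_summable_integral_norm (μ := volume.restrict (Ioi (0 : ℝ)))
    (F := fun (m : ZI) (t : ℝ) => HG1_G V (θ + tc m) t)
    (fun m => HG1_G_int hV _) (by
      refine (HG1_K_summable hV θ).congr fun m => ?_
      rw [← HG1_G_eq hV]
      refine setIntegral_congr_fun measurableSet_Ioi fun t ht => ?_
      have ht' : 0 < t := ht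
      have hpi := Real.pi_pos
      change HG1_G V (θ + tc m) t = ‖HG1_G V (θ + tc m) t‖
      rw [Real.norm_of_nonneg]
      unfold HG1_G
      positivity)
  have e1 : ∀ n : ZI, ∫ t in Ioi (0 : ℝ), (HG1_F V n t : ℂ) * e2 n θ = (WV V n : ℂ) * e2 n θ := by
    intro n
    rw [integral_mul_const, integral_complex_ofReal]
    rfl
  have e2' : ∀ m : ZI, ∫ t in Ioi (0 : ℝ), HG1_G V (θ + tc m) t = KV V (θ + tc m) :=
    fun m => HG1_G_eq hV _
  simp only [e1] at h1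
  simp only [e2'] at h2
  rw [h1.tsum_eq, h2.tsum_eq, ← integral_complex_ofReal]
  refine setIntegral_congr_fun measurableSet_Ioi fun t ht => ?_
  exact HG1_point hV θ ht

/-- HG1: size of the weights -/
theorem wv_lower (V : ℝ) (hV : 0 < V) (n : ZI) :
    Real.exp (-(2 * Real.pi * ‖tc n‖ / Real.sqrt V)) ≤ WV V n ∧ WV V n ≤ 1 := by
  have hpi := Real.pi_pos
  have hs := Real.sqrt_pos.2 hV
  have hss := Real.sq_sqrt hV.le
  constructor
  · set c : ℝ := Real.pi * ‖tc n‖ / Real.sqrt V with hc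
    have hc0 : 0 ≤ c := by positivity
    have hcc : Real.pi ^ 2 * ‖tc n‖ ^ 2 = c ^ 2 * V := by
      rw [hc, div_pow, hss]
      field_simp
    have e1 : Real.exp (-(2 * Real.pi * ‖tc n‖ / Real.sqrt V)) =
        ∫ t in Ioi c, Real.exp (-c) * Real.exp (-t) := by
      rw [integral_const_mul, integral_exp_neg_Ioi, ← Real.exp_add]
      congr 1
      rw [hc]
      ring
    rw [e1]
    have h2 : ∫ t in Ioi c, Real.exp (-c) * Real.exp (-t) ≤ ∫ t in Ioi c, HG1_F V n t := by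
      refine setIntegral_mono_on ((integrableOn_exp_neg_Ioi c).const_mul _)
        ((HG1_F_int hV n).mono_set (Ioi_subset_Ioi hc0)) measurableSet_Ioi fun t ht => ?_
      have ht' : c < t := ht
      have ht0 : 0 < t := lt_of_le_of_lt hc0 ht'
      unfold HG1_F
      rw [← Real.exp_add]
      refine Real.exp_le_exp.2 ?_
      rw [hcc]
      have h3 : c ^ 2 * V / (t * V) = c ^ 2 / t := by
        field_simp
      rw [h3]
      have h4 : c ^ 2 / t ≤ c := by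
        rw [div_le_iff₀ ht0]
        nlinarith
      linarith
    refine h2.trans (setIntegral_mono_set (HG1_F_int hV n) ?_ ?_)
    · exact Eventually.of_forall fun t => (Real.exp_pos _).le
    · exact (Ioi_subset_Ioi hc0).eventuallyLE
  · have e : (1 : ℝ) = ∫ t in Ioi (0 : ℝ), Real.exp (-t) := by
      rw [integral_exp_neg_Ioi_zero]
    rw [e]
    refine setIntegral_mono_on (HG1_F_int hV n) (integrableOn_exp_neg_Ioi 0) measurableSet_Ioi
      fun t ht => ?_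
    have ht0 : 0 < t := ht
    refine Real.exp_le_exp.2 ?_
    have h : 0 ≤ Real.pi ^ 2 * ‖tc n‖ ^ 2 / (t * V) := by positivity
    linarith

end H385
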