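import Pool.Agent.H385R6.HgDefs
import Pool.Agent.H385R6.HG1

/-!
TEAM Q3, project HG (helper385): task HG2, the dual large sieve over `ℤ[i]`.
-/

open Complex Filter Topology Set MeasureTheory

namespace H385

open Pool.Agent.H304R3.HK (tc HC CS bb LamK psi bH aH LH Rep)

theorem hg2_e2_norm (n : ZI) (θ : ℂ) : ‖e2 n θ‖ = 1 := by
  unfold e2
  rw [Complex.norm_exp]
  simp

theorem hg2_e2_conj (n : ZI) (θ : ℂ) : (starRingEnd ℂ) (e2 n θ) = e2 n (-θ) := by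
  unfold e2
  rw [← Complex.exp_conj]
  congr 1
  simp only [map_mul, conj_I, conj_ofReal, map_ofNat, mul_neg, neg_re]
  push_cast
  ring

theorem hg2_e2_mul (n : ZI) (x y : ℂ) : e2 n x * e2 n y = e2 n (x + y) := by
  unfold e2
  rw [← Complex.exp_add]
  congr 1
  rw [mul_add, add_re]
  push_cast
  ring

theorem hg2_KV_nonneg (V : ℝ) (hV : 0 < V) (z : ℂ) : 0 ≤ KV V z := by
  unfold KV
  positivity

theorem hg2_KV_neg (V : ℝ) (z : ℂ) : KV V (-z) = KV V z := by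
  unfold KV
  rw [norm_neg]

theorem hg2_sum_nonneg (V : ℝ) (hV : 0 < V) (z : ℂ) : 0 ≤ ∑' m : ZI, KV V (z + tc m) :=
  tsum_nonneg (fun _ => hg2_KV_nonneg V hV _)

theorem hg2_tc_neg (m : ZI) : tc (-m) = -tc m := by
  simp only [tc, Zsqrtd.re_neg, Zsqrtd.im_neg]
  push_cast
  ring

theorem hg2_sum_neg (V : ℝ) (z : ℂ) : ∑' m : ZI, KV V (-z + tc m) = ∑' m : ZI, KV V (z + tc m) := by
  rw [← (Equiv.neg ZI).tsum_eq]
  refine tsum_congr (fun m => ?_)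
  simp only [Equiv.neg_apply]
  rw [hg2_tc_neg, ← hg2_KV_neg]
  congr 1
  ring

theorem hg2_WV_nonneg (V : ℝ) (hV : 0 < V) (n : ZI) : 0 ≤ WV V n :=
  (Real.exp_pos _).le.trans (wv_lower V hV n).1

/-- the quadratic form in the dual sum, smooth version -/
theorem hg2_smooth {ι : Type} (s : Finset ι) (θ : ι → ℂ) (c : ι → ℂ) (V : ℝ) (hV : 0 < V) :
    ∑' n : ZI, WV V n * ‖∑ i ∈ s, c i * e2 n (θ i)‖ ^ 2 ≤
    ∑ i ∈ s, ∑ j ∈ s, ‖c i‖ * ‖c j‖ * ∑' m : ZI, KV V (θ i - θ j + tc m) := by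
  have hterm : ∀ n : ZI, ((WV V n * ‖∑ i ∈ s, c i * e2 n (θ i)‖ ^ 2 : ℝ) : ℂ) =
      ∑ i ∈ s, ∑ j ∈ s, (c i * (starRingEnd ℂ) (c j)) *
        ((WV V n : ℂ) * e2 n (θ i - θ j)) := by
    intro n
    push_cast
    rw [← Complex.ofReal_pow, ← Complex.normSq_eq_norm_sq, Complex.normSq_eq_conj_mul_self,
      mul_comm ((starRingEnd ℂ) _) _, map_sum, Finset.sum_mul_sum, Finset.mul_sum]
    refine Finset.sum_congr rfl (fun i _ => ?_)
    rw [Finset.mul_sum]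
    refine Finset.sum_congr rfl (fun j _ => ?_)
    rw [map_mul, hg2_e2_conj, sub_eq_add_neg, ← hg2_e2_mul]
    ring
  have hws : ∀ z : ℂ, Summable (fun n : ZI => (WV V n : ℂ) * e2 n z) := by
    intro z
    refine Summable.of_norm ?_
    refine ((kv_poisson V hV z).1).congr (fun n => ?_)
    rw [norm_mul, hg2_e2_norm, mul_one, Complex.norm_real,
      Real.norm_of_nonneg (hg2_WV_nonneg V hV n)]
  have hsum : ∀ i j, Summable (fun n : ZI =>
      (c i * (starRingEnd ℂ) (c j)) * ((WV V n : ℂ) * e2 n (θ i - θ j))) :=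
    fun i j => (hws _).mul_left _
  have h1 : ((∑' n : ZI, WV V n * ‖∑ i ∈ s, c i * e2 n (θ i)‖ ^ 2 : ℝ) : ℂ) =
      ∑ i ∈ s, ∑ j ∈ s, (c i * (starRingEnd ℂ) (c j)) *
        ((∑' m : ZI, KV V (θ i - θ j + tc m) : ℝ) : ℂ) := by
    rw [Complex.ofReal_tsum]
    rw [tsum_congr hterm, Summable.tsum_finsetSum (fun i _ => summable_sum (fun j _ => hsum i j))]
    refine Finset.sum_congr rfl (fun i _ => ?_)
    rw [Summable.tsum_finsetSum (fun j _ => hsum i j)]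
    refine Finset.sum_congr rfl (fun j _ => ?_)
    rw [tsum_mul_left, (kv_poisson V hV _).2.2]
  have h2 : 0 ≤ ∑' n : ZI, WV V n * ‖∑ i ∈ s, c i * e2 n (θ i)‖ ^ 2 :=
    tsum_nonneg (fun n => mul_nonneg (hg2_WV_nonneg V hV n) (by positivity))
  have h3 := congrArg norm h1
  rw [Complex.norm_real, Real.norm_of_nonneg h2] at h3
  rw [h3]
  refine (norm_sum_le _ _).trans (Finset.sum_le_sum (fun i _ => ?_))
  refine (norm_sum_le _ _).trans (Finset.sum_le_sum (fun j _ => ?_))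
  rw [norm_mul, norm_mul, RCLike.norm_conj, Complex.norm_real,
    Real.norm_of_nonneg (hg2_sum_nonneg V hV _)]

theorem hg2_smooth_summable {ι : Type} (s : Finset ι) (θ : ι → ℂ) (c : ι → ℂ) (V : ℝ)
    (hV : 0 < V) : Summable (fun n : ZI => WV V n * ‖∑ i ∈ s, c i * e2 n (θ i)‖ ^ 2) := by
  have h2 : Summable (fun n : ZI => WV V n * (∑ i ∈ s, ‖c i‖) ^ 2) :=
    ((kv_poisson V hV 0).1).mul_right _
  refine Summable.of_nonneg_of_le
    (fun n => mul_nonneg (hg2_WV_nonneg V hV n) (by positivity)) (fun n => ?_) h2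
  refine mul_le_mul_of_nonneg_left ?_ (hg2_WV_nonneg V hV n)
  refine pow_le_pow_left₀ (norm_nonneg _) ?_ 2
  refine (norm_sum_le _ _).trans (Finset.sum_le_sum (fun i _ => ?_))
  rw [norm_mul, hg2_e2_norm, mul_one]

theorem hg2_norm_tc (n : ZI) : ‖tc n‖ = Real.sqrt (nrm n) := by
  have h1 : ‖tc n‖ ^ 2 = (nrm n : ℝ) := by
    rw [← Complex.normSq_eq_norm_sq, Complex.normSq_apply]
    have hre : (tc n).re = n.re := by simp [tc]
    have him : (tc n).im = n.im := by simp [tc]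
    rw [hre, him]
    unfold nrm
    have h0 : 0 ≤ n.norm := Zsqrtd.norm_nonneg (by norm_num) n
    have h2 : ((n.norm.natAbs : ℕ) : ℝ) = ((n.norm : ℤ) : ℝ) := by
      rw [← Int.cast_natCast, Int.natAbs_of_nonneg h0]
    rw [h2, Zsqrtd.norm_def]
    push_cast
    ring
  rw [← h1, Real.sqrt_sq (norm_nonneg _)]

/-- HG2: dual large sieve (from HG1) -/
theorem dual_ls2 {ι : Type} (s : Finset ι) (θ : ι → ℂ) (w : ι → ℝ) (hw : ∀ i ∈ s, 0 ≤ w i)
    (V Δ : ℝ) (hV : 0 < V) (hΔ : 0 ≤ Δ)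
    (hd : ∀ i ∈ s, ∑ j ∈ s, w j * ∑' m : ZI, KV V (θ i - θ j + tc m) ≤ Δ)
    (N : ℕ) (F : Finset ZI) (hF : ∀ n ∈ F, nrm n ≤ N) (b : ZI → ℂ) :
    ∑ i ∈ s, w i * ‖SZ F b (θ i)‖ ^ 2 ≤
      Real.exp (2 * Real.pi * Real.sqrt (N / V)) * Δ * ∑ n ∈ F, ‖b n‖ ^ 2 := by
  set W : ℝ := ∑ i ∈ s, w i * ‖SZ F b (θ i)‖ ^ 2 with hW
  have hW0 : 0 ≤ W := Finset.sum_nonneg (fun i hi => mul_nonneg (hw i hi) (by positivity))
  set c : ι → ℂ := fun i => (w i : ℂ) * (starRingEnd ℂ) (SZ F b (θ i)) with hc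
  set T : ZI → ℂ := fun n => ∑ i ∈ s, c i * e2 n (θ i) with hT
  have e1 : (W : ℂ) = ∑ n ∈ F, b n * T n := by
    have : (W : ℂ) = ∑ i ∈ s, c i * SZ F b (θ i) := by
      rw [hW]
      push_cast
      refine Finset.sum_congr rfl (fun i _ => ?_)
      simp only [hc]
      rw [mul_assoc, ← Complex.ofReal_pow, ← Complex.normSq_eq_norm_sq,
        Complex.normSq_eq_conj_mul_self]
    rw [this]
    simp only [hT, SZ, Finset.mul_sum]
    rw [Finset.sum_comm]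
    refine Finset.sum_congr rfl (fun n _ => Finset.sum_congr rfl (fun i _ => ?_))
    ring
  have e2' : W ^ 2 ≤ (∑ n ∈ F, ‖b n‖ ^ 2) * ∑ n ∈ F, ‖T n‖ ^ 2 := by
    have h1 : W ≤ ∑ n ∈ F, ‖b n‖ * ‖T n‖ := by
      have := congrArg norm e1
      rw [Complex.norm_real, Real.norm_of_nonneg hW0] at this
      rw [this]
      refine (norm_sum_le _ _).trans (Finset.sum_le_sum (fun n _ => ?_))
      rw [norm_mul]
    calc W ^ 2 ≤ (∑ n ∈ F, ‖b n‖ * ‖T n‖) ^ 2 := pow_le_pow_left₀ hW0 h1 2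
      _ ≤ _ := Finset.sum_mul_sq_le_sq_mul_sq _ _ _
  have e3 : ∑ n ∈ F, ‖T n‖ ^ 2 ≤ Real.exp (2 * Real.pi * Real.sqrt (N / V)) *
      ∑' n : ZI, WV V n * ‖∑ i ∈ s, c i * e2 n (θ i)‖ ^ 2 := by
    have hs := hg2_smooth_summable s θ c V hV
    have h4 : ∑ n ∈ F, WV V n * ‖T n‖ ^ 2 ≤
        ∑' n : ZI, WV V n * ‖∑ i ∈ s, c i * e2 n (θ i)‖ ^ 2 :=
      hs.sum_le_tsum _ (fun n _ => mul_nonneg (hg2_WV_nonneg V hV n) (by positivity))
    refine le_trans ?_ (mul_le_mul_of_nonneg_left h4 (Real.exp_pos _).le)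
    rw [Finset.mul_sum]
    refine Finset.sum_le_sum (fun n hn => ?_)
    rw [← mul_assoc]
    refine le_mul_of_one_le_left (by positivity) ?_
    have h5 : ‖tc n‖ ≤ Real.sqrt N := by
      rw [hg2_norm_tc]
      exact Real.sqrt_le_sqrt (by exact_mod_cast hF n hn)
    have h6 : 2 * Real.pi * ‖tc n‖ / Real.sqrt V ≤ 2 * Real.pi * Real.sqrt (N / V) := by
      rw [Real.sqrt_div (by positivity), ← mul_div_assoc]
      refine div_le_div_of_nonneg_right ?_ (Real.sqrt_nonneg _)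
      exact mul_le_mul_of_nonneg_left h5 (by positivity)
    calc (1:ℝ) ≤ Real.exp (2 * Real.pi * Real.sqrt (N / V)) *
          Real.exp (-(2 * Real.pi * ‖tc n‖ / Real.sqrt V)) := by
            rw [← Real.exp_add]
            exact Real.one_le_exp (by linarith)
      _ ≤ _ := mul_le_mul_of_nonneg_left (wv_lower V hV n).1 (Real.exp_pos _).le
  have hcn : ∀ i ∈ s, ‖c i‖ = w i * ‖SZ F b (θ i)‖ := by
    intro i hi
    simp only [hc]
    rw [norm_mul, RCLike.norm_conj, Complex.norm_real, Real.norm_of_nonneg (hw i hi)]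
  have e4 : ∑ i ∈ s, ∑ j ∈ s, ‖c i‖ * ‖c j‖ * ∑' m : ZI, KV V (θ i - θ j + tc m) ≤ Δ * W := by
    have h1 : ∑ i ∈ s, ∑ j ∈ s, ‖c i‖ * ‖c j‖ * ∑' m : ZI, KV V (θ i - θ j + tc m) ≤
        ∑ i ∈ s, ∑ j ∈ s,
          ((w i * ‖SZ F b (θ i)‖ ^ 2 * (w j * ∑' m : ZI, KV V (θ i - θ j + tc m))) / 2 +
          (w j * ‖SZ F b (θ j)‖ ^ 2 * (w i * ∑' m : ZI, KV V (θ j - θ i + tc m))) / 2) := by
      refine Finset.sum_le_sum (fun i hi => Finset.sum_le_sum (fun j hj => ?_))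
      rw [hcn i hi, hcn j hj, ← hg2_sum_neg V (θ j - θ i), show -(θ j - θ i) = θ i - θ j by ring]
      have hP := hg2_sum_nonneg V hV (θ i - θ j)
      set P := ∑' m : ZI, KV V (θ i - θ j + tc m)
      have h2 : 0 ≤ w i * w j * P := mul_nonneg (mul_nonneg (hw i hi) (hw j hj)) hP
      have h3 : 2 * (‖SZ F b (θ i)‖ * ‖SZ F b (θ j)‖) ≤
          ‖SZ F b (θ i)‖ ^ 2 + ‖SZ F b (θ j)‖ ^ 2 := by
        nlinarith [sq_nonneg (‖SZ F b (θ i)‖ - ‖SZ F b (θ j)‖)]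
      nlinarith [mul_le_mul_of_nonneg_left h3 h2]
    refine h1.trans ?_
    simp only [Finset.sum_add_distrib]
    have h4 : ∑ i ∈ s, ∑ j ∈ s,
        (w j * ‖SZ F b (θ j)‖ ^ 2 * (w i * ∑' m : ZI, KV V (θ j - θ i + tc m))) / 2 =
        ∑ i ∈ s, ∑ j ∈ s,
        (w i * ‖SZ F b (θ i)‖ ^ 2 * (w j * ∑' m : ZI, KV V (θ i - θ j + tc m))) / 2 :=
      Finset.sum_comm
    rw [h4, ← two_mul, hW, Finset.mul_sum, Finset.mul_sum]
    refine Finset.sum_le_sum (fun i hi => ?_)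
    rw [← Finset.sum_div, ← Finset.mul_sum]
    have h5 : 0 ≤ w i * ‖SZ F b (θ i)‖ ^ 2 := mul_nonneg (hw i hi) (by positivity)
    nlinarith [mul_le_mul_of_nonneg_left (hd i hi) h5]
  have e5 := hg2_smooth s θ c V hV
  set A : ℝ := ∑ n ∈ F, ‖b n‖ ^ 2 with hA
  have hA0 : 0 ≤ A := Finset.sum_nonneg (fun n _ => by positivity)
  have e6 : W ^ 2 ≤ A * (Real.exp (2 * Real.pi * Real.sqrt (N / V)) * (Δ * W)) :=
    e2'.trans (mul_le_mul_of_nonneg_left (e3.trans (mul_le_mul_of_nonneg_left (e5.trans e4)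
      (Real.exp_pos _).le)) hA0)
  rcases eq_or_lt_of_le hW0 with h0 | h0
  · rw [← h0]; positivity
  · have : W * W ≤ (Real.exp (2 * Real.pi * Real.sqrt (N / V)) * Δ * A) * W := by
      calc W * W = W ^ 2 := by ring
        _ ≤ _ := e6
        _ = _ := by ring
    exact le_of_mul_le_mul_right this h0

end H385
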