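import Pool.Agent.H385R6.HgDefs

/-!
TEAM Q3, project HG (helper385): task HG3a (helper83).
-/

open Complex Filter Topology Set MeasureTheory

namespace H385

open Pool.Agent.H304R3.HK (tc HC CS bb LamK psi bH aH LH Rep)

theorem HG3a_tc_mul (a b : ZI) : tc (a * b) = tc a * tc b := by
  simp only [tc, Zsqrtd.re_mul, Zsqrtd.im_mul]
  push_cast
  linear_combination (-(a.im : ℂ) * b.im) * I_sq

theorem HG3a_tc_add (a b : ZI) : tc (a + b) = tc a + tc b := by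
  simp only [tc, Zsqrtd.re_add, Zsqrtd.im_add]
  push_cast
  ring

theorem HG3a_tc_one : tc 1 = 1 := by simp [tc]

theorem HG3a_re (a : ZI) : (tc a).re = a.re := by simp [tc]

theorem HG3a_im (a : ZI) : (tc a).im = a.im := by simp [tc]

theorem HG3a_sq (a : ZI) : ‖tc a‖ ^ 2 = (a.re : ℝ) ^ 2 + (a.im : ℝ) ^ 2 := by
  rw [Complex.sq_norm, Complex.normSq_apply, HG3a_re, HG3a_im]; ring

theorem HG3a_one_le (a : ZI) (ha : a ≠ 0) : 1 ≤ ‖tc a‖ ^ 2 := by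
  rw [HG3a_sq]
  have h : 0 < a.re ^ 2 + a.im ^ 2 := by
    by_contra h
    push Not at h
    have h1 : a.re = 0 := by nlinarith [sq_nonneg a.re, sq_nonneg a.im]
    have h2 : a.im = 0 := by nlinarith [sq_nonneg a.re, sq_nonneg a.im]
    exact ha (Zsqrtd.ext h1 h2)
  exact_mod_cast h

/-- Dirichlet approximation over the Gaussian integers -/
theorem HG3a_dirichlet (θ : ℂ) (M : ℕ) (hM : 0 < M) : ∃ q a : ZI, q ≠ 0 ∧
    ‖tc q‖ ^ 2 ≤ 2 * (M : ℝ) ^ 2 ∧ ‖tc q * θ - tc a‖ ^ 2 ≤ 2 / (M : ℝ) ^ 2 := by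
  have hM0 : (0 : ℝ) < M := by exact_mod_cast hM
  -- the points
  let pt : Fin (M + 1) × Fin (M + 1) → ZI := fun p => ⟨(p.1 : ℤ), (p.2 : ℤ)⟩
  let w : Fin (M + 1) × Fin (M + 1) → ℂ := fun p => tc (pt p) * θ
  have hfl : ∀ x : ℝ, 0 ≤ Int.fract x ∧ Int.fract x < 1 := fun x =>
    ⟨Int.fract_nonneg x, Int.fract_lt_one x⟩
  have hbox : ∀ x : ℝ, ⌊Int.fract x * M⌋₊ < M := by
    intro x
    rw [Nat.floor_lt (mul_nonneg (hfl x).1 hM0.le)]
    calc Int.fract x * M < 1 * M := mul_lt_mul_of_pos_right (hfl x).2 hM0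
      _ = M := one_mul _
  let box : Fin (M + 1) × Fin (M + 1) → Fin M × Fin M := fun p =>
    (⟨⌊Int.fract (w p).re * M⌋₊, hbox _⟩, ⟨⌊Int.fract (w p).im * M⌋₊, hbox _⟩)
  have hcard : Fintype.card (Fin M × Fin M) < Fintype.card (Fin (M + 1) × Fin (M + 1)) := by
    simp only [Fintype.card_prod, Fintype.card_fin]
    nlinarith
  obtain ⟨p, p', hne, hpp⟩ := Fintype.exists_ne_map_eq_of_card_lt box hcard
  have hb1 : ⌊Int.fract (w p).re * M⌋₊ = ⌊Int.fract (w p').re * M⌋₊ := by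
    have := congrArg (fun z : Fin M × Fin M => (z.1 : ℕ)) hpp
    simpa [box] using this
  have hb2 : ⌊Int.fract (w p).im * M⌋₊ = ⌊Int.fract (w p').im * M⌋₊ := by
    have := congrArg (fun z : Fin M × Fin M => (z.2 : ℕ)) hpp
    simpa [box] using this
  have habs : ∀ x y : ℝ, ⌊Int.fract x * M⌋₊ = ⌊Int.fract y * M⌋₊ →
      |Int.fract x - Int.fract y| ≤ 1 / M := by
    intro x y h
    have h1 := Nat.floor_le (mul_nonneg (hfl x).1 hM0.le)
    have h2 := Nat.lt_floor_add_one (Int.fract x * (M : ℝ))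
    have h3 := Nat.floor_le (mul_nonneg (hfl y).1 hM0.le)
    have h4 := Nat.lt_floor_add_one (Int.fract y * (M : ℝ))
    rw [h] at h1 h2
    have h5 : |Int.fract x - Int.fract y| * (M : ℝ) = |(Int.fract x - Int.fract y) * M| := by
      rw [abs_mul, abs_of_pos hM0]
    rw [le_div_iff₀ hM0, h5, abs_le]
    constructor <;> linarith
  refine ⟨pt p - pt p', ⟨⌊(w p).re⌋ - ⌊(w p').re⌋, ⌊(w p).im⌋ - ⌊(w p').im⌋⟩, ?_, ?_, ?_⟩
  · intro h
    have h' := sub_eq_zero.mp h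
    apply hne
    have h1 : (pt p).re = (pt p').re := by rw [h']
    have h2 : (pt p).im = (pt p').im := by rw [h']
    simp only [pt] at h1 h2
    refine Prod.ext (Fin.ext ?_) (Fin.ext ?_)
    · exact_mod_cast h1
    · exact_mod_cast h2
  · rw [HG3a_sq]
    have hb : ∀ a b : Fin (M + 1), (((a : ℤ) - (b : ℤ) : ℤ) : ℝ) ^ 2 ≤ (M : ℝ) ^ 2 := by
      intro a b
      have ha := a.2
      have hb := b.2
      have h1 : (((a : ℤ) - (b : ℤ) : ℤ)) ≤ (M : ℤ) := by omega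
      have h2 : -(M : ℤ) ≤ (((a : ℤ) - (b : ℤ) : ℤ)) := by omega
      have h1' : ((((a : ℤ) - (b : ℤ) : ℤ)) : ℝ) ≤ (M : ℝ) := by exact_mod_cast h1
      have h2' : -(M : ℝ) ≤ ((((a : ℤ) - (b : ℤ) : ℤ)) : ℝ) := by exact_mod_cast h2
      exact sq_le_sq' h2' h1'
    have h1 := hb p.1 p'.1
    have h2 := hb p.2 p'.2
    have e1 : (pt p - pt p').re = (p.1 : ℤ) - (p'.1 : ℤ) := by simp [pt]
    have e2 : (pt p - pt p').im = (p.2 : ℤ) - (p'.2 : ℤ) := by simp [pt]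
    rw [e1, e2]
    linarith
  · have e : tc (pt p - pt p') * θ
        - tc ⟨⌊(w p).re⌋ - ⌊(w p').re⌋, ⌊(w p).im⌋ - ⌊(w p').im⌋⟩
        = ((Int.fract (w p).re - Int.fract (w p').re : ℝ) : ℂ)
          + ((Int.fract (w p).im - Int.fract (w p').im : ℝ) : ℂ) * I := by
      have e1 : tc (pt p - pt p') * θ = w p - w p' := by
        have : tc (pt p - pt p') = tc (pt p) - tc (pt p') := by
          simp only [tc, Zsqrtd.re_sub, Zsqrtd.im_sub]; push_cast; ring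
        rw [this, sub_mul]
      rw [e1]
      have e2 : w p = ((w p).re : ℂ) + ((w p).im : ℂ) * I := (Complex.re_add_im _).symm
      have e3 : w p' = ((w p').re : ℂ) + ((w p').im : ℂ) * I := (Complex.re_add_im _).symm
      simp only [Int.fract, tc]
      push_cast
      linear_combination e2 - e3
    rw [e, Complex.sq_norm, Complex.normSq_add_mul_I]
    have h1 := habs _ _ hb1
    have h2 := habs _ _ hb2
    have h1' : (Int.fract (w p).re - Int.fract (w p').re) ^ 2 ≤ (1 / (M : ℝ)) ^ 2 := by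
      rw [← sq_abs]; exact pow_le_pow_left₀ (abs_nonneg _) h1 2
    have h2' : (Int.fract (w p).im - Int.fract (w p').im) ^ 2 ≤ (1 / (M : ℝ)) ^ 2 := by
      rw [← sq_abs]; exact pow_le_pow_left₀ (abs_nonneg _) h2 2
    have : 2 / (M : ℝ) ^ 2 = (1 / (M : ℝ)) ^ 2 + (1 / (M : ℝ)) ^ 2 := by
      field_simp; norm_num
    linarith

open ComplexConjugate in
theorem HG3a_herm (x0 y0 x1 y1 z j : ℂ) (h : ℝ) (hh : h = ‖x0‖ ^ 2 + ‖y0‖ ^ 2) (hpos : 0 < h)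
    (hd : x0 * y1 - x1 * y0 = -1) :
    ‖z * x0 + j * x1‖ ^ 2 + ‖z * y0 + j * y1‖ ^ 2
      = h * ‖z + ((conj x0 * x1 + conj y0 * y1) / (h : ℂ)) * j‖ ^ 2 + ‖j‖ ^ 2 / h := by
  have hne : (h : ℂ) ≠ 0 := by exact_mod_cast hpos.ne'
  have key : (((‖z * x0 + j * x1‖ ^ 2 + ‖z * y0 + j * y1‖ ^ 2 : ℝ)) : ℂ)
      = (((h * ‖z + ((conj x0 * x1 + conj y0 * y1) / (h : ℂ)) * j‖ ^ 2 + ‖j‖ ^ 2 / h : ℝ)) : ℂ) := by
    push_cast
    simp only [← Complex.conj_mul']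
    simp only [map_add, map_mul, map_div₀, Complex.conj_conj, Complex.conj_ofReal]
    have hc : (h : ℂ) = conj x0 * x0 + conj y0 * y0 := by
      rw [hh]; push_cast; simp only [← Complex.conj_mul']
    have hd' : conj x0 * conj y1 - conj x1 * conj y0 = -1 := by
      have := congrArg conj hd
      simpa using this
    have hone : (x0 * y1 - x1 * y0) * (conj x0 * conj y1 - conj x1 * conj y0) = 1 := by
      rw [hd, hd']; ring
    field_simp
    rw [hc]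
    linear_combination (conj j * j) * hone
  exact_mod_cast key

/-- HG3a: a basis with a short first vector -/
theorem short_basis (V : ℝ) (hV : 1 ≤ V) (θ : ℂ) : ∃ q0 a0 q1 a1 : ZI, q0 ≠ 0 ∧
    q0 * a1 - a0 * q1 = 1 ∧ HV V θ q0 a0 ≤ 10 ∧
    ∃ τ : ℂ, ∀ z j : ZI, HV V θ (z * q0 + j * q1) (z * a0 + j * a1) =
      HV V θ q0 a0 * ‖tc z + τ * tc j‖ ^ 2 + ‖tc j‖ ^ 2 / HV V θ q0 a0 := by
  obtain ⟨S, hS⟩ : ∃ S, S = Real.sqrt V := ⟨_, rfl⟩
  have hS1 : 1 ≤ S := by rw [hS]; exact Real.one_le_sqrt.mpr hV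
  have hS0 : 0 < S := by linarith
  obtain ⟨s, hs⟩ : ∃ s, s = Real.sqrt S := ⟨_, rfl⟩
  have hs1 : 1 ≤ s := by rw [hs]; exact Real.one_le_sqrt.mpr hS1
  have hs0 : 0 < s := by linarith
  have hsS : s ^ 2 = S := by rw [hs]; exact Real.sq_sqrt hS0.le
  have hMpos : 0 < ⌈s⌉₊ := Nat.ceil_pos.mpr hs0
  have hM1 : s ≤ (⌈s⌉₊ : ℝ) := Nat.le_ceil s
  have hM2 : (⌈s⌉₊ : ℝ) ≤ 2 * s := by
    have := Nat.ceil_lt_add_one hs0.le
    linarith
  obtain ⟨q, a, hq, hq1, hq2⟩ := HG3a_dirichlet θ ⌈s⌉₊ hMpos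
  have hHV : HV V θ q a ≤ 10 := by
    unfold HV
    rw [← hS]
    have h1 : ‖tc q‖ ^ 2 / S ≤ 8 := by
      rw [div_le_iff₀ hS0]
      have : (⌈s⌉₊ : ℝ) ^ 2 ≤ (2 * s) ^ 2 := pow_le_pow_left₀ (by positivity) hM2 2
      nlinarith
    have h2 : S * ‖tc q * θ - tc a‖ ^ 2 ≤ 2 := by
      have h3 : S ≤ (⌈s⌉₊ : ℝ) ^ 2 := by
        rw [← hsS]; exact pow_le_pow_left₀ hs0.le hM1 2
      have hMp : (0 : ℝ) < (⌈s⌉₊ : ℝ) ^ 2 := by positivity
      calc S * ‖tc q * θ - tc a‖ ^ 2 ≤ (⌈s⌉₊ : ℝ) ^ 2 * (2 / (⌈s⌉₊ : ℝ) ^ 2) :=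
            mul_le_mul h3 hq2 (sq_nonneg _) hMp.le
        _ = 2 := by field_simp
    linarith
  -- divide by the greatest common divisor
  obtain ⟨g, hg⟩ : ∃ g, g = EuclideanDomain.gcd q a := ⟨_, rfl⟩
  obtain ⟨q0, hq0⟩ : g ∣ q := hg ▸ EuclideanDomain.gcd_dvd_left q a
  obtain ⟨a0, ha0⟩ : g ∣ a := hg ▸ EuclideanDomain.gcd_dvd_right q a
  have hg0 : g ≠ 0 := by
    rintro rfl
    exact hq (by rw [hq0, zero_mul])
  have hq00 : q0 ≠ 0 := by
    rintro rfl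
    exact hq (by rw [hq0, mul_zero])
  have hbez : ∃ u v : ZI, q0 * u + a0 * v = 1 := by
    have h := EuclideanDomain.gcd_eq_gcd_ab q a
    refine ⟨EuclideanDomain.gcdA q a, EuclideanDomain.gcdB q a, ?_⟩
    apply mul_left_cancel₀ hg0
    rw [← hg] at h
    conv_rhs => rw [mul_one, h]
    conv_rhs => rw [hq0, ha0]
    rw [← hq0, ← ha0]
    linear_combination (EuclideanDomain.gcdA q a) * (-hq0) + (EuclideanDomain.gcdB q a) * (-ha0)
  obtain ⟨u, v, huv⟩ := hbez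
  have hHV0 : HV V θ q0 a0 ≤ 10 := by
    have hmul : HV V θ q a = ‖tc g‖ ^ 2 * HV V θ q0 a0 := by
      unfold HV
      rw [hq0, ha0, HG3a_tc_mul, HG3a_tc_mul]
      have : tc g * tc q0 * θ - tc g * tc a0 = tc g * (tc q0 * θ - tc a0) := by ring
      rw [this, norm_mul, norm_mul, mul_pow, mul_pow]
      ring
    have h1 := HG3a_one_le g hg0
    have h0 : 0 ≤ HV V θ q0 a0 := by
      unfold HV; positivity
    nlinarith
  have hpos : 0 < HV V θ q0 a0 := by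
    have h1 := HG3a_one_le q0 hq00
    unfold HV
    rw [← hS]
    positivity
  refine ⟨q0, a0, -v, u, hq00, by rw [← huv]; ring, hHV0, ?_⟩
  -- the identity
  have hs0' : (s : ℂ) ≠ 0 := by exact_mod_cast hs0.ne'
  have hHVxy : ∀ q a : ZI, HV V θ q a = ‖tc q / (s : ℂ)‖ ^ 2 + ‖(s : ℂ) * (tc q * θ - tc a)‖ ^ 2 := by
    intro q a
    unfold HV
    rw [← hS, norm_div, norm_mul, Complex.norm_real, Real.norm_of_nonneg hs0.le, div_pow, mul_pow,
      hsS]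
  have hd : tc q0 / (s : ℂ) * ((s : ℂ) * (tc (-v) * θ - tc u))
      - tc (-v) / (s : ℂ) * ((s : ℂ) * (tc q0 * θ - tc a0)) = -1 := by
    have h1 : tc (q0 * u + a0 * v) = 1 := by rw [huv, HG3a_tc_one]
    rw [HG3a_tc_add, HG3a_tc_mul, HG3a_tc_mul] at h1
    have h2 : tc (-v) = - tc v := by simp [tc]; ring
    rw [h2]
    field_simp
    linear_combination -h1
  refine ⟨((starRingEnd ℂ) (tc q0 / (s : ℂ)) * (tc (-v) / (s : ℂ))
    + (starRingEnd ℂ) ((s : ℂ) * (tc q0 * θ - tc a0)) * ((s : ℂ) * (tc (-v) * θ - tc u)))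
      / ((HV V θ q0 a0 : ℝ) : ℂ), fun z j => ?_⟩
  · rw [hHVxy (z * q0 + j * (-v)), HG3a_tc_add, HG3a_tc_mul, HG3a_tc_mul, HG3a_tc_add, HG3a_tc_mul,
      HG3a_tc_mul]
    have := HG3a_herm (tc q0 / (s : ℂ)) ((s : ℂ) * (tc q0 * θ - tc a0)) (tc (-v) / (s : ℂ))
      ((s : ℂ) * (tc (-v) * θ - tc u)) (tc z) (tc j) (HV V θ q0 a0) (hHVxy q0 a0) hpos hd
    rw [← this]
    congr 3
    · ring
    · ring

end H385
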