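import Pool.Agent.H385R6.HgDefs

/-!
TEAM Q3, project HG (helper385): task HG3c (helper311): the sum of `1/(h|z+w|²+c)²` over a coset.
-/

open Complex Filter Topology Set MeasureTheory

namespace H385

open Pool.Agent.H304R3.HK (tc HC CS bb LamK psi bH aH LH Rep)

namespace HG3c

theorem pos {g G : ℝ → ℝ} {J : ℝ} (hG : ∀ x, HasDerivAt G (g x) x) (hg0 : ∀ x, 0 ≤ g x)
    (hanti : ∀ x y, 0 ≤ x → x ≤ y → g y ≤ g x) (hG0 : 0 ≤ G 0) (hJ : ∀ x, G x ≤ J) (u : ℝ)
    (S : Finset ℤ) (hS : ∀ n ∈ S, 1 ≤ (n : ℝ) + u) : ∑ n ∈ S, g (n + u) ≤ J := by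
  have hmono : Monotone G := monotone_of_hasDerivAt_nonneg hG hg0
  obtain ⟨a, ha⟩ : ∃ a : ℤ, a = ⌈1 - u⌉ := ⟨_, rfl⟩
  have ha1 : 1 ≤ (a:ℝ) + u := by
    have := Int.le_ceil (1 - u)
    rw [← ha] at this
    linarith
  have hSa : ∀ n ∈ S, a ≤ n := fun n hn => by
    rw [ha]
    exact Int.ceil_le.mpr (by have := hS n hn; linarith)
  obtain ⟨b, hb⟩ := S.bddAbove
  obtain ⟨K, hK⟩ : ∃ K : ℕ, ∀ n ∈ S, n < a + K := by
    refine ⟨(b - a + 1).toNat, fun n hn => ?_⟩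
    have h1 : n ≤ b := hb hn
    have h2 := hSa n hn
    omega
  have h1 : ∑ n ∈ S, g (n + u) ≤ ∑ k ∈ Finset.range K, g (((a + k : ℤ) : ℝ) + u) := by
    have hsub : S ⊆ (Finset.range K).image (fun k : ℕ => a + (k:ℤ)) := by
      intro n hn
      rw [Finset.mem_image]
      refine ⟨(n - a).toNat, ?_, ?_⟩
      · rw [Finset.mem_range]
        have := hK n hn
        have := hSa n hn
        omega
      · have := hSa n hn
        omega
    refine (Finset.sum_le_sum_of_subset_of_nonneg hsub (fun _ _ _ => hg0 _)).trans ?_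
    rw [Finset.sum_image (by
      intro x _ y _ hxy
      simpa using hxy)]
  have h2 : ∀ k : ℕ, g (((a + k : ℤ) : ℝ) + u) ≤
      G ((a:ℝ) + u + ((k + 1 : ℕ) : ℝ) - 1) - G ((a:ℝ) + u + (k : ℝ) - 1) := by
    intro k
    have hk0 : (0:ℝ) ≤ k := Nat.cast_nonneg k
    obtain ⟨c, hc, hc2⟩ := exists_hasDerivAt_eq_slope G g
      (show (a:ℝ) + u + (k : ℝ) - 1 < (a:ℝ) + u + (k : ℝ) by linarith)
      (fun x _ => (hG x).continuousAt.continuousWithinAt) (fun x _ => hG x)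
    have h3 : g (((a + k : ℤ) : ℝ) + u) ≤ g c := by
      apply hanti
      · have := hc.1; linarith
      · push_cast
        have := hc.2; linarith
    refine h3.trans ?_
    rw [hc2]
    push_cast
    rw [show (a:ℝ) + u + k - ((a:ℝ) + u + k - 1) = 1 by ring, div_one,
      show (a:ℝ) + u + (k + 1) - 1 = (a:ℝ) + u + k by ring]
  have h3 : ∑ k ∈ Finset.range K, g (((a + k : ℤ) : ℝ) + u) ≤
      G ((a:ℝ) + u + (K : ℝ) - 1) - G ((a:ℝ) + u + ((0 : ℕ) : ℝ) - 1) := by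
    rw [← Finset.sum_range_sub (fun k : ℕ => G ((a:ℝ) + u + (k : ℝ) - 1)) K]
    exact Finset.sum_le_sum fun k _ => h2 k
  have h4 : 0 ≤ G ((a:ℝ) + u + ((0 : ℕ) : ℝ) - 1) := hG0.trans (hmono (by push_cast; linarith))
  have h5 := hJ ((a:ℝ) + u + (K : ℝ) - 1)
  linarith

theorem line {g G : ℝ → ℝ} {J : ℝ} (hG : ∀ x, HasDerivAt G (g x) x) (hg0 : ∀ x, 0 ≤ g x)
    (hanti : ∀ x y, 0 ≤ x → x ≤ y → g y ≤ g x) (heven : ∀ x, g (-x) = g x)
    (hG0 : 0 ≤ G 0) (hJ : ∀ x, G x ≤ J) (u : ℝ)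
    (S : Finset ℤ) : ∑ n ∈ S, g (n + u) ≤ 2 * J + 2 * g 0 := by
  classical
  have hg1 : ∀ x, g x ≤ g 0 := by
    intro x
    rcases le_total 0 x with h | h
    · exact hanti 0 x le_rfl h
    · rw [← heven]
      exact hanti 0 (-x) le_rfl (by linarith)
  rw [← Finset.sum_filter_add_sum_filter_not S (fun n : ℤ => 1 ≤ (n : ℝ) + u)]
  rw [← Finset.sum_filter_add_sum_filter_not (S.filter (fun n : ℤ => ¬ 1 ≤ (n : ℝ) + u))
    (fun n : ℤ => (n : ℝ) + u ≤ -1)]
  have h1 : ∑ n ∈ S.filter (fun n : ℤ => 1 ≤ (n : ℝ) + u), g (n + u) ≤ J :=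
    pos hG hg0 hanti hG0 hJ u _ (fun n hn => (Finset.mem_filter.mp hn).2)
  have h2 : ∑ n ∈ (S.filter (fun n : ℤ => ¬ 1 ≤ (n : ℝ) + u)).filter
      (fun n : ℤ => (n : ℝ) + u ≤ -1), g (n + u) ≤ J := by
    have h3 := pos hG hg0 hanti hG0 hJ (-u) (((S.filter (fun n : ℤ => ¬ 1 ≤ (n : ℝ) + u)).filter
      (fun n : ℤ => (n : ℝ) + u ≤ -1)).image (fun n => -n)) (by
        intro n hn
        rw [Finset.mem_image] at hn
        obtain ⟨m, hm, rfl⟩ := hn
        have := (Finset.mem_filter.mp hm).2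
        push_cast
        linarith)
    rw [Finset.sum_image (by
      intro x _ y _ hxy
      simpa using hxy)] at h3
    refine le_trans (le_of_eq ?_) h3
    apply Finset.sum_congr rfl
    intro n _
    rw [← heven]
    congr 1
    push_cast
    ring
  have h3 : ∑ n ∈ (S.filter (fun n : ℤ => ¬ 1 ≤ (n : ℝ) + u)).filter
      (fun n : ℤ => ¬ (n : ℝ) + u ≤ -1), g (n + u) ≤ 2 * g 0 := by
    have h4 : (S.filter (fun n : ℤ => ¬ 1 ≤ (n : ℝ) + u)).filter
      (fun n : ℤ => ¬ (n : ℝ) + u ≤ -1) ⊆ {⌊-u⌋, ⌊-u⌋ + 1} := by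
      intro n hn
      rw [Finset.mem_filter, Finset.mem_filter] at hn
      obtain ⟨⟨-, h5⟩, h6⟩ := hn
      push Not at h5 h6
      rw [Finset.mem_insert, Finset.mem_singleton]
      have h7 : ⌊-u⌋ ≤ n := by
        have h8 : ⌊-u⌋ < n + 1 := by
          rw [Int.floor_lt]
          push_cast
          linarith
        omega
      have h9 : n < ⌊-u⌋ + 2 := by
        have h10 : ((n : ℤ) : ℝ) < ((⌊-u⌋ + 2 : ℤ) : ℝ) := by
          push_cast
          have := Int.lt_floor_add_one (-u)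
          linarith
        exact_mod_cast h10
      omega
    have h5 := Finset.card_le_card h4
    have h6 : (({⌊-u⌋, ⌊-u⌋ + 1} : Finset ℤ)).card ≤ 2 := Finset.card_le_two
    have h7 := Finset.sum_le_card_nsmul ((S.filter (fun n : ℤ => ¬ 1 ≤ (n : ℝ) + u)).filter
      (fun n : ℤ => ¬ (n : ℝ) + u ≤ -1)) (fun n : ℤ => g (n + u)) (g 0) (fun n _ => hg1 _)
    refine h7.trans ?_
    rw [nsmul_eq_mul]
    apply mul_le_mul_of_nonneg_right _ (hg0 0)
    exact_mod_cast h5.trans h6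
  linarith

/-- the first function -/
theorem sum1 {α c : ℝ} (hα : 0 < α) (hc : 0 < c) (u : ℝ) (S : Finset ℤ) :
    ∑ n ∈ S, 1 / (α * ((n : ℝ) + u) ^ 2 + c) ^ 2 ≤
      Real.pi / (2 * (√α * (c * √c))) + 2 / c ^ 2 := by
  obtain ⟨k, hk⟩ : ∃ k : ℝ, k = √α / √c := ⟨_, rfl⟩
  have hsa : 0 < √α := Real.sqrt_pos.mpr hα
  have hsc : 0 < √c := Real.sqrt_pos.mpr hc
  have hk0 : 0 < k := by rw [hk]; positivity
  have hk2 : k ^ 2 = α / c := by
    rw [hk, div_pow, Real.sq_sqrt hα.le, Real.sq_sqrt hc.le]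
  have h := line (g := fun x => 1 / (α * x ^ 2 + c) ^ 2)
    (G := fun x => 1 / (2 * k * c ^ 2) * ((k * x) / (1 + (k * x) ^ 2) + Real.arctan (k * x)))
    (J := 1 / (2 * k * c ^ 2) * (Real.pi / 2)) ?_ ?_ ?_ ?_ ?_ ?_ u S
  · refine h.trans (le_of_eq ?_)
    rw [hk]
    have h1 : √c ^ 2 = c := Real.sq_sqrt hc.le
    have h2 : 2 * (1 / (2 * (√α / √c) * c ^ 2) * (Real.pi / 2)) =
        Real.pi / (2 * (√α * (c * √c))) := by
      have h3 : 1 / (2 * (√α / √c) * c ^ 2) = 1 / (2 * (√α * (c * √c))) := by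
        congr 1
        have h4 : 2 * (√α / √c) * c ^ 2 = 2 * (√α / √c) * (c * √c ^ 2) := by rw [h1]; ring
        rw [h4]
        field_simp
      rw [h3]
      ring
    rw [h2]
    simp
    ring
  · intro x
    have e1 : 1 + (k * x) ^ 2 ≠ 0 := by positivity
    have e2 : α * x ^ 2 + c ≠ 0 := by positivity
    have h1 : HasDerivAt (fun x : ℝ => k * x) k x := by
      simpa using (hasDerivAt_id x).const_mul k
    have h2 : HasDerivAt (fun x : ℝ => 1 + (k * x) ^ 2) (2 * (k * x) * k) x := by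
      have := (h1.pow 2).const_add 1
      refine this.congr_deriv ?_
      simp
    have h3 := ((h1.div h2 e1).add h1.arctan).const_mul (1 / (2 * k * c ^ 2))
    refine h3.congr_deriv ?_
    have h5 : α * x ^ 2 + c = c * (1 + (k * x) ^ 2) := by
      rw [mul_pow, hk2]; field_simp; ring
    rw [h5]
    field_simp
    ring
  · intro x; positivity
  · intro x y hx hxy
    apply one_div_le_one_div_of_le (by positivity)
    apply pow_le_pow_left₀ (by positivity)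
    have : x ^ 2 ≤ y ^ 2 := pow_le_pow_left₀ hx hxy 2
    nlinarith
  · intro x; simp
  · simp
  · intro x
    apply mul_le_mul_of_nonneg_left _ (by positivity)
    obtain ⟨y, hy⟩ : ∃ y, y = Real.arctan (k * x) := ⟨_, rfl⟩
    have h1 : (k * x) / (1 + (k * x) ^ 2) = Real.sin y * Real.cos y := by
      rw [hy, Real.sin_arctan, Real.cos_arctan]
      have h2 : 0 < 1 + (k * x) ^ 2 := by positivity
      have h3 := Real.mul_self_sqrt h2.le
      rw [div_mul_div_comm, h3, mul_one]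
    rw [h1, ← hy]
    have h4 : Real.sin (2 * (Real.pi / 2 - y)) ≤ 2 * (Real.pi / 2 - y) := by
      apply Real.sin_le
      have := Real.arctan_lt_pi_div_two (k * x)
      rw [← hy] at this
      linarith
    rw [show 2 * (Real.pi / 2 - y) = Real.pi - 2 * y by ring, Real.sin_pi_sub,
      Real.sin_two_mul] at h4
    linarith

/-- the second function -/
theorem sum2 {α c : ℝ} (hα : 0 < α) (hc : 0 < c) (u : ℝ) (S : Finset ℤ) :
    ∑ n ∈ S, 1 / ((α * ((n : ℝ) + u) ^ 2 + c) * √(α * ((n : ℝ) + u) ^ 2 + c)) ≤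
      2 / (√α * c) + 2 / (c * √c) := by
  have hsa : 0 < √α := Real.sqrt_pos.mpr hα
  have hsc : 0 < √c := Real.sqrt_pos.mpr hc
  have h := line (g := fun x => 1 / ((α * x ^ 2 + c) * √(α * x ^ 2 + c)))
    (G := fun x => 1 / c * (x / √(α * x ^ 2 + c)))
    (J := 1 / (√α * c)) ?_ ?_ ?_ ?_ ?_ ?_ u S
  · refine h.trans (le_of_eq ?_)
    simp
    ring
  · intro x
    have e2 : 0 < α * x ^ 2 + c := by positivity
    have e3 : 0 < √(α * x ^ 2 + c) := Real.sqrt_pos.mpr e2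
    have h2 : HasDerivAt (fun x : ℝ => α * x ^ 2 + c) (α * (2 * x)) x := by
      have := (((hasDerivAt_id x).pow 2).const_mul α).add_const c
      refine this.congr_deriv ?_
      simp
    have h3 := h2.sqrt e2.ne'
    have h4 := ((hasDerivAt_id x).div h3 e3.ne').const_mul (1 / c)
    refine h4.congr_deriv ?_
    have h5 : √(α * x ^ 2 + c) ^ 2 = α * x ^ 2 + c := Real.sq_sqrt e2.le
    simp only [id]
    obtain ⟨s, hs⟩ : ∃ s, s = √(α * x ^ 2 + c) := ⟨_, rfl⟩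
    rw [← hs] at h5 e3 ⊢
    rw [← h5]
    have h6 : c = s ^ 2 - α * x ^ 2 := by rw [h5]; ring
    field_simp
    rw [h6]
    ring
  · intro x; positivity
  · intro x y hx hxy
    apply one_div_le_one_div_of_le (by positivity)
    have h1 : x ^ 2 ≤ y ^ 2 := pow_le_pow_left₀ hx hxy 2
    have h2 : α * x ^ 2 + c ≤ α * y ^ 2 + c := by nlinarith
    exact mul_le_mul h2 (Real.sqrt_le_sqrt h2) (Real.sqrt_nonneg _) (by positivity)
  · intro x; simp
  · simp
  · intro x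
    have e2 : 0 < α * x ^ 2 + c := by positivity
    have e3 : 0 < √(α * x ^ 2 + c) := Real.sqrt_pos.mpr e2
    have h1 : √α * x ≤ √(α * x ^ 2 + c) := by
      apply Real.le_sqrt_of_sq_le
      rw [mul_pow, Real.sq_sqrt hα.le]
      linarith
    rw [one_div_mul_eq_div, div_div, div_le_div_iff₀ (by positivity) (by positivity)]
    nlinarith [mul_le_mul_of_nonneg_right h1 hc.le]

/-- the two-dimensional sum -/
theorem plane {α c : ℝ} (hα : 0 < α) (hc : 0 < c) (u v : ℝ) (S T : Finset ℤ) :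
    ∑ y ∈ T, ∑ x ∈ S, 1 / (α * (((x : ℝ) + u) ^ 2 + ((y : ℝ) + v) ^ 2) + c) ^ 2 ≤
      Real.pi / (α * c) + 2 * Real.pi / (√α * (c * √c)) + 4 / c ^ 2 := by
  have hsa : 0 < √α := Real.sqrt_pos.mpr hα
  have hsc : 0 < √c := Real.sqrt_pos.mpr hc
  have h1 : ∀ y ∈ T, ∑ x ∈ S, 1 / (α * (((x : ℝ) + u) ^ 2 + ((y : ℝ) + v) ^ 2) + c) ^ 2 ≤
      Real.pi / (2 * √α) * (1 / ((α * ((y : ℝ) + v) ^ 2 + c) * √(α * ((y : ℝ) + v) ^ 2 + c))) +
        2 * (1 / (α * ((y : ℝ) + v) ^ 2 + c) ^ 2) := by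
    intro y _
    have hcy : 0 < α * ((y : ℝ) + v) ^ 2 + c := by positivity
    have h2 := sum1 hα hcy u S
    have h3 : ∑ x ∈ S, 1 / (α * (((x : ℝ) + u) ^ 2 + ((y : ℝ) + v) ^ 2) + c) ^ 2 =
        ∑ x ∈ S, 1 / (α * ((x : ℝ) + u) ^ 2 + (α * ((y : ℝ) + v) ^ 2 + c)) ^ 2 := by
      apply Finset.sum_congr rfl
      intro x _
      congr 2
      ring
    rw [h3]
    refine h2.trans (le_of_eq ?_)
    have h4 : 0 < √(α * ((y : ℝ) + v) ^ 2 + c) := Real.sqrt_pos.mpr hcy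
    field_simp
  refine (Finset.sum_le_sum h1).trans ?_
  rw [Finset.sum_add_distrib, ← Finset.mul_sum, ← Finset.mul_sum]
  have h2 := sum1 hα hc v T
  have h3 := sum2 hα hc v T
  have hp : 0 < Real.pi / (2 * √α) := by positivity
  calc _ ≤ Real.pi / (2 * √α) * (2 / (√α * c) + 2 / (c * √c)) +
        2 * (Real.pi / (2 * (√α * (c * √c))) + 2 / c ^ 2) := by
        apply add_le_add
        · exact mul_le_mul_of_nonneg_left h3 hp.le
        · exact mul_le_mul_of_nonneg_left h2 (by norm_num)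
    _ = Real.pi / ((√α * √α) * c) + 2 * Real.pi / (√α * (c * √c)) + 4 / c ^ 2 := by
        field_simp
        ring
    _ = _ := by rw [Real.mul_self_sqrt hα.le]

theorem tc_norm (a : ZI) : ‖tc a‖ ^ 2 = (a.re : ℝ) ^ 2 + (a.im : ℝ) ^ 2 := by
  rw [Complex.sq_norm, Complex.normSq_apply]
  simp only [tc]
  simp
  ring

theorem tc_mul (a b : ZI) : tc (a * b) = tc a * tc b := by
  simp only [tc, Zsqrtd.re_mul, Zsqrtd.im_mul]
  push_cast
  linear_combination (-(a.im : ℂ) * b.im) * Complex.I_sq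

theorem tc_add (a b : ZI) : tc (a + b) = tc a + tc b := by
  simp only [tc, Zsqrtd.re_add, Zsqrtd.im_add]
  push_cast
  ring

theorem nrm_eq (a : ZI) : (nrm a : ℝ) = ‖tc a‖ ^ 2 := by
  rw [tc_norm]
  unfold nrm
  have h1 : ((a.norm.natAbs : ℕ) : ℤ) = a.norm := Int.natAbs_of_nonneg (GaussianInt.norm_nonneg a)
  have h2 : ((a.norm.natAbs : ℕ) : ℝ) = ((a.norm : ℤ) : ℝ) := by
    conv_rhs => rw [← h1]
    rfl
  rw [h2, Zsqrtd.norm_def]
  push_cast
  ring

end HG3c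

/-- HG3c: sum over a coset -/
theorem line_sumZ (P : ZI) (hP : P ≠ 0) : ∃ C : ℝ, 0 < C ∧ ∀ (h c : ℝ) (w : ℂ) (z0 : ZI)
    (F : Finset ZI), 0 < h → 0 < c → (∀ z ∈ F, P ∣ z - z0) →
    ∑ z ∈ F, 1 / (h * ‖tc z + w‖ ^ 2 + c) ^ 2 ≤
      (1 / (nrm P : ℝ)) * (Real.pi / (h * c)) + C * (1 / c ^ 2 + 1 / (Real.sqrt h * c ^ (3 / 2 : ℝ))) := by
  classical
  refine ⟨7, by norm_num, ?_⟩
  intro h c w z0 F hh hc hF
  obtain ⟨N, hN⟩ : ∃ N : ℝ, N = (nrm P : ℝ) := ⟨_, rfl⟩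
  have hN1 : 1 ≤ N := by
    have h1 : nrm P ≠ 0 := by
      unfold nrm
      rw [Int.natAbs_ne_zero]
      intro h2
      exact hP (GaussianInt.norm_eq_zero.mp h2)
    rw [hN]
    exact_mod_cast Nat.one_le_iff_ne_zero.mpr h1
  have hN0 : 0 < N := by linarith
  have hNP : ‖tc P‖ ^ 2 = N := by rw [hN, HG3c.nrm_eq]
  have htP : tc P ≠ 0 := by
    intro h1
    rw [h1] at hNP
    simp at hNP
    linarith
  rw [← hN]
  choose! m hm using hF
  obtain ⟨w', hw'⟩ : ∃ w' : ℂ, w' = (tc z0 + w) / tc P := ⟨_, rfl⟩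
  have hterm : ∀ z ∈ F, 1 / (h * ‖tc z + w‖ ^ 2 + c) ^ 2 =
      1 / ((h * N) * ((((m z).re : ℝ) + w'.re) ^ 2 + (((m z).im : ℝ) + w'.im) ^ 2) + c) ^ 2 := by
    intro z hz
    have h1 : z = z0 + P * m z := by rw [← hm z hz]; ring
    have h2 : tc z + w = tc P * (tc (m z) + w') := by
      conv_lhs => rw [h1]
      rw [HG3c.tc_add, HG3c.tc_mul, hw']
      field_simp
      ring
    have h3 : ‖tc z + w‖ ^ 2 = N * ((((m z).re : ℝ) + w'.re) ^ 2 + (((m z).im : ℝ) + w'.im) ^ 2) := by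
      rw [h2, norm_mul, mul_pow, hNP]
      congr 1
      rw [Complex.sq_norm, Complex.normSq_apply]
      simp only [tc]
      simp
      ring
    rw [h3]
    congr 3
    ring
  rw [Finset.sum_congr rfl hterm]
  have hinj : Set.InjOn (fun z : ZI => (((m z).im, (m z).re) : ℤ × ℤ)) F := by
    intro z hz z' hz' hzz
    simp only [Prod.mk.injEq] at hzz
    have h1 : m z = m z' := Zsqrtd.ext hzz.2 hzz.1
    have h2 := hm z hz
    have h3 := hm z' hz'
    rw [h1, ← h3] at h2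
    exact sub_left_injective h2
  have hsum : ∑ z ∈ F, 1 / ((h * N) * ((((m z).re : ℝ) + w'.re) ^ 2 +
        (((m z).im : ℝ) + w'.im) ^ 2) + c) ^ 2 =
      ∑ q ∈ F.image (fun z : ZI => (((m z).im, (m z).re) : ℤ × ℤ)),
        1 / ((h * N) * (((q.2 : ℝ) + w'.re) ^ 2 + ((q.1 : ℝ) + w'.im) ^ 2) + c) ^ 2 := by
    rw [Finset.sum_image hinj]
  rw [hsum]
  have hsub : F.image (fun z : ZI => (((m z).im, (m z).re) : ℤ × ℤ)) ⊆
      (F.image (fun z : ZI => (m z).im)) ×ˢ (F.image (fun z : ZI => (m z).re)) := by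
    intro q hq
    rw [Finset.mem_image] at hq
    obtain ⟨z, hz, rfl⟩ := hq
    rw [Finset.mem_product]
    exact ⟨Finset.mem_image_of_mem (fun z : ZI => (m z).im) hz,
      Finset.mem_image_of_mem (fun z : ZI => (m z).re) hz⟩
  have hhN : 0 < h * N := by positivity
  refine (Finset.sum_le_sum_of_subset_of_nonneg hsub (fun _ _ _ => by positivity)).trans ?_
  rw [Finset.sum_product]
  refine (HG3c.plane hhN hc w'.re w'.im _ _).trans ?_
  have hc32 : c ^ (3 / 2 : ℝ) = c * √c := by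
    rw [show (3 / 2 : ℝ) = 1 + 1 / 2 by norm_num, Real.rpow_add hc, Real.rpow_one,
      Real.sqrt_eq_rpow]
  rw [hc32]
  have hsh : 0 < √h := Real.sqrt_pos.mpr hh
  have hsc : 0 < √c := Real.sqrt_pos.mpr hc
  have h1 : √h ≤ √(h * N) := Real.sqrt_le_sqrt (by nlinarith)
  have h2 : 2 * Real.pi / (√(h * N) * (c * √c)) ≤ 7 * (1 / (√h * (c * √c))) := by
    have h3 : 2 * Real.pi ≤ 7 := by
      have := Real.pi_lt_d2
      linarith
    calc 2 * Real.pi / (√(h * N) * (c * √c)) ≤ 7 / (√(h * N) * (c * √c)) :=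
          div_le_div_of_nonneg_right h3 (by positivity)
      _ ≤ 7 / (√h * (c * √c)) := by
          apply div_le_div_of_nonneg_left (by norm_num) (by positivity)
          exact mul_le_mul_of_nonneg_right h1 (by positivity)
      _ = _ := by ring
  have h3 : 4 / c ^ 2 ≤ 7 * (1 / c ^ 2) := by
    have : 0 < 1 / c ^ 2 := by positivity
    have h4 : 4 / c ^ 2 = 4 * (1 / c ^ 2) := by ring
    rw [h4]
    linarith
  have h4 : Real.pi / (h * N * c) = 1 / N * (Real.pi / (h * c)) := by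
    field_simp
  rw [h4]
  linarith

end H385
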