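import Pool.Agent.H385R6.HgDefs

/-!
TEAM Q3, project HG (helper385), task HG3d (helper365): sum of `1/N(j)` over a residue class of
Gaussian integers, upper bound for every class, lower bound for the trivial class.
-/

open Complex Filter Topology Set MeasureTheory

namespace H385

open Pool.Agent.H304R3.HK (tc HC CS bb LamK psi bH aH LH Rep)

theorem HG3d_tc_re (a : ZI) : (tc a).re = a.re := by
  simp [tc]

theorem HG3d_tc_im (a : ZI) : (tc a).im = a.im := by
  simp [tc]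

/-- unit cell -/
def HG3d_cell (m : ZI) : Set ℂ := {z | ⌊z.re⌋ = m.re ∧ ⌊z.im⌋ = m.im}

theorem HG3d_cell_meas (m : ZI) : MeasurableSet (HG3d_cell m) := by
  refine MeasurableSet.inter ?_ ?_
  · exact measurableSet_eq_fun (Int.measurable_floor.comp Complex.measurable_re) measurable_const
  · exact measurableSet_eq_fun (Int.measurable_floor.comp Complex.measurable_im) measurable_const

theorem HG3d_cell_vol (m : ZI) : volume (HG3d_cell m) = 1 := by
  rw [← (Complex.volume_preserving_equiv_real_prod.symm).measure_preimage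
    (HG3d_cell_meas m).nullMeasurableSet]
  have : (Complex.measurableEquivRealProd.symm ⁻¹' (HG3d_cell m)) =
      Set.Ico (m.re : ℝ) (m.re + 1) ×ˢ Set.Ico (m.im : ℝ) (m.im + 1) := by
    ext a
    simp only [Set.mem_preimage, Complex.measurableEquivRealProd_symm_apply, HG3d_cell,
      Set.mem_ofPred_eq, Set.mem_prod, Set.mem_Ico, Int.floor_eq_iff]
  rw [this, Measure.volume_eq_prod, Measure.prod_prod, Real.volume_Ico, Real.volume_Ico]
  simp

theorem HG3d_cell_dist (m : ZI) (z : ℂ) (hz : z ∈ HG3d_cell m) : ‖z - tc m‖ ≤ Real.sqrt 2 := by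
  obtain ⟨h1, h2⟩ := hz
  rw [Int.floor_eq_iff] at h1 h2
  refine Real.le_sqrt_of_sq_le ?_
  rw [← Complex.normSq_eq_norm_sq, Complex.normSq_apply, Complex.sub_re, Complex.sub_im,
    HG3d_tc_re, HG3d_tc_im]
  nlinarith [h1.1, h1.2, h2.1, h2.2]

theorem HG3d_cell_disj (m n : ZI) (h : m ≠ n) : Disjoint (HG3d_cell m) (HG3d_cell n) := by
  rw [Set.disjoint_left]
  rintro z ⟨h1, h2⟩ ⟨h3, h4⟩
  exact h (Zsqrtd.ext (h1.symm.trans h3) (h2.symm.trans h4))

/-- upper bound for the number of Gaussian integers in a disc -/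
theorem HG3d_card_le (c : ℂ) (R : ℝ) (hR : 0 ≤ R) (F : Finset ZI)
    (hF : ∀ m ∈ F, ‖tc m - c‖ ≤ R) : (F.card : ℝ) ≤ Real.pi * (R + Real.sqrt 2) ^ 2 := by
  have h1 : volume (⋃ m ∈ F, HG3d_cell m) = F.card := by
    rw [measure_biUnion_finset (fun m _ n _ h => HG3d_cell_disj m n h)
      (fun m _ => HG3d_cell_meas m)]
    simp [HG3d_cell_vol]
  have h2 : (⋃ m ∈ F, HG3d_cell m) ⊆ Metric.closedBall c (R + Real.sqrt 2) := by
    intro z hz
    simp only [Set.mem_iUnion] at hz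
    obtain ⟨m, hm, hz⟩ := hz
    rw [Metric.mem_closedBall, dist_eq_norm]
    calc ‖z - c‖ = ‖(tc m - c) + (z - tc m)‖ := by ring_nf
      _ ≤ ‖tc m - c‖ + ‖z - tc m‖ := norm_add_le _ _
      _ ≤ _ := add_le_add (hF m hm) (HG3d_cell_dist m z hz)
  have h3 := measure_mono (μ := volume) h2
  rw [h1, Complex.volume_closedBall] at h3
  have hR' : 0 ≤ R + Real.sqrt 2 := by positivity
  have h4 := ENNReal.toReal_mono (by finiteness) h3
  rw [ENNReal.toReal_natCast, ENNReal.toReal_mul, ENNReal.toReal_pow,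
    ENNReal.toReal_ofReal hR'] at h4
  simp only [ENNReal.coe_toReal, NNReal.coe_real_pi] at h4
  linarith

/-- lower bound for the number of Gaussian integers in a disc -/
theorem HG3d_card_ge (R : ℝ) (F : Finset ZI)
    (hF : ∀ m : ZI, ‖tc m‖ < R → m ∈ F) (hR : Real.sqrt 2 ≤ R) :
    Real.pi * (R - Real.sqrt 2) ^ 2 ≤ (F.card : ℝ) := by
  have h1 : volume (⋃ m ∈ F, HG3d_cell m) = F.card := by
    rw [measure_biUnion_finset (fun m _ n _ h => HG3d_cell_disj m n h)
      (fun m _ => HG3d_cell_meas m)]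
    simp [HG3d_cell_vol]
  have h2 : Metric.ball (0 : ℂ) (R - Real.sqrt 2) ⊆ (⋃ m ∈ F, HG3d_cell m) := by
    intro z hz
    rw [Metric.mem_ball, dist_eq_norm, sub_zero] at hz
    have hc : z ∈ HG3d_cell ⟨⌊z.re⌋, ⌊z.im⌋⟩ := ⟨rfl, rfl⟩
    simp only [Set.mem_iUnion]
    refine ⟨⟨⌊z.re⌋, ⌊z.im⌋⟩, hF _ ?_, hc⟩
    have h5 := HG3d_cell_dist _ z hc
    calc ‖tc (⟨⌊z.re⌋, ⌊z.im⌋⟩ : ZI)‖ = ‖z - (z - tc (⟨⌊z.re⌋, ⌊z.im⌋⟩ : ZI))‖ := by
          rw [sub_sub_cancel]
      _ ≤ ‖z‖ + ‖z - tc (⟨⌊z.re⌋, ⌊z.im⌋⟩ : ZI)‖ := norm_sub_le _ _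
      _ < _ := by linarith
  have h3 := measure_mono (μ := volume) h2
  rw [h1, Complex.volume_ball] at h3
  have hR' : 0 ≤ R - Real.sqrt 2 := by linarith
  have h4 := ENNReal.toReal_mono (by finiteness) h3
  rw [ENNReal.toReal_natCast, ENNReal.toReal_mul, ENNReal.toReal_pow,
    ENNReal.toReal_ofReal hR'] at h4
  simp only [ENNReal.coe_toReal, NNReal.coe_real_pi] at h4
  linarith



theorem HG3d_cont (x1 x2 : ℝ) (h0 : 0 < x1) (h12 : x1 ≤ x2) :
    IntervalIntegrable (fun t : ℝ => 1 / t ^ 2) volume x1 x2 := by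
  apply ContinuousOn.intervalIntegrable
  intro t ht
  rw [Set.uIcc_of_le h12] at ht
  have : t ≠ 0 := (lt_of_lt_of_le h0 ht.1).ne'
  exact ContinuousAt.continuousWithinAt (by fun_prop (disch := positivity))

/-- `1/n` as an integral -/
theorem HG3d_one (n x1 x2 : ℝ) (h0 : 0 < x1) (h1 : x1 ≤ n) (h2 : n ≤ x2) :
    IntervalIntegrable (fun t : ℝ => (if n < t then (1:ℝ) else 0) / t ^ 2) volume x1 x2 ∧
    1 / n = 1 / x2 + ∫ t in x1..x2, (if n < t then (1:ℝ) else 0) / t ^ 2 := by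
  have hn : 0 < n := lt_of_lt_of_le h0 h1
  have e1 : Set.EqOn (fun _ : ℝ => (0:ℝ)) (fun t : ℝ => (if n < t then (1:ℝ) else 0) / t ^ 2)
      (Set.uIoc x1 n) := by
    intro t ht
    rw [Set.uIoc_of_le h1] at ht
    simp [not_lt.2 ht.2]
  have e2 : Set.EqOn (fun t : ℝ => 1 / t ^ 2) (fun t : ℝ => (if n < t then (1:ℝ) else 0) / t ^ 2)
      (Set.uIoc n x2) := by
    intro t ht
    rw [Set.uIoc_of_le h2] at ht
    simp [ht.1]
  have i1 : IntervalIntegrable (fun t : ℝ => (if n < t then (1:ℝ) else 0) / t ^ 2) volume x1 n :=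
    (intervalIntegrable_congr e1).1 intervalIntegrable_const
  have i2 : IntervalIntegrable (fun t : ℝ => (if n < t then (1:ℝ) else 0) / t ^ 2) volume n x2 :=
    (intervalIntegrable_congr e2).1 (HG3d_cont n x2 hn h2)
  refine ⟨i1.trans i2, ?_⟩
  rw [← intervalIntegral.integral_add_adjacent_intervals i1 i2]
  rw [← intervalIntegral.integral_congr_ae (Filter.Eventually.of_forall (fun t ht => e1 ht)),
    ← intervalIntegral.integral_congr_ae (Filter.Eventually.of_forall (fun t ht => e2 ht))]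
  have h3 : ∫ t in n..x2, 1 / t ^ 2 = (-1 / x2) - (-1 / n) := by
    refine intervalIntegral.integral_eq_sub_of_hasDerivAt (f := fun t => -1 / t) ?_
      (HG3d_cont n x2 hn h2)
    intro t ht
    rw [Set.uIcc_of_le h2] at ht
    have ht0 : t ≠ 0 := (lt_of_lt_of_le hn ht.1).ne'
    have := (hasDerivAt_const t (-1:ℝ)).div (hasDerivAt_id t) ht0
    refine this.congr_deriv ?_
    simp
  rw [h3, intervalIntegral.integral_const]
  simp
  ring

theorem HG3d_sum (F : Finset ZI) (x1 x2 : ℝ) (h0 : 0 < x1)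
    (hF : ∀ j ∈ F, x1 ≤ (nrm j : ℝ) ∧ (nrm j : ℝ) ≤ x2) :
    IntervalIntegrable (fun t : ℝ => ((F.filter (fun j => (nrm j : ℝ) < t)).card : ℝ) / t ^ 2)
      volume x1 x2 ∧
    ∑ j ∈ F, 1 / (nrm j : ℝ) = F.card / x2 +
      ∫ t in x1..x2, ((F.filter (fun j => (nrm j : ℝ) < t)).card : ℝ) / t ^ 2 := by
  have h1 : (fun t : ℝ => ((F.filter (fun j => (nrm j : ℝ) < t)).card : ℝ) / t ^ 2) =
      (fun t : ℝ => ∑ j ∈ F, (if (nrm j : ℝ) < t then (1:ℝ) else 0) / t ^ 2) := by
    ext t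
    rw [← Finset.sum_div, Finset.card_filter]
    push_cast
    rfl
  rw [h1]
  constructor
  · have := IntervalIntegrable.sum F (f := fun (j : ZI) (t : ℝ) =>
      (if (nrm j : ℝ) < t then (1:ℝ) else 0) / t ^ 2)
      (fun j hj => (HG3d_one (nrm j) x1 x2 h0 (hF j hj).1 (hF j hj).2).1)
    refine this.congr_ae (Filter.Eventually.of_forall (fun t => ?_))
    simp
  · rw [intervalIntegral.integral_finsetSum
      (fun j hj => (HG3d_one (nrm j) x1 x2 h0 (hF j hj).1 (hF j hj).2).1)]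
    rw [Finset.sum_congr rfl
      (fun j hj => (HG3d_one (nrm j) x1 x2 h0 (hF j hj).1 (hF j hj).2).2),
      Finset.sum_add_distrib]
    simp
    ring

/-- the comparison integral -/
theorem HG3d_int (E G x1 x2 : ℝ) (h0 : 0 < x1) (h12 : x1 ≤ x2) :
    IntervalIntegrable (fun t : ℝ => 1 / t + E / (t * Real.sqrt t) + G / t ^ 2) volume x1 x2 ∧
    ∫ t in x1..x2, (1 / t + E / (t * Real.sqrt t) + G / t ^ 2) =
      Real.log (x2 / x1) + 2 * E * (1 / Real.sqrt x1 - 1 / Real.sqrt x2) +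
        G * (1 / x1 - 1 / x2) := by
  have hx2 : 0 < x2 := lt_of_lt_of_le h0 h12
  have hi : IntervalIntegrable (fun t : ℝ => 1 / t + E / (t * Real.sqrt t) + G / t ^ 2)
      volume x1 x2 := by
    apply ContinuousOn.intervalIntegrable
    intro t ht
    rw [Set.uIcc_of_le h12] at ht
    have ht0 : 0 < t := lt_of_lt_of_le h0 ht.1
    have h1 : t * Real.sqrt t ≠ 0 := by positivity
    exact ContinuousAt.continuousWithinAt (by fun_prop (disch := positivity))
  refine ⟨hi, ?_⟩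
  rw [intervalIntegral.integral_eq_sub_of_hasDerivAt
    (f := fun t => Real.log t - 2 * E / Real.sqrt t - G / t) ?_ hi]
  · rw [Real.log_div hx2.ne' h0.ne']
    ring
  · intro t ht
    rw [Set.uIcc_of_le h12] at ht
    have ht0 : 0 < t := lt_of_lt_of_le h0 ht.1
    have hs : 0 < Real.sqrt t := Real.sqrt_pos.2 ht0
    have d1 := Real.hasDerivAt_log ht0.ne'
    have d2 := (hasDerivAt_const t (2 * E)).div (Real.hasDerivAt_sqrt ht0.ne') hs.ne'
    have d3 := (hasDerivAt_const t G).div (hasDerivAt_id t) ht0.ne'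
    refine ((d1.sub d2).sub d3).congr_deriv ?_
    have hss : Real.sqrt t ^ 2 = t := Real.sq_sqrt ht0.le
    simp only [id]
    rw [hss]
    field_simp
    ring



theorem HG3d_nrm (a : ZI) : (nrm a : ℝ) = ‖tc a‖ ^ 2 := by
  rw [← Complex.normSq_eq_norm_sq, Complex.normSq_apply, HG3d_tc_re, HG3d_tc_im]
  unfold nrm
  have h : ((a.norm.natAbs : ℤ) : ℝ) = ((a.norm : ℤ) : ℝ) := by
    rw [Int.natAbs_of_nonneg (GaussianInt.norm_nonneg a)]
  have h2 : ((a.norm.natAbs : ℕ) : ℝ) = ((a.norm.natAbs : ℤ) : ℝ) := (Int.cast_natCast _).symm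
  rw [h2, h, Zsqrtd.norm_def]
  push_cast
  ring

theorem HG3d_tc_sub (a b : ZI) : tc (a - b) = tc a - tc b := by
  apply Complex.ext
  · rw [Complex.sub_re, HG3d_tc_re, HG3d_tc_re, HG3d_tc_re, Zsqrtd.re_sub]; push_cast; ring
  · rw [Complex.sub_im, HG3d_tc_im, HG3d_tc_im, HG3d_tc_im, Zsqrtd.im_sub]; push_cast; ring

theorem HG3d_tc_mul (a b : ZI) : tc (a * b) = tc a * tc b := by
  apply Complex.ext
  · rw [Complex.mul_re, HG3d_tc_re, HG3d_tc_re, HG3d_tc_re, HG3d_tc_im, HG3d_tc_im,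
      Zsqrtd.re_mul]
    push_cast; ring
  · rw [Complex.mul_im, HG3d_tc_im, HG3d_tc_re, HG3d_tc_re, HG3d_tc_im, HG3d_tc_im,
      Zsqrtd.im_mul]
    push_cast; ring

theorem HG3d_tc_ne {a : ZI} (ha : a ≠ 0) : tc a ≠ 0 := by
  intro h
  apply ha
  have h1 := congrArg Complex.re h
  have h2 := congrArg Complex.im h
  rw [HG3d_tc_re, Complex.zero_re] at h1
  rw [HG3d_tc_im, Complex.zero_im] at h2
  exact Zsqrtd.ext (by exact_mod_cast h1) (by exact_mod_cast h2)

theorem HG3d_one_le {a : ZI} (ha : a ≠ 0) : (1 : ℝ) ≤ nrm a := by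
  have h1 : nrm a ≠ 0 := by
    intro h
    have h2 := HG3d_nrm a
    rw [h] at h2
    have h3 := norm_pos_iff.2 (HG3d_tc_ne ha)
    have : (0:ℝ) < ‖tc a‖ ^ 2 := by positivity
    rw [← h2] at this
    simp at this
  exact_mod_cast Nat.one_le_iff_ne_zero.2 h1

/-- number of elements of a residue class in a disc -/
theorem HG3d_class_card (P : ZI) (hP : P ≠ 0) (j0 : ZI) (t : ℝ) (ht : 0 ≤ t) (F : Finset ZI)
    (hF : ∀ j ∈ F, P ∣ j - j0 ∧ (nrm j : ℝ) ≤ t) :
    (F.card : ℝ) ≤ Real.pi / (nrm P : ℝ) * (Real.sqrt t + Real.sqrt 2 * ‖tc P‖) ^ 2 := by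
  classical
  have hP0 : tc P ≠ 0 := HG3d_tc_ne hP
  have hP1 : 0 < ‖tc P‖ := norm_pos_iff.2 hP0
  -- the quotient map
  have hq : ∀ j : ZI, ∃ m : ZI, P ∣ j - j0 → j - j0 = P * m := by
    intro j
    by_cases h : P ∣ j - j0
    · obtain ⟨m, hm⟩ := h
      exact ⟨m, fun _ => hm⟩
    · exact ⟨0, fun h' => absurd h' h⟩
  choose f hf using hq
  have hinj : Set.InjOn f F := by
    intro a ha b hb hab
    have h1 := hf a (hF a ha).1
    have h2 := hf b (hF b hb).1
    rw [hab, ← h2] at h1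
    exact sub_left_injective h1
  have hc : (F.image f).card = F.card := Finset.card_image_of_injOn hinj
  have h1 := HG3d_card_le (-(tc j0 / tc P)) (Real.sqrt t / ‖tc P‖) (by positivity) (F.image f) (by
    intro m hm
    rw [Finset.mem_image] at hm
    obtain ⟨j, hj, rfl⟩ := hm
    have h2 := hf j (hF j hj).1
    have h3 : tc j - tc j0 = tc P * tc (f j) := by rw [← HG3d_tc_sub, h2, HG3d_tc_mul]
    have h4 : tc (f j) - -(tc j0 / tc P) = tc j / tc P := by
      field_simp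
      linear_combination -h3
    rw [h4, norm_div]
    apply div_le_div_of_nonneg_right _ hP1.le
    apply Real.le_sqrt_of_sq_le
    rw [← HG3d_nrm]
    exact (hF j hj).2)
  rw [hc] at h1
  refine h1.trans (le_of_eq ?_)
  rw [HG3d_nrm P]
  field_simp

/-- HG3d: sum of `1/N(j)` over a residue class -/
theorem class_sum (P : ZI) (hP : P ≠ 0) : ∃ C : ℝ, 0 < C ∧ ∀ (x1 x2 : ℝ) (j0 : ZI) (F : Finset ZI),
    0 < x1 → x1 ≤ x2 → (∀ j ∈ F, j ≠ 0 ∧ P ∣ j - j0 ∧ x1 < (nrm j : ℝ) ∧ (nrm j : ℝ) ≤ x2) →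
    ∑ j ∈ F, 1 / (nrm j : ℝ) ≤ Real.pi / (nrm P : ℝ) * Real.log (x2 / x1) + C := by
  set K : ℝ := Real.pi / (nrm P : ℝ) with hK
  set D : ℝ := Real.sqrt 2 * ‖tc P‖ with hD
  set E : ℝ := 2 * D + D ^ 2 with hE
  have hP1 : 1 ≤ (nrm P : ℝ) := HG3d_one_le hP
  have hK0 : 0 < K := by positivity
  have hD0 : 0 ≤ D := by positivity
  have hE0 : 0 ≤ E := by positivity
  refine ⟨K * (1 + 3 * E), by positivity, ?_⟩
  -- the case `1 ≤ x1`
  have key : ∀ (x1 x2 : ℝ) (j0 : ZI) (F : Finset ZI), 1 ≤ x1 → x1 ≤ x2 →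
      (∀ j ∈ F, P ∣ j - j0 ∧ x1 ≤ (nrm j : ℝ) ∧ (nrm j : ℝ) ≤ x2) →
      ∑ j ∈ F, 1 / (nrm j : ℝ) ≤ K * Real.log (x2 / x1) + K * (1 + 3 * E) := by
    intro x1 x2 j0 F h1 h12 hF
    have hx1 : 0 < x1 := by linarith
    have hx2 : 0 < x2 := by linarith
    obtain ⟨i1, hs⟩ := HG3d_sum F x1 x2 hx1 (fun j hj => (hF j hj).2)
    obtain ⟨i2, hI⟩ := HG3d_int E 0 x1 x2 hx1 h12
    have hcount : ∀ t : ℝ, 1 ≤ t → K * (Real.sqrt t + D) ^ 2 ≤ K * (t + E * Real.sqrt t) := by
      intro t ht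
      apply mul_le_mul_of_nonneg_left _ hK0.le
      have hs1 : 1 ≤ Real.sqrt t := Real.one_le_sqrt.2 ht
      have hs2 : Real.sqrt t ^ 2 = t := Real.sq_sqrt (by linarith)
      have : (Real.sqrt t + D) ^ 2 = t + 2 * D * Real.sqrt t + D ^ 2 := by
        linear_combination hs2
      rw [this, hE]
      nlinarith [mul_le_mul_of_nonneg_left hs1 (sq_nonneg D)]
    have b1 : (F.card : ℝ) / x2 ≤ K * (1 + E) := by
      have h3 := HG3d_class_card P hP j0 x2 hx2.le F (fun j hj => ⟨(hF j hj).1, (hF j hj).2.2⟩)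
      have h4 := hcount x2 (by linarith)
      rw [div_le_iff₀ hx2]
      refine (h3.trans h4).trans ?_
      rw [mul_assoc]
      apply mul_le_mul_of_nonneg_left _ hK0.le
      have hs1 : 1 ≤ Real.sqrt x2 := Real.one_le_sqrt.2 (by linarith)
      have hs2 : Real.sqrt x2 ^ 2 = x2 := Real.sq_sqrt (by linarith)
      have hs3 : Real.sqrt x2 ≤ x2 := by nlinarith
      nlinarith [mul_le_mul_of_nonneg_left hs3 hE0]
    have b2 : ∫ t in x1..x2, ((F.filter (fun j => (nrm j : ℝ) < t)).card : ℝ) / t ^ 2 ≤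
        ∫ t in x1..x2, K * (1 / t + E / (t * Real.sqrt t) + 0 / t ^ 2) := by
      apply intervalIntegral.integral_mono_on h12 i1 (i2.const_mul K)
      intro t ht
      have ht0 : 0 < t := lt_of_lt_of_le hx1 ht.1
      have h3 := HG3d_class_card P hP j0 t ht0.le (F.filter (fun j => (nrm j : ℝ) < t))
        (fun j hj => by
          rw [Finset.mem_filter] at hj
          exact ⟨(hF j hj.1).1, hj.2.le⟩)
      have h4 := h3.trans (hcount t (by linarith [ht.1]))
      rw [div_le_iff₀ (by positivity)]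
      refine h4.trans (le_of_eq ?_)
      have hs0 : 0 < Real.sqrt t := Real.sqrt_pos.2 ht0
      have hs2 : Real.sqrt t ^ 2 = t := Real.sq_sqrt ht0.le
      have h7 : E / (t * Real.sqrt t) * t ^ 2 = E * Real.sqrt t := by
        rw [div_mul_eq_mul_div, div_eq_iff (by positivity)]
        linear_combination (-(E * t)) * hs2
      have h8 : 1 / t * t ^ 2 = t := by field_simp
      calc K * (t + E * Real.sqrt t)
          = K * (1 / t * t ^ 2 + E / (t * Real.sqrt t) * t ^ 2) := by rw [h7, h8]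
        _ = _ := by ring
    rw [intervalIntegral.integral_const_mul, hI] at b2
    rw [hs]
    have hsx1 : 1 ≤ Real.sqrt x1 := Real.one_le_sqrt.2 h1
    have hsx2 : 0 < Real.sqrt x2 := Real.sqrt_pos.2 hx2
    have b3 : 1 / Real.sqrt x1 - 1 / Real.sqrt x2 ≤ 1 := by
      have : 1 / Real.sqrt x1 ≤ 1 := by
        rw [div_le_one (by linarith)]; exact hsx1
      have : 0 ≤ 1 / Real.sqrt x2 := by positivity
      linarith
    have b4 : K * (2 * E * (1 / Real.sqrt x1 - 1 / Real.sqrt x2)) ≤ K * (2 * E * 1) :=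
      mul_le_mul_of_nonneg_left (mul_le_mul_of_nonneg_left b3 (by positivity)) hK0.le
    nlinarith [b1, b2, b4]
  intro x1 x2 j0 F h0 h12 hF
  have hlog : 0 ≤ Real.log (x2 / x1) := Real.log_nonneg (by rw [le_div_iff₀ h0]; linarith)
  by_cases hx2 : x2 < 1
  · have hFe : F = ∅ := by
      rw [Finset.eq_empty_iff_forall_notMem]
      intro j hj
      have h1 := HG3d_one_le (hF j hj).1
      have h2 := (hF j hj).2.2.2
      linarith
    rw [hFe, Finset.sum_empty]
    positivity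
  · push Not at hx2
    have h1 := key (max x1 1) x2 j0 F (le_max_right _ _) (max_le h12 hx2) (fun j hj =>
      ⟨(hF j hj).2.1, max_le (hF j hj).2.2.1.le (HG3d_one_le (hF j hj).1), (hF j hj).2.2.2⟩)
    refine h1.trans ?_
    have h2 : Real.log (x2 / max x1 1) ≤ Real.log (x2 / x1) := by
      apply Real.log_le_log
      · positivity
      · exact div_le_div_of_nonneg_left (by linarith) h0 (le_max_left _ _)
    have := mul_le_mul_of_nonneg_left h2 hK0.le
    linarith

theorem HG3d_mem_BX (N : ℕ) (a : ZI) : a ∈ BX N ↔ a ≠ 0 ∧ nrm a ≤ N := by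
  have hn : (nrm a : ℤ) = a.re ^ 2 + a.im ^ 2 := by
    unfold nrm
    rw [Int.natAbs_of_nonneg (GaussianInt.norm_nonneg a), Zsqrtd.norm_def]
    ring
  have h0 : a ≠ 0 ↔ 1 ≤ nrm a := by
    constructor
    · intro h
      exact_mod_cast HG3d_one_le h
    · rintro h rfl
      simp [nrm] at h
  rw [h0]
  unfold BX
  rw [Finset.mem_image]
  constructor
  · rintro ⟨p, hp, rfl⟩
    rw [Finset.mem_filter] at hp
    obtain ⟨_, h1, h2⟩ := hp
    simp only at hn
    constructor <;> zify <;> rw [hn] <;> assumption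
  · rintro ⟨h1, h2⟩
    refine ⟨(a.re, a.im), ?_, rfl⟩
    zify at h1 h2
    rw [hn] at h1 h2
    rw [Finset.mem_filter, Finset.mem_product, Finset.mem_Icc, Finset.mem_Icc]
    refine ⟨⟨⟨?_, ?_⟩, ⟨?_, ?_⟩⟩, h1, h2⟩ <;> nlinarith [sq_nonneg a.re, sq_nonneg a.im,
      Int.le_self_sq a.re, Int.le_self_sq a.im, Int.le_self_sq (-a.re), Int.le_self_sq (-a.im)]

/-- HG3d: lower bound, no congruence condition -/
theorem class_sum_lower : ∃ C : ℝ, 0 < C ∧ ∀ (X Y : ℕ), 1 ≤ X → X ≤ Y →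
    Real.pi * Real.log ((Y : ℝ) / X) - C ≤
      ∑ j ∈ (BX Y).filter (fun j => X < nrm j), 1 / (nrm j : ℝ) := by
  refine ⟨4 * Real.sqrt 2 * Real.pi + (1 + 6 * Real.pi), by positivity, ?_⟩
  intro X Y hX hXY
  have hX1 : (1 : ℝ) ≤ X := by exact_mod_cast hX
  have hXY' : (X : ℝ) ≤ Y := by exact_mod_cast hXY
  have hX0 : (0 : ℝ) < X := by linarith
  have hY0 : (0 : ℝ) < Y := by linarith
  set F := (BX Y).filter (fun j => X < nrm j) with hFd
  set A : ℝ := ((BX X).card : ℝ) with hA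
  have hA0 : 0 ≤ A := by positivity
  have hA1 : A ≤ 6 * Real.pi * X := by
    have h1 := HG3d_card_le 0 (Real.sqrt X) (by positivity) (BX X) (by
      intro m hm
      rw [HG3d_mem_BX] at hm
      rw [sub_zero]
      apply Real.le_sqrt_of_sq_le
      rw [← HG3d_nrm]
      exact_mod_cast hm.2)
    have h2 : (Real.sqrt X + Real.sqrt 2) ^ 2 ≤ 6 * X := by
      have e1 : Real.sqrt X ^ 2 = X := Real.sq_sqrt hX0.le
      have e2 : Real.sqrt 2 ^ 2 = (2:ℝ) := Real.sq_sqrt (by norm_num)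
      nlinarith [sq_nonneg (Real.sqrt X - Real.sqrt 2)]
    calc A ≤ Real.pi * (Real.sqrt X + Real.sqrt 2) ^ 2 := h1
      _ ≤ Real.pi * (6 * X) := mul_le_mul_of_nonneg_left h2 Real.pi_pos.le
      _ = _ := by ring
  obtain ⟨i1, hs⟩ := HG3d_sum F X Y hX0 (fun j hj => by
    rw [hFd, Finset.mem_filter, HG3d_mem_BX] at hj
    constructor
    · exact_mod_cast hj.2.le
    · exact_mod_cast hj.1.2)
  obtain ⟨i2, hI⟩ := HG3d_int (-(2 * Real.sqrt 2)) (-((1 + A) / Real.pi)) X Y hX0 hXY'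
  have b2 : ∫ t in (X:ℝ)..Y, Real.pi * (1 / t + (-(2 * Real.sqrt 2)) / (t * Real.sqrt t) +
        (-((1 + A) / Real.pi)) / t ^ 2) ≤
      ∫ t in (X:ℝ)..Y, ((F.filter (fun j => (nrm j : ℝ) < t)).card : ℝ) / t ^ 2 := by
    apply intervalIntegral.integral_mono_on hXY' (i2.const_mul Real.pi) i1
    intro t ht
    have ht0 : 0 < t := lt_of_lt_of_le hX0 ht.1
    have hs0 : 0 < Real.sqrt t := Real.sqrt_pos.2 ht0
    have hs2 : Real.sqrt t ^ 2 = t := Real.sq_sqrt ht0.le
    rw [le_div_iff₀ (by positivity)]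
    have e1 : Real.pi * (1 / t + (-(2 * Real.sqrt 2)) / (t * Real.sqrt t) +
        (-((1 + A) / Real.pi)) / t ^ 2) * t ^ 2 =
        Real.pi * t - 2 * Real.sqrt 2 * Real.pi * Real.sqrt t - (1 + A) := by
      have hpi := Real.pi_pos
      have : 1 / (t * Real.sqrt t) * t ^ 2 = Real.sqrt t := by
        field_simp
        exact hs2.symm
      have h2 : (-(2 * Real.sqrt 2)) / (t * Real.sqrt t) =
        (-(2 * Real.sqrt 2)) * (1 / (t * Real.sqrt t)) := by ring
      rw [h2, mul_add, mul_add, add_mul, add_mul,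
        show Real.pi * (-(2 * Real.sqrt 2) * (1 / (t * Real.sqrt t))) * t ^ 2 =
          Real.pi * (-(2 * Real.sqrt 2)) * (1 / (t * Real.sqrt t) * t ^ 2) by ring, this]
      field_simp
      ring
    rw [e1]
    have hsub : ((F.filter (fun j => (nrm j : ℝ) < t)).card : ℝ) + A + 1 ≥
        Real.pi * t - 2 * Real.sqrt 2 * Real.pi * Real.sqrt t := by
      by_cases hst : Real.sqrt 2 ≤ Real.sqrt t
      · have h3 := HG3d_card_ge (Real.sqrt t) ((F.filter (fun j => (nrm j : ℝ) < t)) ∪ (BX X) ∪ {0})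
          (by
            intro m hm
            have hm1 : (nrm m : ℝ) < t := by
              rw [HG3d_nrm, ← hs2]
              exact pow_lt_pow_left₀ hm (norm_nonneg _) two_ne_zero
            rw [Finset.mem_union, Finset.mem_union, Finset.mem_filter, Finset.mem_singleton]
            by_cases hm0 : m = 0
            · right; exact hm0
            · left
              by_cases hmX : nrm m ≤ X
              · right
                rw [HG3d_mem_BX]
                exact ⟨hm0, hmX⟩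
              · left
                push Not at hmX
                refine ⟨?_, hm1⟩
                rw [hFd, Finset.mem_filter, HG3d_mem_BX]
                refine ⟨⟨hm0, ?_⟩, hmX⟩
                have := hm1.le.trans ht.2
                exact_mod_cast this) hst
        have h4 : (((F.filter (fun j => (nrm j : ℝ) < t)) ∪ (BX X) ∪ {0}).card : ℝ) ≤
            ((F.filter (fun j => (nrm j : ℝ) < t)).card : ℝ) + A + 1 := by
          have h5 := Finset.card_union_le ((F.filter (fun j => (nrm j : ℝ) < t)) ∪ (BX X)) {0}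
          have h6 := Finset.card_union_le (F.filter (fun j => (nrm j : ℝ) < t)) (BX X)
          rw [Finset.card_singleton] at h5
          rw [hA]
          exact_mod_cast h5.trans (Nat.add_le_add_right h6 1)
        have h5 := h3.trans h4
        have h6 : Real.pi * (Real.sqrt t - Real.sqrt 2) ^ 2 =
            Real.pi * t - 2 * Real.sqrt 2 * Real.pi * Real.sqrt t + 2 * Real.pi := by
          have e2 : Real.sqrt 2 ^ 2 = (2:ℝ) := Real.sq_sqrt (by norm_num)
          linear_combination Real.pi * hs2 + Real.pi * e2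
        have := Real.pi_pos
        linarith
      · push Not at hst
        have : Real.pi * t - 2 * Real.sqrt 2 * Real.pi * Real.sqrt t =
          Real.pi * Real.sqrt t * (Real.sqrt t - 2 * Real.sqrt 2) := by
          linear_combination (-Real.pi) * hs2
        rw [this]
        have h5 : Real.pi * Real.sqrt t * (Real.sqrt t - 2 * Real.sqrt 2) ≤ 0 := by
          apply mul_nonpos_of_nonneg_of_nonpos (by positivity)
          have := Real.sqrt_nonneg 2
          linarith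
        have h6 : (0:ℝ) ≤ ((F.filter (fun j => (nrm j : ℝ) < t)).card : ℝ) := by positivity
        linarith
    linarith
  rw [intervalIntegral.integral_const_mul, hI] at b2
  rw [hs]
  have hF0 : (0:ℝ) ≤ (F.card : ℝ) / Y := by positivity
  have hpi := Real.pi_pos
  have hsX : 1 ≤ Real.sqrt X := Real.one_le_sqrt.2 hX1
  have b3 : 1 / Real.sqrt X - 1 / Real.sqrt Y ≤ 1 := by
    have h1 : 1 / Real.sqrt X ≤ 1 := by
      rw [div_le_one (by linarith)]; exact hsX
    have h2 : 0 ≤ 1 / Real.sqrt Y := by positivity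
    linarith
  have b4 : Real.pi * (2 * (2 * Real.sqrt 2) * (1 / Real.sqrt X - 1 / Real.sqrt Y)) ≤
      Real.pi * (2 * (2 * Real.sqrt 2) * 1) :=
    mul_le_mul_of_nonneg_left (mul_le_mul_of_nonneg_left b3 (by positivity)) hpi.le
  have b5 : Real.pi * ((1 + A) / Real.pi * (1 / X - 1 / Y)) ≤ 1 + 6 * Real.pi := by
    have e1 : Real.pi * ((1 + A) / Real.pi * (1 / X - 1 / Y)) =
        (1 + A) * (1 / X - 1 / Y) := by field_simp
    rw [e1]
    have h1 : (0:ℝ) ≤ 1 / Y := by positivity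
    have h2 : (1 + A) * (1 / X - 1 / Y) ≤ (1 + A) * (1 / X) :=
      mul_le_mul_of_nonneg_left (by linarith) (by linarith)
    refine h2.trans ?_
    rw [mul_one_div, div_le_iff₀ hX0]
    nlinarith
  nlinarith [b2, b4, b5]

end H385
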