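import Pool.Agent.H385R6.HgDefs
import Pool.Agent.H385R6.HG3c

/-!
TEAM Q3, project HG (helper385): task HG3e (helper873).
-/

open Complex Filter Topology Set MeasureTheory

namespace H385

open Pool.Agent.H304R3.HK (tc HC CS bb LamK psi bH aH LH Rep)

theorem HG3e_norm_sq (j : ZI) : ‖tc j‖ ^ 2 = (j.re : ℝ) ^ 2 + (j.im : ℝ) ^ 2 := by
  rw [Complex.sq_norm, Complex.normSq_apply]
  unfold tc
  simp
  ring

theorem HG3e_one_le (j : ZI) (hj : j ≠ 0) : 1 ≤ ‖tc j‖ ^ 2 := by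
  rw [HG3e_norm_sq]
  have h1 : (1 : ℤ) ≤ j.re ^ 2 + j.im ^ 2 := by
    by_contra h
    have h2 : j.re = 0 := by nlinarith [sq_nonneg j.re, sq_nonneg j.im]
    have h3 : j.im = 0 := by nlinarith [sq_nonneg j.re, sq_nonneg j.im]
    exact hj (Zsqrtd.ext h2 h3)
  exact_mod_cast h1

/-- number of nonzero Gaussian integers in a disc -/
theorem HG3e_count (J : Finset ZI) (x : ℝ) (hx : 0 < x) (hJ : ∀ j ∈ J, j ≠ 0 ∧ ‖tc j‖ ^ 2 ≤ x) :
    (J.card : ℝ) ≤ 9 * x := by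
  rcases J.eq_empty_or_nonempty with h0 | ⟨j0, hj0⟩
  · rw [h0]
    simp
    linarith
  have hx1 : 1 ≤ x := (HG3e_one_le j0 (hJ j0 hj0).1).trans (hJ j0 hj0).2
  have hs1 : 1 ≤ Real.sqrt x := by
    rw [show (1 : ℝ) = Real.sqrt 1 by simp]
    exact Real.sqrt_le_sqrt hx1
  set m : ℤ := ⌊Real.sqrt x⌋ with hm
  have hm1 : 1 ≤ m := by
    rw [hm]
    exact Int.le_floor.2 (by simpa using hs1)
  have hm2 : (m : ℝ) ≤ Real.sqrt x := Int.floor_le _
  have hsub : J.card ≤ (Finset.Icc (-m) m ×ˢ Finset.Icc (-m) m).card := by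
    refine Finset.card_le_card_of_injOn (fun j : ZI => (j.re, j.im)) ?_ ?_
    · intro j hj
      have h1 := (hJ j hj).2
      rw [HG3e_norm_sq] at h1
      have key : ∀ y : ℤ, (y : ℝ) ^ 2 ≤ x → y ∈ Finset.Icc (-m) m := by
        intro y hy
        have h2 : |(y : ℝ)| ≤ Real.sqrt x := Real.abs_le_sqrt hy
        rw [abs_le] at h2
        rw [Finset.mem_Icc]
        constructor
        · have h3 : -y ≤ m := by
            rw [hm]
            refine Int.le_floor.2 ?_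
            push_cast
            linarith
          linarith
        · rw [hm]
          exact Int.le_floor.2 h2.2
      rw [Finset.mem_coe, Finset.mem_product]
      exact ⟨key _ (by nlinarith [sq_nonneg (j.im : ℝ)]), key _ (by nlinarith [sq_nonneg (j.re : ℝ)])⟩
    · intro a _ b _ hab
      have h1 : (a.re, a.im) = (b.re, b.im) := hab
      rw [Prod.mk.injEq] at h1
      exact Zsqrtd.ext h1.1 h1.2
  have hcard : ((Finset.Icc (-m) m ×ˢ Finset.Icc (-m) m).card : ℝ) = (2 * m + 1) ^ 2 := by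
    rw [Finset.card_product, Int.card_Icc]
    have h1 : ((m + 1 - -m).toNat : ℤ) = 2 * m + 1 := by
      rw [Int.toNat_of_nonneg (by linarith)]
      ring
    have h2 : (((m + 1 - -m).toNat : ℕ) : ℝ) = 2 * m + 1 := by
      exact_mod_cast congrArg (Int.cast : ℤ → ℝ) h1
    push_cast
    rw [h2]
    ring
  have h3 : (J.card : ℝ) ≤ (2 * m + 1) ^ 2 := by
    rw [← hcard]
    exact_mod_cast hsub
  have hm0 : (0 : ℝ) ≤ m := by
    have : (1 : ℝ) ≤ m := by exact_mod_cast hm1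
    linarith
  have h4 : (2 * (m : ℝ) + 1) ^ 2 ≤ (3 * Real.sqrt x) ^ 2 := by
    apply pow_le_pow_left₀ (by linarith)
    linarith
  have h5 : (3 * Real.sqrt x) ^ 2 = 9 * x := by
    rw [mul_pow, Real.sq_sqrt hx.le]
    norm_num
  linarith

/-- HG3e: lines close to the origin -/
theorem near_lines : ∃ C : ℝ, 0 < C ∧ ∀ (h s1 : ℝ) (τ : ℂ) (F : Finset (ZI × ZI)),
    0 < h → h ≤ 10 → 1 ≤ s1 →
    (∀ v ∈ F, v.2 ≠ 0 ∧ ‖tc v.2‖ ^ 2 / h ≤ s1 ∧
      s1 < h * ‖tc v.1 + τ * tc v.2‖ ^ 2 + ‖tc v.2‖ ^ 2 / h) →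
    ∑ v ∈ F, 1 / (h * ‖tc v.1 + τ * tc v.2‖ ^ 2 + ‖tc v.2‖ ^ 2 / h) ^ 2 ≤ C := by
  classical
  obtain ⟨C0, hC0, hline⟩ := line_sumZ 1 one_ne_zero
  refine ⟨36 * (Real.pi + C0 * 14), by positivity, ?_⟩
  intro h s1 τ F hh hh10 hs1 hF
  have hs0 : 0 < s1 := by linarith
  -- the sum over one line
  have hL : ∀ (w : ℂ) (F' : Finset ZI), ∑ z ∈ F', 1 / (h * ‖tc z + w‖ ^ 2 + s1) ^ 2 ≤
      Real.pi / (h * s1) + C0 * (1 / s1 ^ 2 + 1 / (Real.sqrt h * s1 ^ (3 / 2 : ℝ))) := by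
    intro w F'
    have h1 := hline h s1 w 0 F' hh hs0 (fun z _ => one_dvd _)
    have h2 : nrm (1 : ZI) = 1 := by
      unfold nrm
      simp
    rw [h2] at h1
    simpa using h1
  set B : ℝ := Real.pi / (h * s1) + C0 * (1 / s1 ^ 2 + 1 / (Real.sqrt h * s1 ^ (3 / 2 : ℝ))) with hB
  have hB0 : 0 ≤ B := by
    rw [hB]
    positivity
  -- pointwise bound
  have hpt : ∀ v ∈ F, 1 / (h * ‖tc v.1 + τ * tc v.2‖ ^ 2 + ‖tc v.2‖ ^ 2 / h) ^ 2 ≤
      4 * (1 / (h * ‖tc v.1 + τ * tc v.2‖ ^ 2 + s1) ^ 2) := by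
    intro v hv
    obtain ⟨h1, h2, h3⟩ := hF v hv
    set A := h * ‖tc v.1 + τ * tc v.2‖ ^ 2 with hA
    have hA0 : 0 ≤ A := by positivity
    set D := ‖tc v.2‖ ^ 2 / h with hD
    have hD0 : 0 ≤ D := by positivity
    have h4 : (A + s1) / 2 ≤ A + D := by linarith
    have h5 : ((A + s1) / 2) ^ 2 ≤ (A + D) ^ 2 := pow_le_pow_left₀ (by positivity) h4 2
    have h6 : 1 / (A + D) ^ 2 ≤ 1 / ((A + s1) / 2) ^ 2 := one_div_le_one_div_of_le (by positivity) h5
    refine h6.trans (le_of_eq ?_)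
    field_simp
    norm_num
  refine (Finset.sum_le_sum hpt).trans ?_
  rw [← Finset.mul_sum]
  -- fibre over the second coordinate
  have hfib : ∑ v ∈ F, 1 / (h * ‖tc v.1 + τ * tc v.2‖ ^ 2 + s1) ^ 2 ≤
      ∑ _j ∈ F.image Prod.snd, B := by
    rw [← Finset.sum_fiberwise_of_maps_to (t := F.image Prod.snd) (g := Prod.snd)
      (fun v hv => Finset.mem_image_of_mem _ hv)]
    refine Finset.sum_le_sum fun j _ => ?_
    have h1 : ∑ v ∈ F.filter (fun v => v.2 = j), 1 / (h * ‖tc v.1 + τ * tc v.2‖ ^ 2 + s1) ^ 2 =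
        ∑ z ∈ (F.filter (fun v => v.2 = j)).image Prod.fst,
          1 / (h * ‖tc z + τ * tc j‖ ^ 2 + s1) ^ 2 := by
      rw [Finset.sum_image]
      · refine Finset.sum_congr rfl fun v hv => ?_
        rw [(Finset.mem_filter.1 hv).2]
      · intro a ha b hb hab
        have ha' := (Finset.mem_filter.1 ha).2
        have hb' := (Finset.mem_filter.1 hb).2
        exact Prod.ext hab (ha'.trans hb'.symm)
    rw [h1]
    exact hL _ _
  have hcount : ((F.image Prod.snd).card : ℝ) ≤ 9 * (s1 * h) := by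
    apply HG3e_count _ _ (by positivity)
    intro j hj
    obtain ⟨v, hv, rfl⟩ := Finset.mem_image.1 hj
    obtain ⟨h1, h2, h3⟩ := hF v hv
    refine ⟨h1, ?_⟩
    rw [div_le_iff₀ hh] at h2
    exact h2
  rw [Finset.sum_const, nsmul_eq_mul] at hfib
  have h2 : ((F.image Prod.snd).card : ℝ) * B ≤ 9 * (s1 * h) * B := mul_le_mul_of_nonneg_right hcount hB0
  have h3 : s1 * h * B ≤ Real.pi + C0 * 14 := by
    have e1 : s1 * h * B = Real.pi + C0 * (h / s1 + Real.sqrt h * (s1 / s1 ^ (3 / 2 : ℝ))) := by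
      rw [hB]
      have hsq : h = Real.sqrt h * Real.sqrt h := (Real.mul_self_sqrt hh.le).symm
      have hsp : 0 < Real.sqrt h := Real.sqrt_pos.2 hh
      have hrp : 0 < s1 ^ (3 / 2 : ℝ) := Real.rpow_pos_of_pos hs0 _
      have t1 : s1 * h * (Real.pi / (h * s1)) = Real.pi := by
        field_simp
      have t2 : s1 * h * (1 / s1 ^ 2) = h / s1 := by
        field_simp
      have t3 : s1 * h * (1 / (Real.sqrt h * s1 ^ (3 / 2 : ℝ))) =
          Real.sqrt h * (s1 / s1 ^ (3 / 2 : ℝ)) := by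
        rw [mul_one_div, div_eq_iff (by positivity)]
        field_simp
        rw [Real.sq_sqrt hh.le]
      rw [mul_add, t1, mul_left_comm, mul_add, t2, t3]
    rw [e1]
    have e2 : h / s1 ≤ 10 := by
      rw [div_le_iff₀ hs0]
      nlinarith
    have e3 : Real.sqrt h ≤ 4 := by
      rw [Real.sqrt_le_left (by norm_num)]
      linarith
    have e4 : s1 / s1 ^ (3 / 2 : ℝ) ≤ 1 := by
      rw [div_le_one (Real.rpow_pos_of_pos hs0 _)]
      have : s1 ^ (1 : ℝ) ≤ s1 ^ (3 / 2 : ℝ) := Real.rpow_le_rpow_of_exponent_le hs1 (by norm_num)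
      rwa [Real.rpow_one] at this
    have e5 : 0 ≤ s1 / s1 ^ (3 / 2 : ℝ) := by positivity
    have e6 : Real.sqrt h * (s1 / s1 ^ (3 / 2 : ℝ)) ≤ 4 * 1 :=
      mul_le_mul e3 e4 e5 (by norm_num)
    have e7 : C0 * (h / s1 + Real.sqrt h * (s1 / s1 ^ (3 / 2 : ℝ))) ≤ C0 * 14 :=
      mul_le_mul_of_nonneg_left (by linarith) hC0.le
    linarith
  calc 4 * ∑ v ∈ F, 1 / (h * ‖tc v.1 + τ * tc v.2‖ ^ 2 + s1) ^ 2 ≤ 4 * (9 * (s1 * h) * B) := by
        linarith
    _ = 36 * (s1 * h * B) := by ring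
    _ ≤ 36 * (Real.pi + C0 * 14) := by linarith

end H385
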