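import Pool.Agent.H385R6.HgDefs
import Pool.Agent.H385R6.HG3c

/-!
TEAM Q3, project HG (helper385): task HG3g, lines far from the origin.
-/

open Complex Filter Topology Set MeasureTheory

namespace H385

open Pool.Agent.H304R3.HK (tc HC CS bb LamK psi bH aH LH Rep)

theorem hg3g_one_le {a : ZI} (ha : a ≠ 0) : 1 ≤ ‖tc a‖ ^ 2 := by
  have h1 : ‖tc a‖ ^ 2 = (a.re : ℝ) ^ 2 + (a.im : ℝ) ^ 2 := by
    rw [← Complex.normSq_eq_norm_sq]
    simp [tc, Complex.normSq_apply]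
    ring
  rw [h1]
  have h2 : (1 : ℤ) ≤ a.re ^ 2 + a.im ^ 2 := by
    by_contra hcon
    have h4 : a.re = 0 := by nlinarith [sq_nonneg a.re, sq_nonneg a.im]
    have h5 : a.im = 0 := by nlinarith [sq_nonneg a.re, sq_nonneg a.im]
    exact ha (Zsqrtd.ext h4 h5)
  exact_mod_cast h2

/-- The conclusion of `line_sumZ` for `P = 1`. -/
def Hg3gLine (K : ℝ) : Prop := ∀ (h c : ℝ) (w : ℂ) (F : Finset ZI), 0 < h → 0 < c →
    ∑ z ∈ F, 1 / (h * ‖tc z + w‖ ^ 2 + c) ^ 2 ≤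
      Real.pi / (h * c) + K * (1 / c ^ 2 + 1 / (Real.sqrt h * c ^ (3 / 2 : ℝ)))

theorem hg3g_line : ∃ K : ℝ, 0 < K ∧ Hg3gLine K := by
  obtain ⟨K, hK, h1⟩ := line_sumZ (1 : ZI) one_ne_zero
  refine ⟨K, hK, fun h c w F hh hc => ?_⟩
  have h2 := h1 h c w 0 F hh hc (fun z _ => one_dvd _)
  have h3 : nrm (1 : ZI) = 1 := by
    unfold nrm
    rw [Zsqrtd.norm_one]
    rfl
  rw [h3] at h2
  simpa using h2

theorem hg3g_unit {K : ℝ} (hK : 0 < K) (hL : Hg3gLine K) (w : ℂ) {c : ℝ} (hc : 1 ≤ c)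
    (F : Finset ZI) : ∑ z ∈ F, 1 / (‖tc z + w‖ ^ 2 + c) ^ 2 ≤ (Real.pi + 2 * K) / c := by
  have hc0 : 0 < c := by linarith
  have h1 := hL 1 c w F one_pos hc0
  simp only [one_mul, Real.sqrt_one] at h1
  refine h1.trans ?_
  have e1 : 1 / c ^ 2 ≤ 1 / c := by
    apply one_div_le_one_div_of_le hc0
    nlinarith
  have e2 : 1 / c ^ (3 / 2 : ℝ) ≤ 1 / c := by
    apply one_div_le_one_div_of_le hc0
    calc c = c ^ (1 : ℝ) := (Real.rpow_one c).symm
      _ ≤ c ^ (3 / 2 : ℝ) := Real.rpow_le_rpow_of_exponent_le hc (by norm_num)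
  have e3 : K * (1 / c ^ 2 + 1 / c ^ (3 / 2 : ℝ)) ≤ K * (1 / c + 1 / c) :=
    mul_le_mul_of_nonneg_left (add_le_add e1 e2) hK.le
  have e4 : (Real.pi + 2 * K) / c = Real.pi / c + K * (1 / c + 1 / c) := by ring
  rw [e4]
  linarith

/-- number of Gaussian integers in a disc -/
theorem hg3g_count {K : ℝ} (hK : 0 < K) (hL : Hg3gLine K) (w : ℂ) {c : ℝ} (hc : 1 ≤ c)
    (F : Finset ZI) (hF : ∀ z ∈ F, ‖tc z + w‖ ^ 2 ≤ c) :
    (F.card : ℝ) ≤ 4 * (Real.pi + 2 * K) * c := by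
  have hc0 : 0 < c := by linarith
  have h1 := hg3g_unit hK hL w hc F
  have h2 : (F.card : ℝ) * (1 / (2 * c) ^ 2) ≤ ∑ z ∈ F, 1 / (‖tc z + w‖ ^ 2 + c) ^ 2 := by
    rw [← nsmul_eq_mul]
    apply Finset.card_nsmul_le_sum
    intro z hz
    apply one_div_le_one_div_of_le (by positivity)
    have := hF z hz
    apply pow_le_pow_left₀ (by positivity)
    linarith
  have h3 := h2.trans h1
  rw [mul_one_div, div_le_div_iff₀ (by positivity) hc0] at h3
  have h4 : (F.card : ℝ) * c ≤ (4 * (Real.pi + 2 * K) * c) * c := by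
    calc (F.card : ℝ) * c ≤ (Real.pi + 2 * K) * (2 * c) ^ 2 := h3
      _ = (4 * (Real.pi + 2 * K) * c) * c := by ring
  exact le_of_mul_le_mul_right h4 hc0

/-- tail of the sum of `|j|⁻⁴` -/
theorem hg3g_tail {K : ℝ} (hK : 0 < K) (hL : Hg3gLine K) {x : ℝ} (hx : 1 ≤ x)
    (F : Finset ZI) (hF : ∀ j ∈ F, x ≤ ‖tc j‖ ^ 2) :
    ∑ j ∈ F, 1 / (‖tc j‖ ^ 2) ^ 2 ≤ 4 * (Real.pi + 2 * K) / x := by
  have hx0 : 0 < x := by linarith
  have h1 := hg3g_unit hK hL 0 hx F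
  simp only [add_zero] at h1
  calc ∑ j ∈ F, 1 / (‖tc j‖ ^ 2) ^ 2 ≤ ∑ j ∈ F, 4 * (1 / (‖tc j‖ ^ 2 + x) ^ 2) := by
        apply Finset.sum_le_sum
        intro j hj
        have h2 := hF j hj
        have h3 : 0 < ‖tc j‖ ^ 2 := by linarith
        rw [mul_one_div, div_le_div_iff₀ (by positivity) (by positivity)]
        nlinarith
    _ = 4 * ∑ j ∈ F, 1 / (‖tc j‖ ^ 2 + x) ^ 2 := by rw [Finset.mul_sum]
    _ ≤ 4 * ((Real.pi + 2 * K) / x) := by linarith
    _ = _ := by ring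

/-- Lagrange's identity -/
theorem hg3g_lagrange (p q r s : ℂ) : (normSq p + normSq q) * (normSq r + normSq s) =
    normSq ((starRingEnd ℂ) p * r + (starRingEnd ℂ) q * s) + normSq (p * s - q * r) := by
  simp only [Complex.normSq_apply, Complex.add_re, Complex.add_im, Complex.mul_re, Complex.mul_im,
    Complex.sub_re, Complex.sub_im, Complex.conj_re, Complex.conj_im]
  ring

/-- the Hermitian form of determinant one in triangular form -/
theorem hg3g_form {x0 y0 x1 y1 : ℂ} (hdet : x0 * y1 - x1 * y0 = 1) {h : ℝ}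
    (hh : h = ‖x0‖ ^ 2 + ‖y0‖ ^ 2) (hpos : 0 < h) (a b : ℂ) :
    ‖a * x0 + b * x1‖ ^ 2 + ‖a * y0 + b * y1‖ ^ 2 =
      h * ‖a + b * (((starRingEnd ℂ) x0 * x1 + (starRingEnd ℂ) y0 * y1) / h)‖ ^ 2 +
        ‖b‖ ^ 2 / h := by
  set σ : ℂ := (starRingEnd ℂ) x0 * x1 + (starRingEnd ℂ) y0 * y1 with hσ
  have hhc : (h : ℂ) ≠ 0 := by exact_mod_cast hpos.ne'
  have e0 : (starRingEnd ℂ) x0 * x0 + (starRingEnd ℂ) y0 * y0 = (h : ℂ) := by
    rw [← Complex.normSq_eq_conj_mul_self, ← Complex.normSq_eq_conj_mul_self, hh,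
      ← Complex.normSq_eq_norm_sq, ← Complex.normSq_eq_norm_sq]
    push_cast
    ring
  have e1 : (starRingEnd ℂ) x0 * (a * x0 + b * x1) + (starRingEnd ℂ) y0 * (a * y0 + b * y1) =
      (h : ℂ) * (a + b * (σ / h)) := by
    have : (h : ℂ) * (a + b * (σ / h)) = a * h + b * σ := by
      field_simp
    rw [this, ← e0, hσ]
    ring
  have e2 : x0 * (a * y0 + b * y1) - y0 * (a * x0 + b * x1) = b := by
    linear_combination b * hdet
  have e3 := hg3g_lagrange x0 y0 (a * x0 + b * x1) (a * y0 + b * y1)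
  rw [e1, e2, Complex.normSq_mul, Complex.normSq_ofReal] at e3
  simp only [Complex.normSq_eq_norm_sq] at e3
  rw [← hh] at e3
  have e4 : h * (‖a * x0 + b * x1‖ ^ 2 + ‖a * y0 + b * y1‖ ^ 2) =
      h * (h * ‖a + b * (σ / h)‖ ^ 2 + ‖b‖ ^ 2 / h) := by
    rw [e3]
    field_simp
  exact mul_left_cancel₀ hpos.ne' e4

/-- a sum over pairs is at most the iterated sum over the second component -/
theorem hg3g_pairs (F : Finset (ZI × ZI)) (f : ZI × ZI → ℝ) (g : ZI → ℝ)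
    (hg : ∀ j ∈ F.image Prod.snd, ∑ z ∈ (F.filter (fun v => v.2 = j)).image Prod.fst,
      f (z, j) ≤ g j) : ∑ v ∈ F, f v ≤ ∑ j ∈ F.image Prod.snd, g j := by
  classical
  rw [← Finset.sum_fiberwise_of_maps_to (g := Prod.snd) (t := F.image Prod.snd)
    (fun v hv => Finset.mem_image_of_mem _ hv)]
  refine Finset.sum_le_sum fun j hj => le_trans (le_of_eq ?_) (hg j hj)
  rw [Finset.sum_image]
  · refine Finset.sum_congr rfl fun v hv => ?_
    have := (Finset.mem_filter.1 hv).2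
    rw [← this]
  · intro v hv v' hv' h
    have h1 := (Finset.mem_filter.1 (Finset.mem_coe.1 hv)).2
    have h2 := (Finset.mem_filter.1 (Finset.mem_coe.1 hv')).2
    exact Prod.ext h (h1.trans h2.symm)

/-- HG3e: lines far from the origin -/
theorem far_lines : ∃ C : ℝ, 0 < C ∧ ∀ (h s2 : ℝ) (x0 y0 x1 y1 : ℂ) (F : Finset (ZI × ZI)),
    x0 * y1 - x1 * y0 = 1 → h = ‖x0‖ ^ 2 + ‖y0‖ ^ 2 → h ≤ 10 → 1 ≤ s2 →
    (∀ v ∈ F, v.2 ≠ 0 ∧ s2 < ‖tc v.2‖ ^ 2 / h ∧ ‖tc v.1 * x0 + tc v.2 * x1‖ ^ 2 ≤ s2) →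
    ∑ v ∈ F, 1 / (‖tc v.1 * x0 + tc v.2 * x1‖ ^ 2 + ‖tc v.1 * y0 + tc v.2 * y1‖ ^ 2) ^ 2 ≤ C := by
  classical
  obtain ⟨K, hK, hL⟩ := hg3g_line
  have hπ := Real.pi_pos
  set A : ℝ := Real.pi + 2 * K with hA
  have hA0 : 0 < A := by positivity
  refine ⟨32 * A * (Real.pi + 110 * K) + 256 * A ^ 2 * 101, by positivity, ?_⟩
  intro h s2 x0 y0 x1 y1 F hdet hh h10 hs2 hF
  have hx0y0 : 0 < h := by
    rcases eq_or_lt_of_le (show 0 ≤ h by rw [hh]; positivity) with h0 | h0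
    · exfalso
      rw [← h0] at hh
      have h1 : ‖x0‖ ^ 2 = 0 := by nlinarith [sq_nonneg ‖x0‖, sq_nonneg ‖y0‖]
      have h2 : ‖y0‖ ^ 2 = 0 := by nlinarith [sq_nonneg ‖x0‖, sq_nonneg ‖y0‖]
      have h3 : x0 = 0 := norm_eq_zero.1 (by simpa using h1)
      have h4 : y0 = 0 := norm_eq_zero.1 (by simpa using h2)
      rw [h3, h4] at hdet
      simp at hdet
    · exact h0
  set f : ZI × ZI → ℝ := fun v =>
    1 / (‖tc v.1 * x0 + tc v.2 * x1‖ ^ 2 + ‖tc v.1 * y0 + tc v.2 * y1‖ ^ 2) ^ 2 with hf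
  rw [← Finset.sum_filter_add_sum_filter_not F (fun v => ‖tc v.2‖ ^ 2 / h ≤ 8 * s2) f]
  apply add_le_add
  · -- the lines at moderate distance
    set F1 := F.filter (fun v => ‖tc v.2‖ ^ 2 / h ≤ 8 * s2) with hF1
    have hJ : ∀ j ∈ F1.image Prod.snd, 1 ≤ ‖tc j‖ ^ 2 ∧ s2 * h < ‖tc j‖ ^ 2 ∧
        ‖tc j‖ ^ 2 ≤ 8 * s2 * h := by
      intro j hj
      obtain ⟨v, hv, rfl⟩ := Finset.mem_image.1 hj
      have hv' := Finset.mem_filter.1 hv
      obtain ⟨h1, h2, _⟩ := hF v hv'.1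
      exact ⟨hg3g_one_le h1, (lt_div_iff₀ hx0y0).1 h2, (div_le_iff₀ hx0y0).1 hv'.2⟩
    have hg : ∀ j ∈ F1.image Prod.snd, ∑ z ∈ (F1.filter (fun v => v.2 = j)).image Prod.fst,
        f (z, j) ≤ (Real.pi + 110 * K) / ‖tc j‖ ^ 2 := by
      intro j hj
      obtain ⟨hj1, -, -⟩ := hJ j hj
      have hj0 : 0 < ‖tc j‖ ^ 2 := by linarith
      have hnj : 1 ≤ ‖tc j‖ := by
        have := norm_nonneg (tc j)
        nlinarith
      set c : ℝ := ‖tc j‖ ^ 2 / h with hc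
      have hc0 : 0 < c := by positivity
      have e1 : ∀ z : ZI, f (z, j) = 1 / (h * ‖tc z + tc j *
          (((starRingEnd ℂ) x0 * x1 + (starRingEnd ℂ) y0 * y1) / h)‖ ^ 2 + c) ^ 2 := by
        intro z
        simp only [hf]
        rw [hg3g_form hdet hh hx0y0 (tc z) (tc j)]
      rw [Finset.sum_congr rfl fun z _ => e1 z]
      refine (hL h c _ _ hx0y0 hc0).trans ?_
      have e2 : Real.pi / (h * c) = Real.pi / ‖tc j‖ ^ 2 := by
        rw [hc, mul_div_cancel₀ _ hx0y0.ne']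
      have e3 : 1 / c ^ 2 ≤ 100 / ‖tc j‖ ^ 2 := by
        rw [hc, div_pow, one_div_div, div_le_div_iff₀ (by positivity) hj0]
        have : h ^ 2 ≤ 100 := by nlinarith
        calc h ^ 2 * ‖tc j‖ ^ 2 ≤ 100 * ‖tc j‖ ^ 2 := mul_le_mul_of_nonneg_right this hj0.le
          _ ≤ 100 * (‖tc j‖ ^ 2) ^ 2 := by nlinarith
      have e4 : 1 / (Real.sqrt h * c ^ (3 / 2 : ℝ)) ≤ 10 / ‖tc j‖ ^ 2 := by
        have e5 : c ^ (3 / 2 : ℝ) = c * Real.sqrt c := by
          rw [show (3 / 2 : ℝ) = 1 + 1 / 2 by norm_num, Real.rpow_add hc0, Real.rpow_one,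
            ← Real.sqrt_eq_rpow]
        have e6 : Real.sqrt h * Real.sqrt c = ‖tc j‖ := by
          rw [← Real.sqrt_mul hx0y0.le, hc, mul_div_cancel₀ _ hx0y0.ne',
            Real.sqrt_sq (norm_nonneg _)]
        have e7 : Real.sqrt h * c ^ (3 / 2 : ℝ) = ‖tc j‖ ^ 2 / h * ‖tc j‖ := by
          rw [e5, show Real.sqrt h * (c * Real.sqrt c) = c * (Real.sqrt h * Real.sqrt c) by ring,
            e6, hc]
        rw [e7, div_mul_eq_mul_div, one_div_div, div_le_div_iff₀ (by positivity) hj0]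
        calc h * ‖tc j‖ ^ 2 ≤ 10 * ‖tc j‖ ^ 2 := mul_le_mul_of_nonneg_right h10 hj0.le
          _ ≤ 10 * (‖tc j‖ ^ 2 * ‖tc j‖) := by nlinarith
      have e8 : K * (1 / c ^ 2 + 1 / (Real.sqrt h * c ^ (3 / 2 : ℝ))) ≤
          K * (100 / ‖tc j‖ ^ 2 + 10 / ‖tc j‖ ^ 2) :=
        mul_le_mul_of_nonneg_left (add_le_add e3 e4) hK.le
      have e9 : (Real.pi + 110 * K) / ‖tc j‖ ^ 2 = Real.pi / ‖tc j‖ ^ 2 +
          K * (100 / ‖tc j‖ ^ 2 + 10 / ‖tc j‖ ^ 2) := by ring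
      rw [e2, e9]
      linarith
    refine (hg3g_pairs F1 f _ hg).trans ?_
    rcases (F1.image Prod.snd).eq_empty_or_nonempty with hJe | ⟨j₀, hj₀⟩
    · rw [hJe, Finset.sum_empty]
      positivity
    set x : ℝ := 8 * s2 * h with hx
    have hx1 : 1 ≤ x := by
      obtain ⟨h1, _, h3⟩ := hJ j₀ hj₀
      linarith
    have hx0 : 0 < x := by linarith
    have hcard := hg3g_count hK hL 0 hx1 (F1.image Prod.snd) (by
      intro j hj
      rw [add_zero]
      exact (hJ j hj).2.2)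
    have hterm : ∀ j ∈ F1.image Prod.snd,
        (Real.pi + 110 * K) / ‖tc j‖ ^ 2 ≤ (Real.pi + 110 * K) * (8 / x) := by
      intro j hj
      obtain ⟨h1, h2, _⟩ := hJ j hj
      rw [div_eq_mul_inv]
      apply mul_le_mul_of_nonneg_left _ (by positivity)
      rw [← one_div, div_le_div_iff₀ (by linarith) hx0]
      rw [hx]
      linarith
    calc ∑ j ∈ F1.image Prod.snd, (Real.pi + 110 * K) / ‖tc j‖ ^ 2
        ≤ ((F1.image Prod.snd).card : ℝ) * ((Real.pi + 110 * K) * (8 / x)) := by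
          rw [← nsmul_eq_mul]
          exact Finset.sum_le_card_nsmul _ _ _ hterm
      _ ≤ (4 * (Real.pi + 2 * K) * x) * ((Real.pi + 110 * K) * (8 / x)) :=
          mul_le_mul_of_nonneg_right hcard (by positivity)
      _ = 32 * A * (Real.pi + 110 * K) := by
          rw [hA]
          field_simp
          ring
  · -- the lines at large distance
    set F2 := F.filter (fun v => ¬ ‖tc v.2‖ ^ 2 / h ≤ 8 * s2) with hF2
    have hJ : ∀ j ∈ F2.image Prod.snd, 1 ≤ ‖tc j‖ ^ 2 ∧ 8 * s2 * h < ‖tc j‖ ^ 2 := by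
      intro j hj
      obtain ⟨v, hv, rfl⟩ := Finset.mem_image.1 hj
      have hv' := Finset.mem_filter.1 hv
      obtain ⟨h1, _, _⟩ := hF v hv'.1
      exact ⟨hg3g_one_le h1, (lt_div_iff₀ hx0y0).1 (not_le.1 hv'.2)⟩
    have hx0le : ‖x0‖ ^ 2 ≤ h := by rw [hh]; nlinarith [sq_nonneg ‖y0‖]
    have hy0le : ‖y0‖ ^ 2 ≤ h := by rw [hh]; nlinarith [sq_nonneg ‖x0‖]
    have hg : ∀ j ∈ F2.image Prod.snd, ∑ z ∈ (F2.filter (fun v => v.2 = j)).image Prod.fst,
        f (z, j) ≤ (64 * A * (h ^ 2 + s2 * h)) * (1 / (‖tc j‖ ^ 2) ^ 2) := by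
      intro j hj
      obtain ⟨hj1, hj8⟩ := hJ j hj
      have hj0 : 0 < ‖tc j‖ ^ 2 := by linarith
      -- the points of the line
      have hz : ∀ z ∈ (F2.filter (fun v => v.2 = j)).image Prod.fst,
          ‖tc z * x0 + tc j * x1‖ ^ 2 ≤ s2 := by
        intro z hz
        obtain ⟨v, hv, rfl⟩ := Finset.mem_image.1 hz
        have hv1 := Finset.mem_filter.1 hv
        have hv2 := (Finset.mem_filter.1 hv1.1).1
        have := (hF v hv2).2.2
        rwa [hv1.2] at this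
      -- lower bound for `y`
      have hy : ∀ z ∈ (F2.filter (fun v => v.2 = j)).image Prod.fst,
          ‖tc j‖ ^ 2 < 4 * (‖x0‖ ^ 2 * ‖tc z * y0 + tc j * y1‖ ^ 2) := by
        intro z hzm
        set X := tc z * x0 + tc j * x1 with hX
        set Y := tc z * y0 + tc j * y1 with hY
        have e1 : x0 * Y - y0 * X = tc j := by
          rw [hX, hY]
          linear_combination (tc j) * hdet
        have e2 : ‖tc j‖ ≤ ‖x0‖ * ‖Y‖ + ‖y0‖ * ‖X‖ := by
          rw [← e1, ← norm_mul, ← norm_mul]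
          exact norm_sub_le _ _
        have e3 : (‖y0‖ * ‖X‖) ^ 2 < (‖tc j‖ / 2) ^ 2 := by
          calc (‖y0‖ * ‖X‖) ^ 2 = ‖y0‖ ^ 2 * ‖X‖ ^ 2 := by ring
            _ ≤ h * s2 := mul_le_mul hy0le (hz z hzm) (sq_nonneg _) hx0y0.le
            _ < (‖tc j‖ / 2) ^ 2 := by nlinarith
        have e4 : ‖y0‖ * ‖X‖ < ‖tc j‖ / 2 := lt_of_pow_lt_pow_left₀ 2 (by positivity) e3
        have e5 : ‖tc j‖ / 2 < ‖x0‖ * ‖Y‖ := by linarith
        have e6 : (‖tc j‖ / 2) ^ 2 < (‖x0‖ * ‖Y‖) ^ 2 :=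
          pow_lt_pow_left₀ e5 (by positivity) two_ne_zero
        nlinarith
      rcases ((F2.filter (fun v => v.2 = j)).image Prod.fst).eq_empty_or_nonempty with hE | ⟨z₀, hz₀⟩
      · rw [hE, Finset.sum_empty]
        positivity
      have hx0 : 0 < ‖x0‖ ^ 2 := by
        have := hy z₀ hz₀
        by_contra hcon
        have h0 : ‖x0‖ ^ 2 = 0 := le_antisymm (not_lt.1 hcon) (sq_nonneg _)
        rw [h0, zero_mul, mul_zero] at this
        linarith
      have hx0' : x0 ≠ 0 := by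
        intro h0
        rw [h0] at hx0
        simp at hx0
      set c : ℝ := 1 + s2 / ‖x0‖ ^ 2 with hc
      have hc1 : 1 ≤ c := by
        have : 0 ≤ s2 / ‖x0‖ ^ 2 := by positivity
        linarith
      have hcard := hg3g_count hK hL (tc j * x1 / x0) hc1
        ((F2.filter (fun v => v.2 = j)).image Prod.fst) (by
          intro z hzm
          have e1 : tc z + tc j * x1 / x0 = (tc z * x0 + tc j * x1) / x0 := by
            field_simp
          rw [e1, norm_div, div_pow]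
          have e2 : ‖tc z * x0 + tc j * x1‖ ^ 2 / ‖x0‖ ^ 2 ≤ s2 / ‖x0‖ ^ 2 :=
            div_le_div_of_nonneg_right (hz z hzm) hx0.le
          linarith)
      have hterm : ∀ z ∈ (F2.filter (fun v => v.2 = j)).image Prod.fst,
          f (z, j) ≤ 16 * (‖x0‖ ^ 2) ^ 2 / (‖tc j‖ ^ 2) ^ 2 := by
        intro z hzm
        have e1 := hy z hzm
        simp only [hf]
        set U := ‖tc z * x0 + tc j * x1‖ ^ 2 with hU
        set V := ‖tc z * y0 + tc j * y1‖ ^ 2 with hV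
        have hU0 : 0 ≤ U := by positivity
        have hV0 : 0 < V := by
          have hV1 : 0 ≤ V := by positivity
          rcases eq_or_lt_of_le hV1 with h0 | h0
          · rw [← h0, mul_zero, mul_zero] at e1
            linarith
          · exact h0
        have e2 : ‖tc j‖ ^ 2 ≤ 4 * ‖x0‖ ^ 2 * (U + V) := by nlinarith
        rw [div_le_div_iff₀ (by positivity) (by positivity), one_mul]
        calc (‖tc j‖ ^ 2) ^ 2 ≤ (4 * ‖x0‖ ^ 2 * (U + V)) ^ 2 :=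
              pow_le_pow_left₀ hj0.le e2 2
          _ = 16 * (‖x0‖ ^ 2) ^ 2 * (U + V) ^ 2 := by ring
      calc ∑ z ∈ (F2.filter (fun v => v.2 = j)).image Prod.fst, f (z, j)
          ≤ (((F2.filter (fun v => v.2 = j)).image Prod.fst).card : ℝ) *
            (16 * (‖x0‖ ^ 2) ^ 2 / (‖tc j‖ ^ 2) ^ 2) := by
            rw [← nsmul_eq_mul]
            exact Finset.sum_le_card_nsmul _ _ _ hterm
        _ ≤ (4 * (Real.pi + 2 * K) * c) * (16 * (‖x0‖ ^ 2) ^ 2 / (‖tc j‖ ^ 2) ^ 2) :=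
            mul_le_mul_of_nonneg_right hcard (by positivity)
        _ = (64 * A * ((‖x0‖ ^ 2) ^ 2 + s2 * ‖x0‖ ^ 2)) * (1 / (‖tc j‖ ^ 2) ^ 2) := by
            rw [hA, hc]
            field_simp
            ring
        _ ≤ (64 * A * (h ^ 2 + s2 * h)) * (1 / (‖tc j‖ ^ 2) ^ 2) := by
            apply mul_le_mul_of_nonneg_right _ (by positivity)
            apply mul_le_mul_of_nonneg_left _ (by positivity)
            have e1 : (‖x0‖ ^ 2) ^ 2 ≤ h ^ 2 := pow_le_pow_left₀ hx0.le hx0le 2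
            have e2 : s2 * ‖x0‖ ^ 2 ≤ s2 * h := mul_le_mul_of_nonneg_left hx0le (by linarith)
            linarith
    refine (hg3g_pairs F2 f _ hg).trans ?_
    rw [← Finset.mul_sum]
    set X : ℝ := max 1 (8 * s2 * h) with hX
    have hX1 : 1 ≤ X := le_max_left _ _
    have hX0 : 0 < X := by linarith
    have hX2 : 8 * s2 * h ≤ X := le_max_right _ _
    have htail := hg3g_tail hK hL hX1 (F2.image Prod.snd) (by
      intro j hj
      obtain ⟨h1, h2⟩ := hJ j hj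
      exact max_le h1 h2.le)
    have hs2h : 0 ≤ s2 * h := by positivity
    calc 64 * A * (h ^ 2 + s2 * h) * ∑ j ∈ F2.image Prod.snd, 1 / (‖tc j‖ ^ 2) ^ 2
        ≤ 64 * A * (h ^ 2 + s2 * h) * (4 * (Real.pi + 2 * K) / X) :=
          mul_le_mul_of_nonneg_left htail (by positivity)
      _ = 256 * A ^ 2 * ((h ^ 2 + s2 * h) / X) := by rw [hA]; ring
      _ ≤ 256 * A ^ 2 * 101 := by
          apply mul_le_mul_of_nonneg_left _ (by positivity)
          rw [div_le_iff₀ hX0]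
          nlinarith

end H385
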