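import Pool.Agent.H385R6.HgDefs
import Pool.Agent.H385R6.HG3a
import Pool.Agent.H385R6.HG3c
import Pool.Agent.H385R6.HG3d
import Pool.Agent.H385R6.HG3e
import Pool.Agent.H385R6.HG3g
import Pool.Agent.H385R5.HE10A
import Pool.Agent.H304R3.HK.RepH

/-!
TEAM Q3, project HG (helper385): task HG3f (helper132), density of the fractions.
-/

open Complex Filter Topology Set MeasureTheory

namespace H385

open Pool.Agent.H304R3.HK (tc HC CS bb LamK psi bH aH LH Rep)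

namespace HG3f

open Pool.Agent.H304R3.HK.G1a (tc_add tc_mul tc_re tc_im tc_ne)

theorem nrm_eq (a : ZI) : (nrm a : ℝ) = ‖tc a‖ ^ 2 := by
  unfold nrm
  have h0 : 0 ≤ a.norm := Zsqrtd.norm_nonneg (by norm_num) a
  have h1 : ((a.norm.natAbs : ℕ) : ℝ) = ((a.norm : ℤ) : ℝ) := by
    rw [← Int.cast_natCast, Int.natAbs_of_nonneg h0]
  rw [h1, ← Complex.normSq_eq_norm_sq, Complex.normSq_apply, tc_re, tc_im, Zsqrtd.norm_def]
  push_cast
  ring

theorem nrm_pos {a : ZI} (h : a ≠ 0) : 0 < nrm a := Pool.Agent.H304R3.HK.G1a.norm_pos h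

theorem one_le_norm {a : ZI} (h : a ≠ 0) : 1 ≤ ‖tc a‖ := by
  have h1 : (1 : ℝ) ≤ (nrm a : ℝ) := by exact_mod_cast nrm_pos h
  rw [nrm_eq] at h1
  by_contra h2
  push Not at h2
  have h3 := norm_nonneg (tc a)
  nlinarith

theorem mem_BX {K : ℕ} {z : ZI} (h0 : z ≠ 0) (h1 : nrm z ≤ K) : z ∈ BX K := by
  have hz : ((nrm z : ℕ) : ℤ) = z.re ^ 2 + z.im ^ 2 := by
    unfold nrm
    rw [Int.natAbs_of_nonneg (Zsqrtd.norm_nonneg (by norm_num) z), Zsqrtd.norm_def]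
    ring
  have h2 : (1 : ℤ) ≤ z.re ^ 2 + z.im ^ 2 := by
    rw [← hz]
    exact_mod_cast nrm_pos h0
  have h3 : z.re ^ 2 + z.im ^ 2 ≤ (K : ℤ) := by
    rw [← hz]
    exact_mod_cast h1
  unfold BX
  rw [Finset.mem_image]
  refine ⟨(z.re, z.im), ?_, rfl⟩
  rw [Finset.mem_filter, Finset.mem_product, Finset.mem_Icc, Finset.mem_Icc]
  refine ⟨⟨⟨?_, ?_⟩, ?_, ?_⟩, h2, h3⟩ <;> dsimp only <;> nlinarith [sq_nonneg z.re, sq_nonneg z.im,
    sq_nonneg (z.re - 1), sq_nonneg (z.re + 1), sq_nonneg (z.im - 1), sq_nonneg (z.im + 1)]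

theorem cube_sum : ∃ C : ℝ, 0 < C ∧ ∀ F : Finset ZI, (∀ j ∈ F, j ≠ 0) →
    ∑ j ∈ F, 1 / ‖tc j‖ ^ 3 ≤ C := by
  have hs := EisensteinSeries.summable_one_div_norm_rpow (k := 3) (by norm_num)
  refine ⟨(∑' x : Fin 2 → ℤ, ‖x‖ ^ (-3 : ℝ)) + 1, ?_, ?_⟩
  · have : 0 ≤ ∑' x : Fin 2 → ℤ, ‖x‖ ^ (-3 : ℝ) := tsum_nonneg (fun x => by positivity)
    linarith
  · intro F hF
    let e : ZI ↪ (Fin 2 → ℤ) := ⟨fun a => ![a.re, a.im], by
      intro a b hab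
      have h0 := congrFun hab 0
      have h1 := congrFun hab 1
      simp only [Matrix.cons_val_zero, Matrix.cons_val_one] at h0 h1
      ext
      · exact h0
      · exact h1⟩
    calc ∑ j ∈ F, 1 / ‖tc j‖ ^ 3 ≤ ∑ j ∈ F, ‖e j‖ ^ (-3 : ℝ) := by
          apply Finset.sum_le_sum
          intro j hj
          have h1 : ‖e j‖ ≤ ‖tc j‖ := by
            rw [pi_norm_le_iff_of_nonneg (norm_nonneg _)]
            intro i
            fin_cases i
            · show ‖(j.re : ℤ)‖ ≤ _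
              rw [Int.norm_eq_abs]
              have := Complex.abs_re_le_norm (tc j)
              rwa [tc_re] at this
            · show ‖(j.im : ℤ)‖ ≤ _
              rw [Int.norm_eq_abs]
              have := Complex.abs_im_le_norm (tc j)
              rwa [tc_im] at this
          have h2 : 0 < ‖e j‖ := by
            rw [norm_pos_iff]
            intro h0
            apply hF j hj
            apply e.injective
            rw [h0]
            ext i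
            fin_cases i <;> rfl
          rw [Real.rpow_neg h2.le, one_div]
          have h3 : ‖e j‖ ^ (3 : ℝ) = ‖e j‖ ^ 3 := by
            rw [← Real.rpow_natCast]; norm_num
          rw [h3]
          gcongr
      _ = ∑ x ∈ F.map e, ‖x‖ ^ (-3 : ℝ) := by rw [Finset.sum_map]
      _ ≤ ∑' x : Fin 2 → ℤ, ‖x‖ ^ (-3 : ℝ) := hs.sum_le_tsum _ (fun _ _ => by positivity)
      _ ≤ _ := by linarith

theorem term_eq (V : ℝ) (hV : 0 < V) (θ : ℂ) (q a : ZI) (hq : q ≠ 0) :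
    (1 / (nrm q : ℝ) ^ 2) * KV V (θ - tc a / tc q) = 1 / Real.pi * (1 / (HV V θ q a) ^ 2) := by
  have hq' : tc q ≠ 0 := tc_ne hq
  have hn : 0 < ‖tc q‖ := norm_pos_iff.2 hq'
  have h1 : ‖tc q * θ - tc a‖ = ‖tc q‖ * ‖θ - tc a / tc q‖ := by
    rw [← norm_mul]
    congr 1
    field_simp
  unfold KV HV
  rw [nrm_eq, h1]
  have hr0 : 0 < Real.sqrt V := Real.sqrt_pos.2 hV
  have hr : Real.sqrt V ^ 2 = V := Real.sq_sqrt hV.le
  generalize ‖θ - tc a / tc q‖ = x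
  generalize Real.sqrt V = r at hr0 hr
  generalize ‖tc q‖ = m at hn
  subst hr
  have h2 : m ^ 2 / r + r * (m * x) ^ 2 = m ^ 2 * (1 + r ^ 2 * x ^ 2) / r := by
    field_simp
  rw [h2]
  have h3 : 0 < 1 + r ^ 2 * x ^ 2 := by positivity
  have hpi := Real.pi_pos
  field_simp

/-- sum over the pairs whose classes are fixed -/
theorem class_pair (P : ZI) (hP : P ≠ 0) (Cl Cc C3 : ℝ) (hCl : 0 < Cl)
    (hline : ∀ (h c : ℝ) (w : ℂ) (z0 : ZI)
    (F : Finset ZI), 0 < h → 0 < c → (∀ z ∈ F, P ∣ z - z0) →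
    ∑ z ∈ F, 1 / (h * ‖tc z + w‖ ^ 2 + c) ^ 2 ≤
      (1 / (nrm P : ℝ)) * (Real.pi / (h * c)) + Cl * (1 / c ^ 2 + 1 / (Real.sqrt h * c ^ (3 / 2 : ℝ))))
    (hcls : ∀ (x1 x2 : ℝ) (j0 : ZI) (F : Finset ZI),
    0 < x1 → x1 ≤ x2 → (∀ j ∈ F, j ≠ 0 ∧ P ∣ j - j0 ∧ x1 < (nrm j : ℝ) ∧ (nrm j : ℝ) ≤ x2) →
    ∑ j ∈ F, 1 / (nrm j : ℝ) ≤ Real.pi / (nrm P : ℝ) * Real.log (x2 / x1) + Cc)
    (hcube : ∀ F : Finset ZI, (∀ j ∈ F, j ≠ 0) → ∑ j ∈ F, 1 / ‖tc j‖ ^ 3 ≤ C3)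
    (h s1 s2 : ℝ) (hh0 : 0 < h) (hh10 : h ≤ 10) (hs1 : 0 < s1) (hs12 : s1 ≤ s2) (τ : ℂ)
    (z0 j0 : ZI) (G : Finset (ZI × ZI))
    (hG : ∀ v ∈ G, v.2 ≠ 0 ∧ P ∣ v.1 - z0 ∧ P ∣ v.2 - j0 ∧ s1 < ‖tc v.2‖ ^ 2 / h ∧
      ‖tc v.2‖ ^ 2 / h ≤ s2) :
    ∑ v ∈ G, 1 / (h * ‖tc v.1 + τ * tc v.2‖ ^ 2 + ‖tc v.2‖ ^ 2 / h) ^ 2 ≤
      Real.pi / (nrm P : ℝ) * (Real.pi / (nrm P : ℝ) * Real.log (s2 / s1) + Cc) +
        110 * Cl * C3 := by
  classical
  have hN : (0 : ℝ) < (nrm P : ℝ) := by exact_mod_cast nrm_pos hP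
  have hmaps : ∀ v ∈ G, v.2 ∈ G.image Prod.snd := fun v hv => Finset.mem_image_of_mem _ hv
  rw [← Finset.sum_fiberwise_of_maps_to hmaps]
  have hJ : ∀ j ∈ G.image Prod.snd, j ≠ 0 ∧ P ∣ j - j0 ∧ s1 < ‖tc j‖ ^ 2 / h ∧
      ‖tc j‖ ^ 2 / h ≤ s2 := by
    intro j hj
    obtain ⟨v, hv, rfl⟩ := Finset.mem_image.1 hj
    obtain ⟨h1, h2, h3, h4, h5⟩ := hG v hv
    exact ⟨h1, h3, h4, h5⟩
  have hone : ∀ j ∈ G.image Prod.snd, ∑ v ∈ G with v.2 = j,
      1 / (h * ‖tc v.1 + τ * tc v.2‖ ^ 2 + ‖tc v.2‖ ^ 2 / h) ^ 2 ≤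
      Real.pi / (nrm P : ℝ) * (1 / (nrm j : ℝ)) + 110 * Cl * (1 / ‖tc j‖ ^ 3) := by
    intro j hj
    obtain ⟨hj0, hj1, hj2, hj3⟩ := hJ j hj
    have hm1 : 1 ≤ ‖tc j‖ := one_le_norm hj0
    have hm0 : 0 < ‖tc j‖ := by linarith
    have hc : 0 < ‖tc j‖ ^ 2 / h := by positivity
    have hinj : Set.InjOn (Prod.fst : ZI × ZI → ZI) (G.filter (fun v => v.2 = j)) := by
      intro x hx y hy hxy
      rw [Finset.mem_coe, Finset.mem_filter] at hx hy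
      exact Prod.ext hxy (hx.2.trans hy.2.symm)
    have e1 : ∑ v ∈ G with v.2 = j,
        1 / (h * ‖tc v.1 + τ * tc v.2‖ ^ 2 + ‖tc v.2‖ ^ 2 / h) ^ 2 =
        ∑ z ∈ (G.filter (fun v => v.2 = j)).image Prod.fst,
          1 / (h * ‖tc z + τ * tc j‖ ^ 2 + ‖tc j‖ ^ 2 / h) ^ 2 := by
      rw [Finset.sum_image hinj]
      apply Finset.sum_congr rfl
      intro v hv
      rw [(Finset.mem_filter.1 hv).2]
    rw [e1]
    refine (hline h (‖tc j‖ ^ 2 / h) (τ * tc j) z0 _ hh0 hc ?_).trans ?_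
    · intro z hz
      obtain ⟨v, hv, rfl⟩ := Finset.mem_image.1 hz
      exact (hG v (Finset.mem_filter.1 hv).1).2.1
    · have f1 : h * (‖tc j‖ ^ 2 / h) = ‖tc j‖ ^ 2 := by field_simp
      have f2 : Real.sqrt h * (‖tc j‖ ^ 2 / h) ^ (3 / 2 : ℝ) = ‖tc j‖ ^ 3 / h := by
        have g1 : (‖tc j‖ ^ 2 / h) ^ (3 / 2 : ℝ) = (‖tc j‖ / Real.sqrt h) ^ 3 := by
          have g2 : ‖tc j‖ ^ 2 / h = (‖tc j‖ / Real.sqrt h) ^ (2 : ℝ) := by
            rw [Real.rpow_two, div_pow, Real.sq_sqrt hh0.le]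
          rw [g2, ← Real.rpow_mul (by positivity), ← Real.rpow_natCast]
          norm_num
        rw [g1, div_pow]
        have g3 : 0 < Real.sqrt h := Real.sqrt_pos.2 hh0
        have g4 : h = Real.sqrt h ^ 2 := (Real.sq_sqrt hh0.le).symm
        have g5 : ‖tc j‖ ^ 3 / h = ‖tc j‖ ^ 3 / Real.sqrt h ^ 2 := by rw [← g4]
        rw [g5]
        field_simp
      rw [f1, f2, nrm_eq j]
      have f3 : 1 / (‖tc j‖ ^ 2 / h) ^ 2 ≤ 100 * (1 / ‖tc j‖ ^ 3) := by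
        have g1 : 1 / (‖tc j‖ ^ 2 / h) ^ 2 = h ^ 2 * (1 / ‖tc j‖ ^ 4) := by
          field_simp
        rw [g1]
        have g2 : h ^ 2 ≤ 100 := by nlinarith
        have g3 : 1 / ‖tc j‖ ^ 4 ≤ 1 / ‖tc j‖ ^ 3 := by
          apply one_div_le_one_div_of_le (by positivity)
          exact pow_le_pow_right₀ hm1 (by norm_num)
        exact mul_le_mul g2 g3 (by positivity) (by norm_num)
      have f4 : 1 / (‖tc j‖ ^ 3 / h) ≤ 10 * (1 / ‖tc j‖ ^ 3) := by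
        have g1 : 1 / (‖tc j‖ ^ 3 / h) = h * (1 / ‖tc j‖ ^ 3) := by
          field_simp
        rw [g1]
        gcongr
      have f5 : Cl * (1 / (‖tc j‖ ^ 2 / h) ^ 2 + 1 / (‖tc j‖ ^ 3 / h)) ≤
          110 * Cl * (1 / ‖tc j‖ ^ 3) := by
        have := mul_le_mul_of_nonneg_left (add_le_add f3 f4) hCl.le
        linarith
      have f6 : 1 / (nrm P : ℝ) * (Real.pi / ‖tc j‖ ^ 2) =
          Real.pi / (nrm P : ℝ) * (1 / ‖tc j‖ ^ 2) := by
        field_simp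
      rw [f6]
      linarith
  refine (Finset.sum_le_sum hone).trans ?_
  rw [Finset.sum_add_distrib, ← Finset.mul_sum, ← Finset.mul_sum]
  have k1 : ∑ j ∈ G.image Prod.snd, 1 / (nrm j : ℝ) ≤
      Real.pi / (nrm P : ℝ) * Real.log (s2 / s1) + Cc := by
    have := hcls (s1 * h) (s2 * h) j0 (G.image Prod.snd) (by positivity)
      (mul_le_mul_of_nonneg_right hs12 hh0.le) (by
        intro j hj
        obtain ⟨hj0, hj1, hj2, hj3⟩ := hJ j hj
        rw [nrm_eq]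
        exact ⟨hj0, hj1, by rwa [lt_div_iff₀ hh0] at hj2, by rwa [div_le_iff₀ hh0] at hj3⟩)
    rwa [mul_div_mul_right _ _ hh0.ne'] at this
  have k2 := hcube (G.image Prod.snd) (fun j hj => (hJ j hj).1)
  have hpi := Real.pi_pos
  have k3 : Real.pi / (nrm P : ℝ) * ∑ j ∈ G.image Prod.snd, 1 / (nrm j : ℝ) ≤
      Real.pi / (nrm P : ℝ) * (Real.pi / (nrm P : ℝ) * Real.log (s2 / s1) + Cc) := by
    gcongr
  have k4 : 110 * Cl * ∑ j ∈ G.image Prod.snd, 1 / ‖tc j‖ ^ 3 ≤ 110 * Cl * C3 := by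
    gcongr
  linarith

end HG3f

open HG3f Pool.Agent.H304R3.HK.G1a in
/-- HG3f: density of the fractions (from HG3a-e) -/
theorem frac_density (P : ZI) (hP : P ≠ 0) (K : ℕ) : ∃ C : ℝ, 0 < C ∧
    ∀ (A B : ℕ) (V : ℝ) (θ : ℂ) (c : ZI) (F : Finset (ZI × ZI)), 1 ≤ A → A ≤ B → 1 ≤ V →
    V ≤ (A : ℝ) ^ 2 →
    (∀ v ∈ F, A < nrm v.1 ∧ nrm v.1 ≤ B ∧ P ∣ v.1 - c ∧ GcdLe K v.1 v.2) →
    ∑ v ∈ F, (1 / (nrm v.1 : ℝ) ^ 2) * KV V (θ - tc v.2 / tc v.1) ≤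
      Real.pi / (nrm P : ℝ) * Real.log ((B : ℝ) / A) + C := by
  classical
  obtain ⟨Cl, hCl, hline⟩ := line_sumZ P hP
  obtain ⟨Cn, hCn, hnear⟩ := near_lines
  obtain ⟨Cf, hCf, hfar⟩ := far_lines
  obtain ⟨Cc, hCc, hcls⟩ := class_sum P hP
  obtain ⟨C3, hC3, hcube⟩ := cube_sum
  have hN : (0 : ℝ) < (nrm P : ℝ) := by exact_mod_cast HG3f.nrm_pos hP
  have hpi := Real.pi_pos
  refine ⟨1 / Real.pi * (((BX K).card : ℝ) + Cn + Cf + Real.pi * Cc +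
    (nrm P : ℝ) * (110 * Cl * C3)), by positivity, ?_⟩
  intro A B V θ c F hA hAB hV hVA hF
  obtain ⟨q0, a0, q1, a1, hq0, hdet, hh10, τ, hτ⟩ := short_basis V hV θ
  have hV0 : 0 < V := by linarith
  have hr0 : 0 < Real.sqrt V := Real.sqrt_pos.2 hV0
  have hrr : Real.sqrt V ^ 2 = V := Real.sq_sqrt hV0.le
  have hA0 : (0 : ℝ) < A := by exact_mod_cast hA
  have hAB' : (A : ℝ) ≤ B := by exact_mod_cast hAB
  have hrA : Real.sqrt V ≤ A := Real.sqrt_le_iff.2 ⟨hA0.le, hVA⟩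
  have hHV0 : ∀ q a : ZI, q ≠ 0 → (nrm q : ℝ) / Real.sqrt V ≤ HV V θ q a := by
    intro q a _
    unfold HV
    rw [HG3f.nrm_eq]
    have : 0 ≤ Real.sqrt V * ‖tc q * θ - tc a‖ ^ 2 := by positivity
    linarith
  set h := HV V θ q0 a0 with hh
  have hh0 : 0 < h := by
    have h1 := hHV0 q0 a0 hq0
    have h2 : (0 : ℝ) < (nrm q0 : ℝ) := by exact_mod_cast HG3f.nrm_pos hq0
    have h3 : 0 < (nrm q0 : ℝ) / Real.sqrt V := by positivity
    linarith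
  -- change of basis
  let φ : ZI × ZI → ZI × ZI := fun v => (v.1 * a1 - v.2 * q1, v.2 * q0 - v.1 * a0)
  have hφ1 : ∀ v, (φ v).1 * q0 + (φ v).2 * q1 = v.1 := by
    intro v
    show (v.1 * a1 - v.2 * q1) * q0 + (v.2 * q0 - v.1 * a0) * q1 = v.1
    linear_combination v.1 * hdet
  have hφ2 : ∀ v, (φ v).1 * a0 + (φ v).2 * a1 = v.2 := by
    intro v
    show (v.1 * a1 - v.2 * q1) * a0 + (v.2 * q0 - v.1 * a0) * a1 = v.2
    linear_combination v.2 * hdet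
  have hinj : Function.Injective φ := by
    intro v w hvw
    refine Prod.ext ?_ ?_
    · rw [← hφ1 v, ← hφ1 w, hvw]
    · rw [← hφ2 v, ← hφ2 w, hvw]
  let T : ZI × ZI → ℝ := fun v => 1 / (h * ‖tc v.1 + τ * tc v.2‖ ^ 2 + ‖tc v.2‖ ^ 2 / h) ^ 2
  have hTH : ∀ w : ZI × ZI, h * ‖tc w.1 + τ * tc w.2‖ ^ 2 + ‖tc w.2‖ ^ 2 / h =
      HV V θ (w.1 * q0 + w.2 * q1) (w.1 * a0 + w.2 * a1) := fun w => (hτ w.1 w.2).symm
  have hterm : ∀ v ∈ F, (1 / (nrm v.1 : ℝ) ^ 2) * KV V (θ - tc v.2 / tc v.1) =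
      1 / Real.pi * T (φ v) := by
    intro v hv
    have hv1 : v.1 ≠ 0 := by
      intro h0
      have := (hF v hv).1
      rw [h0] at this
      simp [nrm] at this
    rw [HG3f.term_eq V hV0 θ v.1 v.2 hv1]
    show _ = 1 / Real.pi * (1 / (h * ‖tc (φ v).1 + τ * tc (φ v).2‖ ^ 2 + ‖tc (φ v).2‖ ^ 2 / h) ^ 2)
    rw [hTH, hφ1, hφ2]
  rw [Finset.sum_congr rfl hterm, ← Finset.mul_sum]
  have hG0 : ∑ v ∈ F, T (φ v) = ∑ w ∈ F.image φ, T w :=
    (Finset.sum_image (fun x _ y _ h => hinj h)).symm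
  rw [hG0]
  have hGp : ∀ w ∈ F.image φ, A < nrm (w.1 * q0 + w.2 * q1) ∧ nrm (w.1 * q0 + w.2 * q1) ≤ B ∧
      P ∣ (w.1 * q0 + w.2 * q1) - c ∧ GcdLe K (w.1 * q0 + w.2 * q1) (w.1 * a0 + w.2 * a1) := by
    intro w hw
    obtain ⟨v, hv, rfl⟩ := Finset.mem_image.1 hw
    rw [hφ1, hφ2]
    exact hF v hv
  generalize F.image φ = G at hGp
  -- the parameters
  set s1 : ℝ := A / Real.sqrt V with hs1
  set s2 : ℝ := B / Real.sqrt V with hs2
  have hs11 : 1 ≤ s1 := by rw [hs1, one_le_div hr0]; exact hrA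
  have hs12 : s1 ≤ s2 := by rw [hs1, hs2]; gcongr
  have hHs : ∀ w ∈ G, s1 < h * ‖tc w.1 + τ * tc w.2‖ ^ 2 + ‖tc w.2‖ ^ 2 / h := by
    intro w hw
    obtain ⟨h1, h2, h3, h4⟩ := hGp w hw
    have h5 : w.1 * q0 + w.2 * q1 ≠ 0 := by
      intro h0
      rw [h0] at h1
      simp [nrm] at h1
    rw [hTH]
    refine lt_of_lt_of_le ?_ (hHV0 _ _ h5)
    rw [hs1]
    have h6 : (A : ℝ) < (nrm (w.1 * q0 + w.2 * q1) : ℝ) := by exact_mod_cast h1
    gcongr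
  -- splitting
  have split : ∑ w ∈ G, T w = ∑ w ∈ G.filter (fun w => w.2 = 0), T w +
      (∑ w ∈ G.filter (fun w => w.2 ≠ 0 ∧ ‖tc w.2‖ ^ 2 / h ≤ s1), T w +
      (∑ w ∈ G.filter (fun w => w.2 ≠ 0 ∧ s2 < ‖tc w.2‖ ^ 2 / h), T w +
        ∑ w ∈ G.filter (fun w => w.2 ≠ 0 ∧ s1 < ‖tc w.2‖ ^ 2 / h ∧ ‖tc w.2‖ ^ 2 / h ≤ s2), T w)) := by
    rw [← Finset.sum_filter_add_sum_filter_not G (fun w => w.2 = 0)]
    congr 1
    rw [← Finset.sum_filter_add_sum_filter_not (G.filter (fun w => ¬ w.2 = 0))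
      (fun w => ‖tc w.2‖ ^ 2 / h ≤ s1), Finset.filter_filter, Finset.filter_filter]
    congr 1
    rw [← Finset.sum_filter_add_sum_filter_not
      (G.filter (fun w => ¬ w.2 = 0 ∧ ¬ ‖tc w.2‖ ^ 2 / h ≤ s1))
      (fun w => s2 < ‖tc w.2‖ ^ 2 / h), Finset.filter_filter, Finset.filter_filter]
    congr 1
    · apply Finset.sum_congr _ (fun _ _ => rfl)
      ext w
      simp only [Finset.mem_filter]
      constructor
      · rintro ⟨h1, ⟨h2, h3⟩, h4⟩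
        exact ⟨h1, h2, h4⟩
      · rintro ⟨h1, h2, h3⟩
        exact ⟨h1, ⟨h2, fun h4 => by linarith⟩, h3⟩
    · apply Finset.sum_congr _ (fun _ _ => rfl)
      ext w
      simp only [Finset.mem_filter, not_le, not_lt]
      constructor
      · rintro ⟨h1, ⟨h2, h3⟩, h4⟩
        exact ⟨h1, h2, h3, h4⟩
      · rintro ⟨h1, h2, h3, h4⟩
        exact ⟨h1, ⟨h2, h3⟩, h4⟩
  -- first part
  have b1 : ∑ w ∈ G.filter (fun w => w.2 = 0), T w ≤ ((BX K).card : ℝ) := by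
    have hle : ∀ w ∈ G.filter (fun w => w.2 = 0), T w ≤ 1 := by
      intro w hw
      have h1 := hHs w (Finset.mem_filter.1 hw).1
      show 1 / (h * ‖tc w.1 + τ * tc w.2‖ ^ 2 + ‖tc w.2‖ ^ 2 / h) ^ 2 ≤ 1
      rw [div_le_one (by nlinarith)]
      nlinarith
    refine (Finset.sum_le_card_nsmul _ _ _ hle).trans ?_
    rw [nsmul_eq_mul, mul_one]
    have hcard : (G.filter (fun w => w.2 = 0)).card ≤ (BX K).card := by
      apply Finset.card_le_card_of_injOn (fun w => w.1)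
      · intro w hw
        rw [Finset.mem_coe, Finset.mem_filter] at hw
        obtain ⟨h1, h2, h3, h4⟩ := hGp w hw.1
        rw [hw.2, zero_mul, zero_mul, add_zero, add_zero] at h4
        have h5 : nrm w.1 ≤ K := h4 w.1 (dvd_mul_right _ _) (dvd_mul_right _ _)
        have h6 : w.1 ≠ 0 := by
          intro h0
          rw [hw.2, h0, zero_mul, zero_mul, add_zero] at h1
          simp [nrm] at h1
        exact HG3f.mem_BX h6 h5
      · intro x hx y hy hxy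
        rw [Finset.mem_coe, Finset.mem_filter] at hx hy
        exact Prod.ext hxy (hx.2.trans hy.2.symm)
    exact_mod_cast hcard
  -- second part
  have b2 : ∑ w ∈ G.filter (fun w => w.2 ≠ 0 ∧ ‖tc w.2‖ ^ 2 / h ≤ s1), T w ≤ Cn := by
    apply hnear h s1 τ _ hh0 hh10 hs11
    intro w hw
    rw [Finset.mem_filter] at hw
    exact ⟨hw.2.1, hw.2.2, hHs w hw.1⟩
  -- third part
  have b3 : ∑ w ∈ G.filter (fun w => w.2 ≠ 0 ∧ s2 < ‖tc w.2‖ ^ 2 / h), T w ≤ Cf := by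
    set ρ : ℝ := Real.sqrt (Real.sqrt V) with hρ
    have hρ0 : 0 < ρ := Real.sqrt_pos.2 hr0
    have hρ2 : ρ ^ 2 = Real.sqrt V := Real.sq_sqrt hr0.le
    have hρc : (ρ : ℂ) ≠ 0 := by exact_mod_cast hρ0.ne'
    have hform : ∀ q a : ZI, HV V θ q a = ‖tc q / (ρ : ℂ)‖ ^ 2 +
        ‖(ρ : ℂ) * (tc a - tc q * θ)‖ ^ 2 := by
      intro q a
      unfold HV
      rw [norm_div, norm_mul, Complex.norm_real, Real.norm_of_nonneg hρ0.le, div_pow, mul_pow, hρ2,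
        norm_sub_rev]
    have e3 := hfar h s2 (tc q0 / (ρ : ℂ)) ((ρ : ℂ) * (tc a0 - tc q0 * θ)) (tc q1 / (ρ : ℂ))
      ((ρ : ℂ) * (tc a1 - tc q1 * θ))
      (G.filter (fun w => w.2 ≠ 0 ∧ s2 < ‖tc w.2‖ ^ 2 / h)) (by
        have hd : tc q0 * tc a1 - tc a0 * tc q1 = 1 := by
          have := congrArg tc hdet
          rw [sub_eq_add_neg, tc_add, tc_mul] at this
          have hneg : tc (-(a0 * q1)) = - (tc a0 * tc q1) := by
            rw [← tc_mul]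
            simp only [tc, Zsqrtd.re_neg, Zsqrtd.im_neg]
            push_cast
            ring
          have hone : tc (1 : ZI) = 1 := by simp [tc]
          rw [hneg, hone] at this
          linear_combination this
        field_simp
        linear_combination hd) (hform q0 a0) hh10 (by linarith) (by
        intro w hw
        rw [Finset.mem_filter] at hw
        refine ⟨hw.2.1, hw.2.2, ?_⟩
        have e4 : tc w.1 * (tc q0 / (ρ : ℂ)) + tc w.2 * (tc q1 / (ρ : ℂ)) =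
            tc (w.1 * q0 + w.2 * q1) / (ρ : ℂ) := by
          rw [tc_add, tc_mul, tc_mul]
          ring
        rw [e4, norm_div, Complex.norm_real, Real.norm_of_nonneg hρ0.le, div_pow, hρ2,
          ← HG3f.nrm_eq, hs2]
        have h6 : (nrm (w.1 * q0 + w.2 * q1) : ℝ) ≤ (B : ℝ) := by exact_mod_cast (hGp w hw.1).2.1
        gcongr)
    refine le_trans (le_of_eq ?_) e3
    apply Finset.sum_congr rfl
    intro w _
    show 1 / (h * ‖tc w.1 + τ * tc w.2‖ ^ 2 + ‖tc w.2‖ ^ 2 / h) ^ 2 = _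
    rw [hTH, hform]
    have e4 : tc (w.1 * q0 + w.2 * q1) / (ρ : ℂ) =
        tc w.1 * (tc q0 / (ρ : ℂ)) + tc w.2 * (tc q1 / (ρ : ℂ)) := by
      rw [tc_add, tc_mul, tc_mul]
      ring
    have e5 : (ρ : ℂ) * (tc (w.1 * a0 + w.2 * a1) - tc (w.1 * q0 + w.2 * q1) * θ) =
        tc w.1 * ((ρ : ℂ) * (tc a0 - tc q0 * θ)) + tc w.2 * ((ρ : ℂ) * (tc a1 - tc q1 * θ)) := by
      rw [tc_add, tc_mul, tc_mul, tc_add, tc_mul, tc_mul]
      ring
    rw [e4, e5]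
  -- fourth part
  have b4 : ∑ w ∈ G.filter (fun w => w.2 ≠ 0 ∧ s1 < ‖tc w.2‖ ^ 2 / h ∧ ‖tc w.2‖ ^ 2 / h ≤ s2), T w
      ≤ (nrm P : ℝ) * (Real.pi / (nrm P : ℝ) * (Real.pi / (nrm P : ℝ) * Real.log (s2 / s1) + Cc) +
        110 * Cl * C3) := by
    haveI hfin : Finite (RQ P) := he1_finite hP
    letI : Fintype (RQ P) := Fintype.ofFinite _
    have hcardP : Fintype.card (RQ P) = nrm P := by
      rw [← Nat.card_eq_fintype_card]
      exact H10.card_RQ P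
    set G4 := G.filter (fun w => w.2 ≠ 0 ∧ s1 < ‖tc w.2‖ ^ 2 / h ∧ ‖tc w.2‖ ^ 2 / h ≤ s2) with hG4
    let mk : ZI →+* RQ P := Ideal.Quotient.mk (Ideal.span {P})
    have hmk : ∀ x y : ZI, mk x = mk y ↔ P ∣ x - y := by
      intro x y
      show Ideal.Quotient.mk (Ideal.span {P}) x = Ideal.Quotient.mk (Ideal.span {P}) y ↔ _
      rw [Ideal.Quotient.eq, Ideal.mem_span_singleton]
    let cl : ZI × ZI → RQ P × RQ P := fun w => (mk w.1, mk w.2)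
    let S : Finset (RQ P × RQ P) := Finset.univ.filter
      (fun α => α.1 * mk q0 + α.2 * mk q1 = mk c)
    have hmaps : ∀ w ∈ G4, cl w ∈ S := by
      intro w hw
      rw [Finset.mem_filter]
      refine ⟨Finset.mem_univ _, ?_⟩
      show mk w.1 * mk q0 + mk w.2 * mk q1 = mk c
      rw [← map_mul, ← map_mul, ← map_add, hmk]
      exact (hGp w (Finset.mem_filter.1 hw).1).2.2.1
    have hS : S.card ≤ nrm P := by
      rw [← hcardP, ← Finset.card_univ]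
      apply Finset.card_le_card_of_injOn (fun α => α.1 * mk a0 + α.2 * mk a1)
      · intro _ _
        exact Finset.mem_coe.2 (Finset.mem_univ _)
      · intro x hx y hy hxy
        rw [Finset.mem_coe, Finset.mem_filter] at hx hy
        have hd : mk q0 * mk a1 - mk a0 * mk q1 = 1 := by
          rw [← map_mul, ← map_mul, ← map_sub, hdet, map_one]
        have h1 : x.1 * mk q0 + x.2 * mk q1 = y.1 * mk q0 + y.2 * mk q1 := hx.2.trans hy.2.symm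
        have h2 : x.1 * mk a0 + x.2 * mk a1 = y.1 * mk a0 + y.2 * mk a1 := hxy
        refine Prod.ext ?_ ?_
        · linear_combination (y.1 - x.1) * hd + mk a1 * h1 - mk q1 * h2
        · linear_combination (y.2 - x.2) * hd - mk a0 * h1 + mk q0 * h2
    rw [← Finset.sum_fiberwise_of_maps_to hmaps]
    have hlog : 0 ≤ Real.log (s2 / s1) := by
      apply Real.log_nonneg
      rw [one_le_div (by linarith)]
      exact hs12
    have hpart : ∀ α ∈ S, ∑ w ∈ G4 with cl w = α, T w ≤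
        Real.pi / (nrm P : ℝ) * (Real.pi / (nrm P : ℝ) * Real.log (s2 / s1) + Cc) +
        110 * Cl * C3 := by
      intro α _
      obtain ⟨z0, hz0⟩ := Ideal.Quotient.mk_surjective α.1
      obtain ⟨j0, hj0⟩ := Ideal.Quotient.mk_surjective α.2
      apply HG3f.class_pair P hP Cl Cc C3 hCl hline hcls hcube h s1 s2 hh0 hh10 (by linarith) hs12 τ
        z0 j0
      intro w hw
      rw [Finset.mem_filter, hG4, Finset.mem_filter] at hw
      obtain ⟨⟨h1, h2, h3, h4⟩, h5⟩ := hw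
      refine ⟨h2, ?_, ?_, h3, h4⟩
      · rw [← hmk]
        show mk w.1 = Ideal.Quotient.mk (Ideal.span {P}) z0
        rw [hz0, ← h5]
      · rw [← hmk]
        show mk w.2 = Ideal.Quotient.mk (Ideal.span {P}) j0
        rw [hj0, ← h5]
    refine (Finset.sum_le_card_nsmul _ _ _ hpart).trans ?_
    rw [nsmul_eq_mul]
    have hS' : (S.card : ℝ) ≤ (nrm P : ℝ) := by exact_mod_cast hS
    gcongr
  have hs21 : s2 / s1 = (B : ℝ) / A := by
    rw [hs1, hs2]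
    field_simp
  rw [hs21] at b4
  have htot : ∑ w ∈ G, T w ≤ ((BX K).card : ℝ) + Cn + Cf + (nrm P : ℝ) * (Real.pi / (nrm P : ℝ) *
      (Real.pi / (nrm P : ℝ) * Real.log ((B : ℝ) / A) + Cc) + 110 * Cl * C3) := by
    rw [split]
    linarith
  calc 1 / Real.pi * ∑ w ∈ G, T w ≤ 1 / Real.pi * (((BX K).card : ℝ) + Cn + Cf + (nrm P : ℝ) *
        (Real.pi / (nrm P : ℝ) *
      (Real.pi / (nrm P : ℝ) * Real.log ((B : ℝ) / A) + Cc) + 110 * Cl * C3)) := by gcongr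
    _ = _ := by
      field_simp
      ring

end H385
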