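import Pool.Agent.H385R6.HgDefs

/-!
TEAM Q3, project HG (helper385): task HG4, from fractions to characters without Gauss sums.
-/

open Complex Filter Topology Set MeasureTheory

namespace H385

open Pool.Agent.H304R3.HK (tc HC CS bb LamK psi bH aH LH Rep)

/-- Bessel inequality for characters of a finite ring whose Fourier transform lives on `S` -/
theorem hg4_bessel {R : Type*} [CommRing R] [Fintype R] [DecidableEq R] (E : R → ℂ)
    (hadd : ∀ x y, E (x + y) = E x * E y) (hn : ∀ x, ‖E x‖ = 1)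
    (horth : ∀ x, ∑ a : R, E (a * x) = if x = 0 then (Fintype.card R : ℂ) else 0)
    (B : Finset (MulChar R ℂ)) (S : Finset R) (g : R → ℂ)
    (hvan : ∀ χ ∈ B, ∀ a, a ∉ S → ∑ x, χ x * E (-(a * x)) = 0) :
    ((Fintype.card R : ℝ) / (Nat.card Rˣ : ℝ)) * ∑ χ ∈ B, ‖∑ x, g x * χ x‖ ^ 2 ≤
      ∑ a ∈ S, ‖∑ x, g x * E (a * x)‖ ^ 2 := by
  classical
  have : Fintype (MulChar R ℂ) := Fintype.ofFinite _
  set N : ℕ := Fintype.card R with hN
  set φ : ℕ := Nat.card Rˣ with hφ
  have hN0 : 0 < N := Fintype.card_pos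
  have hφ0 : 0 < φ := Nat.card_pos
  have hNr : (0:ℝ) < N := by exact_mod_cast hN0
  have hφr : (0:ℝ) < φ := by exact_mod_cast hφ0
  have hEneg : ∀ x, E (-x) = (starRingEnd ℂ) (E x) := by
    intro x
    have h0 : E 0 = 1 := by
      have h1 := hadd 0 0
      rw [add_zero] at h1
      have h2 : E 0 ≠ 0 := by
        intro h; have := hn 0; rw [h] at this; simp at this
      exact (mul_eq_left₀ h2).1 h1.symm
    have h1 : E x * E (-x) = 1 := by rw [← hadd, add_neg_cancel, h0]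
    have h2 : E x * (starRingEnd ℂ) (E x) = 1 := by
      rw [Complex.mul_conj, Complex.normSq_eq_norm_sq, hn]; simp
    have h3 : E x ≠ 0 := by
      intro h; have := hn x; rw [h] at this; simp at this
    exact mul_left_cancel₀ h3 (h1.trans h2.symm)
  set ch : MulChar R ℂ → R → ℂ := fun χ a => ∑ x, χ x * E (-(a * x)) with hch
  set gh : R → ℂ := fun a => ∑ x, g x * E (a * x) with hgh
  -- inversion
  have hinv : ∀ χ : MulChar R ℂ, ∑ a, gh a * ch χ a = (N : ℂ) * ∑ x, g x * χ x := by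
    intro χ
    have h1 : ∀ a, gh a * ch χ a = ∑ x, ∑ y, g x * χ y * E (a * (x - y)) := by
      intro a
      simp only [hgh, hch]
      rw [Finset.sum_mul_sum]
      refine Finset.sum_congr rfl (fun x _ => Finset.sum_congr rfl (fun y _ => ?_))
      rw [mul_sub, sub_eq_add_neg, hadd]
      ring
    simp only [h1]
    rw [Finset.sum_comm, Finset.mul_sum]
    refine Finset.sum_congr rfl (fun x _ => ?_)
    rw [Finset.sum_comm]
    have h2 : ∀ y, ∑ a, g x * χ y * E (a * (x - y)) =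
        g x * χ y * (if x - y = 0 then (N : ℂ) else 0) := by
      intro y
      rw [← Finset.mul_sum, horth]
    simp only [h2]
    rw [Finset.sum_eq_single x]
    · simp; ring
    · intro y _ hy
      rw [if_neg (fun h => hy (sub_eq_zero.1 h).symm), mul_zero]
    · simp
  -- orthogonality
  have hort : ∀ χ χ' : MulChar R ℂ, ∑ a, ch χ a * (starRingEnd ℂ) (ch χ' a) =
      if χ = χ' then (N : ℂ) * φ else 0 := by
    intro χ χ'
    have h1 : ∀ a, ch χ a * (starRingEnd ℂ) (ch χ' a) =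
        ∑ x, ∑ y, χ x * (starRingEnd ℂ) (χ' y) * E (a * (y - x)) := by
      intro a
      simp only [hch]
      rw [map_sum, Finset.sum_mul_sum]
      refine Finset.sum_congr rfl (fun x _ => Finset.sum_congr rfl (fun y _ => ?_))
      rw [map_mul, hEneg (a * y), Complex.conj_conj, mul_sub, sub_eq_add_neg, hadd]
      ring
    simp only [h1]
    rw [Finset.sum_comm]
    have h3 : ∀ x, ∑ a, ∑ y, χ x * (starRingEnd ℂ) (χ' y) * E (a * (y - x)) =
        (N : ℂ) * ((χ * χ'⁻¹) x) := by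
      intro x
      rw [Finset.sum_comm]
      have h2 : ∀ y, ∑ a, χ x * (starRingEnd ℂ) (χ' y) * E (a * (y - x)) =
          χ x * (starRingEnd ℂ) (χ' y) * (if y - x = 0 then (N : ℂ) else 0) := by
        intro y
        rw [← Finset.mul_sum, horth]
      simp only [h2]
      rw [Finset.sum_eq_single x]
      · rw [sub_self, if_pos rfl, MulChar.mul_apply]
        have h4 : (starRingEnd ℂ) (χ' x) = χ'⁻¹ x := MulChar.star_apply' χ' x
        rw [h4]; ring
      · intro y _ hy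
        rw [if_neg (fun h => hy (sub_eq_zero.1 h)), mul_zero]
      · simp
    simp only [h3]
    rw [← Finset.mul_sum]
    by_cases hc : χ = χ'
    · rw [if_pos hc, hc, mul_inv_cancel, MulChar.sum_one_eq_card_units, hφ,
        Nat.card_eq_fintype_card]
    · rw [if_neg hc, MulChar.sum_eq_zero_of_ne_one, mul_zero]
      intro h
      exact hc (mul_inv_eq_one.1 h)
  -- Bessel
  set ρ : ℝ := Real.sqrt (N * φ) with hρ
  have hρ0 : 0 < ρ := Real.sqrt_pos.2 (by positivity)
  have hρ2 : ρ ^ 2 = N * φ := Real.sq_sqrt (by positivity)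
  set v : MulChar R ℂ → EuclideanSpace ℂ R := fun χ =>
    WithLp.toLp 2 (fun a => ((ρ⁻¹ : ℝ) : ℂ) * (starRingEnd ℂ) (ch χ a)) with hv
  have hinner : ∀ (χ : MulChar R ℂ) (f : R → ℂ),
      inner ℂ (v χ) (WithLp.toLp 2 f : EuclideanSpace ℂ R) =
        ((ρ⁻¹ : ℝ) : ℂ) * ∑ a, f a * ch χ a := by
    intro χ f
    rw [PiLp.inner_apply, Finset.mul_sum]
    refine Finset.sum_congr rfl (fun a _ => ?_)
    simp only [hv]
    rw [RCLike.inner_apply, map_mul, Complex.conj_conj, Complex.conj_ofReal]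
    ring
  have hon : Orthonormal ℂ v := by
    rw [orthonormal_iff_ite]
    intro χ χ'
    have h1 := hinner χ (fun a => ((ρ⁻¹ : ℝ) : ℂ) * (starRingEnd ℂ) (ch χ' a))
    have h2 : inner ℂ (v χ) (v χ') = ((ρ⁻¹ : ℝ) : ℂ) *
        ∑ a, ((ρ⁻¹ : ℝ) : ℂ) * (starRingEnd ℂ) (ch χ' a) * ch χ a := h1
    rw [h2]
    have h3 : ∑ a, ((ρ⁻¹ : ℝ) : ℂ) * (starRingEnd ℂ) (ch χ' a) * ch χ a =
        ((ρ⁻¹ : ℝ) : ℂ) * ∑ a, ch χ a * (starRingEnd ℂ) (ch χ' a) := by
      rw [Finset.mul_sum]
      refine Finset.sum_congr rfl (fun a _ => ?_)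
      ring
    rw [h3, hort]
    split_ifs with hc
    · have h4 : ((N : ℂ) * φ) = ((ρ ^ 2 : ℝ) : ℂ) := by rw [hρ2]; push_cast; ring
      rw [h4, ← Complex.ofReal_mul, ← Complex.ofReal_mul]
      have h5 : ρ⁻¹ * (ρ⁻¹ * ρ ^ 2) = 1 := by field_simp
      rw [h5]; simp
    · simp
  set w : R → ℂ := fun a => if a ∈ S then gh a else 0 with hw
  have hB := Orthonormal.sum_inner_products_le (WithLp.toLp 2 w : EuclideanSpace ℂ R)
    (s := B) hon
  have hnorm : ‖(WithLp.toLp 2 w : EuclideanSpace ℂ R)‖ ^ 2 = ∑ a ∈ S, ‖gh a‖ ^ 2 := by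
    rw [EuclideanSpace.norm_sq_eq]
    rw [← Finset.sum_filter_add_sum_filter_not Finset.univ (fun a => a ∈ S)]
    have h1 : ∑ a ∈ Finset.univ.filter (fun a => a ∉ S), ‖w a‖ ^ 2 = 0 := by
      refine Finset.sum_eq_zero (fun a ha => ?_)
      rw [Finset.mem_filter] at ha
      simp only [hw]
      rw [if_neg ha.2]; simp
    have h2 : ∑ a ∈ Finset.univ.filter (fun a => a ∈ S), ‖w a‖ ^ 2 = ∑ a ∈ S, ‖gh a‖ ^ 2 := by
      have h3 : Finset.univ.filter (fun a => a ∈ S) = S := by ext a; simp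
      rw [h3]
      refine Finset.sum_congr rfl (fun a ha => ?_)
      simp only [hw]
      rw [if_pos ha]
    calc _ = ∑ a ∈ S, ‖gh a‖ ^ 2 + 0 := by rw [← h2, ← h1]
      _ = _ := add_zero _
  rw [hnorm] at hB
  refine le_trans (le_of_eq ?_) hB
  rw [Finset.mul_sum]
  refine Finset.sum_congr rfl (fun χ hχ => ?_)
  rw [hinner]
  have h1 : ∑ a, w a * ch χ a = (N : ℂ) * ∑ x, g x * χ x := by
    rw [← hinv χ]
    refine Finset.sum_congr rfl (fun a _ => ?_)
    by_cases ha : a ∈ S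
    · simp only [hw]; rw [if_pos ha]
    · have h2 : ch χ a = 0 := hvan χ hχ a ha
      rw [h2, mul_zero, mul_zero]
  rw [h1, norm_mul, norm_mul, Complex.norm_real, Real.norm_of_nonneg (inv_pos.2 hρ0).le,
    Complex.norm_natCast, mul_pow, mul_pow, inv_pow, hρ2]
  field_simp


open Pool.Agent.H304R3.HK (eq_ eq_per rep_spec)
open Pool.Agent.H304R3.HK.G1a (tc_add tc_mul tc_re tc_im tc_ne rp mk_rp mk_eq rp_congr mem_Rep rp_mem)

/-- coordinates -/
def hg4_eqv : ZI ≃ₗ[ℤ] (Fin 2 → ℤ) where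
  toFun a := ![a.re, a.im]
  invFun v := ⟨v 0, v 1⟩
  map_add' a b := by
    ext i
    fin_cases i <;> simp
  map_smul' n a := by
    ext i
    fin_cases i <;> simp
  left_inv a := by
    ext <;> simp
  right_inv v := by
    ext i
    fin_cases i <;> simp

noncomputable def hg4_bas : Module.Basis (Fin 2) ℤ ZI := Module.Basis.ofEquivFun hg4_eqv

theorem hg4_free : Module.Free ℤ ZI := Module.Free.of_basis hg4_bas

theorem hg4_fin : Module.Finite ℤ ZI := Module.Finite.of_basis hg4_bas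

theorem hg4_algNorm (q : ZI) : Algebra.norm ℤ q = q.norm := by
  rw [Algebra.norm_eq_matrix_det hg4_bas, Matrix.det_fin_two]
  have h : ∀ i j, Algebra.leftMulMatrix hg4_bas q i j = hg4_eqv (q * hg4_bas j) i := by
    intro i j
    rw [Algebra.leftMulMatrix_eq_repr_mul]
    rfl
  have hb0 : hg4_bas 0 = (⟨1, 0⟩ : ZI) := by
    apply hg4_eqv.injective
    rw [hg4_bas, Module.Basis.coe_ofEquivFun]
    ext i
    fin_cases i <;> simp [hg4_eqv]
  have hb1 : hg4_bas 1 = (⟨0, 1⟩ : ZI) := by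
    apply hg4_eqv.injective
    rw [hg4_bas, Module.Basis.coe_ofEquivFun]
    ext i
    fin_cases i <;> simp [hg4_eqv]
  rw [h, h, h, h, hb0, hb1]
  simp only [hg4_eqv, LinearEquiv.coe_mk, Zsqrtd.norm]
  simp

theorem hg4_card (q : ZI) : Nat.card (RQ q) = nrm q := by
  have := hg4_free
  have := hg4_fin
  have h1 := Ideal.absNorm_span_singleton q
  rw [hg4_algNorm] at h1
  rw [nrm, ← h1, Ideal.absNorm_apply, Submodule.cardQuot_apply]

theorem hg4_eq_add (q x y : ZI) : eq_ q (x + y) = eq_ q x * eq_ q y := by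
  unfold eq_
  rw [tc_add, add_div, Complex.add_re, ← Complex.exp_add]
  congr 1
  push_cast
  ring

theorem hg4_eq_norm (q x : ZI) : ‖eq_ q x‖ = 1 := by
  unfold eq_
  rw [Complex.norm_exp]
  simp

theorem hg4_eq_one {q x : ZI} (h : eq_ q x = 1) : ∃ k : ℤ, (tc x / tc q).re = k := by
  unfold eq_ at h
  rw [Complex.exp_eq_one_iff] at h
  obtain ⟨k, hk⟩ := h
  refine ⟨k, ?_⟩
  have h2 : (2 * (Real.pi : ℂ) * I) ≠ 0 := by
    simp [Real.pi_ne_zero]
  have h3 : (((tc x / tc q).re : ℝ) : ℂ) = (k : ℂ) := by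
    apply mul_left_cancel₀ h2
    rw [hk]; ring
  exact_mod_cast h3

/-- the pairing is non-degenerate -/
theorem hg4_nondeg {q : ZI} (hq : q ≠ 0) {y : ZI} (h : ∀ n : ZI, eq_ q (n * y) = 1) : q ∣ y := by
  obtain ⟨k, hk⟩ := hg4_eq_one (h 1)
  obtain ⟨l, hl⟩ := hg4_eq_one (h ⟨0, 1⟩)
  rw [one_mul] at hk
  have h1 : tc ((⟨0, 1⟩ : ZI) * y) / tc q = I * (tc y / tc q) := by
    rw [tc_mul]
    have : tc (⟨0, 1⟩ : ZI) = I := by simp [tc]
    rw [this]; ring
  rw [h1, Complex.I_mul_re] at hl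
  refine ⟨⟨k, -l⟩, ?_⟩
  have h2 : tc y = tc (q * ⟨k, -l⟩) := by
    rw [tc_mul]
    have h3 : tc (⟨k, -l⟩ : ZI) = tc y / tc q := by
      apply Complex.ext
      · rw [tc_re, hk]
      · rw [tc_im]
        push_cast
        linarith
    rw [h3]
    field_simp [tc_ne hq]
  have h4 : tc (y - q * ⟨k, -l⟩) = 0 := by
    rw [sub_eq_add_neg, tc_add, h2]
    have : tc (-(q * (⟨k, -l⟩ : ZI))) = - tc (q * ⟨k, -l⟩) := by
      simp only [tc, Zsqrtd.re_neg, Zsqrtd.im_neg]
      push_cast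
      ring
    rw [this]; ring
  by_contra hne
  exact tc_ne (sub_ne_zero.2 hne) h4

/-- the additive character on the residue ring -/
noncomputable def hg4_E (q : ZI) (x : RQ q) : ℂ := eq_ q (Quotient.out x)

theorem hg4_E_mk (q : ZI) (hq : q ≠ 0) (y : ZI) :
    hg4_E q (Ideal.Quotient.mk (Ideal.span {q}) y) = eq_ q y := by
  unfold hg4_E
  apply eq_per q hq
  rw [← mk_eq]
  exact mk_rp q y

theorem hg4_E_add (q : ZI) (hq : q ≠ 0) (x y : RQ q) :
    hg4_E q (x + y) = hg4_E q x * hg4_E q y := by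
  obtain ⟨a, rfl⟩ := Ideal.Quotient.mk_surjective x
  obtain ⟨b, rfl⟩ := Ideal.Quotient.mk_surjective y
  rw [← map_add, hg4_E_mk q hq, hg4_E_mk q hq, hg4_E_mk q hq, hg4_eq_add]

theorem hg4_E_orth (q : ZI) (hq : q ≠ 0) [Fintype (RQ q)] [DecidableEq (RQ q)] (x : RQ q) :
    ∑ a : RQ q, hg4_E q (a * x) = if x = 0 then (Fintype.card (RQ q) : ℂ) else 0 := by
  split_ifs with hx
  · have h1 : ∀ a : RQ q, hg4_E q (a * x) = 1 := by
      intro a
      rw [hx, mul_zero]
      have h2 := hg4_E_mk q hq 0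
      rw [map_zero] at h2
      rw [h2]
      unfold eq_
      simp [tc]
    simp only [h1]
    simp
  · have h1 : ∃ a : RQ q, hg4_E q (a * x) ≠ 1 := by
      by_contra hcon
      push Not at hcon
      apply hx
      obtain ⟨y, rfl⟩ := Ideal.Quotient.mk_surjective x
      rw [Ideal.Quotient.eq_zero_iff_mem, Ideal.mem_span_singleton]
      apply hg4_nondeg hq
      intro n
      have h2 := hcon (Ideal.Quotient.mk (Ideal.span {q}) n)
      rw [← map_mul, hg4_E_mk q hq] at h2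
      exact h2
    obtain ⟨a, ha⟩ := h1
    have h2 : ∑ c : RQ q, hg4_E q ((a + c) * x) = ∑ c : RQ q, hg4_E q (c * x) :=
      Fintype.sum_equiv (Equiv.addLeft a) _ _ (fun c => rfl)
    have h3 : ∑ c : RQ q, hg4_E q ((a + c) * x) =
        hg4_E q (a * x) * ∑ c : RQ q, hg4_E q (c * x) := by
      rw [Finset.mul_sum]
      refine Finset.sum_congr rfl (fun c _ => ?_)
      rw [add_mul, hg4_E_add q hq]
    rw [h2] at h3
    by_contra hne
    apply ha
    have h4 : (hg4_E q (a * x) - 1) * ∑ c : RQ q, hg4_E q (c * x) = 0 := by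
      linear_combination -h3
    rcases mul_eq_zero.1 h4 with h5 | h5
    · linear_combination h5
    · exact absurd h5 hne

/-- the Fourier transform of a character of large conductor vanishes at the elements which have a
large common divisor with the modulus -/
theorem hg4_van (q : ZI) (hq : q ≠ 0) [Fintype (RQ q)] (K : ℕ) (χ : MulChar (RQ q) ℂ)
    (hχ : BigC K q χ) (a : ZI) (ha : ¬ GcdLe K q a) :
    ∑ x : RQ q, χ x * hg4_E q (-(Ideal.Quotient.mk (Ideal.span {q}) a * x)) = 0 := by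
  unfold GcdLe at ha
  push Not at ha
  obtain ⟨d, hdq, hda, hK⟩ := ha
  obtain ⟨d', hd'⟩ := hdq
  obtain ⟨a', ha'⟩ := hda
  have hmul : nrm q = nrm d * nrm d' := by
    unfold nrm
    rw [hd', Zsqrtd.norm_mul, Int.natAbs_mul]
  have hd'0 : d' ≠ 0 := by
    rintro rfl
    exact hq (by rw [hd', mul_zero])
  have hpos : 0 < nrm d' := by
    unfold nrm
    exact Int.natAbs_pos.2 (GaussianInt.norm_pos.2 hd'0).ne'
  obtain ⟨u, hu, ⟨e, he⟩, h1⟩ := hχ d' ⟨d, by rw [hd']; ring⟩ (by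
    rw [hmul]
    exact Nat.mul_lt_mul_of_pos_right hK hpos)
  have huu : IsUnit (Ideal.Quotient.mk (Ideal.span {q}) u) := he2_unit hu
  obtain ⟨v, hv⟩ := huu
  set F : RQ q → ℂ := fun x => χ x *
    hg4_E q (-(Ideal.Quotient.mk (Ideal.span {q}) a * x)) with hF
  have h2 : ∑ x : RQ q, F ((v : RQ q) * x) = ∑ x : RQ q, F x :=
    Fintype.sum_equiv (Units.mulLeft v) _ _ (fun c => rfl)
  have h3 : ∀ x : RQ q, F ((v : RQ q) * x) = χ (v : RQ q) * F x := by
    intro x
    simp only [hF]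
    rw [map_mul, mul_assoc]
    congr 2
    obtain ⟨y, rfl⟩ := Ideal.Quotient.mk_surjective x
    rw [hv, ← map_mul, ← map_mul, ← map_mul, ← map_neg, ← map_neg]
    congr 1
    rw [mk_eq]
    refine ⟨-(a' * e * y), ?_⟩
    rw [ha', hd']
    linear_combination (-(d * a' * y)) * he
  simp only [h3] at h2
  rw [← Finset.mul_sum] at h2
  have h4 : (χ (v : RQ q) - 1) * ∑ x : RQ q, F x = 0 := by linear_combination h2
  rcases mul_eq_zero.1 h4 with h5 | h5
  · exfalso
    apply h1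
    have h6 : chiZ q χ u = χ (v : RQ q) := by rw [hv]; rfl
    rw [h6]
    linear_combination h5
  · exact h5

open Classical in
/-- HG4: from fractions to characters, without Gauss sums -/
theorem bessel_q (q : ZI) (hq : q ≠ 0) (K : ℕ) (F : Finset ZI) (b : ZI → ℂ) :
    ((nrm q : ℝ) / phiQ q) * ∑ᶠ χ ∈ {χ : MulChar (RQ q) ℂ | BigC K q χ}, ‖SC F b q χ‖ ^ 2 ≤
      ∑ a ∈ (Rep q).filter (fun a => GcdLe K q a), ‖SZ F b (tc a / tc q)‖ ^ 2 := by
  have hfin := he1_finite hq
  have : Fintype (RQ q) := Fintype.ofFinite _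
  have : Fintype (MulChar (RQ q) ℂ) := Fintype.ofFinite _
  set B : Finset (MulChar (RQ q) ℂ) := Finset.univ.filter (fun χ => BigC K q χ) with hB
  have hsum : ∑ᶠ χ ∈ {χ : MulChar (RQ q) ℂ | BigC K q χ}, ‖SC F b q χ‖ ^ 2 =
      ∑ χ ∈ B, ‖SC F b q χ‖ ^ 2 := by
    have h1 : {χ : MulChar (RQ q) ℂ | BigC K q χ} = (B : Set (MulChar (RQ q) ℂ)) := by
      ext χ
      simp [hB]
    rw [h1, finsum_mem_coe_finset]
  rw [hsum]
  set S : Finset (RQ q) := Finset.univ.filter (fun x => GcdLe K q (Quotient.out x)) with hS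
  set g : RQ q → ℂ := fun x => ∑ n ∈ F.filter (fun n => Ideal.Quotient.mk (Ideal.span {q}) n = x),
    b n with hg
  have hgrp : ∀ f : RQ q → ℂ, ∑ x, g x * f x =
      ∑ n ∈ F, b n * f (Ideal.Quotient.mk (Ideal.span {q}) n) := by
    intro f
    rw [← Finset.sum_fiberwise F (fun n => Ideal.Quotient.mk (Ideal.span {q}) n)]
    refine Finset.sum_congr rfl (fun x _ => ?_)
    simp only [hg]
    rw [Finset.sum_mul]
    refine Finset.sum_congr rfl (fun n hn => ?_)
    rw [(Finset.mem_filter.1 hn).2]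
  have hmain := hg4_bessel (hg4_E q) (hg4_E_add q hq) (fun x => hg4_eq_norm q _)
    (hg4_E_orth q hq) B S g (by
      intro χ hχ a ha
      rw [hB, Finset.mem_filter] at hχ
      have h1 : ¬ GcdLe K q (Quotient.out a) := fun h => ha (by simp [hS, h])
      have h2 := hg4_van q hq K χ hχ.2 (Quotient.out a) h1
      have h3 : Ideal.Quotient.mk (Ideal.span {q}) (Quotient.out a) = a := Quotient.out_eq a
      rw [h3] at h2
      exact h2)
  have e1 : ∀ χ : MulChar (RQ q) ℂ, ∑ x, g x * χ x = SC F b q χ := by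
    intro χ
    rw [hgrp]
    rfl
  have e2' : ∀ a : ZI, ∑ x, g x * hg4_E q (Ideal.Quotient.mk (Ideal.span {q}) a * x) =
      SZ F b (tc a / tc q) := by
    intro a
    rw [hgrp]
    unfold SZ
    refine Finset.sum_congr rfl (fun n _ => ?_)
    rw [← map_mul, hg4_E_mk q hq]
    unfold eq_ e2
    rw [tc_mul]
    congr 5
    ring
  have e3 : ∑ a ∈ S, ‖∑ x, g x * hg4_E q (a * x)‖ ^ 2 =
      ∑ a ∈ (Rep q).filter (fun a => GcdLe K q a), ‖SZ F b (tc a / tc q)‖ ^ 2 := by
    refine Finset.sum_bij' (fun a _ => (Quotient.out a : ZI))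
      (fun a _ => Ideal.Quotient.mk (Ideal.span {q}) a) ?_ ?_ ?_ ?_ ?_
    · intro a ha
      rw [hS, Finset.mem_filter] at ha
      rw [Finset.mem_filter]
      refine ⟨?_, ha.2⟩
      have h1 : rp q (Quotient.out a) = Quotient.out a := by
        unfold rp
        congr 1
        exact Quotient.out_eq a
      rw [← h1]
      exact rp_mem q hq _
    · intro a ha
      rw [Finset.mem_filter] at ha
      rw [hS, Finset.mem_filter]
      refine ⟨Finset.mem_univ _, ?_⟩
      have h1 : Quotient.out (Ideal.Quotient.mk (Ideal.span {q}) a) = a := (mem_Rep ha.1).symm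
      rw [h1]
      exact ha.2
    · intro a _
      exact Quotient.out_eq a
    · intro a ha
      rw [Finset.mem_filter] at ha
      exact (mem_Rep ha.1).symm
    · intro a _
      have h1 := e2' (Quotient.out a)
      have h3 : Ideal.Quotient.mk (Ideal.span {q}) (Quotient.out a) = a := Quotient.out_eq a
      rw [h3] at h1
      rw [h1]
  rw [e3] at hmain
  simp only [e1] at hmain
  have hc : (Fintype.card (RQ q) : ℝ) = nrm q := by
    rw [← hg4_card q, Nat.card_eq_fintype_card]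
  rw [hc] at hmain
  exact hmain

end H385
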