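import Pool.Agent.H385R6.HgDefs

/-!
Task HG6a (helper60): the density of the units modulo `q` is monotone in `q`.
-/

open Complex Filter Topology Set MeasureTheory

namespace H385

open Pool.Agent.H304R3.HK (tc HC CS bb LamK psi bH aH LH Rep)

private noncomputable def HG6a_equiv : ZI ≃ₗ[ℤ] (Fin 2 → ℤ) where
  toFun z := ![z.re, z.im]
  map_add' x y := by
    ext i; fin_cases i <;> simp
  map_smul' c x := by
    ext i; fin_cases i <;> simp
  invFun v := ⟨v 0, v 1⟩
  left_inv z := by ext <;> simp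
  right_inv v := by ext i; fin_cases i <;> simp

private noncomputable def HG6a_basis : Module.Basis (Fin 2) ℤ ZI := Module.Basis.ofEquivFun HG6a_equiv

private theorem HG6a_norm (q : ZI) : Algebra.norm ℤ q = q.norm := by
  rw [Algebra.norm_eq_matrix_det HG6a_basis, Matrix.det_fin_two]
  have h0 : HG6a_basis 0 = (⟨1, 0⟩ : ZI) := by
    simp [HG6a_basis, HG6a_equiv]
  have h1 : HG6a_basis 1 = (⟨0, 1⟩ : ZI) := by
    simp [HG6a_basis, HG6a_equiv]
  simp only [Algebra.leftMulMatrix_eq_repr_mul, h0, h1]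
  simp [HG6a_basis, HG6a_equiv, Zsqrtd.norm]

theorem HG6a_card (q : ZI) : Nat.card (RQ q) = nrm q := by
  have : Module.Free ℤ ZI := Module.Free.of_basis HG6a_basis
  have : Module.Finite ℤ ZI := Module.Finite.of_basis HG6a_basis
  have h := Ideal.absNorm_span_singleton q
  rw [HG6a_norm] at h
  rw [← show q.norm.natAbs = nrm q from rfl, ← h, Ideal.absNorm_apply, Submodule.cardQuot_apply]

theorem HG6a_nrm_pos {q : ZI} (hq : q ≠ 0) : 0 < nrm q := by
  unfold nrm
  rw [Int.natAbs_pos]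
  exact (GaussianInt.norm_pos.2 hq).ne'

theorem HG6a_finite {q : ZI} (hq : q ≠ 0) : Finite (RQ q) := by
  apply Nat.finite_of_card_ne_zero
  rw [HG6a_card q]
  exact (HG6a_nrm_pos hq).ne'

theorem HG6a_mono {d q : ZI} (hd : d ∣ q) (hq : q ≠ 0) : phiQ q * nrm d ≤ phiQ d * nrm q := by
  have hd0 : d ≠ 0 := fun h => hq (by rw [h, zero_dvd_iff] at hd; exact hd)
  have hfq := HG6a_finite hq
  have hfd := HG6a_finite hd0
  have hle : Ideal.span {q} ≤ Ideal.span {d} := by
    rw [Ideal.span_singleton_le_span_singleton]; exact hd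
  let π : RQ q →+* RQ d := Ideal.Quotient.factor hle
  have hπ : Function.Surjective π := Ideal.Quotient.factor_surjective hle
  let s : RQ d → RQ q := Function.surjInv hπ
  have hs : ∀ y, π (s y) = y := Function.surjInv_eq hπ
  rw [← HG6a_card d, ← HG6a_card q, phiQ, phiQ, ← Nat.card_prod, ← Nat.card_prod]
  refine Nat.card_le_card_of_injective (fun x : (RQ q)ˣ × RQ d =>
    ((Units.map (π : RQ q →* RQ d) x.1, (x.1 : RQ q) - s (π x.1) + s x.2) : (RQ d)ˣ × RQ q)) ?_
  rintro ⟨u, y⟩ ⟨u', y'⟩ h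
  have h1 : Units.map (π : RQ q →* RQ d) u = Units.map (π : RQ q →* RQ d) u' := congrArg Prod.fst h
  have h2 : (u : RQ q) - s (π u) + s y = (u' : RQ q) - s (π u') + s y' := congrArg Prod.snd h
  have h3 : π u = π u' := congrArg (Units.val) h1
  have h4 : y = y' := by
    have := congrArg π h2
    simpa [map_add, map_sub, hs] using this
  subst h4
  rw [h3] at h2
  have h5 : (u : RQ q) = u' := by
    have := add_right_cancel h2
    exact sub_left_injective this
  rw [Units.ext h5]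

theorem HG6a_mono' {d q : ZI} (hd : d ∣ q) (hq : q ≠ 0) : phq q ≤ phq d := by
  have hd0 : d ≠ 0 := fun h => hq (by rw [h, zero_dvd_iff] at hd; exact hd)
  have h1 : (0 : ℝ) < nrm q := by exact_mod_cast HG6a_nrm_pos hq
  have h2 : (0 : ℝ) < nrm d := by exact_mod_cast HG6a_nrm_pos hd0
  unfold phq
  rw [div_le_div_iff₀ h1 h2]
  exact_mod_cast HG6a_mono hd hq

theorem HG6a_pos {q : ZI} (hq : q ≠ 0) : 0 < phq q := by
  have h1 : (0 : ℝ) < nrm q := by exact_mod_cast HG6a_nrm_pos hq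
  have hfq := HG6a_finite hq
  have h2 : 0 < phiQ q := Nat.card_pos
  have h3 : (0 : ℝ) < phiQ q := by exact_mod_cast h2
  unfold phq
  positivity

theorem HG6a_le_one {q : ZI} (hq : q ≠ 0) : phq q ≤ 1 := by
  have h1 : (0 : ℝ) < nrm q := by exact_mod_cast HG6a_nrm_pos hq
  have hfq := HG6a_finite hq
  unfold phq
  rw [div_le_one h1]
  have h2 : phiQ q ≤ nrm q := by
    rw [← HG6a_card q, phiQ]
    exact Nat.card_le_card_of_injective (fun u : (RQ q)ˣ => (u : RQ q)) Units.val_injective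
  exact_mod_cast h2

/-- HG6a: `φ(q)/N(q) ≤ gP P q` and the difference is small on average -/
theorem phq_gP (P q : ZI) (hP : P ≠ 0) (hq : q ≠ 0) : 0 ≤ gP P q ∧ gP P q ≤ 1 ∧
    phq q ≤ gP P q ∧ 0 < phq q ∧ phq q ≤ 1 := by
  have hg : EuclideanDomain.gcd q P ≠ 0 := fun h => hq (EuclideanDomain.gcd_eq_zero_iff.1 h).1
  exact ⟨(HG6a_pos hg).le, HG6a_le_one hg, HG6a_mono' (EuclideanDomain.gcd_dvd_left q P) hq,
    HG6a_pos hq, HG6a_le_one hq⟩

end H385
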