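import Pool.Agent.H385R6.HgDefs
import Pool.Agent.H385R6.HG4
import Pool.Agent.H385R6.HG6a
import Pool.Agent.H385R5.HE9

/-!
TEAM Q3, project HG (helper385): task HG5b, regrouping by primitive characters.
-/

open Complex Filter Topology Set MeasureTheory

namespace H385

open Pool.Agent.H304R3.HK (tc HC CS bb LamK psi bH aH LH Rep)

theorem hg5b_mem_BX {N : ℕ} {a : ZI} : a ∈ BX N ↔ 1 ≤ nrm a ∧ nrm a ≤ N := by
  have hn : a.norm = a.re ^ 2 + a.im ^ 2 := by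
    rw [Zsqrtd.norm_def]; ring
  have hnn : 0 ≤ a.norm := by rw [hn]; positivity
  have hc : ((nrm a : ℕ) : ℤ) = a.re ^ 2 + a.im ^ 2 := by
    unfold nrm
    rw [Int.natAbs_of_nonneg hnn, hn]
  unfold BX
  rw [Finset.mem_image]
  constructor
  · rintro ⟨p, hp, rfl⟩
    rw [Finset.mem_filter] at hp
    obtain ⟨-, h1, h2⟩ := hp
    simp only at hc
    constructor
    · zify; rw [hc]; exact h1
    · zify; rw [hc]; exact h2
  · rintro ⟨h1, h2⟩
    zify at h1 h2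
    rw [hc] at h1 h2
    refine ⟨(a.re, a.im), ?_, rfl⟩
    rw [Finset.mem_filter, Finset.mem_product, Finset.mem_Icc, Finset.mem_Icc]
    refine ⟨⟨⟨?_, ?_⟩, ⟨?_, ?_⟩⟩, h1, h2⟩
    · nlinarith [sq_nonneg a.im, sq_nonneg (a.re + N)]
    · nlinarith [sq_nonneg a.im, sq_nonneg (a.re - N)]
    · nlinarith [sq_nonneg a.re, sq_nonneg (a.im + N)]
    · nlinarith [sq_nonneg a.re, sq_nonneg (a.im - N)]

theorem hg5b_BX_ne {N : ℕ} {a : ZI} (h : a ∈ BX N) : a ≠ 0 := by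
  rintro rfl
  have := (hg5b_mem_BX.1 h).1
  simp [nrm] at this

theorem hg5b_nrm_mul (a b : ZI) : nrm (a * b) = nrm a * nrm b := by
  unfold nrm
  rw [Zsqrtd.norm_mul, Int.natAbs_mul]

theorem hg5b_BX_one : (BX 1).card ≤ 4 := by
  decide

theorem hg5b_crt {q m d v : ZI} (hq : q ≠ 0) (hv : IsCoprime v m)
    (h : EuclideanDomain.gcd m d ∣ v - 1) : ∃ u : ZI, m ∣ u - v ∧ d ∣ u - 1 ∧ IsCoprime u q := by
  obtain ⟨w, hw⟩ := h
  rw [EuclideanDomain.gcd_eq_gcd_ab m d] at hw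
  generalize EuclideanDomain.gcdA m d = α at hw
  generalize EuclideanDomain.gcdB m d = β at hw
  have e1 : v - m * α * w = 1 + d * β * w := by linear_combination hw
  have c1 : IsCoprime (v - m * α * w) m := he9_cop ⟨-(α * w), by ring⟩ hv
  have c2 : IsCoprime (v - m * α * w) d := by
    rw [e1]
    exact he9_cop ⟨β * w, by ring⟩ isCoprime_one_left
  obtain ⟨u, ⟨c, hc⟩, hu2⟩ := he9_lift q (m * d) (v - m * α * w) hq (IsCoprime.mul_right c1 c2)
  refine ⟨u, ⟨d * c - α * w, ?_⟩, ⟨m * c + β * w, ?_⟩, hu2⟩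
  · linear_combination hc
  · linear_combination hc + e1

theorem hg5b_zero {q x : ZI} (χ : MulChar (RQ q) ℂ) (hx : ¬ IsCoprime x q) : chiZ q χ x = 0 := by
  have h : ¬ IsUnit ((Ideal.Quotient.mk (Ideal.span {q})) x) := by
    intro h
    apply hx
    obtain ⟨y, hy⟩ := h.exists_right_inv
    obtain ⟨z, rfl⟩ := Ideal.Quotient.mk_surjective y
    rw [← map_mul, ← map_one (Ideal.Quotient.mk (Ideal.span {q})), Ideal.Quotient.eq,
      Ideal.mem_span_singleton] at hy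
    obtain ⟨c, hc⟩ := hy
    exact ⟨z, -c, by linear_combination hc⟩
  exact χ.map_nonunit h

theorem hg5b_ext {q : ZI} (χ χ' : MulChar (RQ q) ℂ)
    (h : ∀ x, IsCoprime x q → chiZ q χ x = chiZ q χ' x) : χ = χ' := by
  refine MulChar.ext fun a => ?_
  obtain ⟨x, hx⟩ := Ideal.Quotient.mk_surjective (a : RQ q)
  have hc : IsCoprime x q := by
    by_contra hc
    have h1 : IsUnit ((Ideal.Quotient.mk (Ideal.span {q})) x) := by
      rw [hx]; exact a.isUnit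
    obtain ⟨y, hy⟩ := h1.exists_right_inv
    obtain ⟨z, rfl⟩ := Ideal.Quotient.mk_surjective y
    rw [← map_mul, ← map_one (Ideal.Quotient.mk (Ideal.span {q})), Ideal.Quotient.eq,
      Ideal.mem_span_singleton] at hy
    obtain ⟨c, hc'⟩ := hy
    exact hc ⟨z, -c, by linear_combination hc'⟩
  have h2 : χ ((Ideal.Quotient.mk (Ideal.span {q})) x) =
    χ' ((Ideal.Quotient.mk (Ideal.span {q})) x) := h x hc
  rw [hx] at h2
  exact h2

theorem hg5b_le (m k : ZI) : Ideal.span {m * k} ≤ Ideal.span {m} :=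
  Ideal.span_singleton_le_span_singleton.2 (Dvd.intro k rfl)

/-- the induced character -/
noncomputable def hg5b_ind (m k : ZI) (ψ : MulChar (RQ m) ℂ) : MulChar (RQ (m * k)) ℂ :=
  MulChar.ofUnitHom (ψ.toUnitHom.comp (Units.map
    (Ideal.Quotient.factor (hg5b_le m k)).toMonoidHom))

theorem hg5b_ind_eq (m k : ZI) (ψ : MulChar (RQ m) ℂ) {x : ZI} (hx : IsCoprime x (m * k)) :
    chiZ (m * k) (hg5b_ind m k ψ) x = chiZ m ψ x := by
  obtain ⟨u, hu⟩ := he9_unit (m * k) x hx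
  show (hg5b_ind m k ψ) ((Ideal.Quotient.mk (Ideal.span {m * k})) x) =
    ψ ((Ideal.Quotient.mk (Ideal.span {m})) x)
  rw [← hu, hg5b_ind, MulChar.ofUnitHom_coe]
  show ((ψ.toUnitHom (Units.map (Ideal.Quotient.factor (hg5b_le m k)).toMonoidHom u) : ℂˣ) : ℂ) = _
  rw [MulChar.coe_toUnitHom, Units.coe_map]
  show ψ ((Ideal.Quotient.factor (hg5b_le m k)) (u : RQ (m * k))) = _
  rw [hu, Ideal.Quotient.factor_mk]

theorem hg5b_bigC {K : ℕ} {m k : ZI} (hm : m ≠ 0) (hk : k ≠ 0) (hkK : nrm k ≤ K)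
    (ψ : MulChar (RQ m) ℂ) (hψ : PrimC m ψ) : BigC K (m * k) (hg5b_ind m k ψ) := by
  intro d hd hdK
  have hmk : m * k ≠ 0 := mul_ne_zero hm hk
  have hd0 : d ≠ 0 := fun h => hmk (by rw [h] at hd; exact zero_dvd_iff.1 hd)
  have hlt : nrm d < nrm m := by
    rw [hg5b_nrm_mul] at hdK
    by_contra hcon
    push Not at hcon
    have h1 : nrm m * nrm k ≤ K * nrm d := by
      calc nrm m * nrm k ≤ nrm d * K := Nat.mul_le_mul hcon hkK
        _ = K * nrm d := Nat.mul_comm _ _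
    omega
  have hg : ¬ m ∣ EuclideanDomain.gcd m d := by
    intro h
    have h1 := he3_nrm (h.trans (EuclideanDomain.gcd_dvd_right m d)) hd0
    omega
  obtain ⟨v, hv1, hv2, hv3⟩ := hψ _ (EuclideanDomain.gcd_dvd_left m d) hg
  obtain ⟨u, hu1, hu2, hu3⟩ := hg5b_crt hmk hv1 hv2
  refine ⟨u, hu3, hu2, ?_⟩
  rw [hg5b_ind_eq m k ψ hu3, he9_per m ψ u v hu1]
  exact hv3

theorem hg5b_SC {P : ZI} {K : ℕ} (hS : Smo P K) {F : Finset ZI} {b : ZI → ℂ}
    (hb : ∀ n, ¬ IsCoprime n P → b n = 0) {m k : ZI} (hk : k ≠ 0) (hkK : nrm k ≤ K)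
    (ψ : MulChar (RQ m) ℂ) : SC F b (m * k) (hg5b_ind m k ψ) = SC F b m ψ := by
  unfold SC
  refine Finset.sum_congr rfl fun n _ => ?_
  by_cases hn : IsCoprime n P
  · have h1 := hS k hk hkK n hn
    by_cases h2 : IsCoprime n m
    · rw [hg5b_ind_eq m k ψ (h2.mul_right h1)]
    · rw [hg5b_zero ψ h2, hg5b_zero (hg5b_ind m k ψ) (fun h => h2 h.of_mul_right_left)]
  · rw [hb n hn, zero_mul, zero_mul]

/-- the conductors of two primitive characters inducing the same character divide each other -/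
theorem hg5b_dvd {q m m' : ZI} (hq : q ≠ 0) (ψ : MulChar (RQ m) ℂ) (ψ' : MulChar (RQ m') ℂ)
    (hψ : PrimC m ψ) (h : ∀ x, IsCoprime x q → chiZ m ψ x = chiZ m' ψ' x) : m ∣ m' := by
  by_contra hcon
  have hg : ¬ m ∣ EuclideanDomain.gcd m m' := fun h1 =>
    hcon (h1.trans (EuclideanDomain.gcd_dvd_right m m'))
  obtain ⟨v, hv1, hv2, hv3⟩ := hψ _ (EuclideanDomain.gcd_dvd_left m m') hg
  obtain ⟨u, hu1, hu2, hu3⟩ := hg5b_crt hq hv1 hv2
  apply hv3
  rw [← he9_per m ψ u v hu1, h u hu3, he9_per m' ψ' u 1 hu2, map_one]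

open Classical in
/-- finite set of characters with a property -/
noncomputable def hg5b_fs (q : ZI) (p : MulChar (RQ q) ℂ → Prop) : Finset (MulChar (RQ q) ℂ) :=
  if h : {χ | p χ}.Finite then h.toFinset else ∅

theorem hg5b_fin {q : ZI} (hq : q ≠ 0) (p : MulChar (RQ q) ℂ → Prop) : {χ | p χ}.Finite := by
  have := (fq_finite q hq).1
  exact Set.toFinite _

theorem hg5b_mem {q : ZI} (hq : q ≠ 0) (p : MulChar (RQ q) ℂ → Prop) (χ : MulChar (RQ q) ℂ) :
    χ ∈ hg5b_fs q p ↔ p χ := by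
  unfold hg5b_fs
  rw [dif_pos (hg5b_fin hq p), Set.Finite.mem_toFinset]
  rfl

theorem hg5b_sum {q : ZI} (hq : q ≠ 0) (p : MulChar (RQ q) ℂ → Prop)
    (f : MulChar (RQ q) ℂ → ℝ) : ∑ᶠ χ ∈ {χ | p χ}, f χ = ∑ χ ∈ hg5b_fs q p, f χ := by
  rw [finsum_mem_eq_finite_toFinset_sum f (hg5b_fin hq p)]
  unfold hg5b_fs
  rw [dif_pos (hg5b_fin hq p)]

open Classical in
/-- the counting argument -/
theorem hg5b_count (K X Y : ℕ) (f : (q : ZI) → MulChar (RQ q) ℂ → ℝ)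
    (hf : ∀ q χ, 0 ≤ f q χ)
    (hind : ∀ (m k : ZI) (ψ : MulChar (RQ m) ℂ), k ≠ 0 → nrm k ≤ K →
      f (m * k) (hg5b_ind m k ψ) = f m ψ) :
    kapK K * famZ X Y f ≤
    ∑ q ∈ (BX (K * Y)).filter (fun q => X < nrm q), (1 / (nrm q : ℝ) ^ 2) *
      ∑ χ ∈ hg5b_fs q (BigC K q), f q χ := by
  set T : Finset (((q : ZI) × MulChar (RQ q) ℂ) × ZI) :=
    (((BX Y).filter (fun q => X < nrm q)).sigma (fun q => hg5b_fs q (PrimC q))) ×ˢ BX K with hT
  set U : Finset ((q : ZI) × MulChar (RQ q) ℂ) :=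
    ((BX (K * Y)).filter (fun q => X < nrm q)).sigma (fun q => hg5b_fs q (BigC K q)) with hU
  set g : (((q : ZI) × MulChar (RQ q) ℂ) × ZI) → ((q : ZI) × MulChar (RQ q) ℂ) :=
    fun t => ⟨t.1.1 * t.2, hg5b_ind t.1.1 t.2 t.1.2⟩ with hg
  set h : ((q : ZI) × MulChar (RQ q) ℂ) → ℝ := fun u => (1 / (nrm u.1 : ℝ) ^ 2) * f u.1 u.2 with hh
  have hT' : ∀ t ∈ T, t.1.1 ≠ 0 ∧ nrm t.1.1 ≤ Y ∧ X < nrm t.1.1 ∧ PrimC t.1.1 t.1.2 ∧ t.2 ≠ 0 ∧
      nrm t.2 ≤ K := by
    intro t ht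
    rw [hT, Finset.mem_product, Finset.mem_sigma, Finset.mem_filter] at ht
    obtain ⟨⟨⟨h1, h2⟩, h3⟩, h4⟩ := ht
    have h5 := hg5b_BX_ne h1
    exact ⟨h5, (hg5b_mem_BX.1 h1).2, h2, (hg5b_mem h5 _ _).1 h3, hg5b_BX_ne h4,
      (hg5b_mem_BX.1 h4).2⟩
  have hmaps : ∀ t ∈ T, g t ∈ U := by
    intro t ht
    obtain ⟨h1, h2, h3, h4, h5, h6⟩ := hT' t ht
    have h7 : 1 ≤ nrm t.2 := by
      by_contra hcon
      apply h5
      have : nrm t.2 = 0 := by omega
      unfold nrm at this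
      exact GaussianInt.norm_eq_zero.1 (Int.natAbs_eq_zero.1 this)
    rw [hU, Finset.mem_sigma, Finset.mem_filter, hg5b_mem_BX]
    show ((1 ≤ nrm (t.1.1 * t.2) ∧ nrm (t.1.1 * t.2) ≤ K * Y) ∧ X < nrm (t.1.1 * t.2)) ∧
      hg5b_ind t.1.1 t.2 t.1.2 ∈ hg5b_fs (t.1.1 * t.2) (BigC K (t.1.1 * t.2))
    refine ⟨⟨⟨?_, ?_⟩, ?_⟩, (hg5b_mem (mul_ne_zero h1 h5) _ _).2 (hg5b_bigC h1 h5 h6 _ h4)⟩
    · rw [hg5b_nrm_mul]
      have : 1 ≤ nrm t.1.1 := by omega
      exact Nat.mul_pos this h7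
    · rw [hg5b_nrm_mul, Nat.mul_comm K Y]
      exact Nat.mul_le_mul h2 h6
    · rw [hg5b_nrm_mul]
      exact lt_of_lt_of_le h3 (Nat.le_mul_of_pos_right _ h7)
  have hLHS : kapK K * famZ X Y f = (1 / 4 : ℝ) * ∑ t ∈ T, h (g t) := by
    unfold kapK famZ
    rw [hT, Finset.sum_product, Finset.sum_sigma, mul_assoc]
    congr 1
    rw [Finset.mul_sum]
    refine Finset.sum_congr rfl fun q hq => ?_
    have hq1 := hg5b_BX_ne (Finset.mem_filter.1 hq).1
    rw [hg5b_sum hq1, Finset.mul_sum, Finset.mul_sum]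
    refine Finset.sum_congr rfl fun χ hχ => ?_
    rw [Finset.sum_mul]
    refine Finset.sum_congr rfl fun k hk => ?_
    show 1 / (nrm k : ℝ) ^ 2 * (1 / (nrm q : ℝ) ^ 2 * f q χ) =
      (1 / (nrm (q * k) : ℝ) ^ 2) * f (q * k) (hg5b_ind q k χ)
    rw [hind q k χ (hg5b_BX_ne hk) (hg5b_mem_BX.1 hk).2, hg5b_nrm_mul]
    push_cast
    rw [mul_pow, one_div, one_div, one_div, mul_inv]
    ring
  have hfib : ∀ u ∈ U, ((T.filter (fun t => g t = u)).card : ℝ) ≤ 4 := by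
    intro u _
    rcases (T.filter (fun t => g t = u)).eq_empty_or_nonempty with he | ⟨t0, ht0⟩
    · rw [he]
      simp
    rw [Finset.mem_filter] at ht0
    obtain ⟨ht0, hu0⟩ := ht0
    obtain ⟨a1, a2, a3, a4, a5, a6⟩ := hT' t0 ht0
    -- equality of the induced characters
    have heq : ∀ t ∈ T, g t = u → t.1.1 * t.2 = t0.1.1 * t0.2 ∧
        ∀ x, IsCoprime x (t0.1.1 * t0.2) → chiZ t.1.1 t.1.2 x = chiZ t0.1.1 t0.1.2 x := by
      intro t _ hu
      have h1 : g t = g t0 := hu.trans hu0.symm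
      have h2 : t.1.1 * t.2 = t0.1.1 * t0.2 := congrArg Sigma.fst h1
      refine ⟨h2, fun x hx => ?_⟩
      have h3 : chiZ (g t).1 (g t).2 x = chiZ (g t0).1 (g t0).2 x := by rw [h1]
      have h4 : chiZ (t.1.1 * t.2) (hg5b_ind t.1.1 t.2 t.1.2) x =
        chiZ (t0.1.1 * t0.2) (hg5b_ind t0.1.1 t0.2 t0.1.2) x := h3
      rwa [hg5b_ind_eq _ _ _ hx, hg5b_ind_eq _ _ _ (by rw [h2]; exact hx)] at h4
    have hcard : (T.filter (fun t => g t = u)).card ≤ ((BX 1).image (fun w => t0.1.1 * w)).card := by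
      refine Finset.card_le_card_of_injOn (fun t => t.1.1) ?_ ?_
      · intro t ht
        rw [Finset.mem_coe, Finset.mem_filter] at ht
        obtain ⟨ht, hu⟩ := ht
        obtain ⟨b1, b2, b3, b4, b5, b6⟩ := hT' t ht
        obtain ⟨h1, h2⟩ := heq t ht hu
        have h3 : t0.1.1 ∣ t.1.1 := hg5b_dvd (mul_ne_zero a1 a5) t0.1.2 t.1.2 a4
          (fun x hx => (h2 x hx).symm)
        have h4 : t.1.1 ∣ t0.1.1 := hg5b_dvd (mul_ne_zero a1 a5) t.1.2 t0.1.2 b4 h2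
        obtain ⟨w, hw⟩ := h3
        rw [Finset.mem_coe, Finset.mem_image]
        refine ⟨w, ?_, hw.symm⟩
        rw [hg5b_mem_BX]
        have h5 := he3_nrm h4 a1
        rw [hw, hg5b_nrm_mul] at h5
        have h6 : 0 < nrm t0.1.1 := by omega
        have h7 : nrm w ≤ 1 := by
          by_contra hcon
          push Not at hcon
          have : nrm t0.1.1 * 2 ≤ nrm t0.1.1 * nrm w := Nat.mul_le_mul_left _ hcon
          omega
        have h8 : nrm w ≠ 0 := by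
          intro h8
          have : w = 0 := by
            unfold nrm at h8
            exact GaussianInt.norm_eq_zero.1 (Int.natAbs_eq_zero.1 h8)
          rw [this, mul_zero] at hw
          exact b1 hw
        omega
      · intro t ht t' ht' htt
        rw [Finset.mem_coe, Finset.mem_filter] at ht ht'
        obtain ⟨ht, hu⟩ := ht
        obtain ⟨ht', hu'⟩ := ht'
        obtain ⟨b1, b2, b3, b4, b5, b6⟩ := hT' t ht
        obtain ⟨h1, h2⟩ := heq t ht hu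
        obtain ⟨h1', h2'⟩ := heq t' ht' hu'
        obtain ⟨⟨m, ψ⟩, k⟩ := t
        obtain ⟨⟨m', ψ'⟩, k'⟩ := t'
        simp only at htt h1 h1' h2 h2' b1
        subst htt
        have hk : k = k' := mul_left_cancel₀ b1 (h1.trans h1'.symm)
        subst hk
        have hψ : ψ = ψ' := by
          refine hg5b_ext ψ ψ' fun x hx => ?_
          obtain ⟨y, hy1, hy2⟩ := he9_lift (t0.1.1 * t0.2) m x (mul_ne_zero a1 a5) hx
          rw [← he9_per m ψ y x hy1, ← he9_per m ψ' y x hy1, h2 y hy2, h2' y hy2]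
        rw [hψ]
    have h4 : ((BX 1).image (fun w => t0.1.1 * w)).card ≤ 4 :=
      Finset.card_image_le.trans hg5b_BX_one
    exact_mod_cast hcard.trans h4
  have hsum : ∑ t ∈ T, h (g t) = ∑ u ∈ U, ((T.filter (fun t => g t = u)).card : ℝ) * h u := by
    rw [← Finset.sum_fiberwise_of_maps_to hmaps]
    refine Finset.sum_congr rfl fun u _ => ?_
    rw [Finset.sum_congr rfl (g := fun _ => h u) (fun t ht => by
      rw [(Finset.mem_filter.1 ht).2])]
    rw [Finset.sum_const, nsmul_eq_mul]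
  have hRHS : ∑ u ∈ U, h u = ∑ q ∈ (BX (K * Y)).filter (fun q => X < nrm q),
      (1 / (nrm q : ℝ) ^ 2) * ∑ χ ∈ hg5b_fs q (BigC K q), f q χ := by
    rw [hU, Finset.sum_sigma]
    refine Finset.sum_congr rfl fun q _ => ?_
    rw [Finset.mul_sum]
  rw [hLHS, hsum, ← hRHS, Finset.mul_sum]
  refine Finset.sum_le_sum fun u hu => ?_
  have h1 : 0 ≤ h u := mul_nonneg (by positivity) (hf _ _)
  have h2 := mul_le_mul_of_nonneg_right (hfib u hu) h1
  linarith

/-- HG5b: regrouping by primitive characters (from HG4) -/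
theorem regroup (P : ZI) (hP : P ≠ 0) (K : ℕ) (hK : 1 ≤ K) (hS : Smo P K) (X Y : ℕ)
    (F : Finset ZI) (b : ZI → ℂ) (hb : ∀ n, ¬ IsCoprime n P → b n = 0) :
    open Classical in
    kapK K * famZ X Y (fun q χ => ‖SC F b q χ‖ ^ 2) ≤
    ∑ q ∈ (BX (K * Y)).filter (fun q => X < nrm q), (gP P q / (nrm q : ℝ) ^ 2) *
      ∑ a ∈ (Rep q).filter (fun a => GcdLe K q a), ‖SZ F b (tc a / tc q)‖ ^ 2 := by
  classical
  refine le_trans (hg5b_count K X Y (fun q χ => ‖SC F b q χ‖ ^ 2) (fun _ _ => by positivity)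
    (fun m k ψ hk hkK => by rw [hg5b_SC hS hb hk hkK])) ?_
  refine Finset.sum_le_sum fun q hq => ?_
  have hq0 : q ≠ 0 := hg5b_BX_ne (Finset.mem_filter.1 hq).1
  have h1 := bessel_q q hq0 K F b
  obtain ⟨g0, -, g1, g2, -⟩ := phq_gP P q hP hq0
  have hn : (0 : ℝ) < nrm q := by
    have := (hg5b_mem_BX.1 (Finset.mem_filter.1 hq).1).1
    exact_mod_cast this
  have hphi : (0 : ℝ) < phiQ q := by exact_mod_cast (fq_finite q hq0).2.1
  rw [hg5b_sum hq0] at h1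
  set A : ℝ := ∑ χ ∈ hg5b_fs q (BigC K q), ‖SC F b q χ‖ ^ 2 with hA
  have hA0 : 0 ≤ A := Finset.sum_nonneg fun _ _ => by positivity
  calc (1 / (nrm q : ℝ) ^ 2) * A ≤ (gP P q / (nrm q : ℝ) ^ 2) * ((nrm q : ℝ) / phiQ q * A) := by
        have h3 : 1 ≤ gP P q * ((nrm q : ℝ) / phiQ q) := by
          have h4 : phq q * ((nrm q : ℝ) / phiQ q) = 1 := by
            unfold phq
            field_simp
          rw [← h4]
          exact mul_le_mul_of_nonneg_right g1 (by positivity)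
        have h5 : (gP P q / (nrm q : ℝ) ^ 2) * ((nrm q : ℝ) / phiQ q * A) =
          (1 / (nrm q : ℝ) ^ 2) * ((gP P q * ((nrm q : ℝ) / phiQ q)) * A) := by ring
        rw [h5]
        refine mul_le_mul_of_nonneg_left ?_ (by positivity)
        exact le_mul_of_one_le_left hA0 h3
    _ ≤ _ := mul_le_mul_of_nonneg_left h1 (by positivity)

end H385
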