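import Pool.Agent.H385R6.HgDefs
import Pool.Agent.H385R6.HG3d
import Pool.Agent.H385R6.HG6a
import Pool.Agent.H385R5.HE10A

/-!
TEAM Q3, project HG, task HG6b (helper423): average of `phq q / nrm q`
-/

open Complex Filter Topology Set MeasureTheory

namespace H385

open Pool.Agent.H304R3.HK (tc HC CS bb LamK psi bH aH LH Rep)

namespace HG6b


theorem nrm_eq (a : ZI) : (nrm a : ℤ) = a.re ^ 2 + a.im ^ 2 := by
  unfold nrm
  rw [Int.natAbs_of_nonneg (GaussianInt.norm_nonneg a), Zsqrtd.norm_def]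
  ring

theorem nrm_mul (a b : ZI) : nrm (a * b) = nrm a * nrm b := by
  unfold nrm
  rw [Zsqrtd.norm_mul, Int.natAbs_mul]

theorem nrm_pos {a : ZI} (h : a ≠ 0) : 0 < nrm a := by
  unfold nrm
  exact Int.natAbs_pos.2 (GaussianInt.norm_pos.2 h).ne'

theorem mem_BX {Y : ℕ} {a : ZI} : a ∈ BX Y ↔ a ≠ 0 ∧ nrm a ≤ Y := by
  have h0 := nrm_eq a
  unfold BX
  rw [Finset.mem_image]
  constructor
  · rintro ⟨⟨x, y⟩, h, rfl⟩
    rw [Finset.mem_filter] at h
    obtain ⟨-, h1, h2⟩ := h
    simp only at h1 h2 h0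
    refine ⟨?_, ?_⟩
    · intro h
      rw [h] at h0
      simp [nrm] at h0
      omega
    · zify
      rw [h0]; exact h2
  · rintro ⟨h1, h2⟩
    refine ⟨(a.re, a.im), ?_, rfl⟩
    have h3 := nrm_pos h1
    have h4 : a.re ^ 2 + a.im ^ 2 ≤ (Y : ℤ) := by rw [← h0]; exact_mod_cast h2
    have h5 : 1 ≤ a.re ^ 2 + a.im ^ 2 := by rw [← h0]; exact_mod_cast h3
    rw [Finset.mem_filter, Finset.mem_product, Finset.mem_Icc, Finset.mem_Icc]
    refine ⟨⟨⟨?_, ?_⟩, ⟨?_, ?_⟩⟩, h5, h4⟩ <;> nlinarith [sq_nonneg (a.re - 1), sq_nonneg (a.re + 1), sq_nonneg (a.im - 1), sq_nonneg (a.im + 1), sq_nonneg a.re, sq_nonneg a.im]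

theorem card_BX (k : ℕ) (hk : 1 ≤ k) : ((BX k).card : ℝ) ≤ 9 * k := by
  have h1 : BX k ⊆ ((Finset.Icc (-(Nat.sqrt k : ℤ)) (Nat.sqrt k)) ×ˢ
      (Finset.Icc (-(Nat.sqrt k : ℤ)) (Nat.sqrt k))).image (fun p : ℤ × ℤ => (⟨p.1, p.2⟩ : ZI)) := by
    intro a ha
    rw [mem_BX] at ha
    have h0 := nrm_eq a
    have h4 : a.re ^ 2 + a.im ^ 2 ≤ (k : ℤ) := by rw [← h0]; exact_mod_cast ha.2
    rw [Finset.mem_image]
    have key : ∀ z : ℤ, z ^ 2 ≤ (k : ℤ) → -(Nat.sqrt k : ℤ) ≤ z ∧ z ≤ (Nat.sqrt k : ℤ) := by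
      intro z hz
      have hn : z.natAbs ≤ Nat.sqrt k := by
        rw [Nat.le_sqrt']
        zify
        rw [sq_abs]
        exact hz
      omega
    obtain ⟨r1, r2⟩ := key a.re (by nlinarith [sq_nonneg a.im])
    obtain ⟨i1, i2⟩ := key a.im (by nlinarith [sq_nonneg a.re])
    exact ⟨(a.re, a.im), Finset.mem_product.2 ⟨Finset.mem_Icc.2 ⟨r1, r2⟩,
      Finset.mem_Icc.2 ⟨i1, i2⟩⟩, rfl⟩
  have h2 := (Finset.card_le_card h1).trans Finset.card_image_le
  rw [Finset.card_product, Int.card_Icc] at h2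
  have h3 : ((Nat.sqrt k : ℤ) + 1 - -(Nat.sqrt k : ℤ)).toNat = 2 * Nat.sqrt k + 1 := by omega
  rw [h3] at h2
  have h4 : Nat.sqrt k * Nat.sqrt k ≤ k := Nat.sqrt_le k
  have h5 : 1 ≤ Nat.sqrt k := by
    rw [Nat.le_sqrt]; omega
  have h6 : (2 * Nat.sqrt k + 1) * (2 * Nat.sqrt k + 1) ≤ 9 * k := by nlinarith
  exact_mod_cast h2.trans h6

theorem tail (K Y : ℕ) (hK : 1 ≤ K) :
    ∑ m ∈ (BX Y).filter (fun m => K < nrm m), (1 : ℝ) / (nrm m : ℝ) ^ 2 ≤ (27 : ℝ) / (K : ℝ) := by
  by_cases hY : Y ≤ K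
  · rw [Finset.sum_eq_zero]
    · positivity
    · intro m hm
      rw [Finset.mem_filter, mem_BX] at hm
      omega
  push Not at hY
  have hK0 : (0 : ℝ) < K := by exact_mod_cast hK
  have hY0 : (K : ℝ) < Y := by exact_mod_cast hY
  set w : ℕ → ℝ := fun k => 1 / (k : ℝ) ^ 2 - 1 / ((k : ℝ) + 1) ^ 2 with hw
  have hw0 : ∀ k, 1 ≤ k → 0 ≤ w k := by
    intro k hk
    have : (0 : ℝ) < k := by exact_mod_cast hk
    simp only [hw]
    rw [sub_nonneg]
    apply one_div_le_one_div_of_le (by positivity)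
    nlinarith
  have htel : ∀ a b : ℕ, a ≤ b → ∑ k ∈ Finset.Ico a b, w k = 1 / (a : ℝ) ^ 2 - 1 / (b : ℝ) ^ 2 := by
    intro a b hab
    induction b, hab using Nat.le_induction with
    | base => simp
    | succ b hb ih =>
      rw [Finset.sum_Ico_succ_top hb, ih]
      simp only [hw]
      push_cast
      ring
  have h1 : ∀ m ∈ (BX Y).filter (fun m => K < nrm m), 1 / (nrm m : ℝ) ^ 2 =
      1 / (Y : ℝ) ^ 2 + ∑ k ∈ Finset.Ico (K + 1) Y, (if nrm m ≤ k then w k else 0) := by
    intro m hm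
    rw [Finset.mem_filter, mem_BX] at hm
    have h2 := htel (nrm m) Y hm.1.2
    have h3 : ∑ k ∈ Finset.Ico (K + 1) Y, (if nrm m ≤ k then w k else 0) =
        ∑ k ∈ Finset.Ico (nrm m) Y, w k := by
      rw [← Finset.sum_filter]
      congr 1
      ext k
      simp only [Finset.mem_filter, Finset.mem_Ico]
      omega
    rw [h3, h2]
    ring
  rw [Finset.sum_congr rfl h1, Finset.sum_add_distrib, Finset.sum_const, nsmul_eq_mul,
    Finset.sum_comm]
  have h4 : ∀ k ∈ Finset.Ico (K + 1) Y,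
      ∑ m ∈ (BX Y).filter (fun m => K < nrm m), (if nrm m ≤ k then w k else 0) ≤
      18 * (1 / (k : ℝ) - 1 / ((k : ℝ) + 1)) := by
    intro k hk
    rw [Finset.mem_Ico] at hk
    have hk0 : (0 : ℝ) < k := by exact_mod_cast (by omega : 0 < k)
    rw [← Finset.sum_filter, Finset.sum_const, nsmul_eq_mul]
    have h5 : (((BX Y).filter (fun m => K < nrm m)).filter (fun m => nrm m ≤ k)).card ≤ (BX k).card := by
      apply Finset.card_le_card
      intro m hm
      rw [Finset.mem_filter, Finset.mem_filter, mem_BX] at hm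
      rw [mem_BX]
      exact ⟨hm.1.1.1, hm.2⟩
    have h6 := card_BX k (by omega)
    have h7 : ((((BX Y).filter (fun m => K < nrm m)).filter (fun m => nrm m ≤ k)).card : ℝ) ≤ 9 * k :=
      le_trans (by exact_mod_cast h5) h6
    refine (mul_le_mul_of_nonneg_right h7 (hw0 k (by omega))).trans ?_
    simp only [hw]
    rw [div_sub_div _ _ (by positivity) (by positivity), div_sub_div _ _ (by positivity) (by positivity),
      mul_div_assoc', mul_div_assoc', div_le_div_iff₀ (by positivity) (by positivity)]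
    nlinarith [pow_pos hk0 2, pow_pos hk0 3, pow_pos hk0 4, pow_pos hk0 5]
  have h8 : ∑ k ∈ Finset.Ico (K + 1) Y, 18 * (1 / (k : ℝ) - 1 / ((k : ℝ) + 1)) =
      18 * (1 / ((K + 1 : ℕ) : ℝ) - 1 / (Y : ℝ)) := by
    rw [← Finset.mul_sum]
    congr 1
    have : ∀ a b : ℕ, a ≤ b → ∑ k ∈ Finset.Ico a b, (1 / (k : ℝ) - 1 / ((k : ℝ) + 1)) =
        1 / (a : ℝ) - 1 / (b : ℝ) := by
      intro a b hab
      induction b, hab using Nat.le_induction with
      | base => simp
      | succ b hb ih =>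
        rw [Finset.sum_Ico_succ_top hb, ih]
        push_cast
        ring
    exact this _ _ (by omega)
  have h9 := (Finset.sum_le_sum h4).trans_eq h8
  have h10 : (((BX Y).filter (fun m => K < nrm m)).card : ℝ) * (1 / (Y : ℝ) ^ 2) ≤ 9 / K := by
    have h11 : (((BX Y).filter (fun m => K < nrm m)).card : ℝ) ≤ 9 * Y :=
      le_trans (by exact_mod_cast Finset.card_filter_le _ _) (card_BX Y (by omega))
    refine (mul_le_mul_of_nonneg_right h11 (by positivity)).trans ?_
    have hY1 : (0 : ℝ) < Y := hK0.trans hY0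
    rw [mul_one_div, div_le_div_iff₀ (by positivity) (by positivity)]
    nlinarith
  have h12 : 18 * (1 / ((K + 1 : ℕ) : ℝ) - 1 / (Y : ℝ)) ≤ 18 / K := by
    have h13 : 1 / ((K + 1 : ℕ) : ℝ) ≤ 1 / K := by
      apply one_div_le_one_div_of_le hK0
      push_cast; linarith
    have h14 : 0 ≤ 1 / (Y : ℝ) := by positivity
    have h15 : 18 / (K : ℝ) = 18 * (1 / K) := by ring
    rw [h15]
    linarith
  have h16 : (27 : ℝ) / K = 9 / K + 18 / K := by ring
  rw [h16]
  exact add_le_add h10 (h9.trans h12)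

/-- the projection -/
def fac {q e : ZI} (he : e ∣ q) : RQ q →+* RQ e :=
  Ideal.Quotient.factor (Ideal.span_singleton_le_span_singleton.2 he)

theorem fac_surj {q e : ZI} (he : e ∣ q) : Function.Surjective (fac he) :=
  Ideal.Quotient.factor_surjective _

theorem fib {q e : ZI} (he : e ∣ q) [Fintype (RQ q)] [Fintype (RQ e)] (S : RQ e → Prop)
    [DecidablePred S] [DecidablePred fun x : RQ q => S (fac he x)] :
    (((Finset.univ.filter fun x : RQ q => S (fac he x)).card : ℕ) : ℝ) * nrm e =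
      ((Finset.univ.filter fun y : RQ e => S y).card : ℝ) * nrm q := by
  classical
  set c := (Finset.univ.filter fun x : RQ q => fac he x = 0).card with hc
  have hfib : ∀ y : RQ e, (Finset.univ.filter fun x : RQ q => fac he x = y).card = c := by
    intro y
    have := AddMonoidHom.card_fiber_eq_of_mem_range (fac he).toAddMonoidHom
      (x := y) (y := 0) (fac_surj he y) (fac_surj he 0)
    exact this
  have h1 : (Finset.univ.filter fun x : RQ q => S (fac he x)).card =
      (Finset.univ.filter fun y : RQ e => S y).card * c := by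
    rw [Finset.card_eq_sum_card_fiberwise (f := fac he)
      (t := Finset.univ.filter fun y : RQ e => S y) (fun x hx => by simpa using hx)]
    rw [Finset.sum_congr rfl (g := fun _ => c), Finset.sum_const, smul_eq_mul]
    intro y hy
    rw [← hfib y]
    congr 1
    ext x
    simp only [Finset.mem_filter, Finset.mem_univ, true_and] at hy ⊢
    exact ⟨fun h => h.2, fun h => ⟨by rw [h]; exact hy, h⟩⟩
  have h2 : Fintype.card (RQ q) = Fintype.card (RQ e) * c := by
    have := Finset.card_eq_sum_card_fiberwise (f := fac he) (s := Finset.univ) (t := Finset.univ)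
      (fun x _ => Finset.mem_coe.2 (Finset.mem_univ _))
    rw [Finset.card_univ] at this
    rw [this, Finset.sum_congr rfl (fun y _ => hfib y), Finset.sum_const, smul_eq_mul,
      Finset.card_univ]
  have h3 := H10.card_RQ q
  have h4 := H10.card_RQ e
  rw [Nat.card_eq_fintype_card] at h3 h4
  rw [h3, h4] at h2
  rw [h1, h2]
  push_cast
  ring

theorem phi_eq (q : ZI) [Fintype (RQ q)] [DecidablePred fun y : RQ q => IsUnit y] :
    phiQ q = (Finset.univ.filter fun y : RQ q => IsUnit y).card := by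
  unfold phiQ
  have h : Nat.card (RQ q)ˣ = Nat.card {y : RQ q // IsUnit y} :=
    Nat.card_congr (Submonoid.unitsTypeEquivIsUnitSubmonoid (M := RQ q)).toEquiv
  rw [h, Nat.card_eq_fintype_card, Fintype.card_subtype]

theorem unit_iff (q a : ZI) : IsUnit (Ideal.Quotient.mk (Ideal.span {q}) a) ↔ IsCoprime a q := by
  constructor
  · intro h
    obtain ⟨b, hb⟩ := h.exists_right_inv
    obtain ⟨c, rfl⟩ := Ideal.Quotient.mk_surjective b
    rw [← map_mul, ← map_one (Ideal.Quotient.mk (Ideal.span {q})), Ideal.Quotient.eq,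
      Ideal.mem_span_singleton] at hb
    obtain ⟨w, hw⟩ := hb
    exact ⟨c, -w, by linear_combination hw⟩
  · exact he2_unit

open Classical in
theorem partA (P q : ZI) (K : ℕ) (hS : Smo P K) (hq : q ≠ 0) :
    gP P q - ∑ m ∈ (BX (nrm q)).filter (fun m => m ∣ q ∧ K < nrm m), (1 : ℝ) / nrm m ≤ phq q := by
  classical
  set g := EuclideanDomain.gcd q P with hg
  have hgq : g ∣ q := EuclideanDomain.gcd_dvd_left q P
  have hg0 : g ≠ 0 := fun h => hq (by rw [h] at hgq; exact zero_dvd_iff.1 hgq)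
  have hfin : ∀ e : ZI, e ≠ 0 → Finite (RQ e) := fun e he => he1_finite he
  have h1 := hfin q hq
  have h2 := hfin g hg0
  have f1 : Fintype (RQ q) := Fintype.ofFinite _
  have f2 : Fintype (RQ g) := Fintype.ofFinite _
  set M := (BX (nrm q)).filter (fun m => m ∣ q ∧ K < nrm m) with hM
  have hNq : (0 : ℝ) < nrm q := by exact_mod_cast nrm_pos hq
  have hNg : (0 : ℝ) < nrm g := by exact_mod_cast nrm_pos hg0
  -- elements divisible by m
  have hdiv : ∀ m ∈ M, ((Finset.univ.filter fun x : RQ q =>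
      ∃ a : ZI, m ∣ a ∧ Ideal.Quotient.mk (Ideal.span {q}) a = x).card : ℝ) ≤ nrm q / nrm m := by
    intro m hm
    rw [hM, Finset.mem_filter, mem_BX] at hm
    obtain ⟨⟨hm0, -⟩, hmq, -⟩ := hm
    have h3 := hfin m hm0
    have f3 : Fintype (RQ m) := Fintype.ofFinite _
    have hNm : (0 : ℝ) < nrm m := by exact_mod_cast nrm_pos hm0
    have h4 := fib hmq (fun y => y = 0)
    have h5 : (Finset.univ.filter fun y : RQ m => y = 0).card = 1 := by
      rw [Finset.filter_eq' Finset.univ (0 : RQ m), if_pos (Finset.mem_univ _),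
        Finset.card_singleton]
    rw [h5, Nat.cast_one, one_mul] at h4
    rw [le_div_iff₀ hNm, ← h4]
    apply mul_le_mul_of_nonneg_right _ hNm.le
    norm_cast
    apply Finset.card_le_card
    intro x hx
    rw [Finset.mem_filter] at hx ⊢
    obtain ⟨-, a, ha, rfl⟩ := hx
    refine ⟨Finset.mem_univ _, ?_⟩
    unfold fac
    rw [Ideal.Quotient.factor_mk, Ideal.Quotient.eq_zero_iff_mem, Ideal.mem_span_singleton]
    exact ha
  have hU := fib hgq (fun y => IsUnit y)
  rw [← phi_eq g] at hU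
  have hcount : ((Finset.univ.filter fun x : RQ q => IsUnit (fac hgq x)).card : ℝ) ≤
      phiQ q + ∑ m ∈ M, (nrm q : ℝ) / nrm m := by
    have h6 : (Finset.univ.filter fun x : RQ q => IsUnit (fac hgq x)) ⊆
        (Finset.univ.filter fun x : RQ q => IsUnit x) ∪
          M.biUnion (fun m => Finset.univ.filter fun x : RQ q =>
            ∃ a : ZI, m ∣ a ∧ Ideal.Quotient.mk (Ideal.span {q}) a = x) := by
      intro x hx
      rw [Finset.mem_filter] at hx
      obtain ⟨a, rfl⟩ := Ideal.Quotient.mk_surjective x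
      have hx2 : IsCoprime a g := by
        rw [← unit_iff]
        have := hx.2
        unfold fac at this
        rwa [Ideal.Quotient.factor_mk] at this
      rw [Finset.mem_union, Finset.mem_filter, Finset.mem_biUnion, unit_iff]
      by_cases hco : IsCoprime a q
      · exact Or.inl ⟨Finset.mem_univ _, hco⟩
      right
      by_contra hcon
      push Not at hcon
      apply hco
      apply isCoprime_of_prime_dvd
      · rintro ⟨-, h⟩; exact hq h
      intro p hp hpa hpq
      apply hcon p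
      · rw [hM, Finset.mem_filter, mem_BX]
        refine ⟨⟨hp.ne_zero, he3_nrm hpq hq⟩, hpq, ?_⟩
        by_contra hle
        push Not at hle
        have hpP : ¬ p ∣ P := fun h => hp.not_isUnit
          (hx2.isUnit_of_dvd' hpa (EuclideanDomain.dvd_gcd hpq h))
        have hpc : IsCoprime p P := by
          apply isCoprime_of_prime_dvd
          · rintro ⟨h, -⟩; exact hp.ne_zero h
          intro r hr hrp hrP
          exact hpP ((hr.irreducible.associated_of_dvd hp.irreducible hrp).symm.dvd.trans hrP)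
        have := hS p hp.ne_zero hle p hpc
        exact hp.not_isUnit (isCoprime_self.1 this)
      · rw [Finset.mem_filter]
        exact ⟨Finset.mem_univ _, a, hpa, rfl⟩
    have h7 := (Finset.card_le_card h6).trans (Finset.card_union_le _ _)
    have h8 := h7.trans (Nat.add_le_add_left Finset.card_biUnion_le _)
    rw [← phi_eq q] at h8
    have h9 : ((Finset.univ.filter fun x : RQ q => IsUnit (fac hgq x)).card : ℝ) ≤
        phiQ q + ∑ m ∈ M, ((Finset.univ.filter fun x : RQ q =>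
            ∃ a : ZI, m ∣ a ∧ Ideal.Quotient.mk (Ideal.span {q}) a = x).card : ℝ) := by
      exact_mod_cast h8
    exact h9.trans (add_le_add_right (Finset.sum_le_sum hdiv) _)
  have hgP : gP P q = (phiQ g : ℝ) / nrm g := rfl
  have h10 : ((Finset.univ.filter fun x : RQ q => IsUnit (fac hgq x)).card : ℝ) =
      gP P q * nrm q := by
    rw [hgP, div_mul_eq_mul_div, eq_div_iff hNg.ne']
    exact hU
  rw [h10] at hcount
  have h11 : ∑ m ∈ M, (nrm q : ℝ) / nrm m = (nrm q : ℝ) * ∑ m ∈ M, (1 : ℝ) / nrm m := by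
    rw [Finset.mul_sum]
    exact Finset.sum_congr rfl fun m _ => by ring
  rw [h11] at hcount
  unfold phq
  rw [le_div_iff₀ hNq]
  linarith

open Classical in
theorem partB (K : ℕ) (hK : 1 ≤ K) : ∃ C : ℝ, 0 < C ∧ ∀ X Y : ℕ, 1 ≤ X → X ≤ Y →
    ∑ q ∈ (BX Y).filter (fun q => X < nrm q),
      (∑ m ∈ (BX (nrm q)).filter (fun m => m ∣ q ∧ K < nrm m), (1 : ℝ) / nrm m) / nrm q ≤
    200 / K * Real.log ((Y : ℝ) / X) + C := by
  obtain ⟨C1, hC1, h1⟩ := class_sum 1 one_ne_zero
  have hK0 : (0 : ℝ) < K := by exact_mod_cast hK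
  refine ⟨27 / K * C1, by positivity, fun X Y hX hXY => ?_⟩
  have hX0 : (0 : ℝ) < X := by exact_mod_cast hX
  have hXY0 : (X : ℝ) ≤ Y := by exact_mod_cast hXY
  have hY0 : (0 : ℝ) < Y := hX0.trans_le hXY0
  have hL : 0 ≤ Real.log ((Y : ℝ) / X) := Real.log_nonneg (by rw [le_div_iff₀ hX0]; linarith)
  have hN1 : nrm (1 : ZI) = 1 := by decide
  have h2 : ∑ q ∈ (BX Y).filter (fun q => X < nrm q),
      (∑ m ∈ (BX (nrm q)).filter (fun m => m ∣ q ∧ K < nrm m), (1 : ℝ) / nrm m) / nrm q =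
      ∑ q ∈ (BX Y).filter (fun q => X < nrm q), ∑ m ∈ (BX Y).filter (fun m => K < nrm m),
        (if m ∣ q then (1 : ℝ) / nrm m * (1 / nrm q) else 0) := by
    refine Finset.sum_congr rfl fun q hq => ?_
    rw [Finset.mem_filter, mem_BX] at hq
    rw [Finset.sum_div, ← Finset.sum_filter]
    refine Finset.sum_congr ?_ fun m _ => by ring
    ext m
    simp only [Finset.mem_filter, mem_BX]
    constructor
    · rintro ⟨⟨h3, h4⟩, h5, h6⟩
      exact ⟨⟨⟨h3, h4.trans hq.1.2⟩, h6⟩, h5⟩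
    · rintro ⟨⟨⟨h3, h4⟩, h6⟩, h5⟩
      exact ⟨⟨h3, he3_nrm h5 hq.1.1⟩, h5, h6⟩
  rw [h2, Finset.sum_comm]
  have h3 : ∀ m ∈ (BX Y).filter (fun m => K < nrm m),
      ∑ q ∈ (BX Y).filter (fun q => X < nrm q),
        (if m ∣ q then (1 : ℝ) / nrm m * (1 / nrm q) else 0) ≤
      (1 : ℝ) / (nrm m : ℝ) ^ 2 * (Real.pi * Real.log ((Y : ℝ) / X) + C1) := by
    intro m hm
    rw [Finset.mem_filter, mem_BX] at hm
    have hm0 := hm.1.1
    have hNm : (0 : ℝ) < nrm m := by exact_mod_cast nrm_pos hm0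
    rw [← Finset.sum_filter]
    set F := (((BX Y).filter (fun q => X < nrm q)).filter (fun q => m ∣ q)) with hF
    have hF1 : ∀ q ∈ F, q ≠ 0 ∧ nrm q ≤ Y ∧ X < nrm q ∧ m ∣ q := by
      intro q hq
      rw [hF, Finset.mem_filter, Finset.mem_filter, mem_BX] at hq
      exact ⟨hq.1.1.1, hq.1.1.2, hq.1.2, hq.2⟩
    have hex : ∀ q ∈ F, m * (q / m) = q := by
      intro q hq
      exact EuclideanDomain.mul_div_cancel' hm0 (hF1 q hq).2.2.2
    have h4 : ∑ q ∈ F, (1 : ℝ) / nrm m * (1 / nrm q) =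
        ∑ j ∈ F.image (fun q => q / m), (1 : ℝ) / (nrm m : ℝ) ^ 2 * (1 / nrm j) := by
      rw [Finset.sum_image]
      · refine Finset.sum_congr rfl fun q hq => ?_
        have h5 : (nrm q : ℝ) = nrm m * nrm (q / m) := by
          have h6 := congrArg nrm (hex q hq)
          rw [nrm_mul] at h6
          exact_mod_cast h6.symm
        rw [h5]
        have h7 : q / m ≠ 0 := by
          intro h
          have := hex q hq
          rw [h, mul_zero] at this
          exact (hF1 q hq).1 this.symm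
        have h8 : (0 : ℝ) < nrm (q / m) := by exact_mod_cast nrm_pos h7
        field_simp
      · intro a ha b hb hab
        simp only at hab
        rw [← hex a ha, ← hex b hb, hab]
    rw [h4, ← Finset.mul_sum]
    apply mul_le_mul_of_nonneg_left _ (by positivity)
    have h5 := h1 ((X : ℝ) / nrm m) ((Y : ℝ) / nrm m) 0 (F.image (fun q => q / m))
      (by positivity) (by gcongr) (by
        intro j hj
        rw [Finset.mem_image] at hj
        obtain ⟨q, hq, rfl⟩ := hj
        have h6 := congrArg nrm (hex q hq)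
        rw [nrm_mul] at h6
        obtain ⟨g1, g2, g3, g4⟩ := hF1 q hq
        refine ⟨?_, one_dvd _, ?_, ?_⟩
        · intro h
          have := hex q hq
          rw [h, mul_zero] at this
          exact g1 this.symm
        · rw [div_lt_iff₀ hNm]
          rw [← h6, mul_comm] at g3
          exact_mod_cast g3
        · rw [le_div_iff₀ hNm]
          rw [← h6, mul_comm] at g2
          exact_mod_cast g2)
    rw [hN1, Nat.cast_one, div_one, div_div_div_cancel_right₀ hNm.ne'] at h5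
    exact h5
  refine (Finset.sum_le_sum h3).trans ?_
  rw [← Finset.sum_mul]
  have h6 := tail K Y hK
  have h7 : 0 ≤ Real.pi * Real.log ((Y : ℝ) / X) + C1 := by
    have := Real.pi_pos
    positivity
  refine (mul_le_mul_of_nonneg_right h6 h7).trans ?_
  have h8 : Real.pi < 4 := by linarith [Real.pi_lt_d2]
  have h9 : (27 : ℝ) / K * (Real.pi * Real.log ((Y : ℝ) / X)) ≤ 200 / K * Real.log ((Y : ℝ) / X) := by
    have : (27 : ℝ) / K * (Real.pi * Real.log ((Y : ℝ) / X)) =
      (27 * Real.pi) / K * Real.log ((Y : ℝ) / X) := by ring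
    rw [this]
    gcongr
    linarith
  linarith

theorem card_Rep (P : ZI) (hP : P ≠ 0) : (Rep P).card = nrm P := by
  rw [← H10.card_RQ P, ← Fintype.card_coe, ← Nat.card_eq_fintype_card]
  refine Nat.card_eq_of_bijective
    (fun c : Rep P => (Ideal.Quotient.mk (Ideal.span {P}) (c : ZI) : RQ P)) ⟨?_, ?_⟩
  · intro c d hcd
    simp only at hcd
    rw [Ideal.Quotient.eq, Ideal.mem_span_singleton] at hcd
    obtain ⟨r, -, hr⟩ := Pool.Agent.H304R3.HK.rep_spec P hP (c : ZI)
    apply Subtype.ext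
    rw [hr c ⟨c.2, by simp⟩, hr d ⟨d.2, hcd⟩]
  · intro y
    obtain ⟨a, rfl⟩ := Ideal.Quotient.mk_surjective y
    obtain ⟨r, ⟨hr1, hr2⟩, -⟩ := Pool.Agent.H304R3.HK.rep_spec P hP a
    refine ⟨⟨r, hr1⟩, ?_⟩
    simp only
    rw [Ideal.Quotient.eq, Ideal.mem_span_singleton, ← neg_sub]
    exact (dvd_neg).2 hr2

theorem phq_assoc {a b : ZI} (h : Associated a b) : phq a = phq b := by
  have h1 : Ideal.span {a} = Ideal.span {b} := Ideal.span_singleton_eq_span_singleton.2 h
  have h2 : nrm a = nrm b := by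
    rw [← H10.card_RQ, ← H10.card_RQ]
    unfold RQ
    rw [h1]
  have h3 : phiQ a = phiQ b := by
    unfold phiQ RQ
    rw [h1]
  unfold phq
  rw [h2, h3]

theorem gP_congr {P q c : ZI} (h : P ∣ q - c) : gP P q = gP P c := by
  unfold gP
  apply phq_assoc
  apply associated_of_dvd_dvd
  · apply EuclideanDomain.dvd_gcd
    · have h1 := EuclideanDomain.gcd_dvd_left q P
      have h2 := (EuclideanDomain.gcd_dvd_right q P).trans h
      have := dvd_sub h1 h2
      rwa [sub_sub_cancel] at this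
    · exact EuclideanDomain.gcd_dvd_right q P
  · apply EuclideanDomain.dvd_gcd
    · have h1 := EuclideanDomain.gcd_dvd_left c P
      have h2 := (EuclideanDomain.gcd_dvd_right c P).trans h
      have := dvd_add h2 h1
      rwa [sub_add_cancel] at this
    · exact EuclideanDomain.gcd_dvd_right c P

theorem partC (P : ZI) (hP : P ≠ 0) : ∃ C : ℝ, 0 < C ∧
    ∀ X Y : ℕ, 1 ≤ X → X ≤ Y →
    Real.pi * GP P * Real.log ((Y : ℝ) / X) - C ≤
      ∑ q ∈ (BX Y).filter (fun q => X < nrm q), gP P q / (nrm q : ℝ) := by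
  classical
  obtain ⟨C2, hC2, h2⟩ := class_sum_lower
  obtain ⟨C3, hC3, h3⟩ := class_sum P hP
  have hN := nrm_pos hP
  have hN0 : (0 : ℝ) < nrm P := by exact_mod_cast hN
  have hN1 : (1 : ℝ) ≤ nrm P := by exact_mod_cast hN
  refine ⟨nrm P * (C2 + nrm P * C3), by positivity, fun X Y hX hXY => ?_⟩
  have hX0 : (0 : ℝ) < X := by exact_mod_cast hX
  have hXY0 : (X : ℝ) ≤ Y := by exact_mod_cast hXY
  set L := Real.log ((Y : ℝ) / X) with hL
  set F := (BX Y).filter (fun q => X < nrm q) with hF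
  have hF1 : ∀ q ∈ F, q ≠ 0 ∧ nrm q ≤ Y ∧ X < nrm q := by
    intro q hq
    rw [hF, Finset.mem_filter, mem_BX] at hq
    exact ⟨hq.1.1, hq.1.2, hq.2⟩
  have hsplit : ∀ f : ZI → ℝ, ∑ q ∈ F, f q =
      ∑ c ∈ Rep P, ∑ q ∈ F.filter (fun q => P ∣ q - c), f q := by
    intro f
    have h4 : ∀ q ∈ F, f q = ∑ c ∈ Rep P, (if P ∣ q - c then f q else 0) := by
      intro q _
      obtain ⟨r, ⟨hr1, hr2⟩, hr3⟩ := Pool.Agent.H304R3.HK.rep_spec P hP q
      rw [Finset.sum_eq_single r]
      · rw [if_pos hr2]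
      · intro c hc hcr
        rw [if_neg]
        intro hd
        exact hcr (hr3 c ⟨hc, hd⟩)
      · intro h; exact absurd hr1 h
    rw [Finset.sum_congr rfl h4, Finset.sum_comm]
    exact Finset.sum_congr rfl fun c _ => (Finset.sum_filter _ _).symm
  have hup : ∀ c : ZI, ∑ q ∈ F.filter (fun q => P ∣ q - c), (1 : ℝ) / nrm q ≤
      Real.pi / nrm P * L + C3 := by
    intro c
    have := h3 X Y c (F.filter (fun q => P ∣ q - c)) hX0 hXY0 (by
      intro j hj
      rw [Finset.mem_filter] at hj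
      obtain ⟨g1, g2, g3⟩ := hF1 j hj.1
      exact ⟨g1, hj.2, by exact_mod_cast g3, by exact_mod_cast g2⟩)
    exact this
  have hlow : ∀ c ∈ Rep P, Real.pi / nrm P * L - (C2 + nrm P * C3) ≤
      ∑ q ∈ F.filter (fun q => P ∣ q - c), (1 : ℝ) / nrm q := by
    intro c hc
    have h5 := h2 X Y hX hXY
    rw [← hF, hsplit, ← Finset.add_sum_erase _ _ hc] at h5
    have h6 : ∑ c' ∈ (Rep P).erase c, ∑ q ∈ F.filter (fun q => P ∣ q - c'), (1 : ℝ) / nrm q ≤
        ∑ _c' ∈ (Rep P).erase c, (Real.pi / nrm P * L + C3) :=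
      Finset.sum_le_sum fun c' _ => hup c'
    rw [Finset.sum_const, Finset.card_erase_of_mem hc, card_Rep P hP, nsmul_eq_mul,
      Nat.cast_sub hN, Nat.cast_one] at h6
    have h7 : Real.pi * L = nrm P * (Real.pi / nrm P * L) := by
      field_simp
    rw [← hL] at h5
    have h8 : ((nrm P : ℝ) - 1) * (Real.pi / nrm P * L + C3) =
      nrm P * (Real.pi / nrm P * L) - Real.pi / nrm P * L + nrm P * C3 - C3 := by ring
    rw [h8] at h6
    linarith
  rw [hsplit]
  have h9 : ∀ c ∈ Rep P, gP P c * (Real.pi / nrm P * L - (C2 + nrm P * C3)) ≤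
      ∑ q ∈ F.filter (fun q => P ∣ q - c), gP P q / nrm q := by
    intro c hc
    have h10 : ∑ q ∈ F.filter (fun q => P ∣ q - c), gP P q / nrm q =
        gP P c * ∑ q ∈ F.filter (fun q => P ∣ q - c), (1 : ℝ) / nrm q := by
      rw [Finset.mul_sum]
      refine Finset.sum_congr rfl fun q hq => ?_
      rw [Finset.mem_filter] at hq
      rw [gP_congr hq.2]
      ring
    rw [h10]
    have hg0 : 0 ≤ gP P c := by
      unfold gP phq
      positivity
    exact mul_le_mul_of_nonneg_left (hlow c hc) hg0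
  refine le_trans ?_ (Finset.sum_le_sum h9)
  rw [← Finset.sum_mul]
  have h11 : ∑ c ∈ Rep P, gP P c = nrm P * GP P := by
    unfold GP
    field_simp
  have h12 : ∑ c ∈ Rep P, gP P c ≤ nrm P := by
    have : ∑ c ∈ Rep P, gP P c ≤ ∑ _c ∈ Rep P, (1 : ℝ) := by
      refine Finset.sum_le_sum fun c hc => ?_
      have hgc : EuclideanDomain.gcd c P ≠ 0 := by
        intro h
        have := EuclideanDomain.gcd_dvd_right c P
        rw [h] at this
        exact hP (zero_dvd_iff.1 this)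
      exact (phq_gP P _ hP hgc).2.2.2.2
    rw [Finset.sum_const, card_Rep P hP, nsmul_eq_mul, mul_one] at this
    exact this
  have h13 : (∑ c ∈ Rep P, gP P c) * (Real.pi / nrm P * L - (C2 + nrm P * C3)) =
      Real.pi * GP P * L - (∑ c ∈ Rep P, gP P c) * (C2 + nrm P * C3) := by
    rw [mul_sub, h11]
    congr 1
    field_simp
  rw [h13]
  have h14 : (∑ c ∈ Rep P, gP P c) * (C2 + nrm P * C3) ≤ nrm P * (C2 + nrm P * C3) :=
    mul_le_mul_of_nonneg_right h12 (by positivity)
  linarith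

end HG6b

/-- HG6b: average of `φ(q)/N(q)²` compared with `GP P` -/
theorem phq_avg (P : ZI) (hP : P ≠ 0) (K : ℕ) (hK : 1 ≤ K) (hS : Smo P K) : ∃ C : ℝ, 0 < C ∧
    ∀ X Y : ℕ, 1 ≤ X → X ≤ Y →
    (Real.pi * GP P - 200 / K) * Real.log ((Y : ℝ) / X) - C ≤
      ∑ q ∈ (BX Y).filter (fun q => X < nrm q), phq q / (nrm q : ℝ) := by
  classical
  obtain ⟨C1, hC1, h1⟩ := HG6b.partB K hK
  obtain ⟨C2, hC2, h2⟩ := HG6b.partC P hP
  refine ⟨C1 + C2, by positivity, fun X Y hX hXY => ?_⟩
  have h3 := h1 X Y hX hXY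
  have h4 := h2 X Y hX hXY
  have h5 : ∑ q ∈ (BX Y).filter (fun q => X < nrm q), gP P q / (nrm q : ℝ) -
      ∑ q ∈ (BX Y).filter (fun q => X < nrm q),
      (∑ m ∈ (BX (nrm q)).filter (fun m => m ∣ q ∧ K < nrm m), (1 : ℝ) / nrm m) / nrm q ≤
      ∑ q ∈ (BX Y).filter (fun q => X < nrm q), phq q / (nrm q : ℝ) := by
    rw [← Finset.sum_sub_distrib]
    refine Finset.sum_le_sum fun q hq => ?_
    rw [Finset.mem_filter, HG6b.mem_BX] at hq
    rw [← sub_div]
    exact div_le_div_of_nonneg_right (HG6b.partA P q K hS hq.1.1) (Nat.cast_nonneg _)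
  have h6 : (Real.pi * GP P - 200 / K) * Real.log ((Y : ℝ) / X) =
    Real.pi * GP P * Real.log ((Y : ℝ) / X) - 200 / K * Real.log ((Y : ℝ) / X) := by ring
  rw [h6]
  linarith

end H385
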