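import Pool.Agent.H385R6.HgDefs

/-!
TEAM Q3, project HG (helper385): task HG6c.
-/

open Complex Filter Topology Set MeasureTheory

namespace H385

open Pool.Agent.H304R3.HK (tc HC CS bb LamK psi bH aH LH Rep)

lemma HG6c_mem {K : ℕ} {k : ZI} (hk : k ≠ 0) (h : nrm k ≤ K) : k ∈ BX K := by
  have e : k.norm = k.re ^ 2 + k.im ^ 2 := by
    rw [Zsqrtd.norm_def]
    ring
  have h1 : (k.re ^ 2 + k.im ^ 2 : ℤ) ≤ K := by
    unfold nrm at h
    have h2 : k.norm ≤ (k.norm.natAbs : ℤ) := Int.le_natAbs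
    rw [e] at h2
    have h3 : ((k.norm.natAbs : ℕ) : ℤ) ≤ K := by exact_mod_cast h
    rw [e] at h3
    omega
  have h0 : (1 : ℤ) ≤ k.re ^ 2 + k.im ^ 2 := by
    by_contra hc
    apply hk
    have h4 : k.re ^ 2 + k.im ^ 2 ≤ 0 := by omega
    have h5 : k.re = 0 := by nlinarith [sq_nonneg k.re, sq_nonneg k.im]
    have h6 : k.im = 0 := by nlinarith [sq_nonneg k.re, sq_nonneg k.im]
    exact Zsqrtd.ext h5 h6
  have hK : (0 : ℤ) ≤ K := by positivity
  have habs : ∀ x y : ℤ, x ^ 2 + y ^ 2 ≤ K → -(K : ℤ) ≤ x ∧ x ≤ K := by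
    intro x y hxy
    have hx : |x| ≤ x ^ 2 := by
      rw [← sq_abs]
      rcases (abs_nonneg x).eq_or_lt with h | h
      · rw [← h]
        norm_num
      · nlinarith
    have hx2 : |x| ≤ K := by nlinarith [sq_nonneg y]
    exact abs_le.1 hx2
  unfold BX
  rw [Finset.mem_image]
  refine ⟨(k.re, k.im), ?_, rfl⟩
  rw [Finset.mem_filter, Finset.mem_product, Finset.mem_Icc, Finset.mem_Icc]
  exact ⟨⟨habs _ _ h1, habs _ _ (by rw [add_comm]; exact h1)⟩, h0, h1⟩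

lemma HG6c_ne {K : ℕ} {k : ZI} (hk : k ∈ BX K) : k ≠ 0 := by
  unfold BX at hk
  rw [Finset.mem_image] at hk
  obtain ⟨p, hp, rfl⟩ := hk
  rw [Finset.mem_filter] at hp
  intro h
  have h1 : p.1 = 0 := congrArg Zsqrtd.re h
  have h2 : p.2 = 0 := congrArg Zsqrtd.im h
  have h3 := hp.2.1
  rw [h1, h2] at h3
  norm_num at h3

/-- HG6c: existence of `P` -/
theorem smo_exists (K : ℕ) : ∃ P : ZI, P ≠ 0 ∧ Smo P K := by
  refine ⟨∏ k ∈ BX K, k, Finset.prod_ne_zero_iff.2 fun k hk => HG6c_ne hk, ?_⟩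
  intro k hk hkK n hn
  exact IsCoprime.prod_right_iff.1 hn k (HG6c_mem hk hkK)

end H385
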