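import Pool.Agent.H385R6.HgDefs
import Pool.Agent.H385R6.HG6a

/-!
TEAM Q3, project HG (helper385), task HG6d: `GP P` is bounded below.
-/


open Complex Filter Topology Set MeasureTheory

namespace H385

open Pool.Agent.H304R3.HK (tc HC CS bb LamK psi bH aH LH Rep)

/-- coordinates -/
noncomputable def hg6d_equiv : ZI ≃ₗ[ℤ] (Fin 2 → ℤ) where
  toFun z := ![z.re, z.im]
  invFun v := ⟨v 0, v 1⟩
  map_add' x y := by
    ext i; fin_cases i <;> simp
  map_smul' c x := by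
    ext i; fin_cases i <;> simp
  left_inv z := by ext <;> simp
  right_inv v := by
    ext i; fin_cases i <;> simp

/-- the basis `1, i` -/
noncomputable def hg6d_basis : Module.Basis (Fin 2) ℤ ZI := Module.Basis.ofEquivFun hg6d_equiv

theorem hg6d_algnorm (q : ZI) : Algebra.norm ℤ q = q.norm := by
  rw [Algebra.norm_eq_matrix_det hg6d_basis, Matrix.det_fin_two]
  simp only [Algebra.leftMulMatrix_eq_repr_mul]
  have e0 : hg6d_basis 0 = ⟨1, 0⟩ := by
    simp [hg6d_basis, hg6d_equiv]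
  have e1 : hg6d_basis 1 = ⟨0, 1⟩ := by
    simp [hg6d_basis, hg6d_equiv]
  rw [e0, e1]
  simp [hg6d_basis, hg6d_equiv, Zsqrtd.norm]

/-- the number of residues modulo `q` -/
theorem hg6d_card (q : ZI) : Nat.card (RQ q) = nrm q := by
  have : Module.Free ℤ ZI := Module.Free.of_basis hg6d_basis
  have : Module.Finite ℤ ZI := Module.Finite.of_basis hg6d_basis
  have h1 := Ideal.absNorm_span_singleton q
  rw [hg6d_algnorm, Ideal.absNorm_apply, Submodule.cardQuot_apply] at h1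
  exact h1

theorem hg6d_mk_inj {q c c' : ZI} (hc : c ∈ Rep q) (hc' : c' ∈ Rep q)
    (h : (Ideal.Quotient.mk (Ideal.span {q}) c : RQ q) = Ideal.Quotient.mk (Ideal.span {q}) c') :
    c = c' := by
  rw [Pool.Agent.H304R3.HK.G1a.mem_Rep hc, Pool.Agent.H304R3.HK.G1a.mem_Rep hc']
  exact Pool.Agent.H304R3.HK.G1a.rp_congr (Pool.Agent.H304R3.HK.G1a.mk_eq.1 h)

theorem hg6d_rep_card {q : ZI} (hq : q ≠ 0) : (Rep q).card = nrm q := by
  classical
  have := he1_finite hq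
  have := Fintype.ofFinite (RQ q)
  rw [← hg6d_card q, Nat.card_eq_fintype_card, ← Finset.card_univ]
  refine Finset.card_bij (fun c _ => (Ideal.Quotient.mk (Ideal.span {q}) c : RQ q))
    (fun _ _ => Finset.mem_univ _) (fun c hc c' hc' h => hg6d_mk_inj hc hc' h) ?_
  intro x _
  obtain ⟨a, rfl⟩ := Ideal.Quotient.mk_surjective x
  exact ⟨Pool.Agent.H304R3.HK.G1a.rp q a, Pool.Agent.H304R3.HK.G1a.rp_mem q hq a,
    Pool.Agent.H304R3.HK.G1a.mk_rp q a⟩

theorem hg6d_nrm_mul (a b : ZI) : nrm (a * b) = nrm a * nrm b := by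
  unfold nrm
  rw [Zsqrtd.norm_mul, Int.natAbs_mul]

theorem hg6d_nrm_pos {a : ZI} (ha : a ≠ 0) : 0 < nrm a := Pool.Agent.H304R3.HK.G1a.norm_pos ha

open Classical in
/-- the number of residues divisible by `t` -/
theorem hg6d_cnt {P t : ZI} (hP : P ≠ 0) (ht : t ∣ P) :
    (((Rep P).filter (fun c => t ∣ c)).card : ℝ) ≤ (nrm P : ℝ) / (nrm t : ℝ) := by
  obtain ⟨P', rfl⟩ := ht
  have ht0 : t ≠ 0 := left_ne_zero_of_mul hP
  have hP'0 : P' ≠ 0 := right_ne_zero_of_mul hP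
  have := he1_finite hP'0
  have := Fintype.ofFinite (RQ P')
  have h1 : ((Rep (t * P')).filter (fun c => t ∣ c)).card ≤ Fintype.card (RQ P') := by
    rw [← Finset.card_univ]
    refine Finset.card_le_card_of_injOn
      (fun c => (Ideal.Quotient.mk (Ideal.span {P'}) (c / t) : RQ P'))
      (fun _ _ => Finset.mem_coe.2 (Finset.mem_univ _)) ?_
    intro c hc c' hc' h
    rw [Finset.mem_coe, Finset.mem_filter] at hc hc'
    obtain ⟨hc1, d, rfl⟩ := hc
    obtain ⟨hc2, d', rfl⟩ := hc'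
    have h' := Pool.Agent.H304R3.HK.G1a.mk_eq.1 h
    simp only [mul_div_cancel_left₀ _ ht0] at h'
    apply hg6d_mk_inj hc1 hc2
    rw [Pool.Agent.H304R3.HK.G1a.mk_eq, ← mul_sub]
    exact mul_dvd_mul_left t h'
  rw [← Nat.card_eq_fintype_card, hg6d_card] at h1
  rw [hg6d_nrm_mul]
  have h2 : (0 : ℝ) < nrm t := by exact_mod_cast hg6d_nrm_pos ht0
  push_cast
  rw [mul_div_cancel_left₀ _ h2.ne']
  exact_mod_cast h1

open Classical in
/-- divisors of `d` of norm at least two in the first quadrant -/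
noncomputable def hg6d_T (d : ZI) : Finset ZI :=
  (BX (nrm d)).filter (fun t => 0 < t.re ∧ 0 ≤ t.im ∧ 2 ≤ nrm t ∧ t ∣ d)

theorem hg6d_mem_BX {N : ℕ} {a : ZI} : a ∈ BX N ↔ a ≠ 0 ∧ nrm a ≤ N := by
  have hn : (nrm a : ℤ) = a.re ^ 2 + a.im ^ 2 := by
    unfold nrm
    rw [Int.natAbs_of_nonneg (Zsqrtd.norm_nonneg (by norm_num) a), Zsqrtd.norm]
    ring
  unfold BX
  simp only [Finset.mem_image, Finset.mem_filter, Finset.mem_product, Finset.mem_Icc, Prod.exists]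
  constructor
  · rintro ⟨x, y, ⟨_, h1, h2⟩, rfl⟩
    simp only at hn
    refine ⟨?_, ?_⟩
    · intro h
      have hx : x = 0 := congrArg Zsqrtd.re h
      have hy : y = 0 := congrArg Zsqrtd.im h
      subst hx; subst hy
      norm_num at h1
    · have : (nrm ⟨x, y⟩ : ℤ) ≤ (N : ℤ) := by rw [hn]; exact h2
      exact_mod_cast this
  · rintro ⟨h0, h1⟩
    have h2 : a.re ^ 2 + a.im ^ 2 ≤ (N : ℤ) := by rw [← hn]; exact_mod_cast h1
    have h3 : (1 : ℤ) ≤ a.re ^ 2 + a.im ^ 2 := by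
      rw [← hn]
      exact_mod_cast hg6d_nrm_pos h0
    refine ⟨a.re, a.im, ⟨⟨⟨?_, ?_⟩, ?_, ?_⟩, h3, h2⟩, rfl⟩ <;> nlinarith [sq_nonneg a.re, sq_nonneg a.im, sq_nonneg (a.re - 1), sq_nonneg (a.re + 1), sq_nonneg (a.im - 1), sq_nonneg (a.im + 1)]

theorem hg6d_mem_T {d t : ZI} (hd : d ≠ 0) : t ∈ hg6d_T d ↔
    0 < t.re ∧ 0 ≤ t.im ∧ 2 ≤ nrm t ∧ t ∣ d := by
  classical
  unfold hg6d_T
  rw [Finset.mem_filter, hg6d_mem_BX]
  constructor
  · exact fun h => h.2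
  · intro h
    refine ⟨⟨?_, ?_⟩, h⟩
    · intro h0
      rw [h0] at h
      exact absurd h.1 (by simp)
    · obtain ⟨e, he⟩ := h.2.2.2
      have he0 : e ≠ 0 := by
        rintro rfl
        exact hd (by rw [he, mul_zero])
      rw [he, hg6d_nrm_mul]
      exact Nat.le_mul_of_pos_right _ (hg6d_nrm_pos he0)

/-- an associate in the first quadrant -/
theorem hg6d_quad {g : ZI} (hg : g ≠ 0) : ∃ t : ZI, 0 < t.re ∧ 0 ≤ t.im ∧ t ∣ g ∧ g ∣ t ∧ nrm t = nrm g := by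
  have key : ∀ u v t : ZI, u * v = 1 → t = g * u → t ∣ g ∧ g ∣ t ∧ nrm t = nrm g := by
    intro u v t huv ht
    refine ⟨⟨v, by rw [ht, mul_assoc, huv, mul_one]⟩, ⟨u, ht⟩, ?_⟩
    have h1 := hg6d_nrm_mul u v
    rw [huv] at h1
    have h2 : nrm (1 : ZI) = 1 := by decide
    rw [h2] at h1
    have h3 : nrm u = 1 := Nat.eq_one_of_mul_eq_one_right h1.symm
    rw [ht, hg6d_nrm_mul, h3, mul_one]
  have h0 : ¬ (g.re = 0 ∧ g.im = 0) := by
    rintro ⟨h1, h2⟩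
    exact hg (Zsqrtd.ext h1 h2)
  by_cases h1 : 0 < g.re ∧ 0 ≤ g.im
  · exact ⟨g, h1.1, h1.2, key 1 1 g (by ring) (by ring)⟩
  by_cases h2 : g.re ≤ 0 ∧ 0 < g.im
  · -- multiply by `-i`
    refine ⟨⟨g.im, -g.re⟩, h2.2, by simp; exact h2.1, key ⟨0, -1⟩ ⟨0, 1⟩ _ (by ext <;> simp) ?_⟩
    ext <;> simp
  by_cases h3 : g.re < 0 ∧ g.im ≤ 0
  · refine ⟨⟨-g.re, -g.im⟩, by simp; exact h3.1, by simp; exact h3.2,
      key ⟨-1, 0⟩ ⟨-1, 0⟩ _ (by ext <;> simp) ?_⟩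
    ext <;> simp
  · refine ⟨⟨-g.im, g.re⟩, by simp; omega, by simp; omega, key ⟨0, 1⟩ ⟨0, -1⟩ _ (by ext <;> simp) ?_⟩
    ext <;> simp

theorem hg6d_assoc {c d : ZI} (hd : d ≠ 0) (h : ¬ IsCoprime c d) : ∃ t ∈ hg6d_T d, t ∣ c := by
  classical
  have h1 : ¬ IsUnit (EuclideanDomain.gcd c d) := fun h1 => h (EuclideanDomain.gcd_isUnit_iff.1 h1)
  have h2 : EuclideanDomain.gcd c d ≠ 0 := by
    intro h2
    have := EuclideanDomain.gcd_dvd_right c d
    rw [h2, zero_dvd_iff] at this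
    exact hd this
  obtain ⟨t, ht1, ht2, ht3, ht4, ht5⟩ := hg6d_quad h2
  refine ⟨t, (hg6d_mem_T hd).2 ⟨ht1, ht2, ?_, ht3.trans (EuclideanDomain.gcd_dvd_right c d)⟩,
    ht3.trans (EuclideanDomain.gcd_dvd_left c d)⟩
  rw [ht5]
  have h3 := hg6d_nrm_pos h2
  have h4 : nrm (EuclideanDomain.gcd c d) ≠ 1 := by
    intro h4
    exact h1 ((Zsqrtd.norm_eq_one_iff).1 h4)
  omega


/-- union bound -/
theorem hg6d_phq {d : ZI} (hd : d ≠ 0) :
    1 - ∑ t ∈ hg6d_T d, 1 / (nrm t : ℝ) ≤ phq d := by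
  classical
  have hfin := he1_finite hd
  have hN : (0 : ℝ) < nrm d := by exact_mod_cast hg6d_nrm_pos hd
  have h1 : ((Rep d).filter (fun c => IsCoprime c d)).card ≤ phiQ d := by
    unfold phiQ
    let f : {c // c ∈ (Rep d).filter (fun c => IsCoprime c d)} → (RQ d)ˣ :=
      fun c => (he2_unit (Finset.mem_filter.1 c.2).2).unit
    have hf : Function.Injective f := by
      intro c c' h
      have h' := congrArg (fun u : (RQ d)ˣ => (u : RQ d)) h
      exact Subtype.ext (hg6d_mk_inj (Finset.mem_filter.1 c.2).1 (Finset.mem_filter.1 c'.2).1 h')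
    have h2 := Nat.card_le_card_of_injective f hf
    rwa [Nat.card_eq_fintype_card, Fintype.card_coe] at h2
  have h2 : ((Rep d).filter (fun c => ¬ IsCoprime c d)).card ≤
      ∑ t ∈ hg6d_T d, ((Rep d).filter (fun c => t ∣ c)).card := by
    refine le_trans (Finset.card_le_card ?_) Finset.card_biUnion_le
    intro c hc
    rw [Finset.mem_filter] at hc
    obtain ⟨t, ht, htc⟩ := hg6d_assoc hd hc.2
    exact Finset.mem_biUnion.2 ⟨t, ht, Finset.mem_filter.2 ⟨hc.1, htc⟩⟩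
  have h3 : ((Rep d).filter (fun c => IsCoprime c d)).card +
      ((Rep d).filter (fun c => ¬ IsCoprime c d)).card = nrm d := by
    rw [← hg6d_rep_card hd]
    convert Finset.card_filter_add_card_filter_not (s := Rep d) (fun c => IsCoprime c d)
  have h4 : (nrm d : ℝ) ≤ phiQ d + ∑ t ∈ hg6d_T d, (nrm d : ℝ) / (nrm t : ℝ) := by
    have h5 : ((∑ t ∈ hg6d_T d, ((Rep d).filter (fun c => t ∣ c)).card : ℕ) : ℝ) ≤
        ∑ t ∈ hg6d_T d, (nrm d : ℝ) / (nrm t : ℝ) := by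
      push_cast
      exact Finset.sum_le_sum (fun t ht => hg6d_cnt hd ((hg6d_mem_T hd).1 ht).2.2.2)
    have h6 : (nrm d : ℝ) ≤ phiQ d + ((∑ t ∈ hg6d_T d, ((Rep d).filter (fun c => t ∣ c)).card : ℕ) : ℝ) := by
      have : nrm d ≤ phiQ d + ∑ t ∈ hg6d_T d, ((Rep d).filter (fun c => t ∣ c)).card := by omega
      exact_mod_cast this
    linarith
  unfold phq
  rw [le_div_iff₀ hN, sub_mul, one_mul, Finset.sum_mul]
  have h7 : ∑ t ∈ hg6d_T d, 1 / (nrm t : ℝ) * (nrm d : ℝ) = ∑ t ∈ hg6d_T d, (nrm d : ℝ) / (nrm t : ℝ) :=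
    Finset.sum_congr rfl (fun t _ => by ring)
  rw [h7]
  linarith

theorem hg6d_GP {P : ZI} (hP : P ≠ 0) :
    1 - ∑ t ∈ hg6d_T P, 1 / (nrm t : ℝ) ^ 2 ≤ GP P := by
  classical
  have hN : (0 : ℝ) < nrm P := by exact_mod_cast hg6d_nrm_pos hP
  have h1 : ∀ c ∈ Rep P, 1 - ∑ t ∈ hg6d_T P, (if t ∣ c then 1 / (nrm t : ℝ) else 0) ≤ gP P c := by
    intro c _
    have hg : EuclideanDomain.gcd c P ≠ 0 := by
      intro h2
      have := EuclideanDomain.gcd_dvd_right c P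
      rw [h2, zero_dvd_iff] at this
      exact hP this
    refine le_trans ?_ (hg6d_phq hg)
    apply sub_le_sub_left
    rw [← Finset.sum_filter]
    refine Finset.sum_le_sum_of_subset_of_nonneg ?_ (fun _ _ _ => by positivity)
    intro t ht
    rw [hg6d_mem_T hg] at ht
    rw [Finset.mem_filter, hg6d_mem_T hP]
    exact ⟨⟨ht.1, ht.2.1, ht.2.2.1, ht.2.2.2.trans (EuclideanDomain.gcd_dvd_right c P)⟩,
      ht.2.2.2.trans (EuclideanDomain.gcd_dvd_left c P)⟩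
  have h2 := Finset.sum_le_sum h1
  rw [Finset.sum_sub_distrib, Finset.sum_const, hg6d_rep_card hP, nsmul_eq_mul, mul_one,
    Finset.sum_comm] at h2
  have h3 : ∑ t ∈ hg6d_T P, ∑ c ∈ Rep P, (if t ∣ c then 1 / (nrm t : ℝ) else 0) ≤
      ∑ t ∈ hg6d_T P, (nrm P : ℝ) * (1 / (nrm t : ℝ) ^ 2) := by
    refine Finset.sum_le_sum fun t ht => ?_
    rw [← Finset.sum_filter, Finset.sum_const, nsmul_eq_mul]
    have h4 := hg6d_cnt hP ((hg6d_mem_T hP).1 ht).2.2.2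
    calc (((Rep P).filter (fun c => t ∣ c)).card : ℝ) * (1 / (nrm t : ℝ))
        ≤ ((nrm P : ℝ) / (nrm t : ℝ)) * (1 / (nrm t : ℝ)) :=
          mul_le_mul_of_nonneg_right h4 (by positivity)
      _ = (nrm P : ℝ) * (1 / (nrm t : ℝ) ^ 2) := by ring
  rw [← Finset.mul_sum] at h3
  unfold GP
  rw [one_div, ← div_eq_inv_mul, le_div_iff₀ hN, sub_mul, one_mul]
  linarith

theorem hg6d_sq_sum (n : ℕ) : ∑ a ∈ Finset.Icc 2 n, 1 / (a : ℝ) ^ 2 ≤ 3 / 4 := by
  rcases Nat.lt_or_ge n 2 with h | h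
  · rw [Finset.Icc_eq_empty (by omega), Finset.sum_empty]; norm_num
  · have key : ∑ a ∈ Finset.Icc 2 n, 1 / (a : ℝ) ^ 2 ≤ 3 / 4 - 1 / (n : ℝ) := by
      induction n, h using Nat.le_induction with
      | base => norm_num
      | succ n hn ih =>
        rw [Finset.sum_Icc_succ_top (by omega)]
        have hn0 : (0 : ℝ) < n := by exact_mod_cast (by omega : 0 < n)
        have h1 : 1 / ((n + 1 : ℕ) : ℝ) ^ 2 ≤ 1 / (n : ℝ) - 1 / ((n + 1 : ℕ) : ℝ) := by
          push_cast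
          rw [div_sub_div _ _ hn0.ne' (by positivity), div_le_div_iff₀ (by positivity) (by positivity)]
          nlinarith
        linarith
    have : 0 ≤ 1 / (n : ℝ) := by positivity
    linarith

theorem hg6d_sq_sum' (n : ℕ) : ∑ a ∈ Finset.Icc 1 n, 1 / (a : ℝ) ^ 2 ≤ 7 / 4 := by
  rcases Nat.lt_or_ge n 1 with h | h
  · rw [Finset.Icc_eq_empty (by omega), Finset.sum_empty]; norm_num
  · rw [← Finset.add_sum_Ioc_eq_sum_Icc h]
    have h1 : Finset.Ioc 1 n = Finset.Icc 2 n := by ext x; simp; omega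
    rw [h1]
    have := hg6d_sq_sum n
    norm_num
    norm_num at this
    linarith

theorem hg6d_four_sum (n : ℕ) : ∑ a ∈ Finset.Icc 2 n, 1 / (a : ℝ) ^ 4 ≤ 3 / 16 := by
  have h1 : ∑ a ∈ Finset.Icc 2 n, 1 / (a : ℝ) ^ 4 ≤ ∑ a ∈ Finset.Icc 2 n, (1 / 4) * (1 / (a : ℝ) ^ 2) := by
    refine Finset.sum_le_sum fun a ha => ?_
    have ha2 : (2 : ℝ) ≤ a := by exact_mod_cast (Finset.mem_Icc.1 ha).1
    have h2 : (1 : ℝ) / 4 * (1 / (a : ℝ) ^ 2) = 1 / (4 * (a : ℝ) ^ 2) := by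
      field_simp
    rw [h2]
    refine one_div_le_one_div_of_le (by positivity) ?_
    nlinarith [sq_nonneg ((a : ℝ)), mul_nonneg (sq_nonneg (a : ℝ)) (sub_nonneg.2 ha2)]
  rw [← Finset.mul_sum] at h1
  have := hg6d_sq_sum n
  linarith

/-- majorant of `N(t)⁻²` -/
noncomputable def hg6d_h (a b : ℕ) : ℝ :=
  if b = 0 then (if a = 1 then 0 else 1 / (a : ℝ) ^ 4)
  else (1 / 4) * (1 / (a : ℝ) ^ 2) * (1 / (b : ℝ) ^ 2)

theorem hg6d_h_nonneg (a b : ℕ) : 0 ≤ hg6d_h a b := by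
  unfold hg6d_h
  split_ifs <;> positivity

theorem hg6d_h_sum (N : ℕ) :
    ∑ p ∈ Finset.Icc 1 N ×ˢ Finset.range (N + 1), hg6d_h p.1 p.2 ≤ 61 / 64 := by
  rw [Finset.sum_product]
  have h1 : ∀ a ∈ Finset.Icc 1 N, ∑ b ∈ Finset.range (N + 1), hg6d_h a b =
      (if a = 1 then 0 else 1 / (a : ℝ) ^ 4) +
        (1 / 4) * (1 / (a : ℝ) ^ 2) * ∑ b ∈ Finset.Icc 1 N, (1 / (b : ℝ) ^ 2) := by
    intro a _
    have e1 : Finset.range (N + 1) = insert 0 (Finset.Icc 1 N) := by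
      ext x
      simp only [Finset.mem_range, Finset.mem_insert, Finset.mem_Icc]
      omega
    rw [e1, Finset.sum_insert (by simp), Finset.mul_sum]
    congr 1
    refine Finset.sum_congr rfl fun b hb => ?_
    have hb1 : b ≠ 0 := by
      have := (Finset.mem_Icc.1 hb).1
      omega
    unfold hg6d_h
    rw [if_neg hb1]
  rw [Finset.sum_congr rfl h1, Finset.sum_add_distrib, ← Finset.sum_mul, ← Finset.mul_sum]
  have h2 := hg6d_sq_sum' N
  have h3 : ∑ a ∈ Finset.Icc 1 N, (if a = 1 then 0 else 1 / (a : ℝ) ^ 4) ≤ 3 / 16 := by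
    have e1 : ∑ a ∈ Finset.Icc 1 N, (if a = 1 then 0 else 1 / (a : ℝ) ^ 4) ≤
        ∑ a ∈ Finset.Icc 2 N, 1 / (a : ℝ) ^ 4 := by
      have e2 : ∀ a ∈ Finset.Icc 1 N, (if a = 1 then 0 else 1 / (a : ℝ) ^ 4) =
          (if a ≠ 1 then 1 / (a : ℝ) ^ 4 else 0) := by
        intro a _
        by_cases h : a = 1
        · rw [if_pos h, if_neg (not_not.2 h)]
        · rw [if_neg h, if_pos h]
      rw [Finset.sum_congr rfl e2, ← Finset.sum_filter]
      refine Finset.sum_le_sum_of_subset_of_nonneg ?_ (fun _ _ _ => by positivity)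
      intro x hx
      simp only [Finset.mem_filter, Finset.mem_Icc] at hx ⊢
      omega
    exact e1.trans (hg6d_four_sum N)
  have h4 : 0 ≤ ∑ b ∈ Finset.Icc 1 N, (1 / (b : ℝ) ^ 2) := Finset.sum_nonneg (fun _ _ => by positivity)
  nlinarith

theorem hg6d_T_sum {P : ZI} (hP : P ≠ 0) : ∑ t ∈ hg6d_T P, 1 / (nrm t : ℝ) ^ 2 ≤ 61 / 64 := by
  classical
  refine le_trans ?_ (hg6d_h_sum (nrm P))
  have hn : ∀ a : ZI, (nrm a : ℤ) = a.re ^ 2 + a.im ^ 2 := by
    intro a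
    unfold nrm
    rw [Int.natAbs_of_nonneg (Zsqrtd.norm_nonneg (by norm_num) a), Zsqrtd.norm]
    ring
  have h1 : ∑ t ∈ hg6d_T P, 1 / (nrm t : ℝ) ^ 2 ≤
      ∑ t ∈ hg6d_T P, hg6d_h t.re.natAbs t.im.natAbs := by
    refine Finset.sum_le_sum fun t ht => ?_
    obtain ⟨h1, h2, h3, _⟩ := (hg6d_mem_T hP).1 ht
    obtain ⟨a, ha⟩ := Int.eq_ofNat_of_zero_le h1.le
    obtain ⟨b, hb⟩ := Int.eq_ofNat_of_zero_le h2
    have h4 := hn t
    rw [ha, hb] at h4
    rw [ha] at h1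
    have h5 : nrm t = a ^ 2 + b ^ 2 := by exact_mod_cast h4
    have ha0 : 0 < a := by exact_mod_cast h1
    rw [ha, hb, Int.natAbs_natCast, Int.natAbs_natCast, h5]
    rw [h5] at h3
    unfold hg6d_h
    split_ifs with hb0 ha1
    · subst hb0; subst ha1; norm_num at h3
    · subst hb0
      push_cast
      apply le_of_eq
      ring
    · have hb1 : 0 < b := Nat.pos_of_ne_zero hb0
      have ha' : (0 : ℝ) < a := by exact_mod_cast ha0
      have hb' : (0 : ℝ) < b := by exact_mod_cast hb1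
      have h6 : (1 : ℝ) / 4 * (1 / (a : ℝ) ^ 2) * (1 / (b : ℝ) ^ 2) = 1 / (2 * a * b) ^ 2 := by
        field_simp
        norm_num
      rw [h6]
      push_cast
      refine one_div_le_one_div_of_le (by positivity) ?_
      refine pow_le_pow_left₀ (by positivity) ?_ 2
      nlinarith [sq_nonneg ((a : ℝ) - b)]
  refine le_trans h1 ?_
  have hinj : Set.InjOn (fun t : ZI => (t.re.natAbs, t.im.natAbs)) (hg6d_T P : Set ZI) := by
    intro t ht t' ht' h
    have h1 := (hg6d_mem_T hP).1 (Finset.mem_coe.1 ht)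
    have h2 := (hg6d_mem_T hP).1 (Finset.mem_coe.1 ht')
    simp only [Prod.mk.injEq] at h
    ext
    · omega
    · omega
  have h2 : ∑ t ∈ hg6d_T P, hg6d_h t.re.natAbs t.im.natAbs =
      ∑ p ∈ (hg6d_T P).image (fun t : ZI => (t.re.natAbs, t.im.natAbs)), hg6d_h p.1 p.2 := by
    rw [Finset.sum_image (fun x hx y hy h => hinj hx hy h)]
  rw [h2]
  refine Finset.sum_le_sum_of_subset_of_nonneg ?_ (fun _ _ _ => hg6d_h_nonneg _ _)
  intro p hp
  obtain ⟨t, ht, rfl⟩ := Finset.mem_image.1 hp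
  have h3 := (hg6d_mem_T hP).1 ht
  have h4 : nrm t ≤ nrm P := (hg6d_mem_BX.1 (Finset.mem_filter.1 ht).1).2
  have h5 := hn t
  have h6 : (nrm t : ℤ) ≤ nrm P := by exact_mod_cast h4
  rw [h5] at h6
  simp only [Finset.mem_product, Finset.mem_Icc, Finset.mem_range]
  have h7 : t.re ≤ nrm P := by nlinarith [sq_nonneg t.im, h3.1]
  have h8 : t.im ≤ nrm P := by nlinarith [sq_nonneg t.re, h3.1, h3.2.1]
  omega

/-- HG6d: `GP P` is bounded below -/
theorem GP_lower : ∃ g : ℝ, 0 < g ∧ ∀ P : ZI, P ≠ 0 → g ≤ GP P := by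
  refine ⟨3 / 64, by norm_num, fun P hP => ?_⟩
  have h1 := hg6d_GP hP
  have h2 := hg6d_T_sum hP
  linarith

end H385
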