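import Pool.Agent.H385R6.HgDefs
import Pool.Agent.H385R6.HG3d
import Pool.Agent.H385R6.HG6a
import Pool.Agent.H385R5.HE9

/-!
TEAM Q3, project HG (helper385): task HG6e, mass of the family with `χ(i) = -i` (helper20).
-/

open Complex Filter Topology Set MeasureTheory

namespace H385

open Pool.Agent.H304R3.HK (tc HC CS bb LamK psi bH aH LH Rep)

theorem hg6e_nrm_mul (a b : ZI) : nrm (a * b) = nrm a * nrm b := by
  unfold nrm
  rw [Zsqrtd.norm_mul, Int.natAbs_mul]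

theorem hg6e_nrm_pos {a : ZI} (h : a ≠ 0) : 0 < nrm a :=
  Int.natAbs_pos.2 (GaussianInt.norm_pos.2 h).ne'

theorem hg6e_nrm_cast (a : ZI) : (nrm a : ℤ) = a.re ^ 2 + a.im ^ 2 := by
  unfold nrm
  rw [Int.natCast_natAbs, abs_of_nonneg (GaussianInt.norm_nonneg a), Zsqrtd.norm_def]
  ring

theorem hg6e_mem_BX (N : ℕ) (a : ZI) : a ∈ BX N ↔ a ≠ 0 ∧ nrm a ≤ N := by
  have hc := hg6e_nrm_cast a
  unfold BX
  simp only [Finset.mem_image, Finset.mem_filter, Finset.mem_product, Finset.mem_Icc]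
  constructor
  · rintro ⟨p, ⟨_, h1, h2⟩, rfl⟩
    refine ⟨?_, ?_⟩
    · intro h0
      have h3 : p.1 = 0 := congrArg Zsqrtd.re h0
      have h4 : p.2 = 0 := congrArg Zsqrtd.im h0
      rw [h3, h4] at h1
      norm_num at h1
    · simp only at hc
      omega
  · rintro ⟨h0, h1⟩
    have h2 := hg6e_nrm_pos h0
    have h3 : a.re ^ 2 + a.im ^ 2 ≤ N := by omega
    refine ⟨(a.re, a.im), ⟨⟨⟨?_, ?_⟩, ?_, ?_⟩, ?_, h3⟩, rfl⟩
    · nlinarith [sq_nonneg (a.re + 1), sq_nonneg a.im, sq_nonneg a.re]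
    · nlinarith [sq_nonneg (a.re - 1), sq_nonneg a.im, sq_nonneg a.re]
    · nlinarith [sq_nonneg (a.im + 1), sq_nonneg a.im, sq_nonneg a.re]
    · nlinarith [sq_nonneg (a.im - 1), sq_nonneg a.im, sq_nonneg a.re]
    · show 1 ≤ a.re ^ 2 + a.im ^ 2
      omega

/-- number of primitive characters modulo `q` with `χ(i) = -i` -/
noncomputable def hg6e_m (q : ZI) : ℕ :=
  Set.ncard {χ : MulChar (RQ q) ℂ | PrimC q χ ∧ chiZ q χ im1 = -I}

theorem hg6e_fin {q : ZI} (hq : q ≠ 0) :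
    {χ : MulChar (RQ q) ℂ | PrimC q χ ∧ chiZ q χ im1 = -I}.Finite := by
  have := (fq_finite q hq).1
  exact Set.toFinite _

open Classical in
theorem hg6e_Wm (X Y : ℕ) : Wm X Y =
    ∑ q ∈ (BX Y).filter (fun q => X < nrm q), (1 / (nrm q : ℝ) ^ 2) * (hg6e_m q : ℝ) := by
  unfold Wm famZ
  refine Finset.sum_congr rfl fun q hq => ?_
  have hq0 : q ≠ 0 := ((hg6e_mem_BX _ _).1 (Finset.mem_filter.1 hq).1).1
  have hf := (fq_finite q hq0).1
  congr 1
  rw [finsum_mem_eq_finite_toFinset_sum _ (Set.toFinite _), Finset.sum_boole, hg6e_m,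
    Set.ncard_eq_toFinset_card _ (Set.toFinite _)]
  congr 2
  ext χ
  simp

theorem hg6e_m_le {q : ZI} (hq : q ≠ 0) : (hg6e_m q : ℝ) ≤ nrm q := by
  have h0 := he1_finite hq
  have hf := (fq_finite q hq).1
  have hft : Fintype (MulChar (RQ q) ℂ) := Fintype.ofFinite _
  have hne : NeZero ((Monoid.exponent (RQ q)ˣ : ℕ) : ℂ) := ⟨by
    have : Monoid.exponent (RQ q)ˣ ≠ 0 := Monoid.exponent_ne_zero_of_finite
    exact_mod_cast this⟩
  have h1 : Nat.card (MulChar (RQ q) ℂ) = Nat.card (RQ q)ˣ :=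
      MulChar.card_eq_card_units_of_hasEnoughRootsOfUnity (RQ q) ℂ
  have h2 : hg6e_m q ≤ Nat.card (MulChar (RQ q) ℂ) := by
    unfold hg6e_m
    rw [← Set.ncard_univ]
    exact Set.ncard_le_ncard (Set.subset_univ _) (Set.toFinite _)
  have h3 := (phq_gP 1 q one_ne_zero hq).2.2.2.2
  unfold phq at h3
  have h4 : (0 : ℝ) < nrm q := by exact_mod_cast hg6e_nrm_pos hq
  rw [div_le_one h4] at h3
  refine le_trans ?_ h3
  unfold phiQ
  rw [← h1]
  exact_mod_cast h2

theorem hg6e_cop {q a : ZI} (h : IsUnit (Ideal.Quotient.mk (Ideal.span {q}) a)) : IsCoprime a q := by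
  obtain ⟨b, hb⟩ := h.exists_right_inv
  obtain ⟨b, rfl⟩ := Ideal.Quotient.mk_surjective b
  rw [← map_mul, ← map_one (Ideal.Quotient.mk (Ideal.span {q})), Ideal.Quotient.eq,
    Ideal.mem_span_singleton] at hb
  obtain ⟨c, hc⟩ := hb
  exact ⟨b, -c, by linear_combination hc⟩

theorem hg6e_lift (d : ZI) (g : ZI →* ℂ) (hper : ∀ a b, d ∣ a - b → g a = g b)
    (hsupp : ∀ a, ¬ IsCoprime a d → g a = 0) :
    ∃ ψ : MulChar (RQ d) ℂ, ∀ a, chiZ d ψ a = g a := by
  have hout : ∀ a : ZI, g (Quotient.out (Ideal.Quotient.mk (Ideal.span {d}) a)) = g a := by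
    intro a
    apply hper
    have h1 : Ideal.Quotient.mk (Ideal.span {d})
        (Quotient.out (Ideal.Quotient.mk (Ideal.span {d}) a)) =
        Ideal.Quotient.mk (Ideal.span {d}) a := Ideal.Quotient.mk_out _
    rw [Ideal.Quotient.eq, Ideal.mem_span_singleton] at h1
    exact h1
  refine ⟨{ toFun := fun x => g (Quotient.out x), map_one' := ?_, map_mul' := ?_,
            map_nonunit' := ?_ }, ?_⟩
  · have := hout 1
    rw [map_one] at this
    rw [this, map_one]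
  · intro x y
    obtain ⟨a, rfl⟩ := Ideal.Quotient.mk_surjective x
    obtain ⟨b, rfl⟩ := Ideal.Quotient.mk_surjective y
    show g (Quotient.out (Ideal.Quotient.mk (Ideal.span {d}) a *
      Ideal.Quotient.mk (Ideal.span {d}) b)) = _
    rw [← map_mul, hout, map_mul, hout, hout]
  · intro x hx
    obtain ⟨a, rfl⟩ := Ideal.Quotient.mk_surjective x
    show g (Quotient.out (Ideal.Quotient.mk (Ideal.span {d}) a)) = 0
    rw [hout]
    exact hsupp a (fun h => hx (he2_unit h))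
  · intro a
    exact hout a

theorem hg6e_assoc (d u : ZI) (hu : IsUnit u) (g : ZI →* ℂ) (h : HC d g) :
    ∃ ψ : MulChar (RQ (u * d)) ℂ, PrimC (u * d) ψ ∧ chiZ (u * d) ψ im1 = -I ∧
      ∀ a, chiZ (u * d) ψ a = g a := by
  obtain ⟨ψ, hψ⟩ := hg6e_lift (u * d) g (fun a b hab => h.per a b (dvd_of_mul_left_dvd hab))
    (fun a ha => by
      by_contra hc
      exact ha ((isCoprime_mul_unit_left_right hu a d).2 ((h.supp a).1 hc)))
  refine ⟨ψ, ?_, ?_, hψ⟩
  · intro e he hne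
    obtain ⟨a, h1, h2, h3⟩ := h.prim e (hu.dvd_mul_left.1 he) (fun h' => hne (hu.mul_left_dvd.2 h'))
    refine ⟨a, (isCoprime_mul_unit_left_right hu a d).2 h1, h2, ?_⟩
    rw [hψ]
    exact h3
  · rw [hψ]
    exact h.unit

theorem hg6e_ext {q : ZI} {χ χ' : MulChar (RQ q) ℂ}
    (h : ∀ a : ZI, IsCoprime a q → chiZ q χ a = chiZ q χ' a) : χ = χ' := by
  refine MulChar.ext fun u => ?_
  obtain ⟨a, ha⟩ := Ideal.Quotient.mk_surjective (u : RQ q)
  rw [← ha]
  exact h a (hg6e_cop (by rw [ha]; exact u.isUnit))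

theorem hg6e_pow_inj {i j : ℕ} (hi : i < 4) (hj : j < 4) (h : im1 ^ i = im1 ^ j) : i = j := by
  interval_cases i <;> interval_cases j <;> first | rfl | (exfalso; revert h; decide)

open Classical in
/-- the primitive characters modulo `q` with `χ(i) = -i` as a finite set -/
noncomputable def hg6e_P (q : ZI) : Finset (MulChar (RQ q) ℂ) :=
  if h : q ≠ 0 then (hg6e_fin h).toFinset else ∅

theorem hg6e_mem_P {q : ZI} (hq : q ≠ 0) (χ : MulChar (RQ q) ℂ) :
    χ ∈ hg6e_P q ↔ PrimC q χ ∧ chiZ q χ im1 = -I := by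
  unfold hg6e_P
  rw [dif_pos hq]
  simp

theorem hg6e_card_P {q : ZI} (hq : q ≠ 0) : (hg6e_P q).card = hg6e_m q := by
  unfold hg6e_P hg6e_m
  rw [dif_pos hq, Set.ncard_eq_toFinset_card _ (hg6e_fin hq)]

open Classical in
theorem hg6e_key (q : ZI) (hq : q ≠ 0) :
    (FQs q).card * 4 ≤ ∑ q' ∈ (BX (nrm q)).filter (fun q' => q' ∣ q), hg6e_m q' := by
  have h1 : ∀ χ : MulChar (RQ q) ℂ, ∃ (d : ZI) (ψ : ZI →* ℂ), χ ∈ FQs q →
      (d ∣ q ∧ HC d ψ ∧ ∀ a : ZI, IsCoprime a q → ψ a = chiZ q χ a) := by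
    intro χ
    by_cases hχ : χ ∈ FQs q
    · obtain ⟨d, ψ, h⟩ := prim_exists q hq χ (((fq_finite q hq).2.2 χ).1 hχ)
      exact ⟨d, ψ, fun _ => h⟩
    · exact ⟨0, 1, fun h => absurd h hχ⟩
  choose d ψ hd using h1
  have him : ∀ j : ℕ, IsUnit (im1 ^ j) := by
    intro j
    apply IsUnit.pow
    exact IsUnit.of_mul_eq_one ⟨0, -1⟩ (by decide)
  have h2 : ∀ (χ : MulChar (RQ q) ℂ) (j : ℕ), ∃ Ψ : MulChar (RQ (im1 ^ j * d χ)) ℂ, χ ∈ FQs q →
      (PrimC (im1 ^ j * d χ) Ψ ∧ chiZ (im1 ^ j * d χ) Ψ im1 = -I ∧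
        ∀ a, chiZ (im1 ^ j * d χ) Ψ a = ψ χ a) := by
    intro χ j
    by_cases hχ : χ ∈ FQs q
    · obtain ⟨Ψ, h⟩ := hg6e_assoc (d χ) (im1 ^ j) (him j) (ψ χ) (hd χ hχ).2.1
      exact ⟨Ψ, fun _ => h⟩
    · exact ⟨1, fun h => absurd h hχ⟩
  choose Ψ hΨ using h2
  have h3 : (FQs q).card * 4 = (FQs q ×ˢ Finset.range 4).card := by
    rw [Finset.card_product, Finset.card_range]
  have h4 : ∑ q' ∈ (BX (nrm q)).filter (fun q' => q' ∣ q), hg6e_m q' =
      (((BX (nrm q)).filter (fun q' => q' ∣ q)).sigma hg6e_P).card := by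
    rw [Finset.card_sigma]
    refine Finset.sum_congr rfl fun q' hq' => ?_
    exact (hg6e_card_P ((hg6e_mem_BX _ _).1 (Finset.mem_filter.1 hq').1).1).symm
  rw [h3, h4]
  refine Finset.card_le_card_of_injOn
    (fun p => (⟨im1 ^ p.2 * d p.1, Ψ p.1 p.2⟩ : Σ q' : ZI, MulChar (RQ q') ℂ)) ?_ ?_
  · rintro ⟨χ, j⟩ hp
    have hχ : χ ∈ FQs q := (Finset.mem_product.1 hp).1
    obtain ⟨e1, e2, e3⟩ := hd χ hχ
    obtain ⟨g1, g2, g3⟩ := hΨ χ j hχ
    have h0 : im1 ^ j * d χ ≠ 0 := mul_ne_zero (him j).ne_zero e2.q0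
    have hdv : im1 ^ j * d χ ∣ q := (him j).mul_left_dvd.2 e1
    simp only [Finset.coe_sigma, Set.mem_sigma_iff, Finset.mem_coe, Finset.mem_filter]
    exact ⟨⟨(hg6e_mem_BX _ _).2 ⟨h0, he3_nrm hdv hq⟩, hdv⟩, (hg6e_mem_P h0 _).2 ⟨g1, g2⟩⟩
  · rintro ⟨χ, j⟩ hp ⟨χ', j'⟩ hp' heq
    have hχ : χ ∈ FQs q := (Finset.mem_product.1 hp).1
    have hχ' : χ' ∈ FQs q := (Finset.mem_product.1 hp').1
    have hj : j < 4 := Finset.mem_range.1 (Finset.mem_product.1 hp).2
    have hj' : j' < 4 := Finset.mem_range.1 (Finset.mem_product.1 hp').2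
    have h5 : ∀ a : ZI, ψ χ a = ψ χ' a := by
      intro a
      have h6 := congrArg (fun s : (Σ q' : ZI, MulChar (RQ q') ℂ) => chiZ s.1 s.2 a) heq
      simp only at h6
      rw [(hΨ χ j hχ).2.2 a, (hΨ χ' j' hχ').2.2 a] at h6
      exact h6
    have h7 : χ = χ' := by
      refine hg6e_ext fun a ha => ?_
      rw [← (hd χ hχ).2.2 a ha, ← (hd χ' hχ').2.2 a ha]
      exact h5 a
    subst h7
    have h8 : im1 ^ j * d χ = im1 ^ j' * d χ := congrArg Sigma.fst heq
    have h9 := mul_right_cancel₀ (hd χ hχ).2.1.q0 h8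
    rw [hg6e_pow_inj hj hj' h9]

theorem hg6e_summ : Summable (fun k : ZI =>
    if k = 0 then (0 : ℝ) else 1 / ((nrm k : ℝ) * Real.sqrt (nrm k))) := by
  have h1 := EisensteinSeries.summable_one_div_norm_rpow (k := 3) (by norm_num)
  have hinj : Function.Injective (fun a : ZI => (![a.re, a.im] : Fin 2 → ℤ)) := by
    intro a b h
    have h0 : a.re = b.re := congrFun h 0
    have h2 : a.im = b.im := congrFun h 1
    exact Zsqrtd.ext h0 h2
  have h2 := h1.comp_injective hinj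
  refine Summable.of_nonneg_of_le (fun k => ?_) (fun k => ?_) h2
  · split_ifs
    · exact le_rfl
    · positivity
  · simp only [Function.comp_apply]
    split_ifs with hk
    · positivity
    · have hn : (0 : ℝ) < nrm k := by exact_mod_cast hg6e_nrm_pos hk
      have hc : (nrm k : ℝ) = (k.re : ℝ) ^ 2 + (k.im : ℝ) ^ 2 := by
        exact_mod_cast hg6e_nrm_cast k
      have h3 : ‖(![k.re, k.im] : Fin 2 → ℤ)‖ ≤ Real.sqrt (nrm k) := by
        rw [pi_norm_le_iff_of_nonneg (Real.sqrt_nonneg _)]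
        intro i
        fin_cases i
        · simp only [Fin.zero_eta, Fin.isValue, Matrix.cons_val_zero]
          rw [Int.norm_eq_abs]
          apply Real.abs_le_sqrt
          rw [hc]
          nlinarith [sq_nonneg (k.im : ℝ)]
        · simp only [Fin.mk_one, Fin.isValue, Matrix.cons_val_one, Matrix.cons_val_fin_one]
          rw [Int.norm_eq_abs]
          apply Real.abs_le_sqrt
          rw [hc]
          nlinarith [sq_nonneg (k.re : ℝ)]
      have h4 : 0 < ‖(![k.re, k.im] : Fin 2 → ℤ)‖ := by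
        rw [norm_pos_iff]
        intro h0
        apply hk
        have e0 : k.re = 0 := congrFun h0 0
        have e1 : k.im = 0 := congrFun h0 1
        exact Zsqrtd.ext e0 e1
      rw [Real.rpow_neg h4.le, one_div]
      apply inv_anti₀
      · positivity
      · have h5 : ‖(![k.re, k.im] : Fin 2 → ℤ)‖ ^ (3 : ℝ) = ‖(![k.re, k.im] : Fin 2 → ℤ)‖ ^ 3 := by
          exact_mod_cast Real.rpow_natCast _ 3
        rw [h5]
        calc ‖(![k.re, k.im] : Fin 2 → ℤ)‖ ^ 3 ≤ (Real.sqrt (nrm k)) ^ 3 :=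
              pow_le_pow_left₀ h4.le h3 3
          _ = (nrm k : ℝ) * Real.sqrt (nrm k) := by
              rw [pow_succ, Real.sq_sqrt hn.le]

theorem hg6e_inner {C1 : ℝ} (hC : ∀ (x1 x2 : ℝ) (j0 : ZI) (F : Finset ZI),
    0 < x1 → x1 ≤ x2 → (∀ j ∈ F, j ≠ 0 ∧ (1 : ZI) ∣ j - j0 ∧ x1 < (nrm j : ℝ) ∧ (nrm j : ℝ) ≤ x2) →
    ∑ j ∈ F, 1 / (nrm j : ℝ) ≤ Real.pi / (nrm (1 : ZI) : ℝ) * Real.log (x2 / x1) + C1)
    (X Y : ℕ) (hX : 1 ≤ X) (k : ZI) (hk : k ≠ 0) :
    ∑ q ∈ (BX Y).filter (fun q => X < nrm k * nrm q), (hg6e_m q : ℝ) / (nrm q : ℝ) ^ 2 ≤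
      Wm X Y + (Real.pi * Real.log (nrm k) + C1) := by
  have hkn : (1 : ℝ) ≤ nrm k := by exact_mod_cast hg6e_nrm_pos hk
  have hX' : (1 : ℝ) ≤ X := by exact_mod_cast hX
  rw [← Finset.sum_filter_add_sum_filter_not _ (fun q => X < nrm q)]
  apply add_le_add
  · rw [hg6e_Wm]
    have h1 : ∀ q : ZI, (hg6e_m q : ℝ) / (nrm q : ℝ) ^ 2 = 1 / (nrm q : ℝ) ^ 2 * (hg6e_m q : ℝ) := by
      intro q; ring
    simp only [h1]
    apply Finset.sum_le_sum_of_subset_of_nonneg
    · intro q hq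
      rw [Finset.mem_filter, Finset.mem_filter] at hq
      rw [Finset.mem_filter]
      exact ⟨hq.1.1, hq.2⟩
    · intro q _ _
      positivity
  · have h2 := hC ((X : ℝ) / nrm k) X 0
      (((BX Y).filter (fun q => X < nrm k * nrm q)).filter (fun q => ¬ X < nrm q))
      (by positivity) (div_le_self (by positivity) hkn) ?_
    · have h3 : (nrm (1 : ZI) : ℝ) = 1 := by
        have : nrm (1 : ZI) = 1 := by decide
        exact_mod_cast this
      have h4 : (X : ℝ) / ((X : ℝ) / nrm k) = nrm k := by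
        field_simp
      rw [h3, h4, div_one] at h2
      refine le_trans (Finset.sum_le_sum fun q hq => ?_) h2
      rw [Finset.mem_filter, Finset.mem_filter, hg6e_mem_BX] at hq
      have h5 := hg6e_m_le hq.1.1.1
      have h6 : (0 : ℝ) < nrm q := by exact_mod_cast hg6e_nrm_pos hq.1.1.1
      rw [div_le_div_iff₀ (by positivity) h6]
      nlinarith
    · intro j hj
      rw [Finset.mem_filter, Finset.mem_filter, hg6e_mem_BX] at hj
      refine ⟨hj.1.1.1, one_dvd _, ?_, ?_⟩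
      · rw [div_lt_iff₀ (by linarith)]
        have := hj.1.2
        rw [mul_comm] at this
        exact_mod_cast this
      · exact_mod_cast Nat.le_of_not_lt hj.2

open Classical in
theorem hg6e_regroup (X Y : ℕ) :
    ∑ q ∈ (BX Y).filter (fun q => X < nrm q), (1 / (nrm q : ℝ) ^ 2) *
      ∑ q' ∈ (BX (nrm q)).filter (fun q' => q' ∣ q), (hg6e_m q' : ℝ) ≤
    ∑ k ∈ BX Y, (1 / (nrm k : ℝ) ^ 2) *
      ∑ q' ∈ (BX Y).filter (fun q' => X < nrm k * nrm q'), (hg6e_m q' : ℝ) / (nrm q' : ℝ) ^ 2 := by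
  simp only [Finset.mul_sum]
  rw [Finset.sum_comm' (s' := fun q' => ((BX Y).filter (fun q => X < nrm q)).filter (fun q => q' ∣ q))
    (t' := BX Y)]
  · rw [Finset.sum_comm' (s := BX Y) (t := fun k => (BX Y).filter (fun q' => X < nrm k * nrm q'))
      (s' := fun q' => (BX Y).filter (fun k => X < nrm k * nrm q')) (t' := BX Y)]
    · refine Finset.sum_le_sum fun q' hq' => ?_
      have hq0 : q' ≠ 0 := ((hg6e_mem_BX _ _).1 hq').1
      have h1 : ((BX Y).filter (fun q => X < nrm q)).filter (fun q => q' ∣ q) ⊆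
          ((BX Y).filter (fun k => X < nrm k * nrm q')).image (fun k => k * q') := by
        intro q hq
        rw [Finset.mem_filter, Finset.mem_filter, hg6e_mem_BX] at hq
        obtain ⟨⟨⟨h2, h3⟩, h4⟩, c, h5⟩ := hq
        rw [Finset.mem_image]
        refine ⟨c, ?_, by rw [h5, mul_comm]⟩
        have hc0 : c ≠ 0 := fun h => h2 (by rw [h5, h, mul_zero])
        rw [Finset.mem_filter, hg6e_mem_BX]
        have h6 : nrm q = nrm c * nrm q' := by rw [h5, hg6e_nrm_mul, mul_comm]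
        refine ⟨⟨hc0, ?_⟩, by omega⟩
        have h7 := hg6e_nrm_pos hq0
        have h8 : nrm c * 1 ≤ nrm c * nrm q' := Nat.mul_le_mul_left _ h7
        omega
      refine le_trans (Finset.sum_le_sum_of_subset_of_nonneg h1 (fun q _ _ => by positivity)) ?_
      rw [Finset.sum_image (fun a _ b _ h => mul_right_cancel₀ hq0 h)]
      refine le_of_eq (Finset.sum_congr rfl fun k hk => ?_)
      rw [hg6e_nrm_mul]
      push_cast
      rw [mul_pow]
      field_simp
    · intro k q'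
      simp only [Finset.mem_filter]
      tauto
  · intro q q'
    simp only [Finset.mem_filter, hg6e_mem_BX]
    constructor
    · rintro ⟨⟨⟨h1, h2⟩, h3⟩, ⟨h4, h5⟩, h6⟩
      exact ⟨⟨⟨⟨h1, h2⟩, h3⟩, h6⟩, h4, by omega⟩
    · rintro ⟨⟨⟨⟨h1, h2⟩, h3⟩, h6⟩, h4, h5⟩
      exact ⟨⟨⟨h1, h2⟩, h3⟩, ⟨h4, he3_nrm h6 h1⟩, h6⟩

/-- HG6e: mass of the family with `χ(i) = -i` (from HE3 `fq_card`) -/
theorem Wm_lower : ∃ C : ℝ, 0 < C ∧ ∀ X Y : ℕ, 1 ≤ X → X ≤ Y →
    (1 / 4 : ℝ) * ∑ q ∈ (BX Y).filter (fun q => X < nrm q), phq q / (nrm q : ℝ) ≤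
      (∑' k : ZI, if k = 0 then 0 else (1 / 4 : ℝ) * (1 / (nrm k : ℝ) ^ 2)) * Wm X Y + C := by
  classical
  obtain ⟨C1, hC1, hC⟩ := class_sum 1 one_ne_zero
  have hS := hg6e_summ
  obtain ⟨g, hg⟩ : ∃ g : ZI → ℝ, g = fun k : ZI =>
    if k = 0 then (0 : ℝ) else 1 / ((nrm k : ℝ) * Real.sqrt (nrm k)) := ⟨_, rfl⟩
  rw [← hg] at hS
  have hg0 : ∀ k, 0 ≤ g k := by
    intro k
    rw [hg]
    simp only
    split_ifs
    · exact le_rfl
    · positivity
  have hS2 : Summable (fun k : ZI => if k = 0 then (0 : ℝ) else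
      (1 / 4 : ℝ) * (1 / (nrm k : ℝ) ^ 2)) := by
    refine Summable.of_nonneg_of_le (fun k => ?_) (fun k => ?_) hS
    · split_ifs
      · exact le_rfl
      · positivity
    · rw [hg]
      simp only
      split_ifs with hk
      · exact le_rfl
      · have hn : (1 : ℝ) ≤ nrm k := by exact_mod_cast hg6e_nrm_pos hk
        have h1 : Real.sqrt (nrm k) ≤ nrm k := by
          rw [Real.sqrt_le_left (by linarith)]
          nlinarith
        have h2 : 0 < Real.sqrt (nrm k) := Real.sqrt_pos.2 (by linarith)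
        have h3 : 1 / (nrm k : ℝ) ^ 2 ≤ 1 / ((nrm k : ℝ) * Real.sqrt (nrm k)) := by
          apply one_div_le_one_div_of_le (by positivity)
          nlinarith
        have h4 : 0 ≤ 1 / (nrm k : ℝ) ^ 2 := by positivity
        linarith
  have hG : 0 ≤ ∑' k, g k := tsum_nonneg hg0
  refine ⟨(BX 4).card + (2 * Real.pi + C1) * ∑' k, g k + 1, ?_, fun X Y hX hXY => ?_⟩
  · have := Real.pi_pos
    positivity
  -- termwise bound
  have hterm : ∀ q ∈ (BX Y).filter (fun q => X < nrm q), (1 / 4 : ℝ) * (phq q / (nrm q : ℝ)) ≤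
      (if nrm q ≤ 4 then (1 : ℝ) else 0) + (1 / 4 : ℝ) * ((1 / (nrm q : ℝ) ^ 2) *
        ∑ q' ∈ (BX (nrm q)).filter (fun q' => q' ∣ q), (hg6e_m q' : ℝ)) := by
    intro q hq
    rw [Finset.mem_filter, hg6e_mem_BX] at hq
    have hq0 := hq.1.1
    have hn : (1 : ℝ) ≤ nrm q := by exact_mod_cast hg6e_nrm_pos hq0
    split_ifs with h4
    · have h5 := (phq_gP 1 q one_ne_zero hq0).2.2.2
      have h6 : phq q / (nrm q : ℝ) ≤ 1 := by
        rw [div_le_one (by linarith)]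
        linarith
      have h7 : 0 ≤ (1 / 4 : ℝ) * ((1 / (nrm q : ℝ) ^ 2) *
        ∑ q' ∈ (BX (nrm q)).filter (fun q' => q' ∣ q), (hg6e_m q' : ℝ)) := by positivity
      linarith
    · have h5 := fq_card q (by omega)
      have h6 := hg6e_key q hq0
      have h7 : (phiQ q : ℝ) ≤ ∑ q' ∈ (BX (nrm q)).filter (fun q' => q' ∣ q), (hg6e_m q' : ℝ) := by
        have h8 : ((FQs q).card : ℝ) * 4 ≤
            ∑ q' ∈ (BX (nrm q)).filter (fun q' => q' ∣ q), (hg6e_m q' : ℝ) := by exact_mod_cast h6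
        rw [h5] at h8
        linarith
      have h9 : phq q / (nrm q : ℝ) = (1 / (nrm q : ℝ) ^ 2) * phiQ q := by
        unfold phq
        field_simp
      rw [h9, zero_add]
      have h10 : 0 ≤ 1 / (nrm q : ℝ) ^ 2 := by positivity
      nlinarith [mul_le_mul_of_nonneg_left h7 h10]
  have hW0 : 0 ≤ Wm X Y := by
    rw [hg6e_Wm]
    positivity
  rw [Finset.mul_sum]
  refine le_trans (Finset.sum_le_sum hterm) ?_
  rw [Finset.sum_add_distrib, ← Finset.mul_sum]
  have hA : ∑ q ∈ (BX Y).filter (fun q => X < nrm q), (if nrm q ≤ 4 then (1 : ℝ) else 0) ≤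
      (BX 4).card := by
    rw [Finset.sum_boole]
    have : (((BX Y).filter (fun q => X < nrm q)).filter (fun q => nrm q ≤ 4)).card ≤
        (BX 4).card := by
      apply Finset.card_le_card
      intro q hq
      rw [Finset.mem_filter, Finset.mem_filter, hg6e_mem_BX] at hq
      exact (hg6e_mem_BX _ _).2 ⟨hq.1.1.1, hq.2⟩
    exact_mod_cast this
  have hB := hg6e_regroup X Y
  have hD : ∑ k ∈ BX Y, (1 / (nrm k : ℝ) ^ 2) *
      ∑ q' ∈ (BX Y).filter (fun q' => X < nrm k * nrm q'), (hg6e_m q' : ℝ) / (nrm q' : ℝ) ^ 2 ≤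
      ∑ k ∈ BX Y, ((1 / (nrm k : ℝ) ^ 2) * Wm X Y + (2 * Real.pi + C1) * g k) := by
    refine Finset.sum_le_sum fun k hk => ?_
    have hk0 := ((hg6e_mem_BX _ _).1 hk).1
    have h1 := hg6e_inner hC X Y hX k hk0
    have hn : (1 : ℝ) ≤ nrm k := by exact_mod_cast hg6e_nrm_pos hk0
    have h10 : 0 ≤ 1 / (nrm k : ℝ) ^ 2 := by positivity
    refine le_trans (mul_le_mul_of_nonneg_left h1 h10) ?_
    rw [mul_add]
    have hs : 0 < Real.sqrt (nrm k) := Real.sqrt_pos.2 (by linarith)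
    have hs1 : 1 ≤ Real.sqrt (nrm k) := Real.one_le_sqrt.2 hn
    have hss : Real.sqrt (nrm k) * Real.sqrt (nrm k) = nrm k := Real.mul_self_sqrt (by linarith)
    have h2 : Real.log (nrm k) ≤ 2 * Real.sqrt (nrm k) := by
      have h3 : Real.log (Real.sqrt (nrm k)) ≤ Real.sqrt (nrm k) := by
        have := Real.log_le_sub_one_of_pos hs
        linarith
      rw [Real.log_sqrt (by linarith)] at h3
      linarith
    have h4 : Real.pi * Real.log (nrm k) + C1 ≤ (2 * Real.pi + C1) * Real.sqrt (nrm k) := by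
      have hpi := Real.pi_pos
      nlinarith [mul_le_mul_of_nonneg_left h2 hpi.le, mul_le_mul_of_nonneg_left hs1 hC1.le]
    have h5 : 1 / (nrm k : ℝ) ^ 2 * ((2 * Real.pi + C1) * Real.sqrt (nrm k)) =
        (2 * Real.pi + C1) * g k := by
      rw [hg]
      simp only [if_neg hk0]
      have hnk : (nrm k : ℝ) ≠ 0 := by linarith
      have hsk : Real.sqrt (nrm k) ≠ 0 := hs.ne'
      rw [div_mul_eq_mul_div, one_mul, mul_one_div, div_eq_div_iff (by positivity) (by positivity)]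
      rw [show (2 * Real.pi + C1) * Real.sqrt (nrm k) * ((nrm k : ℝ) * Real.sqrt (nrm k)) =
        (2 * Real.pi + C1) * (nrm k : ℝ) * (Real.sqrt (nrm k) * Real.sqrt (nrm k)) by ring, hss]
      ring
    have h6 := mul_le_mul_of_nonneg_left h4 h10
    rw [h5] at h6
    linarith
  have hE : ∑ k ∈ BX Y, ((1 / (nrm k : ℝ) ^ 2) * Wm X Y + (2 * Real.pi + C1) * g k) ≤
      4 * (∑' k : ZI, if k = 0 then 0 else (1 / 4 : ℝ) * (1 / (nrm k : ℝ) ^ 2)) * Wm X Y +
        (2 * Real.pi + C1) * ∑' k, g k := by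
    rw [Finset.sum_add_distrib, ← Finset.sum_mul, ← Finset.mul_sum]
    apply add_le_add
    · apply mul_le_mul_of_nonneg_right _ hW0
      have h1 : ∑ k ∈ BX Y, (if k = 0 then 0 else (1 / 4 : ℝ) * (1 / (nrm k : ℝ) ^ 2)) ≤
          ∑' k : ZI, if k = 0 then 0 else (1 / 4 : ℝ) * (1 / (nrm k : ℝ) ^ 2) := by
        apply hS2.sum_le_tsum
        intro k _
        split_ifs
        · exact le_rfl
        · positivity
      have h2 : ∑ k ∈ BX Y, 1 / (nrm k : ℝ) ^ 2 =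
          4 * ∑ k ∈ BX Y, (if k = 0 then 0 else (1 / 4 : ℝ) * (1 / (nrm k : ℝ) ^ 2)) := by
        rw [Finset.mul_sum]
        refine Finset.sum_congr rfl fun k hk => ?_
        rw [if_neg ((hg6e_mem_BX _ _).1 hk).1]
        ring
      rw [h2]
      linarith
    · have hpi := Real.pi_pos
      apply mul_le_mul_of_nonneg_left _ (by positivity)
      exact hS.sum_le_tsum _ (fun k _ => hg0 k)
  have hpi := Real.pi_pos
  have hfin : 0 ≤ (2 * Real.pi + C1) * ∑' k, g k := by positivity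
  linarith [hA, hB, hD, hE]

end H385
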