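import Pool.Agent.H385R6.Hg8Defs
import Pool.Agent.H385R5.HE9
import Pool.Agent.H385R5.HE10B

/-!
TEAM Q3, project HG, task HG8a.
-/

open Complex Filter Topology Set MeasureTheory

namespace H385

open Pool.Agent.H304R3.HK (tc HC CS bb LamK psi bH aH LH)

/-- a residue class which is a unit is coprime to the modulus -/
theorem hg8a_cop (q a : ZI) (h : IsUnit ((Ideal.Quotient.mk (Ideal.span {q})) a)) :
    IsCoprime a q := by
  obtain ⟨y, hy⟩ := h.exists_right_inv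
  obtain ⟨b, rfl⟩ := Ideal.Quotient.mk_surjective y
  rw [← map_mul, ← map_one (Ideal.Quotient.mk (Ideal.span {q})), Ideal.Quotient.eq,
    Ideal.mem_span_singleton] at hy
  obtain ⟨c, hc⟩ := hy
  exact ⟨b, -c, by linear_combination hc⟩

/-- primitive characters satisfy the hypotheses of the Hecke library -/
theorem hc_of_prim (q : ZI) (hq : q ≠ 0) (χ : MulChar (RQ q) ℂ) (h : PrimC q χ)
    (hχ : chiZ q χ im1 = -I) : HC q (chiZ q χ) := by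
  refine ⟨hq, he9_per q χ, ?_, he9_norm q hq χ, hχ, h⟩
  intro a
  constructor
  · intro h1
    by_contra h2
    apply h1
    have h3 : ¬ IsUnit ((Ideal.Quotient.mk (Ideal.span {q})) a) := fun h4 => h2 (hg8a_cop q a h4)
    exact χ.map_nonunit h3
  · exact he9_ne q χ a

theorem hg8a_fin {q : ZI} (hq : q ≠ 0) : Finite (MulChar (RQ q) ℂ) := by
  have := he9_fin hq
  infer_instance

theorem hg8a_PFs {q : ZI} (hq : q ≠ 0) (χ : MulChar (RQ q) ℂ) :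
    χ ∈ PFs q ↔ PrimC q χ ∧ chiZ q χ im1 = -I := by
  have := hg8a_fin hq
  have hfin : {χ : MulChar (RQ q) ℂ | PrimC q χ ∧ chiZ q χ im1 = -I}.Finite := Set.toFinite _
  unfold PFs
  rw [dif_pos hfin, Set.Finite.mem_toFinset]
  rfl

theorem hg8a_ne {Y : ℕ} {q : ZI} (hq : q ∈ BX Y) : q ≠ 0 := by
  rintro rfl
  have h := ((H10.mem_BX Y 0).1 hq).1
  have h0 := H10.nrm_eq 0
  simp only [Zsqrtd.re_zero, Zsqrtd.im_zero] at h0
  omega

open Classical in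
theorem hg8a_sum {q : ZI} (hq : q ≠ 0) (f : MulChar (RQ q) ℂ → ℝ) :
    ∑ᶠ χ ∈ {χ : MulChar (RQ q) ℂ | PrimC q χ}, (if chiZ q χ im1 = -I then f χ else 0) =
      ∑ χ ∈ PFs q, f χ := by
  have := hg8a_fin hq
  have hS : {χ : MulChar (RQ q) ℂ | PrimC q χ}.Finite := Set.toFinite _
  rw [finsum_mem_eq_finite_toFinset_sum _ hS, ← Finset.sum_filter]
  congr 1
  ext χ
  rw [Finset.mem_filter, Set.Finite.mem_toFinset, hg8a_PFs hq]
  rfl

theorem fs_mem (X Y : ℕ) (p : Σ q : ZI, MulChar (RQ q) ℂ) :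
    p ∈ FS X Y ↔ p.1 ≠ 0 ∧ X < nrm p.1 ∧ nrm p.1 ≤ Y ∧ PrimC p.1 p.2 ∧
      chiZ p.1 p.2 im1 = -I := by
  classical
  unfold FS
  rw [Finset.mem_sigma, Finset.mem_filter]
  constructor
  · rintro ⟨⟨h1, h2⟩, h3⟩
    have h4 := hg8a_ne h1
    have h5 := (hg8a_PFs h4 p.2).1 h3
    exact ⟨h4, h2, ((H10.mem_BX Y p.1).1 h1).2, h5.1, h5.2⟩
  · rintro ⟨h1, h2, h3, h4, h5⟩
    exact ⟨⟨(H10.mem_BX Y p.1).2 ⟨H10.nrm_pos h1, h3⟩, h2⟩, (hg8a_PFs h1 p.2).2 ⟨h4, h5⟩⟩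

theorem fs_mass (X Y : ℕ) : Wm X Y = ∑ p ∈ FS X Y, wF p := by
  classical
  unfold Wm famZ FS
  rw [Finset.sum_sigma]
  refine Finset.sum_congr rfl fun q hq => ?_
  have hq0 := hg8a_ne (Finset.mem_filter.1 hq).1
  have h := hg8a_sum hq0 (fun _ => (1 : ℝ))
  rw [h, Finset.mul_sum]
  refine Finset.sum_congr rfl fun χ _ => ?_
  unfold wF
  rw [mul_one]

theorem fs_le (X Y : ℕ) (f : (q : ZI) → MulChar (RQ q) ℂ → ℝ) (hf : ∀ q χ, 0 ≤ f q χ) :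
    ∑ p ∈ FS X Y, wF p * f p.1 p.2 ≤ famZ X Y f := by
  classical
  unfold famZ FS
  rw [Finset.sum_sigma]
  refine Finset.sum_le_sum fun q hq => ?_
  have hq0 := hg8a_ne (Finset.mem_filter.1 hq).1
  have := hg8a_fin hq0
  have hS : {χ : MulChar (RQ q) ℂ | PrimC q χ}.Finite := Set.toFinite _
  rw [finsum_mem_eq_finite_toFinset_sum _ hS]
  have h1 : ∑ χ ∈ PFs q, wF ⟨q, χ⟩ * f q χ = (1 / (nrm q : ℝ) ^ 2) * ∑ χ ∈ PFs q, f q χ := by
    rw [Finset.mul_sum]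
    rfl
  have h2 : ∑ χ ∈ PFs q, f q χ ≤ ∑ χ ∈ hS.toFinset, f q χ := by
    refine Finset.sum_le_sum_of_subset_of_nonneg ?_ fun χ _ _ => hf q χ
    intro χ hχ
    rw [Set.Finite.mem_toFinset]
    exact ((hg8a_PFs hq0 χ).1 hχ).1
  calc ∑ χ ∈ PFs q, wF ⟨q, χ⟩ * f q χ = (1 / (nrm q : ℝ) ^ 2) * ∑ χ ∈ PFs q, f q χ := h1
    _ ≤ (1 / (nrm q : ℝ) ^ 2) * ∑ χ ∈ hS.toFinset, f q χ :=
        mul_le_mul_of_nonneg_left h2 (by positivity)

end H385
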