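import Pool.Agent.H385R6.HG8a
import Pool.Agent.H385R6.HG5a
import Pool.Agent.H385R6.HG5b
import Pool.Agent.H385R6.HG6a
import Pool.Agent.H385R6.HG6b
import Pool.Agent.H385R6.HG6c
import Pool.Agent.H385R6.HG6d
import Pool.Agent.H385R6.HG6e

/-!
TEAM Q3, project HG, task HG8c (helper132): the large sieve for the family.
-/

open Complex Filter Topology Set MeasureTheory

namespace H385

/-- the constant -/
noncomputable def hg8c_z : ℝ := ∑' k : ZI, if k = 0 then 0 else (1 / 4 : ℝ) * (1 / (nrm k : ℝ) ^ 2)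

theorem hg8c_term_nonneg (k : ZI) :
    (0:ℝ) ≤ if k = 0 then 0 else (1 / 4 : ℝ) * (1 / (nrm k : ℝ) ^ 2) := by
  split_ifs <;> positivity

theorem hg8c_summ : Summable (fun k : ZI =>
    (if k = 0 then 0 else (1 / 4 : ℝ) * (1 / (nrm k : ℝ) ^ 2) : ℝ)) := by
  refine Summable.of_nonneg_of_le hg8c_term_nonneg (fun k => ?_) hg6e_summ
  split_ifs with hk
  · exact le_rfl
  · have hn : (1 : ℝ) ≤ nrm k := by exact_mod_cast hg6e_nrm_pos hk
    have h1 : Real.sqrt (nrm k) ≤ nrm k := by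
      rw [Real.sqrt_le_left (by linarith)]
      nlinarith
    have h2 : 0 < Real.sqrt (nrm k) := Real.sqrt_pos.2 (by linarith)
    have h3 : 1 / (nrm k : ℝ) ^ 2 ≤ 1 / ((nrm k : ℝ) * Real.sqrt (nrm k)) := by
      apply one_div_le_one_div_of_le
      · positivity
      · rw [pow_two]
        exact mul_le_mul_of_nonneg_left h1 (by linarith)
    have h4 : 0 ≤ 1 / (nrm k : ℝ) ^ 2 := by positivity
    linarith

theorem hg8c_nrm_one : nrm (1 : ZI) = 1 := by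
  unfold nrm
  rw [Zsqrtd.norm_one]
  rfl

theorem hg8c_z_pos : 0 < hg8c_z := by
  unfold hg8c_z
  refine hg8c_summ.tsum_pos hg8c_term_nonneg (1 : ZI) ?_
  rw [if_neg one_ne_zero, hg8c_nrm_one]
  norm_num

theorem hg8c_Wm_nonneg (X Y : ℕ) : 0 ≤ Wm X Y := by
  rw [fs_mass]
  refine Finset.sum_nonneg (fun p _ => ?_)
  unfold wF
  positivity

theorem hg8c_kapK_eq (K : ℕ) : kapK K =
    ∑ k ∈ BX K, (if k = 0 then 0 else (1 / 4 : ℝ) * (1 / (nrm k : ℝ) ^ 2)) := by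
  unfold kapK
  rw [Finset.mul_sum]
  refine Finset.sum_congr rfl (fun k hk => ?_)
  rw [if_neg (hg5b_BX_ne hk)]

theorem hg8c_kapK_tendsto : Tendsto (fun K : ℕ => kapK K) atTop (𝓝 hg8c_z) := by
  have h1 := hg8c_summ.hasSum
  -- restrict to the cofinal family `insert 0 (BX K)`
  have hmono : Monotone (fun K : ℕ => insert (0 : ZI) (BX K)) := by
    intro a b hab
    refine Finset.insert_subset_insert _ (fun x hx => ?_)
    rw [hg5b_mem_BX] at hx ⊢
    exact ⟨hx.1, hx.2.trans hab⟩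
  have hcof : Tendsto (fun K : ℕ => insert (0 : ZI) (BX K)) atTop atTop := by
    refine tendsto_atTop_finset_of_monotone hmono (fun x => ?_)
    by_cases hx : x = 0
    · exact ⟨0, by simp [hx]⟩
    · refine ⟨nrm x, Finset.mem_insert_of_mem ?_⟩
      rw [hg5b_mem_BX]
      exact ⟨hg6e_nrm_pos hx, le_rfl⟩
  have h2 := h1.comp hcof
  refine h2.congr (fun K => ?_)
  simp only [Function.comp]
  rw [Finset.sum_insert, hg8c_kapK_eq]
  · simp
  · intro h
    exact hg5b_BX_ne h rfl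

theorem hg8c_log_nonneg {X Y : ℕ} (hX : 1 ≤ X) (hXY : X ≤ Y) : 0 ≤ Real.log ((Y : ℝ) / X) := by
  apply Real.log_nonneg
  rw [le_div_iff₀ (by exact_mod_cast hX), one_mul]
  exact_mod_cast hXY

/-- the mass tends to infinity with `Y/X` -/
theorem Wm_inf : ∃ c C : ℝ, 0 < c ∧ 0 < C ∧ ∀ X Y : ℕ, 1 ≤ X → X ≤ Y →
    c * Real.log ((Y : ℝ) / X) - C ≤ Wm X Y := by
  obtain ⟨g, hg, hgP⟩ := GP_lower
  have hpg : 0 < Real.pi * g := mul_pos Real.pi_pos hg
  obtain ⟨K, hK⟩ := exists_nat_gt (200 / (Real.pi * g))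
  have hKp : (0:ℝ) < K := lt_of_le_of_lt (by positivity) hK
  have hK1 : 1 ≤ K := by exact_mod_cast hKp
  have hKg : 0 < Real.pi * g - 200 / K := by
    rw [div_lt_iff₀ hpg] at hK
    rw [sub_pos, div_lt_iff₀ hKp]
    linarith
  obtain ⟨P, hP, hS⟩ := smo_exists K
  obtain ⟨C2, hC2, h2⟩ := phq_avg P hP K hK1 hS
  obtain ⟨C3, hC3, h3⟩ := Wm_lower
  have hz : 0 < hg8c_z := hg8c_z_pos
  refine ⟨(Real.pi * g - 200 / K) / (4 * hg8c_z), C2 / (4 * hg8c_z) + C3 / hg8c_z,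
    by positivity, by positivity, fun X Y hX hXY => ?_⟩
  have hL := hg8c_log_nonneg hX hXY
  have e2 := h2 X Y hX hXY
  have e3 := h3 X Y hX hXY
  have e4 := hgP P hP
  have e3' : (1 / 4 : ℝ) * ∑ q ∈ (BX Y).filter (fun q => X < nrm q), phq q / (nrm q : ℝ) ≤
      hg8c_z * Wm X Y + C3 := e3
  have e5 : (Real.pi * g - 200 / K) * Real.log ((Y : ℝ) / X) ≤
      (Real.pi * GP P - 200 / K) * Real.log ((Y : ℝ) / X) := by
    apply mul_le_mul_of_nonneg_right _ hL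
    have := mul_le_mul_of_nonneg_left e4 Real.pi_pos.le
    linarith
  have e6 : (Real.pi * g - 200 / K) * Real.log ((Y : ℝ) / X) - C2 - 4 * C3 ≤
      4 * hg8c_z * Wm X Y := by linarith
  have e7 : (Real.pi * g - 200 / K) / (4 * hg8c_z) * Real.log ((Y : ℝ) / X) -
      (C2 / (4 * hg8c_z) + C3 / hg8c_z) =
      ((Real.pi * g - 200 / K) * Real.log ((Y : ℝ) / X) - C2 - 4 * C3) / (4 * hg8c_z) := by
    field_simp
    ring
  rw [e7, div_le_iff₀ (by positivity)]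
  linarith

/-- the sharp large sieve for the family -/
theorem hg_ls (ε : ℝ) (hε : 0 < ε) : ∃ P : ZI, P ≠ 0 ∧ ∃ C : ℝ, 0 < C ∧ ∀ (X Y N : ℕ)
    (b : ZI → ℂ), 1 ≤ X → X ≤ Y → (∀ n, ¬ IsCoprime n P → b n = 0) →
    ∑ p ∈ FS X Y, wF p * ‖SC (BX N) b p.1 p.2‖ ^ 2 ≤
      Real.exp (2 * Real.pi * Real.sqrt N / X) * (4 * ((1 + ε) * Wm X Y + C)) *
        ∑ n ∈ BX N, ‖b n‖ ^ 2 := by
  obtain ⟨g, hg, hgP⟩ := GP_lower
  have hpg : 0 < Real.pi * g := mul_pos Real.pi_pos hg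
  have hz : 0 < hg8c_z := hg8c_z_pos
  -- choice of `K`
  have hinv : Tendsto (fun K : ℕ => (200 : ℝ) / (K : ℝ)) atTop (𝓝 0) :=
    tendsto_const_div_atTop_nhds_zero_nat 200
  have t1 : Tendsto (fun K : ℕ => (1 + (200 / (K : ℝ)) / (Real.pi * g - 200 / (K : ℝ))) * hg8c_z)
      atTop (𝓝 ((1 + 0 / (Real.pi * g - 0)) * hg8c_z)) := by
    refine Tendsto.mul_const _ (Tendsto.const_add _ (Tendsto.div hinv (hinv.const_sub _) ?_))
    simpa using hpg.ne'
  have t2 : Tendsto (fun K : ℕ => (1 + ε) * kapK K) atTop (𝓝 ((1 + ε) * hg8c_z)) :=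
    hg8c_kapK_tendsto.const_mul _
  have hlt : (1 + 0 / (Real.pi * g - 0)) * hg8c_z < (1 + ε) * hg8c_z := by
    rw [zero_div, add_zero, one_mul]
    nlinarith
  have ev1 := t1.eventually_lt t2 hlt
  have ev2 : ∀ᶠ K : ℕ in atTop, (200 : ℝ) / (K : ℝ) < Real.pi * g := hinv.eventually_lt_const hpg
  have ev3 : ∀ᶠ K : ℕ in atTop, 0 < kapK K := hg8c_kapK_tendsto.eventually_const_lt hz
  obtain ⟨K, ⟨⟨hK1, hK2⟩, hK3⟩, hK4⟩ :=
    (((ev1.and ev2).and ev3).and (eventually_ge_atTop 1)).exists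
  obtain ⟨P, hP, hS⟩ := smo_exists K
  obtain ⟨C1, hC1, h1⟩ := frac_ls P hP K
  obtain ⟨C2, hC2, h2⟩ := phq_avg P hP K hK4 hS
  obtain ⟨C3, hC3, h3⟩ := Wm_lower
  have hKp : (0:ℝ) < K := by exact_mod_cast hK4
  have hlogK : 0 ≤ Real.log (K : ℝ) := Real.log_nonneg (by exact_mod_cast hK4)
  have hgg := hgP P hP
  have hGPpos : 0 < GP P := lt_of_lt_of_le hg hgg
  set ρ : ℝ := (200 / (K : ℝ)) / (Real.pi * g - 200 / (K : ℝ)) with hρ
  have hd : 0 < Real.pi * g - 200 / (K : ℝ) := sub_pos.2 hK2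
  have hρ0 : 0 ≤ ρ := by rw [hρ]; positivity
  set D : ℝ := ((1 + ρ) * (4 * C3 + C2) + Real.pi * GP P * Real.log K + C1) / kapK K with hD
  have hDpos : 0 < D := by rw [hD]; positivity
  refine ⟨P, hP, D / 4, by positivity, fun X Y N b hX hXY hb => ?_⟩
  have hL := hg8c_log_nonneg hX hXY
  set L : ℝ := Real.log ((Y : ℝ) / X) with hLdef
  have hXp : (0:ℝ) < X := by exact_mod_cast hX
  have hYp : (0:ℝ) < Y := lt_of_lt_of_le hXp (by exact_mod_cast hXY)
  have hlogKY : Real.log (((K * Y : ℕ) : ℝ) / X) = Real.log K + L := by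
    rw [hLdef, ← Real.log_mul hKp.ne' (by positivity)]
    congr 1
    push_cast
    ring
  have a1 := fs_le X Y (fun q χ => ‖SC (BX N) b q χ‖ ^ 2) (fun q χ => by positivity)
  have a2 := regroup P hP K hK4 hS X Y (BX N) b hb
  have a3 := h1 X (K * Y) N (BX N) b hX (hXY.trans (Nat.le_mul_of_pos_left _ hK4))
    (fun n hn => (hg5b_mem_BX.1 hn).2)
  rw [hlogKY] at a3
  have a4 := h2 X Y hX hXY
  rw [← hLdef] at a4
  have a5 : (1 / 4 : ℝ) * ∑ q ∈ (BX Y).filter (fun q => X < nrm q), phq q / (nrm q : ℝ) ≤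
      hg8c_z * Wm X Y + C3 := h3 X Y hX hXY
  have hWm := hg8c_Wm_nonneg X Y
  set E : ℝ := Real.exp (2 * Real.pi * Real.sqrt N / X) with hE
  have hEp : 0 < E := Real.exp_pos _
  set B2 : ℝ := ∑ n ∈ BX N, ‖b n‖ ^ 2 with hB2
  have hB2n : 0 ≤ B2 := Finset.sum_nonneg (fun n _ => by positivity)
  -- the main estimate for `π GP L`
  have b1 : Real.pi * GP P * L ≤ (1 + ρ) * ((Real.pi * GP P - 200 / K) * L) := by
    have c1 : Real.pi * g ≤ Real.pi * GP P := mul_le_mul_of_nonneg_left hgg Real.pi_pos.le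
    have c2 : ρ * (Real.pi * g - 200 / (K : ℝ)) = 200 / K := by
      rw [hρ, div_mul_cancel₀ _ hd.ne']
    have c3 : 200 / (K : ℝ) ≤ ρ * (Real.pi * GP P - 200 / K) := by
      calc 200 / (K : ℝ) = ρ * (Real.pi * g - 200 / (K : ℝ)) := c2.symm
        _ ≤ ρ * (Real.pi * GP P - 200 / K) := by
          apply mul_le_mul_of_nonneg_left _ hρ0
          linarith
    nlinarith
  have b2 : Real.pi * GP P * L ≤ (1 + ρ) * (4 * hg8c_z * Wm X Y + 4 * C3 + C2) := by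
    refine b1.trans (mul_le_mul_of_nonneg_left ?_ (by positivity))
    linarith
  have b3 : Real.pi * GP P * (Real.log K + L) + C1 ≤
      kapK K * (4 * ((1 + ε) * Wm X Y) + D) := by
    have c1 : kapK K * D = (1 + ρ) * (4 * C3 + C2) + Real.pi * GP P * Real.log K + C1 := by
      rw [hD]; field_simp
    have c2 : (1 + ρ) * hg8c_z * Wm X Y ≤ (1 + ε) * kapK K * Wm X Y :=
      mul_le_mul_of_nonneg_right hK1.le hWm
    nlinarith
  have b4 : kapK K * famZ X Y (fun q χ => ‖SC (BX N) b q χ‖ ^ 2) ≤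
      kapK K * (E * (4 * ((1 + ε) * Wm X Y) + D) * B2) := by
    refine (a2.trans a3).trans ?_
    calc E * (Real.pi * GP P * (Real.log K + L) + C1) * B2
        ≤ E * (kapK K * (4 * ((1 + ε) * Wm X Y) + D)) * B2 := by
          apply mul_le_mul_of_nonneg_right _ hB2n
          exact mul_le_mul_of_nonneg_left b3 hEp.le
      _ = _ := by ring
  have b5 := le_of_mul_le_mul_left b4 hK3
  refine a1.trans (b5.trans (le_of_eq ?_))
  ring

end H385
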