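import Pool.Agent.H385R6.HG8e
import Pool.Agent.H385R2.WinE

/-!
TEAM Q3, project HG, task HG8f: the numerical constants.
-/

open Complex Filter Topology Set MeasureTheory
open H370 (zset mult NN Nd Ns)

set_option maxHeartbeats 4000000

namespace H385

open Pool.Agent.H304R3.HK (tc HC CS bb LamK psi bH aH LH)

/-- numerical value of the constant (exact value `1 + cot(√2)/√2 = 1.11163...` at `γ = 2√2`) -/
theorem Rw_const_hg : Rw 2.828 0 / 2 + 4 * ∫ α in (0 : ℝ)..1, α * Rw 2.828 α < 1.1117 := by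
  have h := Rw_const_closed 2.828 (1 / 2) 4 (by norm_num)
  have h' : Rw 2.828 0 / 2 + 4 * ∫ α in (0 : ℝ)..1, α * Rw 2.828 α =
      1 / 2 * Rw 2.828 0 + 4 * ∫ α in (0 : ℝ)..1, α * Rw 2.828 α := by ring
  rw [h', h]
  have hh : (2.828 : ℝ) / 2 = 1414 / 1000 := by norm_num
  have hS : Real.sin 2.828 = 2 * Real.sin (1414 / 1000) * Real.cos (1414 / 1000) := by
    rw [← Real.sin_two_mul]; congr 1; norm_num
  have hC : Real.cos 2.828 = 1 - 2 * Real.sin (1414 / 1000) ^ 2 := by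
    have : Real.cos 2.828 = Real.cos (2 * (1414 / 1000)) := by congr 1; norm_num
    rw [this, Real.cos_two_mul, Real.cos_sq']
    ring
  have hS1 : Real.sin (1414 / 1000) = 2 * Real.sin (707 / 1000) * Real.cos (707 / 1000) := by
    rw [← Real.sin_two_mul]; congr 1; norm_num
  have hC1 : Real.cos (1414 / 1000) = 1 - 2 * Real.sin (707 / 1000) ^ 2 := by
    have : Real.cos (1414 / 1000) = Real.cos (2 * (707 / 1000)) := by congr 1; norm_num
    rw [this, Real.cos_two_mul, Real.cos_sq']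
    ring
  obtain ⟨hcos, hsin⟩ := trig_707
  rw [hh, hS, hC]
  set S := Real.sin (1414 / 1000) with hSd
  set D := Real.cos (1414 / 1000) with hDd
  set s := Real.sin (707 / 1000) with hs
  set c := Real.cos (707 / 1000) with hcc
  rw [abs_le] at hcos hsin
  have hs1 : 0.649555754 ≤ s := by linarith [hsin.1]
  have hs2 : s ≤ 0.649555757 := by linarith [hsin.2]
  have hc1 : 0.76031396 ≤ c := by linarith [hcos.1]
  have hc2 : c ≤ 0.760313963 := by linarith [hcos.2]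
  have hspos : 0 < s := by linarith
  have hcpos : 0 < c := by linarith
  have hSl : 0.98773 ≤ S + 0.00001 := by
    rw [hS1]
    nlinarith [mul_le_mul hs1 hc1 (by norm_num) hspos.le]
  have hSmin : 2 * (0.649555754 * 0.76031396) ≤ S := by
    rw [hS1]
    have := mul_le_mul hs1 hc1 (by norm_num) hspos.le
    linarith
  have hSmax : S ≤ 2 * (0.649555757 * 0.760313963) := by
    rw [hS1]
    have := mul_le_mul hs2 hc2 hcpos.le (by norm_num)
    linarith
  have hDmax : D ≤ 1 - 2 * 0.649555754 ^ 2 := by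
    rw [hC1]
    have : (0.649555754 : ℝ) ^ 2 ≤ s ^ 2 := pow_le_pow_left₀ (by norm_num) hs1 2
    linarith
  have hSpos : 0 < S := lt_of_lt_of_le (by norm_num) hSmin
  have hSD : S * D ≤ (2 * (0.649555757 * 0.760313963)) * (1 - 2 * 0.649555754 ^ 2) :=
    calc S * D ≤ S * (1 - 2 * 0.649555754 ^ 2) := mul_le_mul_of_nonneg_left hDmax hSpos.le
      _ ≤ _ := mul_le_mul_of_nonneg_right hSmax (by norm_num)
  have hSS : (2 * (0.649555754 * 0.76031396)) ^ 2 ≤ S ^ 2 :=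
    pow_le_pow_left₀ (by norm_num) hSmin 2
  have e : (2.828 / (2 * S)) ^ 2 / 2 *
        (1 / 2 * (1 + 2 * S * D / 2.828) + 4 * ((1 - (1 - 2 * S ^ 2) - 1) / 2.828 ^ 2 +
          2 * S * D / 2.828 ^ 3)) =
      (2.828 ^ 2 / 2 - 4 + 8 * S ^ 2 + (2.828 + 8 / 2.828) * (S * D)) / (8 * S ^ 2) := by
    field_simp
    ring
  rw [e, div_lt_iff₀ (by positivity)]
  have : (2.828 + 8 / 2.828) * (S * D) ≤
    (2.828 + 8 / 2.828) * ((2 * (0.649555757 * 0.760313963)) * (1 - 2 * 0.649555754 ^ 2) : ℝ) :=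
    mul_le_mul_of_nonneg_left hSD (by norm_num)
  norm_num at this hSS ⊢
  linarith

theorem hg_final : ∃ C0 K0 η : ℝ, 1 ≤ C0 ∧ 1 ≤ K0 ∧ 0 < η ∧ ∀ (X Y : ℕ) (T : ℝ), 1 ≤ X →
      K0 * X ≤ Y → (Y : ℝ) ≤ (X : ℝ) ^ (1 + η) →
      C0 * (1 + Real.sqrt (Real.log X)) ≤ T → T ≤ (X : ℝ) ^ η →
      0 < ∑ p ∈ FS X Y, wF p ∧
      (0.8883 * ∑ p ∈ FS X Y, wF p * (NN (LH (chiZ p.1 p.2)) T (2 * T) : ℝ) ≤
        ∑ p ∈ FS X Y, wF p * (Ns (LH (chiZ p.1 p.2)) T (2 * T) : ℝ)) ∧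
      (0.94415 * ∑ p ∈ FS X Y, wF p * (NN (LH (chiZ p.1 p.2)) T (2 * T) : ℝ) ≤
        ∑ p ∈ FS X Y, wF p * (Nd (LH (chiZ p.1 p.2)) T (2 * T) : ℝ)) := by
  have h0 : (0 : ℝ) < 2.828 := by norm_num
  have hπ : (2.828 : ℝ) < Real.pi := by linarith [Real.pi_gt_three]
  set R0 : ℝ := Rw 2.828 0 with hR0
  have hR0n : 0 ≤ R0 := Rw_nonneg 2.828 h0 hπ 0
  set J : ℝ := ∫ α in (0 : ℝ)..1, α * Rw 2.828 α with hJ
  have hJn : 0 ≤ J := I1_nonneg 2.828 h0 hπ
  have hconst : R0 / 2 + 4 * J < 1.1117 := Rw_const_hg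
  set e : ℝ := 1.1117 - (R0 / 2 + 4 * J) with he
  have he0 : 0 < e := by rw [he]; linarith
  -- choose β = 4 (1 - s)
  set s : ℝ := min (1 / 2) (e / (R0 + e + 1)) with hs
  have hs0 : 0 < s := by positivity
  have hs1 : s ≤ 1 / 2 := min_le_left _ _
  have hs2 : (R0 + e) * s ≤ e := by
    have h1 : s ≤ e / (R0 + e + 1) := min_le_right _ _
    calc (R0 + e) * s ≤ (R0 + e) * (e / (R0 + e + 1)) :=
          mul_le_mul_of_nonneg_left h1 (by positivity)
      _ = e * ((R0 + e) / (R0 + e + 1)) := by ring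
      _ ≤ e * 1 := by
        refine mul_le_mul_of_nonneg_left ?_ he0.le
        rw [div_le_one (by positivity)]; linarith
      _ = e := mul_one e
  set β' : ℝ := 1 - s with hβ'
  have hβ'0 : 0 < β' := by rw [hβ']; linarith
  have hβ'1 : β' < 1 := by rw [hβ']; linarith
  have e2 : R0 / β' ≤ R0 + e := by
    rw [div_le_iff₀ hβ'0]
    have h1 : (R0 + e) * β' = (R0 + e) - (R0 + e) * s := by rw [hβ']; ring
    rw [h1]
    linarith
  have e3 : 4 * β' * J ≤ 4 * J := by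
    have : 4 * β' * J = 4 * (β' * J) := by ring
    rw [this]
    have : β' * J ≤ 1 * J := mul_le_mul_of_nonneg_right hβ'1.le hJn
    linarith
  obtain ⟨C0, K0, η, hC0, hK0, hη, h⟩ := hg_core 2.828 (4 * β') (e / 2) h0 hπ
    (by positivity) (by linarith) (by positivity)
  refine ⟨C0, K0, η, hC0, hK0, hη, ?_⟩
  intro X Y T hX hXY hYX hT hT2
  obtain ⟨b0, b1, b2⟩ := h X Y T hX hXY hYX hT hT2
  have hcc : 2 * R0 / (4 * β') + 4 * β' * J + e / 2 ≤ 1.1117 := by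
    have h1 : 2 * R0 / (4 * β') = (R0 / β') / 2 := by field_simp; ring
    have : R0 / 2 + 4 * J + e = 1.1117 := by rw [he]; ring
    rw [h1]
    linarith
  set SN : ℝ := ∑ p ∈ FS X Y, wF p * (NN (LH (chiZ p.1 p.2)) T (2 * T) : ℝ) with hSN
  set SS : ℝ := ∑ p ∈ FS X Y, wF p * (Ns (LH (chiZ p.1 p.2)) T (2 * T) : ℝ) with hSS
  set SD : ℝ := ∑ p ∈ FS X Y, wF p * (Nd (LH (chiZ p.1 p.2)) T (2 * T) : ℝ) with hSD
  have hwF : ∀ p : Σ q : ZI, MulChar (RQ q) ℂ, 0 ≤ wF p := fun p => by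
    unfold wF; positivity
  have hSN0 : 0 ≤ SN := Finset.sum_nonneg fun p _ => mul_nonneg (hwF p) (Nat.cast_nonneg _)
  have b1' : 2 * SN - SS ≤ (2 * R0 / (4 * β') + 4 * β' * J + e / 2) * SN := by
    refine le_trans (le_of_eq ?_) b1
    rw [hSN, hSS, Finset.mul_sum, ← Finset.sum_sub_distrib]
    exact Finset.sum_congr rfl fun p _ => by ring
  have b2' : 3 * SN - 2 * SD ≤ (2 * R0 / (4 * β') + 4 * β' * J + e / 2) * SN := by
    refine le_trans (le_of_eq ?_) b2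
    rw [hSN, hSD, Finset.mul_sum, Finset.mul_sum, ← Finset.sum_sub_distrib]
    exact Finset.sum_congr rfl fun p _ => by ring
  have c3 := mul_le_mul_of_nonneg_right hcc hSN0
  have c1 : 2 * SN - SS ≤ 1.1117 * SN := le_trans b1' c3
  have c2 : 3 * SN - 2 * SD ≤ 1.1117 * SN := le_trans b2' c3
  refine ⟨b0, ?_, ?_⟩
  · norm_num at c1 ⊢
    linarith
  · norm_num at c2 ⊢
    linarith

end H385
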