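import Pool.Agent.H385R6.HgDefs

/-!
TEAM Q3, project HG, second wave (helper385): the family of primitive Hecke characters.
-/

open Complex Filter Topology Set MeasureTheory

namespace H385

open Classical in
/-- the primitive characters modulo `q` with `χ(i) = -i`, as a finite set -/
noncomputable def PFs (q : ZI) : Finset (MulChar (RQ q) ℂ) :=
  if h : {χ : MulChar (RQ q) ℂ | PrimC q χ ∧ chiZ q χ im1 = -I}.Finite then h.toFinset else ∅

/-- the family: pairs `(q, χ)`, `X < N(q) ≤ Y` -/
noncomputable def FS (X Y : ℕ) : Finset (Σ q : ZI, MulChar (RQ q) ℂ) :=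
  ((BX Y).filter (fun q => X < nrm q)).sigma (fun q => PFs q)

/-- the weight `N(q)⁻²` -/
noncomputable def wF (p : Σ q : ZI, MulChar (RQ q) ℂ) : ℝ := 1 / (nrm p.1 : ℝ) ^ 2

end H385
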