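import Pool.Agent.H385R5.HeDefs
import Pool.Agent.H385R5.HE123

/-!
TEAM Q3, project HG (helper385): sharp large sieve for primitive characters of `ℤ[i]`, log-averaged
over the modulus, without Gauss sums.  Definitions.
-/

open Complex Filter Topology Set MeasureTheory

namespace H385

open Pool.Agent.H304R3.HK (tc HC CS bb LamK psi bH aH LH Rep)

/-- kernel on `ℂ` of total mass one and width `V^{-1/2}` -/
noncomputable def KV (V : ℝ) (z : ℂ) : ℝ := (V / Real.pi) / (1 + V * ‖z‖ ^ 2) ^ 2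

/-- its Fourier transform at a Gaussian integer -/
noncomputable def WV (V : ℝ) (n : ZI) : ℝ :=
  ∫ t in Set.Ioi (0 : ℝ), Real.exp (-t - Real.pi ^ 2 * ‖tc n‖ ^ 2 / (t * V))

/-- additive character `e(Re(n θ))` -/
noncomputable def e2 (n : ZI) (θ : ℂ) : ℂ := cexp (2 * Real.pi * I * ((tc n * θ).re : ℂ))

/-- exponential sum over a finite set of Gaussian integers -/
noncomputable def SZ (F : Finset ZI) (b : ZI → ℂ) (θ : ℂ) : ℂ := ∑ n ∈ F, b n * e2 n θ

/-- character sum over a finite set of Gaussian integers -/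
noncomputable def SC (F : Finset ZI) (b : ZI → ℂ) (q : ZI) (χ : MulChar (RQ q) ℂ) : ℂ :=
  ∑ n ∈ F, b n * chiZ q χ n

/-- all common divisors of `q` and `a` have norm at most `K` -/
def GcdLe (K : ℕ) (q a : ZI) : Prop := ∀ d : ZI, d ∣ q → d ∣ a → nrm d ≤ K

/-- the Hermitian form `N(q)/√V + √V |q θ - a|²` of determinant one -/
noncomputable def HV (V : ℝ) (θ : ℂ) (q a : ZI) : ℝ :=
  ‖tc q‖ ^ 2 / Real.sqrt V + Real.sqrt V * ‖tc q * θ - tc a‖ ^ 2

/-- `χ` is a primitive character modulo `q` -/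
def PrimC (q : ZI) (χ : MulChar (RQ q) ℂ) : Prop :=
  ∀ d : ZI, d ∣ q → ¬ q ∣ d → ∃ u : ZI, IsCoprime u q ∧ d ∣ u - 1 ∧ chiZ q χ u ≠ 1

/-- the conductor of `χ` has norm at least `N(q)/K` -/
def BigC (K : ℕ) (q : ZI) (χ : MulChar (RQ q) ℂ) : Prop :=
  ∀ d : ZI, d ∣ q → K * nrm d < nrm q → ∃ u : ZI, IsCoprime u q ∧ d ∣ u - 1 ∧ chiZ q χ u ≠ 1

/-- proportion of the residues modulo `q` which are coprime to `q` -/
noncomputable def phq (q : ZI) : ℝ := (phiQ q : ℝ) / (nrm q : ℝ)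

/-- proportion of the residues modulo the greatest common divisor of `q` and `P` which are
coprime to it -/
noncomputable def gP (P q : ZI) : ℝ := phq (EuclideanDomain.gcd q P)

/-- average of `gP P` -/
noncomputable def GP (P : ZI) : ℝ := (1 / (nrm P : ℝ)) * ∑ c ∈ Rep P, gP P c

/-- `∑ N(k)⁻²` over the ideals of norm at most `K` -/
noncomputable def kapK (K : ℕ) : ℝ := (1 / 4 : ℝ) * ∑ k ∈ BX K, 1 / (nrm k : ℝ) ^ 2

open Classical in
/-- sum over the non-zero `q` (all associates) with `X < N(q) ≤ Y`, weight `N(q)⁻²`, and over all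
primitive characters modulo `q` -/
noncomputable def famZ (X Y : ℕ) (f : (q : ZI) → MulChar (RQ q) ℂ → ℝ) : ℝ :=
  ∑ q ∈ (BX Y).filter (fun q => X < nrm q), (1 / (nrm q : ℝ) ^ 2) *
    ∑ᶠ χ ∈ {χ : MulChar (RQ q) ℂ | PrimC q χ}, f q χ

open Classical in
/-- mass of the primitive characters with `χ(i) = -i` -/
noncomputable def Wm (X Y : ℕ) : ℝ :=
  famZ X Y (fun q χ => if chiZ q χ im1 = -I then 1 else 0)

/-- every element coprime to `P` is coprime to every `k` of norm at most `K` -/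
def Smo (P : ZI) (K : ℕ) : Prop :=
  ∀ k : ZI, k ≠ 0 → nrm k ≤ K → ∀ n : ZI, IsCoprime n P → IsCoprime n k

end H385
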