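import Pool.Agent.H385R6.HgDefs

/-!
TEAM Q3, project HG (helper385): statements of the independent tasks.
-/

open Complex Filter Topology Set MeasureTheory

namespace H385

open Pool.Agent.H304R3.HK (tc HC CS bb LamK psi bH aH LH Rep)

/-! ### the dual large sieve -/

/-- HG1: Poisson summation for the kernel -/
theorem kv_poisson (V : ℝ) (hV : 0 < V) (θ : ℂ) :
    Summable (fun n : ZI => WV V n) ∧ Summable (fun m : ZI => KV V (θ + tc m)) ∧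
    ∑' n : ZI, (WV V n : ℂ) * e2 n θ = ((∑' m : ZI, KV V (θ + tc m) : ℝ) : ℂ) := by
  sorry

/-- HG1: size of the weights -/
theorem wv_lower (V : ℝ) (hV : 0 < V) (n : ZI) :
    Real.exp (-(2 * Real.pi * ‖tc n‖ / Real.sqrt V)) ≤ WV V n ∧ WV V n ≤ 1 := by
  sorry

/-- HG2: dual large sieve (from HG1) -/
theorem dual_ls2 {ι : Type} (s : Finset ι) (θ : ι → ℂ) (w : ι → ℝ) (hw : ∀ i ∈ s, 0 ≤ w i)
    (V Δ : ℝ) (hV : 0 < V) (hΔ : 0 ≤ Δ)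
    (hd : ∀ i ∈ s, ∑ j ∈ s, w j * ∑' m : ZI, KV V (θ i - θ j + tc m) ≤ Δ)
    (N : ℕ) (F : Finset ZI) (hF : ∀ n ∈ F, nrm n ≤ N) (b : ZI → ℂ) :
    ∑ i ∈ s, w i * ‖SZ F b (θ i)‖ ^ 2 ≤
      Real.exp (2 * Real.pi * Real.sqrt (N / V)) * Δ * ∑ n ∈ F, ‖b n‖ ^ 2 := by
  sorry

/-! ### density of the fractions `a/q` -/

/-- HG3a: a basis with a short first vector -/
theorem short_basis (V : ℝ) (hV : 1 ≤ V) (θ : ℂ) : ∃ q0 a0 q1 a1 : ZI, q0 ≠ 0 ∧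
    q0 * a1 - a0 * q1 = 1 ∧ HV V θ q0 a0 ≤ 10 ∧
    ∃ τ : ℂ, ∀ z j : ZI, HV V θ (z * q0 + j * q1) (z * a0 + j * a1) =
      HV V θ q0 a0 * ‖tc z + τ * tc j‖ ^ 2 + ‖tc j‖ ^ 2 / HV V θ q0 a0 := by
  sorry

/-- HG3c: sum over a coset -/
theorem line_sumZ (P : ZI) (hP : P ≠ 0) : ∃ C : ℝ, 0 < C ∧ ∀ (h c : ℝ) (w : ℂ) (z0 : ZI)
    (F : Finset ZI), 0 < h → 0 < c → (∀ z ∈ F, P ∣ z - z0) →
    ∑ z ∈ F, 1 / (h * ‖tc z + w‖ ^ 2 + c) ^ 2 ≤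
      (1 / (nrm P : ℝ)) * (Real.pi / (h * c)) + C * (1 / c ^ 2 + 1 / (Real.sqrt h * c ^ (3 / 2 : ℝ))) := by
  sorry

/-- HG3d: sum of `1/N(j)` over a residue class -/
theorem class_sum (P : ZI) (hP : P ≠ 0) : ∃ C : ℝ, 0 < C ∧ ∀ (x1 x2 : ℝ) (j0 : ZI) (F : Finset ZI),
    0 < x1 → x1 ≤ x2 → (∀ j ∈ F, j ≠ 0 ∧ P ∣ j - j0 ∧ x1 < (nrm j : ℝ) ∧ (nrm j : ℝ) ≤ x2) →
    ∑ j ∈ F, 1 / (nrm j : ℝ) ≤ Real.pi / (nrm P : ℝ) * Real.log (x2 / x1) + C := by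
  sorry

/-- HG3d: lower bound, no congruence condition -/
theorem class_sum_lower : ∃ C : ℝ, 0 < C ∧ ∀ (X Y : ℕ), 1 ≤ X → X ≤ Y →
    Real.pi * Real.log ((Y : ℝ) / X) - C ≤
      ∑ j ∈ (BX Y).filter (fun j => X < nrm j), 1 / (nrm j : ℝ) := by
  sorry

/-- HG3e: lines close to the origin -/
theorem near_lines : ∃ C : ℝ, 0 < C ∧ ∀ (h s1 : ℝ) (τ : ℂ) (F : Finset (ZI × ZI)),
    0 < h → h ≤ 10 → 1 ≤ s1 →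
    (∀ v ∈ F, v.2 ≠ 0 ∧ ‖tc v.2‖ ^ 2 / h ≤ s1 ∧
      s1 < h * ‖tc v.1 + τ * tc v.2‖ ^ 2 + ‖tc v.2‖ ^ 2 / h) →
    ∑ v ∈ F, 1 / (h * ‖tc v.1 + τ * tc v.2‖ ^ 2 + ‖tc v.2‖ ^ 2 / h) ^ 2 ≤ C := by
  sorry

/-- HG3e: lines far from the origin -/
theorem far_lines : ∃ C : ℝ, 0 < C ∧ ∀ (h s2 : ℝ) (x0 y0 x1 y1 : ℂ) (F : Finset (ZI × ZI)),
    x0 * y1 - x1 * y0 = 1 → h = ‖x0‖ ^ 2 + ‖y0‖ ^ 2 → h ≤ 10 → 1 ≤ s2 →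
    (∀ v ∈ F, v.2 ≠ 0 ∧ s2 < ‖tc v.2‖ ^ 2 / h ∧ ‖tc v.1 * x0 + tc v.2 * x1‖ ^ 2 ≤ s2) →
    ∑ v ∈ F, 1 / (‖tc v.1 * x0 + tc v.2 * x1‖ ^ 2 + ‖tc v.1 * y0 + tc v.2 * y1‖ ^ 2) ^ 2 ≤ C := by
  sorry

/-- HG3f: density of the fractions (from HG3a-e) -/
theorem frac_density (P : ZI) (hP : P ≠ 0) (K : ℕ) : ∃ C : ℝ, 0 < C ∧
    ∀ (A B : ℕ) (V : ℝ) (θ : ℂ) (c : ZI) (F : Finset (ZI × ZI)), 1 ≤ A → A ≤ B → 1 ≤ V →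
    V ≤ (A : ℝ) ^ 2 →
    (∀ v ∈ F, A < nrm v.1 ∧ nrm v.1 ≤ B ∧ P ∣ v.1 - c ∧ GcdLe K v.1 v.2) →
    ∑ v ∈ F, (1 / (nrm v.1 : ℝ) ^ 2) * KV V (θ - tc v.2 / tc v.1) ≤
      Real.pi / (nrm P : ℝ) * Real.log ((B : ℝ) / A) + C := by
  sorry

open Classical in
/-- HG4: from fractions to characters, without Gauss sums -/
theorem bessel_q (q : ZI) (hq : q ≠ 0) (K : ℕ) (F : Finset ZI) (b : ZI → ℂ) :
    ((nrm q : ℝ) / phiQ q) * ∑ᶠ χ ∈ {χ : MulChar (RQ q) ℂ | BigC K q χ}, ‖SC F b q χ‖ ^ 2 ≤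
      ∑ a ∈ (Rep q).filter (fun a => GcdLe K q a), ‖SZ F b (tc a / tc q)‖ ^ 2 := by
  sorry

/-- HG5a: large sieve for the fractions with the weight `gP P q / N(q)²` (from HG2 and HG3f) -/
theorem frac_ls (P : ZI) (hP : P ≠ 0) (K : ℕ) : ∃ C : ℝ, 0 < C ∧
    ∀ (A B N : ℕ) (F : Finset ZI) (b : ZI → ℂ), 1 ≤ A → A ≤ B → (∀ n ∈ F, nrm n ≤ N) →
    open Classical in
    ∑ q ∈ (BX B).filter (fun q => A < nrm q), (gP P q / (nrm q : ℝ) ^ 2) *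
      ∑ a ∈ (Rep q).filter (fun a => GcdLe K q a), ‖SZ F b (tc a / tc q)‖ ^ 2 ≤
    Real.exp (2 * Real.pi * Real.sqrt N / A) * (Real.pi * GP P * Real.log ((B : ℝ) / A) + C) *
      ∑ n ∈ F, ‖b n‖ ^ 2 := by
  sorry

/-- HG5b: regrouping by primitive characters (from HG4) -/
theorem regroup (P : ZI) (hP : P ≠ 0) (K : ℕ) (hK : 1 ≤ K) (hS : Smo P K) (X Y : ℕ)
    (F : Finset ZI) (b : ZI → ℂ) (hb : ∀ n, ¬ IsCoprime n P → b n = 0) :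
    open Classical in
    kapK K * famZ X Y (fun q χ => ‖SC F b q χ‖ ^ 2) ≤
    ∑ q ∈ (BX (K * Y)).filter (fun q => X < nrm q), (gP P q / (nrm q : ℝ) ^ 2) *
      ∑ a ∈ (Rep q).filter (fun a => GcdLe K q a), ‖SZ F b (tc a / tc q)‖ ^ 2 := by
  sorry

/-! ### the mass of the family -/

/-- HG6a: `φ(q)/N(q) ≤ gP P q` and the difference is small on average -/
theorem phq_gP (P q : ZI) (hP : P ≠ 0) (hq : q ≠ 0) : 0 ≤ gP P q ∧ gP P q ≤ 1 ∧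
    phq q ≤ gP P q ∧ 0 < phq q ∧ phq q ≤ 1 := by
  sorry

/-- HG6b: average of `φ(q)/N(q)²` compared with `GP P` -/
theorem phq_avg (P : ZI) (hP : P ≠ 0) (K : ℕ) (hK : 1 ≤ K) (hS : Smo P K) : ∃ C : ℝ, 0 < C ∧
    ∀ X Y : ℕ, 1 ≤ X → X ≤ Y →
    (Real.pi * GP P - 200 / K) * Real.log ((Y : ℝ) / X) - C ≤
      ∑ q ∈ (BX Y).filter (fun q => X < nrm q), phq q / (nrm q : ℝ) := by
  sorry

/-- HG6c: existence of `P` -/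
theorem smo_exists (K : ℕ) : ∃ P : ZI, P ≠ 0 ∧ Smo P K := by
  sorry

/-- HG6d: `GP P` is bounded below -/
theorem GP_lower : ∃ g : ℝ, 0 < g ∧ ∀ P : ZI, P ≠ 0 → g ≤ GP P := by
  sorry

/-- HG6e: mass of the family with `χ(i) = -i` (from HE3 `fq_card`) -/
theorem Wm_lower : ∃ C : ℝ, 0 < C ∧ ∀ X Y : ℕ, 1 ≤ X → X ≤ Y →
    (1 / 4 : ℝ) * ∑ q ∈ (BX Y).filter (fun q => X < nrm q), phq q / (nrm q : ℝ) ≤
      (∑' k : ZI, if k = 0 then 0 else (1 / 4 : ℝ) * (1 / (nrm k : ℝ) ^ 2)) * Wm X Y + C := by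
  sorry

/-! ### prime sums -/

/-- HG7: from the full prime sum to a short sum over elements coprime to `P` -/
theorem hg_point (P : ZI) (hP : P ≠ 0) (q : ZI) (χ : MulChar (RQ q) ℂ) (h : HC q (chiZ q χ))
    (N : ℕ) (T u t : ℝ) (hT : 0 ≤ T) (hu : 0 ≤ u) :
    ‖∑' n : ℕ, aH (chiZ q χ) n * bn T u t n - (1 / 4 : ℂ) * SC (BX N) (wZ P (bn T u t)) q χ‖ ≤
      wt T t * (2 * (Gq (nrm P) u + Tl N u)) := by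
  sorry

/-- HG7: square sum of the coefficients -/
theorem hg_sq (P : ZI) (N : ℕ) (b : ℕ → ℂ) :
    ∑ a ∈ BX N, ‖wZ P b a‖ ^ 2 ≤ 4 * ∑ n ∈ Finset.Icc 1 N, lamK2 n * ‖b n‖ ^ 2 := by
  sorry

end H385
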